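import Mathlib
import Pool.Agent.Helper509.Polar

/-!
# From circle averages to area averages
-/

set_option autoImplicit false

open MeasureTheory Set Filter Topology Metric
open scoped ContDiff ENNReal

namespace Pool.Agent.J4.H68.LV

lemma integral_ball_real (u : ℂ → ℝ) (hm : Measurable u) (a : ℂ) (s : ℝ)
    (hi : IntegrableOn u (ball a s)) :
    ∫ z in ball a s, u z = ∫ r in Ioo 0 s, r * (2 * Real.pi * Real.circleAverage u a r) := by
  have h1 := Helper509.Polar.integral_ball (fun z => (u z : ℂ)) (Complex.measurable_ofReal.comp hm) a s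
    hi.ofReal
  have h2 : ∀ r, Real.circleAverage (fun z => (u z : ℂ)) a r = ((Real.circleAverage u a r : ℝ) : ℂ) := by
    intro r
    rw [Real.circleAverage_def, Real.circleAverage_def, intervalIntegral.integral_ofReal]
    simp
  have h3 : ∫ z in ball a s, (u z : ℂ) = ((∫ z in ball a s, u z : ℝ) : ℂ) := integral_ofReal
  rw [h3] at h1
  have h4 : (∫ r in Ioo 0 s, (r : ℝ) • ((2 * Real.pi) • Real.circleAverage (fun z => (u z : ℂ)) a r)) =
      ((∫ r in Ioo 0 s, r * (2 * Real.pi * Real.circleAverage u a r) : ℝ) : ℂ) := by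
    refine Eq.trans ?_ (integral_ofReal (𝕜 := ℂ))
    congr 1
    funext r
    rw [h2]
    simp
  rw [h4] at h1
  exact_mod_cast h1

/-- the circle sub-mean inequality on all circles implies the area sub-mean inequality -/
lemma area_of_circle {u : ℂ → ℝ} (hm : Measurable u) {a : ℂ} {s : ℝ} (hs : 0 < s) {B : ℝ}
    (hB : ∀ z ∈ ball a s, |u z| ≤ B)
    (h : ∀ r, 0 < r → r < s → u a ≤ Real.circleAverage u a r) :
    (volume (ball a s)).toReal * u a ≤ ∫ z in ball a s, u z := by
  have hi : IntegrableOn u (ball a s) := by
    refine Measure.integrableOn_of_bounded (M := B) measure_ball_lt_top.ne hm.aestronglyMeasurable ?_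
    exact (ae_restrict_iff' measurableSet_ball).2 (Eventually.of_forall fun z hz => by
      simpa [Real.norm_eq_abs] using hB z hz)
  rw [integral_ball_real u hm a s hi]
  have hV : (volume (ball a s)).toReal = Real.pi * s ^ 2 := by
    rw [Complex.volume_ball]
    simp only [ENNReal.toReal_mul, ENNReal.toReal_pow, ENNReal.toReal_ofReal hs.le]
    rw [mul_comm]; rfl
  have hcm : Measurable fun r : ℝ => Real.circleAverage u a r := by
    have h1 : (fun r : ℝ => Real.circleAverage u a r) = fun r =>
        (2 * Real.pi)⁻¹ * ∫ θ in Ioc 0 (2 * Real.pi), u (circleMap a r θ) := by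
      funext r
      rw [Real.circleAverage_def, intervalIntegral.integral_of_le Real.two_pi_pos.le, smul_eq_mul]
    rw [h1]
    apply Measurable.const_mul
    have h2 : StronglyMeasurable (fun p : ℝ × ℝ => u (circleMap a p.1 p.2)) := by
      apply Measurable.stronglyMeasurable
      apply hm.comp
      have : Continuous (fun p : ℝ × ℝ => circleMap a p.1 p.2) := by
        unfold circleMap; fun_prop
      exact this.measurable
    exact (h2.integral_prod_right').measurable
  have hbd : ∀ r ∈ Ioo 0 s, |Real.circleAverage u a r| ≤ B := by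
    intro r hr
    rw [Real.circleAverage_def, smul_eq_mul, abs_mul, abs_of_pos (by positivity : 0 < (2 * Real.pi)⁻¹)]
    have h1 : ‖∫ θ in (0 : ℝ)..2 * Real.pi, u (circleMap a r θ)‖ ≤ B * |2 * Real.pi - 0| := by
      apply intervalIntegral.norm_integral_le_of_norm_le_const
      intro θ _
      rw [Real.norm_eq_abs]
      apply hB
      rw [mem_ball, dist_eq_norm]
      simpa [circleMap, abs_of_pos hr.1] using hr.2
    rw [sub_zero, abs_of_pos Real.two_pi_pos, Real.norm_eq_abs] at h1
    calc (2 * Real.pi)⁻¹ * |∫ θ in (0 : ℝ)..2 * Real.pi, u (circleMap a r θ)| ≤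
          (2 * Real.pi)⁻¹ * (B * (2 * Real.pi)) :=
          mul_le_mul_of_nonneg_left h1 (by positivity)
      _ = B := by field_simp
  have hint1 : IntegrableOn (fun r : ℝ => r * (2 * Real.pi * Real.circleAverage u a r)) (Ioo 0 s) := by
    refine Measure.integrableOn_of_bounded (M := s * (2 * Real.pi * B)) (by simp) ?_ ?_
    · exact (measurable_id.mul (hcm.const_mul _)).aestronglyMeasurable
    · refine (ae_restrict_iff' measurableSet_Ioo).2 (Eventually.of_forall fun r hr => ?_)
      rw [Real.norm_eq_abs, abs_mul, abs_mul, abs_of_pos hr.1, abs_of_pos Real.two_pi_pos]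
      have := hbd r hr
      gcongr
      exact hr.2.le
  have hint2 : IntegrableOn (fun r : ℝ => r * (2 * Real.pi * u a)) (Ioo 0 s) :=
    ((continuous_id.mul continuous_const).integrableOn_Icc).mono_set Ioo_subset_Icc_self
  have h3 : ∫ r in Ioo 0 s, r * (2 * Real.pi * u a) ≤
      ∫ r in Ioo 0 s, r * (2 * Real.pi * Real.circleAverage u a r) := by
    refine setIntegral_mono_on hint2 hint1 measurableSet_Ioo fun r hr => ?_
    have := h r hr.1 hr.2
    have hpi := Real.two_pi_pos
    have := mul_le_mul_of_nonneg_left this hpi.le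
    exact mul_le_mul_of_nonneg_left this hr.1.le
  refine le_trans (le_of_eq ?_) h3
  rw [integral_mul_const, ← integral_Ioc_eq_integral_Ioo, ← intervalIntegral.integral_of_le hs.le,
    integral_id, hV]
  ring

end Pool.Agent.J4.H68.LV
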