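import Mathlib

/-!
# Rearrangement on the discrete circle

`n = 2 N + 1`; the circle is represented by the window `[-N, N]`.  The spiral order of the window is
`0, 1, -1, 2, -2, ...`, given by the key `|4 x - 1|`.
-/

set_option autoImplicit false

open Finset

namespace Pool.Agent.J4.H68.LV

/-- Abel's inequality: antitone nonnegative weights. -/
lemma abel {n : ℕ} {c x y : ℕ → ℝ} (hc : ∀ i, i + 1 < n → c (i + 1) ≤ c i)
    (hc0 : ∀ i < n, 0 ≤ c i)
    (h : ∀ k ≤ n, ∑ i ∈ range k, x i ≤ ∑ i ∈ range k, y i) :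
    ∑ i ∈ range n, c i * x i ≤ ∑ i ∈ range n, c i * y i := by
  have key : ∀ k, k + 1 ≤ n → c k * ∑ i ∈ range (k + 1), (y i - x i) ≤
      ∑ i ∈ range (k + 1), c i * (y i - x i) := by
    intro k
    induction k with
    | zero => intro _; simp
    | succ k ih =>
      intro hk
      have h1 := ih (by omega)
      rw [sum_range_succ, sum_range_succ (fun i => c i * (y i - x i)), mul_add]
      have h2 : 0 ≤ ∑ i ∈ range (k + 1), (y i - x i) := by
        rw [sum_sub_distrib]; linarith [h (k + 1) (by omega)]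
      have h3 := hc k (by omega)
      nlinarith [mul_le_mul_of_nonneg_right h3 h2]
  rcases Nat.eq_zero_or_pos n with rfl | hn
  · simp
  · obtain ⟨k, rfl⟩ : ∃ k, n = k + 1 := ⟨n - 1, by omega⟩
    have h1 := key k le_rfl
    have h2 : 0 ≤ ∑ i ∈ range (k + 1), (y i - x i) := by
      rw [sum_sub_distrib]; linarith [h (k + 1) le_rfl]
    have h3 : 0 ≤ c k * ∑ i ∈ range (k + 1), (y i - x i) := mul_nonneg (hc0 k (by omega)) h2
    have h4 : ∑ i ∈ range (k + 1), c i * (y i - x i) =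
        ∑ i ∈ range (k + 1), c i * y i - ∑ i ∈ range (k + 1), c i * x i := by
      rw [← sum_sub_distrib]
      exact sum_congr rfl fun i _ => by ring
    linarith

/-- two point inequality -/
lemma tp {a a' b b' P Q : ℝ} (h : Q ≤ P) :
    (a * b + a' * b') * P + (a' * b + a * b') * Q ≤
      (max a a' * max b b' + min a a' * min b b') * P +
        (min a a' * max b b' + max a a' * min b b') * Q := by
  rcases le_total a a' with h1 | h1 <;> rcases le_total b b' with h2 | h2 <;>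
    simp only [max_eq_left, max_eq_right, min_eq_left, min_eq_right, h1, h2] <;>
    nlinarith [mul_nonneg (sub_nonneg.2 h1) (sub_nonneg.2 h2),
      mul_nonneg (mul_nonneg (sub_nonneg.2 h1) (sub_nonneg.2 h2)) (sub_nonneg.2 h)]

/-- the window -/
noncomputable def W (N : ℕ) : Finset ℤ := Icc (-(N : ℤ)) N

/-- key of the spiral order -/
def key (x : ℤ) : ℕ := (4 * x - 1).natAbs

/-- distance from zero on the circle -/
def cd (N : ℕ) (x : ℤ) : ℕ := min x.natAbs (2 * N + 1 - x.natAbs)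

/-- reflection `x ↦ c - x` -/
def rf (N : ℕ) (c x : ℤ) : ℤ :=
  if (N : ℤ) < c - x then c - x - (2 * N + 1) else if c - x < -(N : ℤ) then c - x + (2 * N + 1)
    else c - x

lemma rf_mem {N : ℕ} {c x : ℤ} (hc : -(2 * N : ℤ) ≤ c ∧ c ≤ 2 * N) (hx : x ∈ W N) :
    rf N c x ∈ W N := by
  simp only [W, mem_Icc, rf] at *
  split_ifs <;> omega

lemma rf_rf {N : ℕ} {c x : ℤ} (hc : -(2 * N : ℤ) ≤ c ∧ c ≤ 2 * N) (hx : x ∈ W N) :
    rf N c (rf N c x) = x := by
  simp only [W, mem_Icc, rf] at *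
  split_ifs <;> omega

lemma cd_rf_rf {N : ℕ} {c x y : ℤ} (hc : -(2 * N : ℤ) ≤ c ∧ c ≤ 2 * N) (hx : x ∈ W N)
    (hy : y ∈ W N) : cd N (rf N c x - rf N c y) = cd N (x - y) := by
  simp only [W, mem_Icc, rf, cd] at *
  split_ifs <;> omega

lemma cd_rf_left {N : ℕ} {c x y : ℤ} (hc : -(2 * N : ℤ) ≤ c ∧ c ≤ 2 * N) (hx : x ∈ W N)
    (hy : y ∈ W N) : cd N (rf N c x - y) = cd N (x - rf N c y) := by
  simp only [W, mem_Icc, rf, cd] at *
  split_ifs <;> omega

lemma cd_mono {N : ℕ} {c x y : ℤ} (hc : -(2 * N : ℤ) ≤ c ∧ c ≤ 2 * N) (hx : x ∈ W N)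
    (hy : y ∈ W N) (h1 : key x ≤ key (rf N c x)) (h2 : key y ≤ key (rf N c y)) :
    cd N (x - y) ≤ cd N (x - rf N c y) := by
  simp only [W, mem_Icc, rf, cd, key] at *
  split_ifs at * <;> omega

lemma cd_le {N : ℕ} (x : ℤ) : cd N x ≤ N := by
  simp only [cd] at *
  omega

lemma key_inj {x y : ℤ} (h : key x = key y) : x = y := by
  simp only [key] at *
  omega

end Pool.Agent.J4.H68.LV
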