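import Pool.Agent.J4.H68.LV.D1

/-!
# The Riesz rearrangement inequality on the discrete circle, by polarization
-/

set_option autoImplicit false

open Finset

namespace Pool.Agent.J4.H68.LV

/-- polarization of a function -/
noncomputable def pf (N : ℕ) (c : ℤ) (f : ℤ → ℝ) (x : ℤ) : ℝ :=
  if key x < key (rf N c x) then max (f x) (f (rf N c x))
  else if key (rf N c x) < key x then min (f x) (f (rf N c x)) else f x

lemma sum_rf {N : ℕ} {c : ℤ} (hc : -(2 * N : ℤ) ≤ c ∧ c ≤ 2 * N) (F : ℤ → ℝ) :
    ∑ x ∈ W N, F (rf N c x) = ∑ x ∈ W N, F x :=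
  sum_nbij' (rf N c) (rf N c) (fun _ h => rf_mem hc h) (fun _ h => rf_mem hc h)
    (fun _ h => rf_rf hc h) (fun _ h => rf_rf hc h) (fun _ _ => rfl)

lemma pf_add {N : ℕ} {c : ℤ} (hc : -(2 * N : ℤ) ≤ c ∧ c ≤ 2 * N) (f : ℤ → ℝ) {x : ℤ}
    (hx : x ∈ W N) : pf N c f x + pf N c f (rf N c x) = f x + f (rf N c x) := by
  have h := rf_rf hc hx
  simp only [pf, h]
  rcases lt_trichotomy (key x) (key (rf N c x)) with h1 | h1 | h1
  · rw [if_pos h1, if_neg h1.le.not_gt, if_pos h1, min_comm, max_add_min]
  · rw [h1]; simp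
  · rw [if_neg h1.le.not_gt, if_pos h1, if_pos h1, max_comm, min_add_max]

/-- the bilinear form -/
noncomputable def Sf (N : ℕ) (k : ℕ → ℝ) (f g : ℤ → ℝ) : ℝ :=
  ∑ x ∈ W N, ∑ y ∈ W N, f x * g y * k (cd N (x - y))

lemma four_Sf {N : ℕ} {c : ℤ} (hc : -(2 * N : ℤ) ≤ c ∧ c ≤ 2 * N) (k : ℕ → ℝ) (f g : ℤ → ℝ) :
    4 * Sf N k f g = ∑ x ∈ W N, ∑ y ∈ W N,
      ((f x * g y + f (rf N c x) * g (rf N c y)) * k (cd N (x - y)) +
        (f (rf N c x) * g y + f x * g (rf N c y)) * k (cd N (x - rf N c y))) := by
  set G : ℤ → ℤ → ℝ := fun x y => f x * g y * k (cd N (x - y)) with hG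
  have h0 : Sf N k f g = ∑ x ∈ W N, ∑ y ∈ W N, G x y := rfl
  have h1 : ∑ x ∈ W N, ∑ y ∈ W N, G (rf N c x) y = Sf N k f g := by
    rw [h0]; exact sum_rf hc fun x => ∑ y ∈ W N, G x y
  have h2 : ∑ x ∈ W N, ∑ y ∈ W N, G x (rf N c y) = Sf N k f g := by
    rw [h0]; exact sum_congr rfl fun x _ => sum_rf hc fun y => G x y
  have h3 : ∑ x ∈ W N, ∑ y ∈ W N, G (rf N c x) (rf N c y) = Sf N k f g := by
    rw [← h2]; exact sum_rf hc fun x => ∑ y ∈ W N, G x (rf N c y)
  have h4 : 4 * Sf N k f g = ∑ x ∈ W N, ∑ y ∈ W N,
      ((G x y + G (rf N c x) (rf N c y)) + (G (rf N c x) y + G x (rf N c y))) := by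
    simp only [sum_add_distrib]
    rw [h1, h2, h3, ← h0]; ring
  rw [h4]
  refine sum_congr rfl fun x hx => sum_congr rfl fun y hy => ?_
  simp only [hG]
  rw [cd_rf_rf hc hx hy, cd_rf_left hc hx hy]
  ring

lemma kmono {N : ℕ} {k : ℕ → ℝ} (hk : ∀ i < N, k (i + 1) ≤ k i) {i j : ℕ} (hij : i ≤ j)
    (hj : j ≤ N) : k j ≤ k i := by
  induction j, hij using Nat.le_induction with
  | base => exact le_rfl
  | succ j _ ih => exact (hk j (by omega)).trans (ih (by omega))

/-- polarization increases the form -/
lemma Sf_pf {N : ℕ} {c : ℤ} (hc : -(2 * N : ℤ) ≤ c ∧ c ≤ 2 * N) {k : ℕ → ℝ}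
    (hk : ∀ i < N, k (i + 1) ≤ k i) (f g : ℤ → ℝ) :
    Sf N k f g ≤ Sf N k (pf N c f) (pf N c g) := by
  have key2 : 4 * Sf N k f g ≤ 4 * Sf N k (pf N c f) (pf N c g) := by
    rw [four_Sf hc, four_Sf hc]
    refine sum_le_sum fun x hx => sum_le_sum fun y hy => ?_
    have hxx := rf_rf hc hx
    have hyy := rf_rf hc hy
    have hx' := rf_mem hc hx
    have hy' := rf_mem hc hy
    -- comparison of the kernel values
    have k1 : key x ≤ key (rf N c x) → key y ≤ key (rf N c y) →
        k (cd N (x - rf N c y)) ≤ k (cd N (x - y)) := fun h1 h2 =>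
      kmono hk (cd_mono hc hx hy h1 h2) (cd_le _)
    have k2 : key (rf N c x) ≤ key x → key (rf N c y) ≤ key y →
        k (cd N (x - rf N c y)) ≤ k (cd N (x - y)) := fun h1 h2 => by
      have := cd_mono hc hx' hy' (by rwa [hxx]) (by rwa [hyy])
      rw [hyy, cd_rf_rf hc hx hy, cd_rf_left hc hx hy] at this
      exact kmono hk this (cd_le _)
    have k3 : key x ≤ key (rf N c x) → key (rf N c y) ≤ key y →
        k (cd N (x - y)) ≤ k (cd N (x - rf N c y)) := fun h1 h2 => by
      have := cd_mono hc hx hy' h1 (by rwa [hyy])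
      rw [hyy] at this
      exact kmono hk this (cd_le _)
    have k4 : key (rf N c x) ≤ key x → key y ≤ key (rf N c y) →
        k (cd N (x - y)) ≤ k (cd N (x - rf N c y)) := fun h1 h2 => by
      have := cd_mono hc hx' hy (by rwa [hxx]) h2
      rw [cd_rf_rf hc hx hy, cd_rf_left hc hx hy] at this
      exact kmono hk this (cd_le _)
    have px : pf N c f x = if key x < key (rf N c x) then max (f x) (f (rf N c x))
      else if key (rf N c x) < key x then min (f x) (f (rf N c x)) else f x := rfl
    have px' : pf N c f (rf N c x) = if key (rf N c x) < key x then max (f (rf N c x)) (f x)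
      else if key x < key (rf N c x) then min (f (rf N c x)) (f x) else f (rf N c x) := by
      rw [pf, hxx]
    have py : pf N c g y = if key y < key (rf N c y) then max (g y) (g (rf N c y))
      else if key (rf N c y) < key y then min (g y) (g (rf N c y)) else g y := rfl
    have py' : pf N c g (rf N c y) = if key (rf N c y) < key y then max (g (rf N c y)) (g y)
      else if key y < key (rf N c y) then min (g (rf N c y)) (g y) else g (rf N c y) := by
      rw [pf, hyy]
    have sx := pf_add hc f hx
    have sy := pf_add hc g hy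
    rcases lt_trichotomy (key x) (key (rf N c x)) with h1 | h1 | h1
    · rcases lt_trichotomy (key y) (key (rf N c y)) with h2 | h2 | h2
      · rw [if_pos h1] at px
        rw [if_neg h1.le.not_gt, if_pos h1, min_comm] at px'
        rw [if_pos h2] at py
        rw [if_neg h2.le.not_gt, if_pos h2, min_comm] at py'
        rw [px, px', py, py']
        exact tp (k1 h1.le h2.le)
      · have e : rf N c y = y := (key_inj h2).symm
        rw [e] at sy ⊢
        have e2 : pf N c g y = g y := by linarith
        rw [e2]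
        have : (pf N c f x + pf N c f (rf N c x)) * g y * k (cd N (x - y)) =
          (f x + f (rf N c x)) * g y * k (cd N (x - y)) := by rw [sx]
        linarith
      · rw [if_pos h1] at px
        rw [if_neg h1.le.not_gt, if_pos h1, min_comm] at px'
        rw [if_neg h2.le.not_gt, if_pos h2] at py
        rw [if_pos h2, max_comm] at py'
        rw [px, px', py, py']
        have := tp (a := f x) (a' := f (rf N c x)) (b := g (rf N c y)) (b' := g y)
          (k3 h1.le h2.le)
        rw [max_comm (g (rf N c y)), min_comm (g (rf N c y))] at this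
        linarith
    · have e : rf N c x = x := (key_inj h1).symm
      have e3 := cd_rf_left hc hx hy
      rw [e] at sx e3 ⊢
      have e2 : pf N c f x = f x := by linarith
      rw [e2, ← e3]
      have : f x * (pf N c g y + pf N c g (rf N c y)) * k (cd N (x - y)) =
          f x * (g y + g (rf N c y)) * k (cd N (x - y)) := by rw [sy]
      linarith
    · rcases lt_trichotomy (key y) (key (rf N c y)) with h2 | h2 | h2
      · rw [if_neg h1.le.not_gt, if_pos h1] at px
        rw [if_pos h1, max_comm] at px'
        rw [if_pos h2] at py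
        rw [if_neg h2.le.not_gt, if_pos h2, min_comm] at py'
        rw [px, px', py, py']
        have := tp (a := f (rf N c x)) (a' := f x) (b := g y) (b' := g (rf N c y))
          (k4 h1.le h2.le)
        rw [max_comm (f (rf N c x)), min_comm (f (rf N c x))] at this
        linarith
      · have e : rf N c y = y := (key_inj h2).symm
        rw [e] at sy ⊢
        have e2 : pf N c g y = g y := by linarith
        rw [e2]
        have : (pf N c f x + pf N c f (rf N c x)) * g y * k (cd N (x - y)) =
          (f x + f (rf N c x)) * g y * k (cd N (x - y)) := by rw [sx]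
        linarith
      · rw [if_neg h1.le.not_gt, if_pos h1] at px
        rw [if_pos h1, max_comm] at px'
        rw [if_neg h2.le.not_gt, if_pos h2] at py
        rw [if_pos h2, max_comm] at py'
        rw [px, px', py, py']
        have := tp (a := f (rf N c x)) (a' := f x) (b := g (rf N c y)) (b' := g y)
          (k2 h1.le h2.le)
        rw [max_comm (f (rf N c x)), min_comm (f (rf N c x)), max_comm (g (rf N c y)),
          min_comm (g (rf N c y))] at this
        linarith
  linarith

end Pool.Agent.J4.H68.LV
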