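import Pool.Agent.J4.H68.LV.D2

/-!
# The Riesz rearrangement inequality on the discrete circle for sets
-/

set_option autoImplicit false

open Finset

namespace Pool.Agent.J4.H68.LV

/-- indicator -/
noncomputable def ind (A : Finset ℤ) (x : ℤ) : ℝ := if x ∈ A then 1 else 0

/-- the first `j` elements of the window in the spiral order -/
noncomputable def T (N j : ℕ) : Finset ℤ := (W N).filter fun x => key x < 2 * j

/-- the spiral enumeration -/
def sp (i : ℕ) : ℤ := if i % 2 = 0 then -((i / 2 : ℕ) : ℤ) else (((i + 1) / 2 : ℕ) : ℤ)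

lemma key_sp (i : ℕ) : key (sp i) = 2 * i + 1 := by
  simp only [key, sp]; split_ifs <;> omega

lemma sp_mem {N i : ℕ} (h : i < 2 * N + 1) : sp i ∈ W N := by
  simp only [W, mem_Icc, sp]; split_ifs <;> omega

lemma sp_key (x : ℤ) : sp ((key x - 1) / 2) = x := by
  simp only [key, sp]; split_ifs <;> omega

lemma key_lt {N : ℕ} {x : ℤ} (hx : x ∈ W N) : key x < 2 * (2 * N + 1) := by
  simp only [W, mem_Icc, key] at *; omega

lemma key_odd (x : ℤ) : key x % 2 = 1 := by
  simp only [key]; omega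

lemma sp_inj : Function.Injective sp := fun i j h => by
  have h1 := key_sp i
  rw [h, key_sp] at h1
  omega

lemma T_eq {N j : ℕ} (hj : j ≤ 2 * N + 1) : T N j = (range j).image sp := by
  ext x
  simp only [T, mem_filter, mem_image, mem_range]
  constructor
  · rintro ⟨_, h⟩
    refine ⟨(key x - 1) / 2, ?_, sp_key x⟩
    have := key_odd x
    omega
  · rintro ⟨i, hi, rfl⟩
    refine ⟨sp_mem (by omega), ?_⟩
    rw [key_sp]; omega

lemma card_T {N j : ℕ} (hj : j ≤ 2 * N + 1) : (T N j).card = j := by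
  rw [T_eq hj, card_image_of_injective _ sp_inj, card_range]

lemma T_sub (N j : ℕ) : T N j ⊆ W N := filter_subset _ _

lemma card_W (N : ℕ) : (W N).card = 2 * N + 1 := by
  simp only [W, Int.card_Icc]; omega

lemma sum_T {N j : ℕ} (hj : j ≤ 2 * N + 1) (F : ℤ → ℝ) :
    ∑ x ∈ T N j, F x = ∑ i ∈ range j, F (sp i) := by
  rw [T_eq hj, sum_image fun i _ j _ h => sp_inj h]

lemma sum_ind {N : ℕ} {A : Finset ℤ} (hA : A ⊆ W N) (F : ℤ → ℝ) :
    ∑ x ∈ W N, ind A x * F x = ∑ x ∈ A, F x := by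
  simp only [ind, ite_mul, one_mul, zero_mul]
  rw [← sum_filter]
  congr 1
  ext x
  simp only [mem_filter]
  exact ⟨fun h => h.2, fun h => ⟨hA h, h⟩⟩

lemma Sf_ind {N : ℕ} (k : ℕ → ℝ) {A B : Finset ℤ} (hA : A ⊆ W N) (hB : B ⊆ W N) :
    Sf N k (ind A) (ind B) = ∑ a ∈ A, ∑ b ∈ B, k (cd N (a - b)) := by
  rw [Sf, ← sum_ind hA]
  refine sum_congr rfl fun x _ => ?_
  rw [← sum_ind hB, mul_sum]
  exact sum_congr rfl fun y _ => by ring

/-- polarization of a set -/
noncomputable def pol (N : ℕ) (c : ℤ) (A : Finset ℤ) : Finset ℤ :=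
  (W N).filter fun x => pf N c (ind A) x ≠ 0

lemma pf_ind_val (N : ℕ) (c : ℤ) (A : Finset ℤ) (x : ℤ) :
    pf N c (ind A) x = 0 ∨ pf N c (ind A) x = 1 := by
  simp only [pf, ind]
  split_ifs <;> simp

lemma pol_ind {N : ℕ} {c : ℤ} (A : Finset ℤ) {x : ℤ} (hx : x ∈ W N) :
    ind (pol N c A) x = pf N c (ind A) x := by
  rcases pf_ind_val N c A x with h | h
  · rw [h, ind, if_neg]; simp [pol, h]
  · rw [h, ind, if_pos]; simp [pol, h, hx]

lemma pol_sub (N : ℕ) (c : ℤ) (A : Finset ℤ) : pol N c A ⊆ W N := filter_subset _ _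

lemma Sf_congr {N : ℕ} (k : ℕ → ℝ) {f f' g g' : ℤ → ℝ} (hf : ∀ x ∈ W N, f x = f' x)
    (hg : ∀ x ∈ W N, g x = g' x) : Sf N k f g = Sf N k f' g' :=
  sum_congr rfl fun x hx => sum_congr rfl fun y hy => by rw [hf x hx, hg y hy]

lemma Sf_pol {N : ℕ} {c : ℤ} (hc : -(2 * N : ℤ) ≤ c ∧ c ≤ 2 * N) {k : ℕ → ℝ}
    (hk : ∀ i < N, k (i + 1) ≤ k i) (A B : Finset ℤ) :
    Sf N k (ind A) (ind B) ≤ Sf N k (ind (pol N c A)) (ind (pol N c B)) := by
  rw [Sf_congr k (fun x hx => pol_ind A hx) (fun x hx => pol_ind B hx)]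
  exact Sf_pf hc hk _ _

lemma two_sum {N : ℕ} {c : ℤ} (hc : -(2 * N : ℤ) ≤ c ∧ c ≤ 2 * N) (F : ℤ → ℝ) :
    2 * ∑ x ∈ W N, F x = ∑ x ∈ W N, (F x + F (rf N c x)) := by
  rw [sum_add_distrib, sum_rf hc]; ring

lemma card_pol {N : ℕ} {c : ℤ} (hc : -(2 * N : ℤ) ≤ c ∧ c ≤ 2 * N) {A : Finset ℤ}
    (hA : A ⊆ W N) : (pol N c A).card = A.card := by
  have h1 : ∀ {B : Finset ℤ}, B ⊆ W N → (B.card : ℝ) = ∑ x ∈ W N, ind B x := by
    intro B hB
    have := sum_ind hB fun _ => (1 : ℝ)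
    simp only [mul_one, sum_const, nsmul_eq_mul] at this
    exact this.symm
  have h2 : ((pol N c A).card : ℝ) = A.card := by
    rw [h1 (pol_sub N c A), h1 hA]
    have h3 : 2 * ∑ x ∈ W N, ind (pol N c A) x = 2 * ∑ x ∈ W N, ind A x := by
      rw [two_sum hc, two_sum hc]
      refine sum_congr rfl fun x hx => ?_
      rw [pol_ind A hx, pol_ind A (rf_mem hc hx)]
      exact pf_add hc _ hx
    linarith
  exact_mod_cast h2

lemma key_term {N : ℕ} {c : ℤ} (hc : -(2 * N : ℤ) ≤ c ∧ c ≤ 2 * N) (f : ℤ → ℝ)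
    {x : ℤ} (hx : x ∈ W N) :
    pf N c f x * key x + pf N c f (rf N c x) * key (rf N c x) ≤
      f x * key x + f (rf N c x) * key (rf N c x) := by
  have h := rf_rf hc hx
  rcases lt_trichotomy (key x) (key (rf N c x)) with h1 | h1 | h1
  · have e1 : pf N c f x = max (f x) (f (rf N c x)) := by rw [pf, if_pos h1]
    have e2 : pf N c f (rf N c x) = min (f (rf N c x)) (f x) := by
      rw [pf, h, if_neg h1.le.not_gt, if_pos h1]
    have h1' : (key x : ℝ) < key (rf N c x) := by exact_mod_cast h1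
    rw [e1, e2]
    rcases le_total (f x) (f (rf N c x)) with h2 | h2
    · rw [max_eq_right h2, min_eq_right h2]
      nlinarith [mul_nonneg (sub_nonneg.2 h2) (sub_nonneg.2 h1'.le)]
    · rw [max_eq_left h2, min_eq_left h2]
  · have e := pf_add hc f hx
    rw [← h1]
    nlinarith
  · have e1 : pf N c f x = min (f x) (f (rf N c x)) := by
      rw [pf, if_neg h1.le.not_gt, if_pos h1]
    have e2 : pf N c f (rf N c x) = max (f (rf N c x)) (f x) := by
      rw [pf, h, if_pos h1]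
    have h1' : (key (rf N c x) : ℝ) < key x := by exact_mod_cast h1
    rw [e1, e2]
    rcases le_total (f x) (f (rf N c x)) with h2 | h2
    · rw [min_eq_left h2, max_eq_left h2]
    · rw [min_eq_right h2, max_eq_right h2]
      nlinarith [mul_nonneg (sub_nonneg.2 h2) (sub_nonneg.2 h1'.le)]

lemma ksum_real {N : ℕ} {A : Finset ℤ} (hA : A ⊆ W N) :
    ((∑ x ∈ A, key x : ℕ) : ℝ) = ∑ x ∈ W N, ind A x * key x := by
  rw [sum_ind hA]; push_cast; rfl

lemma ksum_le {N : ℕ} {c : ℤ} (hc : -(2 * N : ℤ) ≤ c ∧ c ≤ 2 * N) {A : Finset ℤ}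
    (hA : A ⊆ W N) : ∑ x ∈ pol N c A, key x ≤ ∑ x ∈ A, key x := by
  have h : ((∑ x ∈ pol N c A, key x : ℕ) : ℝ) ≤ ((∑ x ∈ A, key x : ℕ) : ℝ) := by
    rw [ksum_real (pol_sub N c A), ksum_real hA]
    have h3 : 2 * ∑ x ∈ W N, ind (pol N c A) x * key x ≤ 2 * ∑ x ∈ W N, ind A x * key x := by
      rw [two_sum hc, two_sum hc]
      refine sum_le_sum fun x hx => ?_
      rw [pol_ind A hx, pol_ind A (rf_mem hc hx)]
      exact key_term hc _ hx
    linarith
  exact_mod_cast h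

lemma ksum_lt {N : ℕ} {a b : ℤ} (ha : a ∈ W N) (hb : b ∈ W N) {A : Finset ℤ}
    (hA : A ⊆ W N) (haA : a ∈ A) (hbA : b ∉ A) (hk : key b < key a) :
    ∑ x ∈ pol N (a + b) A, key x < ∑ x ∈ A, key x := by
  have hc : -(2 * N : ℤ) ≤ a + b ∧ a + b ≤ 2 * N := by
    simp only [W, mem_Icc] at ha hb; omega
  have hab : rf N (a + b) a = b := by
    simp only [W, mem_Icc, rf] at *; split_ifs <;> omega
  have h : ((∑ x ∈ pol N (a + b) A, key x : ℕ) : ℝ) < ((∑ x ∈ A, key x : ℕ) : ℝ) := by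
    rw [ksum_real (pol_sub N (a + b) A), ksum_real hA]
    have h3 : 2 * ∑ x ∈ W N, ind (pol N (a + b) A) x * key x <
        2 * ∑ x ∈ W N, ind A x * key x := by
      rw [two_sum hc, two_sum hc]
      refine sum_lt_sum (fun x hx => ?_) ⟨a, ha, ?_⟩
      · rw [pol_ind A hx, pol_ind A (rf_mem hc hx)]
        exact key_term hc _ hx
      · have hba : rf N (a + b) b = a := by
          have := rf_rf hc ha
          rwa [hab] at this
        rw [hab, pol_ind A ha, pol_ind A hb]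
        have e1 : pf N (a + b) (ind A) a = 0 := by
          rw [pf, hab, if_neg hk.le.not_gt, if_pos hk]
          simp [ind, hbA, haA]
        have e2 : pf N (a + b) (ind A) b = 1 := by
          rw [pf, hba, if_pos hk]
          simp [ind, hbA, haA]
        have e3 : ind A a = 1 := by simp [ind, haA]
        have e4 : ind A b = 0 := by simp [ind, hbA]
        rw [e1, e2, e3, e4]
        have : (key b : ℝ) < key a := by exact_mod_cast hk
        linarith
    linarith
  exact_mod_cast h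

lemma swap_pair {N : ℕ} {A : Finset ℤ} (hA : A ⊆ W N) (h : A ≠ T N A.card) :
    ∃ a ∈ W N, ∃ b ∈ W N, a ∈ A ∧ b ∉ A ∧ key b < key a := by
  have hcard : A.card ≤ 2 * N + 1 := by rw [← card_W]; exact card_le_card hA
  have h1 : ¬ A ⊆ T N A.card := fun hs =>
    h (eq_of_subset_of_card_le hs (by rw [card_T hcard]))
  have h2 : ¬ T N A.card ⊆ A := fun hs =>
    h (eq_of_subset_of_card_le hs (by rw [card_T hcard])).symm
  obtain ⟨a, haA, haT⟩ := not_subset.1 h1
  obtain ⟨b, hbT, hbA⟩ := not_subset.1 h2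
  refine ⟨a, hA haA, b, T_sub _ _ hbT, haA, hbA, ?_⟩
  simp only [T, mem_filter, not_and, not_lt] at haT hbT
  have := haT (hA haA)
  omega

/-- **Riesz rearrangement inequality on the discrete circle** -/
theorem riesz {N : ℕ} {k : ℕ → ℝ} (hk : ∀ i < N, k (i + 1) ≤ k i) {A B : Finset ℤ}
    (hA : A ⊆ W N) (hB : B ⊆ W N) :
    ∑ a ∈ A, ∑ b ∈ B, k (cd N (a - b)) ≤
      ∑ a ∈ T N A.card, ∑ b ∈ T N B.card, k (cd N (a - b)) := by
  rw [← Sf_ind k hA hB, ← Sf_ind k (T_sub _ _) (T_sub _ _)]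
  induction hn : ∑ x ∈ A, key x + ∑ x ∈ B, key x using Nat.strong_induction_on
    generalizing A B with
  | _ n ih =>
    by_cases h1 : A = T N A.card
    · by_cases h2 : B = T N B.card
      · rw [← h1, ← h2]
      · obtain ⟨a, ha, b, hb, haB, hbB, hkey⟩ := swap_pair hB h2
        have hc : -(2 * N : ℤ) ≤ a + b ∧ a + b ≤ 2 * N := by
          simp only [W, mem_Icc] at ha hb; omega
        have h3 := ksum_lt ha hb hB haB hbB hkey
        have h4 := ksum_le hc hA
        have h5 := ih _ (by omega) (pol_sub N (a + b) A) (pol_sub N (a + b) B) rfl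
        rw [card_pol hc hA, card_pol hc hB] at h5
        exact (Sf_pol hc hk A B).trans h5
    · obtain ⟨a, ha, b, hb, haA, hbA, hkey⟩ := swap_pair hA h1
      have hc : -(2 * N : ℤ) ≤ a + b ∧ a + b ≤ 2 * N := by
        simp only [W, mem_Icc] at ha hb; omega
      have h3 := ksum_lt ha hb hA haA hbA hkey
      have h4 := ksum_le hc hB
      have h5 := ih _ (by omega) (pol_sub N (a + b) A) (pol_sub N (a + b) B) rfl
      rw [card_pol hc hA, card_pol hc hB] at h5
      exact (Sf_pol hc hk A B).trans h5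

end Pool.Agent.J4.H68.LV
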