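import Pool.Agent.J4.H68.LV.D2b

/-!
# The Riesz rearrangement inequality on the discrete circle for functions
-/

set_option autoImplicit false

open Finset

namespace Pool.Agent.J4.H68.LV

/-- an enumeration of the window by decreasing values of a function -/
lemma exists_sorted (N : ℕ) (c : ℤ → ℝ) : ∃ e : ℕ → ℤ,
    (∀ i < 2 * N + 1, ∀ j < 2 * N + 1, e i = e j → i = j) ∧
    (∀ i < 2 * N + 1, e i ∈ W N) ∧ (∀ i, i + 1 < 2 * N + 1 → c (e (i + 1)) ≤ c (e i)) := by
  classical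
  set n := 2 * N + 1 with hn
  set f : Fin n → ℝ := fun i => -c (sp i) with hf
  set σ := Tuple.sort f with hσ
  have hm : Monotone (f ∘ σ) := Tuple.monotone_sort f
  refine ⟨fun i => if h : i < n then sp (σ ⟨i, h⟩) else 0, ?_, ?_, ?_⟩
  · intro i hi j hj h
    simp only [dif_pos hi, dif_pos hj] at h
    have h1 := sp_inj h
    have h2 : σ ⟨i, hi⟩ = σ ⟨j, hj⟩ := Fin.ext h1
    have h3 := σ.injective h2
    exact congrArg Fin.val h3
  · intro i hi
    simp only [dif_pos hi]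
    exact sp_mem (σ ⟨i, hi⟩).2
  · intro i hi
    simp only [dif_pos hi, dif_pos (show i < n by omega)]
    have := hm (show (⟨i, by omega⟩ : Fin n) ≤ ⟨i + 1, hi⟩ from Nat.le_succ i)
    simp only [hf, Function.comp_apply] at this
    linarith

theorem riesz_fun {N : ℕ} {k : ℕ → ℝ} (hk : ∀ i < N, k (i + 1) ≤ k i) (hk0 : ∀ i ≤ N, 0 ≤ k i)
    {w : ℕ → ℝ} (hw : ∀ i, i + 1 < 2 * N + 1 → w (i + 1) ≤ w i)
    (hw0 : ∀ i < 2 * N + 1, 0 ≤ w i) {g v : ℤ → ℝ}
    (hg : ∀ B ⊆ W N, ∑ y ∈ B, g y ≤ ∑ i ∈ range B.card, w i)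
    (hv : ∀ i < 2 * N + 1, v (sp i) = w i) {A : Finset ℤ} (hA : A ⊆ W N) :
    ∑ a ∈ A, ∑ y ∈ W N, k (cd N (a - y)) * g y ≤
      ∑ a ∈ T N A.card, ∑ y ∈ W N, k (cd N (a - y)) * v y := by
  classical
  set c : ℤ → ℝ := fun y => ∑ a ∈ A, k (cd N (a - y)) with hc
  set c' : ℤ → ℝ := fun y => ∑ a ∈ T N A.card, k (cd N (a - y)) with hc'
  have hc0 : ∀ y, 0 ≤ c y := fun y => sum_nonneg fun a _ => hk0 _ (cd_le _)
  obtain ⟨e, he1, he2, he3⟩ := exists_sorted N c
  have hinj : ∀ j ≤ 2 * N + 1, Set.InjOn e (range j) := by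
    intro j hj x hx y hy h
    simp only [coe_range, Set.mem_Iio] at hx hy
    exact he1 x (by omega) y (by omega) h
  have hcard : ∀ j ≤ 2 * N + 1, ((range j).image e).card = j := by
    intro j hj
    rw [card_image_of_injOn (hinj j hj), card_range]
  have hsub : ∀ j ≤ 2 * N + 1, (range j).image e ⊆ W N := by
    intro j hj x hx
    obtain ⟨i, hi, rfl⟩ := mem_image.1 hx
    exact he2 i (by rw [mem_range] at hi; omega)
  have hW : (range (2 * N + 1)).image e = W N :=
    eq_of_subset_of_card_le (hsub _ le_rfl) (by rw [hcard _ le_rfl, card_W])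
  have hsum : ∀ F : ℤ → ℝ, ∑ y ∈ W N, F y = ∑ i ∈ range (2 * N + 1), F (e i) := by
    intro F
    rw [← hW, sum_image (hinj _ le_rfl)]
  have hT : T N (2 * N + 1) = W N :=
    eq_of_subset_of_card_le (T_sub _ _) (by rw [card_T le_rfl, card_W])
  have hsumT : ∀ F : ℤ → ℝ, ∑ y ∈ W N, F y = ∑ i ∈ range (2 * N + 1), F (sp i) := by
    intro F
    rw [← sum_T le_rfl F, hT]
  have h1 : ∑ a ∈ A, ∑ y ∈ W N, k (cd N (a - y)) * g y = ∑ y ∈ W N, c y * g y := by
    rw [sum_comm]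
    exact sum_congr rfl fun y _ => by rw [hc, sum_mul]
  have h2 : ∑ a ∈ T N A.card, ∑ y ∈ W N, k (cd N (a - y)) * v y = ∑ y ∈ W N, c' y * v y := by
    rw [sum_comm]
    exact sum_congr rfl fun y _ => by rw [hc', sum_mul]
  rw [h1, h2, hsum, hsumT]
  calc ∑ i ∈ range (2 * N + 1), c (e i) * g (e i)
      ≤ ∑ i ∈ range (2 * N + 1), c (e i) * w i := by
        refine abel he3 (fun i _ => hc0 _) fun j hj => ?_
        have := hg _ (hsub j hj)
        rwa [hcard j hj, sum_image (hinj j hj)] at this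
    _ = ∑ i ∈ range (2 * N + 1), w i * c (e i) := sum_congr rfl fun i _ => mul_comm _ _
    _ ≤ ∑ i ∈ range (2 * N + 1), w i * c' (sp i) := by
        refine abel hw hw0 fun j hj => ?_
        have h3 := riesz hk hA (hsub j hj)
        rw [hcard j hj] at h3
        rw [← sum_T hj c', ← sum_image (f := c) (hinj j hj)]
        simp only [hc, hc']
        rw [sum_comm, sum_comm (s := T N j)]
        exact h3
    _ = ∑ i ∈ range (2 * N + 1), c' (sp i) * v (sp i) := by
        refine sum_congr rfl fun i hi => ?_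
        rw [hv i (mem_range.1 hi), mul_comm]

end Pool.Agent.J4.H68.LV
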