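import Pool.Agent.J4.H68.LV.D2c

/-!
# Folding a window of the line onto the circle

A function on `ℤ` all of whose window sums obey a concave bound is increased on one window, by the
greedy algorithm from one of the two ends, so that on the circle every arc sum dominates the
corresponding sum on the line.
-/

set_option autoImplicit false

open Finset

namespace Pool.Agent.J4.H68.LV

/-- the primitive of `w` -/
noncomputable def PF (w : ℕ → ℝ) (b : ℕ) : ℝ := ∑ i ∈ range b, w i

lemma wmono {n : ℕ} {w : ℕ → ℝ} (hw : ∀ i, i + 1 < n → w (i + 1) ≤ w i) {i j : ℕ}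
    (hij : i ≤ j) (hj : j < n) : w j ≤ w i := by
  induction j, hij using Nat.le_induction with
  | base => exact le_rfl
  | succ j _ ih => exact (hw j hj).trans (ih (by omega))

lemma PF_submod {n : ℕ} {w : ℕ → ℝ} (hw : ∀ i, i + 1 < n → w (i + 1) ≤ w i) {B C : Finset ℤ}
    (h : (B ∪ C).card ≤ n) :
    PF w (B ∪ C).card + PF w (B ∩ C).card ≤ PF w B.card + PF w C.card := by
  have h1 := card_union_add_card_inter B C
  have h2 : (B ∩ C).card ≤ B.card := card_le_card inter_subset_left
  have h3 : (B ∩ C).card ≤ C.card := card_le_card inter_subset_right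
  have h4 : B.card ≤ (B ∪ C).card := card_le_card subset_union_left
  obtain ⟨d, hd⟩ := Nat.exists_eq_add_of_le h4
  have hd2 : C.card = (B ∩ C).card + d := by omega
  simp only [PF]
  rw [hd, hd2, sum_range_add, sum_range_add]
  have : ∑ x ∈ range d, w (B.card + x) ≤ ∑ x ∈ range d, w ((B ∩ C).card + x) := by
    refine sum_le_sum fun x hx => wmono hw (by omega) ?_
    have := mem_range.1 hx
    omega
  linarith

lemma exists_phi (N : ℕ) (f : Finset ℤ → ℝ) : ∃ φ : Finset ℤ → ℝ, ∀ B ⊆ W N,
    (∃ D, B ⊆ D ∧ D ⊆ W N ∧ φ B = f D) ∧ ∀ D, B ⊆ D → D ⊆ W N → φ B ≤ f D := by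
  classical
  have h : ∀ B : Finset ℤ, ∃ r : ℝ, B ⊆ W N →
      (∃ D, B ⊆ D ∧ D ⊆ W N ∧ r = f D) ∧ ∀ D, B ⊆ D → D ⊆ W N → r ≤ f D := by
    intro B
    by_cases hB : B ⊆ W N
    · obtain ⟨D, hD, hmin⟩ := exists_min_image ((W N).powerset.filter fun D => B ⊆ D) f
        ⟨W N, by simp [hB]⟩
      simp only [mem_filter, mem_powerset] at hD hmin
      exact ⟨f D, fun _ => ⟨⟨D, hD.2, hD.1, rfl⟩, fun D' h1 h2 => hmin D' ⟨h2, h1⟩⟩⟩
    · exact ⟨0, fun h => absurd h hB⟩
  choose φ hφ using h
  exact ⟨φ, fun B hB => hφ B hB⟩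

lemma mem_W {N : ℕ} {x : ℤ} : x ∈ W N ↔ -(N : ℤ) ≤ x ∧ x ≤ N := by simp [W]

theorem fill_left {N s : ℕ} (hs : s ≤ N) {w : ℕ → ℝ}
    (hw : ∀ i, i + 1 < 2 * N + 1 → w (i + 1) ≤ w i) {g : ℤ → ℝ} (hg0 : ∀ x, 0 ≤ g x)
    (hH : ∀ x : ℤ, ∀ B ⊆ Icc x (x + 2 * N), ∑ y ∈ B, g y ≤ PF w B.card)
    (D₀ : Finset ℤ) (hD₀ : Icc ((N : ℤ) - s + 1) N ⊆ D₀) (hD₀W : D₀ ⊆ W N)
    (hle : ∀ D, Icc (-(N : ℤ)) (-N + s - 1) ⊆ D → D ⊆ W N →
      PF w D₀.card - ∑ y ∈ D₀, g y ≤ PF w D.card - ∑ y ∈ D, g y) :
    ∃ g' : ℤ → ℝ, (∀ B ⊆ W N, ∑ y ∈ B, g' y ≤ PF w B.card) ∧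
      ∀ a ∈ W N, ∑ y ∈ Icc (a - s) (a + s), g y ≤
        ∑ y ∈ (W N).filter (fun y => cd N (a - y) ≤ s), g' y := by
  classical
  have hcW : ∀ B ⊆ W N, B.card ≤ 2 * N + 1 := fun B hB => by
    rw [← card_W]; exact card_le_card hB
  have hWwin : W N = Icc (-(N : ℤ)) (-(N : ℤ) + 2 * N) := by
    ext x; simp only [W, mem_Icc]; omega
  set f : Finset ℤ → ℝ := fun B => PF w B.card - ∑ y ∈ B, g y with hf
  obtain ⟨φ, hφ⟩ := exists_phi N f
  have hf0 : ∀ B ⊆ W N, 0 ≤ f B := fun B hB => by
    have := hH (-(N : ℤ)) B (by rwa [← hWwin])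
    simp only [hf]; linarith
  have hmono : ∀ B C, B ⊆ C → C ⊆ W N → φ B ≤ φ C := by
    intro B C hBC hC
    obtain ⟨D, hD1, hD2, hD3⟩ := (hφ C hC).1
    rw [hD3]
    exact (hφ B (hBC.trans hC)).2 D (hBC.trans hD1) hD2
  have hφ0 : φ ∅ = 0 := by
    obtain ⟨D, _, hD2, hD3⟩ := (hφ ∅ (empty_subset _)).1
    have h1 := (hφ ∅ (empty_subset _)).2 ∅ (subset_refl _) (empty_subset _)
    have h2 := hf0 D hD2
    have h3 : f ∅ = 0 := by simp [hf, PF]
    rw [h3] at h1
    rw [← hD3] at h2
    linarith
  have hsubm : ∀ B ⊆ W N, ∀ C ⊆ W N, φ (B ∪ C) + φ (B ∩ C) ≤ φ B + φ C := by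
    intro B hB C hC
    obtain ⟨D, hD1, hD2, hD3⟩ := (hφ B hB).1
    obtain ⟨E, hE1, hE2, hE3⟩ := (hφ C hC).1
    have h1 := (hφ (B ∪ C) (union_subset hB hC)).2 (D ∪ E) (union_subset_union hD1 hE1)
      (union_subset hD2 hE2)
    have h2 := (hφ (B ∩ C) (inter_subset_left.trans hB)).2 (D ∩ E) (inter_subset_inter hD1 hE1)
      (inter_subset_left.trans hD2)
    have h3 := PF_submod hw (hcW _ (union_subset hD2 hE2))
    have h4 := sum_union_inter (s₁ := D) (s₂ := E) (f := g)
    rw [hD3, hE3]
    simp only [hf] at h1 h2 ⊢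
    linarith
  have hIcc : ∀ x : ℤ, x ≤ N → Icc (-(N : ℤ)) x ⊆ W N := by
    intro x hx y hy
    simp only [W, mem_Icc] at *; omega
  set ρ : ℤ → ℝ := fun x => φ (Icc (-(N : ℤ)) x) - φ (Icc (-(N : ℤ)) (x - 1)) with hρ
  have hρ0 : ∀ x ∈ W N, 0 ≤ ρ x := by
    intro x hx
    have := hmono (Icc (-(N : ℤ)) (x - 1)) (Icc (-(N : ℤ)) x)
      (Icc_subset_Icc le_rfl (by omega)) (hIcc x (mem_W.1 hx).2)
    simp only [hρ]; linarith
  have htel : ∀ x : ℤ, -(N : ℤ) - 1 ≤ x → ∑ y ∈ Icc (-(N : ℤ)) x, ρ y = φ (Icc (-(N : ℤ)) x) := by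
    intro x hx
    induction x, hx using Int.leInduction with
    | base =>
      have : Icc (-(N : ℤ)) (-(N : ℤ) - 1) = ∅ := by
        apply Icc_eq_empty; omega
      rw [this, hφ0, sum_empty]
    | succ x hx ih =>
      have h1 : Icc (-(N : ℤ)) (x + 1) = insert (x + 1) (Icc (-(N : ℤ)) x) := by
        ext y; simp only [mem_insert, mem_Icc]; omega
      rw [h1, sum_insert (by simp), ih, ← h1]
      simp only [hρ, add_sub_cancel_right]
      ring
  have hρle : ∀ B : Finset ℤ, B ⊆ W N → ∑ y ∈ B, ρ y ≤ φ B := by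
    intro B
    induction B using Finset.induction_on_max with
    | empty => intro _; rw [hφ0, sum_empty]
    | insert i B hB ih =>
      intro hsub
      have hi : i ∈ W N := hsub (mem_insert_self _ _)
      have hBW : B ⊆ W N := (subset_insert _ _).trans hsub
      have hiB : i ∉ B := fun h => lt_irrefl i (hB i h)
      rw [sum_insert hiB]
      have h1 := ih hBW
      have h2 := hsubm (insert i B) hsub (Icc (-(N : ℤ)) (i - 1)) (hIcc _ (by
        have := (mem_W.1 hi).2; omega))
      have e1 : insert i B ∪ Icc (-(N : ℤ)) (i - 1) = Icc (-(N : ℤ)) i := by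
        ext y
        simp only [mem_union, mem_insert, mem_Icc]
        have hi' := mem_W.1 hi
        constructor
        · rintro ((rfl | h) | h)
          · omega
          · have := hB y h
            have := mem_W.1 (hBW h)
            omega
          · omega
        · intro h
          by_cases hy : y = i
          · exact Or.inl (Or.inl hy)
          · right; omega
      have e2 : insert i B ∩ Icc (-(N : ℤ)) (i - 1) = B := by
        ext y
        simp only [mem_inter, mem_insert, mem_Icc]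
        constructor
        · rintro ⟨rfl | h, h2⟩
          · omega
          · exact h
        · intro h
          have := hB y h
          have := mem_W.1 (hBW h)
          exact ⟨Or.inr h, by omega, by omega⟩
      rw [e1, e2] at h2
      simp only [hρ] at h1 ⊢
      linarith
  refine ⟨fun y => g y + ρ y, ?_, ?_⟩
  · intro B hB
    rw [sum_add_distrib]
    have h1 := hρle B hB
    have h2 := (hφ B hB).2 B (subset_refl _) hB
    simp only [hf] at h2
    linarith
  · intro a ha
    have ha' := mem_W.1 ha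
    -- the comparison of the two ends
    have hends : ∀ u : ℕ, u ≤ s → ∀ x : ℤ, -(N : ℤ) + s - 1 ≤ x → x ≤ N →
        φ (Icc ((N : ℤ) - u + 1) N) ≤ φ (Icc (-(N : ℤ)) x) := by
      intro u hu x hx hxN
      have h1 : φ (Icc ((N : ℤ) - u + 1) N) ≤ PF w D₀.card - ∑ y ∈ D₀, g y :=
        (hφ _ (fun y hy => by simp only [W, mem_Icc] at *; omega)).2 D₀
          (fun y hy => hD₀ (by simp only [mem_Icc] at *; omega)) hD₀W
      obtain ⟨D, hD1, hD2, hD3⟩ := (hφ _ (hIcc x hxN)).1
      have h2 := hle D ((Icc_subset_Icc le_rfl hx).trans hD1) hD2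
      rw [hD3]
      simp only [hf]
      linarith
    rcases lt_or_ge a (-(N : ℤ) + s) with h1 | h1
    · -- the left end
      obtain ⟨u, hu⟩ : ∃ u : ℕ, (u : ℤ) = s - a - N := ⟨(s - a - N).toNat, by omega⟩
      have hus : u ≤ s := by omega
      have e1 : Icc (a - s) (a + s) = Icc (a - s) (-(N : ℤ) - 1) ∪ Icc (-(N : ℤ)) (a + s) := by
        ext y; simp only [mem_union, mem_Icc]; omega
      have d1 : Disjoint (Icc (a - s) (-(N : ℤ) - 1)) (Icc (-(N : ℤ)) (a + s)) := by
        rw [disjoint_left]; intro y; simp only [mem_Icc]; omega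
      rw [e1, sum_union d1]
      obtain ⟨D, hD1, hD2, hD3⟩ := (hφ (Icc ((N : ℤ) - u + 1) N) (fun y hy => by
        simp only [W, mem_Icc] at *; omega)).1
      -- window inequality
      have d2 : Disjoint (Icc (a - s) (-(N : ℤ) - 1)) (D \ Icc ((N : ℤ) - u + 1) N) := by
        rw [disjoint_left]; intro y hy hy2
        have := mem_W.1 (hD2 (mem_sdiff.1 hy2).1)
        simp only [mem_Icc] at hy; omega
      have hwin := hH (-(N : ℤ) - u) (Icc (a - s) (-(N : ℤ) - 1) ∪ (D \ Icc ((N : ℤ) - u + 1) N))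
        (by
          intro y hy
          rcases mem_union.1 hy with h | h
          · simp only [mem_Icc] at *; omega
          · have h3 := mem_sdiff.1 h
            have h4 := mem_W.1 (hD2 h3.1)
            have h5 := h3.2
            simp only [mem_Icc] at *; omega)
      rw [sum_union d2, card_union_of_disjoint d2] at hwin
      have c1 : (Icc (a - s) (-(N : ℤ) - 1)).card = u := by
        rw [Int.card_Icc]; omega
      have c2 : (D \ Icc ((N : ℤ) - u + 1) N).card + u = D.card := by
        rw [card_sdiff_of_subset hD1, Int.card_Icc]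
        have := card_le_card hD1
        rw [Int.card_Icc] at this
        omega
      rw [c1, add_comm u, c2] at hwin
      have s1 := sum_sdiff (f := g) hD1
      -- lower bound of the right hand side
      have hsub : Icc (-(N : ℤ)) (a + s) ∪ Icc ((N : ℤ) - u + 1) N ⊆
          (W N).filter fun y => cd N (a - y) ≤ s := by
        intro y hy
        rw [mem_filter, mem_W]
        simp only [mem_union, mem_Icc] at hy
        simp only [cd]
        omega
      have d3 : Disjoint (Icc (-(N : ℤ)) (a + s)) (Icc ((N : ℤ) - u + 1) N) := by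
        rw [disjoint_left]; intro y; simp only [mem_Icc]; omega
      have hlow := sum_le_sum_of_subset_of_nonneg (f := fun y => g y + ρ y) hsub
        (fun y hy _ => add_nonneg (hg0 y) (hρ0 y (mem_filter.1 hy).1))
      rw [sum_union d3, sum_add_distrib, sum_add_distrib, htel (a + s) (by omega)] at hlow
      have h6 := hends u hus (a + s) (by omega) (by omega)
      have h7 : 0 ≤ ∑ y ∈ Icc ((N : ℤ) - u + 1) N, ρ y :=
        sum_nonneg fun y hy => hρ0 y (by simp only [W, mem_Icc] at *; omega)
      simp only [hf] at hD3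
      linarith
    · rcases lt_or_ge ((N : ℤ) - s) a with h2 | h2
      · -- the right end
        obtain ⟨u, hu⟩ : ∃ u : ℕ, (u : ℤ) = a + s - N := ⟨(a + s - N).toNat, by omega⟩
        have hus : u ≤ s := by omega
        have e1 : Icc (a - s) (a + s) = Icc (a - s) (N : ℤ) ∪ Icc ((N : ℤ) + 1) (a + s) := by
          ext y; simp only [mem_union, mem_Icc]; omega
        have d1 : Disjoint (Icc (a - s) (N : ℤ)) (Icc ((N : ℤ) + 1) (a + s)) := by
          rw [disjoint_left]; intro y; simp only [mem_Icc]; omega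
        rw [e1, sum_union d1]
        obtain ⟨D, hD1, hD2, hD3⟩ := (hφ (Icc (-(N : ℤ)) (-(N : ℤ) + u - 1)) (fun y hy => by
          simp only [W, mem_Icc] at *; omega)).1
        have d2 : Disjoint (Icc ((N : ℤ) + 1) (a + s))
            (D \ Icc (-(N : ℤ)) (-(N : ℤ) + u - 1)) := by
          rw [disjoint_left]; intro y hy hy2
          have := mem_W.1 (hD2 (mem_sdiff.1 hy2).1)
          simp only [mem_Icc] at hy; omega
        have hwin := hH (-(N : ℤ) + u)
          (Icc ((N : ℤ) + 1) (a + s) ∪ (D \ Icc (-(N : ℤ)) (-(N : ℤ) + u - 1)))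
          (by
            intro y hy
            rcases mem_union.1 hy with h | h
            · simp only [mem_Icc] at *; omega
            · have h3 := mem_sdiff.1 h
              have h4 := mem_W.1 (hD2 h3.1)
              have h5 := h3.2
              simp only [mem_Icc] at *; omega)
        rw [sum_union d2, card_union_of_disjoint d2] at hwin
        have c1 : (Icc ((N : ℤ) + 1) (a + s)).card = u := by
          rw [Int.card_Icc]; omega
        have c2 : (D \ Icc (-(N : ℤ)) (-(N : ℤ) + u - 1)).card + u = D.card := by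
          rw [card_sdiff_of_subset hD1, Int.card_Icc]
          have := card_le_card hD1
          rw [Int.card_Icc] at this
          omega
        rw [c1, add_comm u, c2] at hwin
        have s1 := sum_sdiff (f := g) hD1
        have hsub : Icc (a - s) (N : ℤ) ∪ Icc (-(N : ℤ)) (-(N : ℤ) + u - 1) ⊆
            (W N).filter fun y => cd N (a - y) ≤ s := by
          intro y hy
          rw [mem_filter, mem_W]
          simp only [mem_union, mem_Icc] at hy
          simp only [cd]
          omega
        have d3 : Disjoint (Icc (a - s) (N : ℤ)) (Icc (-(N : ℤ)) (-(N : ℤ) + u - 1)) := by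
          rw [disjoint_left]; intro y; simp only [mem_Icc]; omega
        have hlow := sum_le_sum_of_subset_of_nonneg (f := fun y => g y + ρ y) hsub
          (fun y hy _ => add_nonneg (hg0 y) (hρ0 y (mem_filter.1 hy).1))
        rw [sum_union d3, sum_add_distrib, sum_add_distrib,
          htel (-(N : ℤ) + u - 1) (by omega)] at hlow
        have h7 : 0 ≤ ∑ y ∈ Icc (a - s) (N : ℤ), ρ y :=
          sum_nonneg fun y hy => hρ0 y (by simp only [W, mem_Icc] at *; omega)
        simp only [hf] at hD3
        linarith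
      · -- the middle
        have hsub : Icc (a - s) (a + s) ⊆ (W N).filter fun y => cd N (a - y) ≤ s := by
          intro y hy
          rw [mem_filter, mem_W]
          simp only [mem_Icc] at hy
          simp only [cd]
          omega
        calc ∑ y ∈ Icc (a - s) (a + s), g y ≤ ∑ y ∈ Icc (a - s) (a + s), (g y + ρ y) :=
              sum_le_sum fun y hy => by
                have := hρ0 y (mem_filter.1 (hsub hy)).1
                linarith
          _ ≤ _ := sum_le_sum_of_subset_of_nonneg hsub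
              (fun y hy _ => add_nonneg (hg0 y) (hρ0 y (mem_filter.1 hy).1))

end Pool.Agent.J4.H68.LV
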