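import Pool.Agent.J4.H68.LV.D3

/-!
# The window rearrangement inequality for interval kernels
-/

set_option autoImplicit false

open Finset

namespace Pool.Agent.J4.H68.LV

lemma mem_map_neg {B : Finset ℤ} {y : ℤ} : y ∈ B.map (Equiv.neg ℤ).toEmbedding ↔ -y ∈ B := by
  simp only [mem_map, Equiv.coe_toEmbedding, Equiv.neg_apply]
  constructor
  · rintro ⟨a, ha, rfl⟩; rwa [neg_neg]
  · intro h; exact ⟨-y, h, neg_neg y⟩

lemma sum_map_neg (B : Finset ℤ) (F : ℤ → ℝ) :
    ∑ y ∈ B.map (Equiv.neg ℤ).toEmbedding, F y = ∑ y ∈ B, F (-y) := by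
  rw [sum_map]; rfl

theorem fill {N s : ℕ} (hs : s ≤ N) {w : ℕ → ℝ}
    (hw : ∀ i, i + 1 < 2 * N + 1 → w (i + 1) ≤ w i) {g : ℤ → ℝ} (hg0 : ∀ x, 0 ≤ g x)
    (hH : ∀ x : ℤ, ∀ B ⊆ Icc x (x + 2 * N), ∑ y ∈ B, g y ≤ PF w B.card) :
    ∃ g' : ℤ → ℝ, (∀ B ⊆ W N, ∑ y ∈ B, g' y ≤ PF w B.card) ∧
      ∀ a ∈ W N, ∑ y ∈ Icc (a - s) (a + s), g y ≤
        ∑ y ∈ (W N).filter (fun y => cd N (a - y) ≤ s), g' y := by
  classical
  have hq : Icc ((N : ℤ) - s + 1) N ⊆ W N := fun y hy => by
    simp only [W, mem_Icc] at *; omega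
  have hp : Icc (-(N : ℤ)) (-(N : ℤ) + s - 1) ⊆ W N := fun y hy => by
    simp only [W, mem_Icc] at *; omega
  obtain ⟨φ, hφ⟩ := exists_phi N fun B => PF w B.card - ∑ y ∈ B, g y
  obtain ⟨⟨Dq, hq1, hq2, hq3⟩, hq4⟩ := hφ _ hq
  obtain ⟨⟨Dp, hp1, hp2, hp3⟩, hp4⟩ := hφ _ hp
  rcases le_total (φ (Icc ((N : ℤ) - s + 1) N)) (φ (Icc (-(N : ℤ)) (-(N : ℤ) + s - 1)))
    with h | h
  · refine fill_left hs hw hg0 hH Dq hq1 hq2 fun D h1 h2 => ?_
    have := hp4 D h1 h2
    linarith
  · obtain ⟨g', h1, h2⟩ := fill_left (g := fun y => g (-y)) hs hw (fun x => hg0 _) (fun x B hB => by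
        have := hH (-x - 2 * N) (B.map (Equiv.neg ℤ).toEmbedding) (fun y hy => by
          rw [mem_map_neg] at hy
          have := hB hy
          simp only [mem_Icc] at *; omega)
        rwa [card_map, sum_map_neg] at this)
      (Dp.map (Equiv.neg ℤ).toEmbedding) (fun y hy => by
        rw [mem_map_neg]
        apply hp1
        simp only [mem_Icc] at *; omega)
      (fun y hy => by
        rw [mem_map_neg] at hy
        have := mem_W.1 (hp2 hy)
        rw [mem_W]; omega)
      (fun D h1 h2 => by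
        have h3 := hq4 (D.map (Equiv.neg ℤ).toEmbedding)
          (fun y hy => by
            rw [mem_map_neg]
            apply h1
            simp only [mem_Icc] at *; omega)
          (fun y hy => by
            rw [mem_map_neg] at hy
            have := mem_W.1 (h2 hy)
            rw [mem_W]; omega)
        simp only [card_map, sum_map_neg, neg_neg] at h3 ⊢
        linarith)
    refine ⟨fun y => g' (-y), ?_, ?_⟩
    · intro B hB
      have := h1 (B.map (Equiv.neg ℤ).toEmbedding) (fun y hy => by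
        rw [mem_map_neg] at hy
        have := mem_W.1 (hB hy)
        rw [mem_W]; omega)
      rwa [card_map, sum_map_neg] at this
    · intro a ha
      have h3 := h2 (-a) (by have := mem_W.1 ha; rw [mem_W]; omega)
      have e1 : Icc (-a - (s : ℤ)) (-a + s) = (Icc (a - (s : ℤ)) (a + s)).map
          (Equiv.neg ℤ).toEmbedding := by
        ext y; rw [mem_map_neg]; simp only [mem_Icc]; omega
      have e2 : (W N).filter (fun y => cd N (-a - y) ≤ s) =
          ((W N).filter (fun y => cd N (a - y) ≤ s)).map (Equiv.neg ℤ).toEmbedding := by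
        ext y; rw [mem_map_neg, mem_filter, mem_filter, mem_W, mem_W]; simp only [cd]; omega
      rw [e1, e2, sum_map_neg, sum_map_neg] at h3
      simpa using h3

/-- sums over arcs of periodic functions -/
lemma sum_arc {N s : ℕ} (hs : s ≤ N) {v : ℤ → ℝ} (hv : ∀ x, v (x + (2 * N + 1)) = v x) {a : ℤ}
    (ha : a ∈ W N) : ∑ y ∈ (W N).filter (fun y => cd N (a - y) ≤ s), v y =
      ∑ y ∈ Icc (a - s) (a + s), v y := by
  have ha' := mem_W.1 ha
  symm
  refine sum_nbij' (fun y => if y < -(N : ℤ) then y + (2 * N + 1) else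
      if (N : ℤ) < y then y - (2 * N + 1) else y)
    (fun y => if y < a - s then y + (2 * N + 1) else if a + s < y then y - (2 * N + 1) else y)
    ?_ ?_ ?_ ?_ ?_
  · intro y hy
    simp only [mem_Icc] at hy
    rw [mem_filter, mem_W]
    simp only [cd]
    split_ifs <;> omega
  · intro y hy
    rw [mem_filter, mem_W] at hy
    simp only [cd] at hy
    simp only [mem_Icc]
    split_ifs <;> omega
  · intro y hy
    simp only [mem_Icc] at hy
    split_ifs <;> omega
  · intro y hy
    rw [mem_filter, mem_W] at hy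
    simp only [cd] at hy
    split_ifs <;> omega
  · intro y hy
    split_ifs with h1 h2
    · rw [hv]
    · rw [← hv (y - (2 * N + 1)), sub_add_cancel]
    · rfl

/-- the window rearrangement inequality for intervals -/
theorem window_riesz {N s : ℕ} (hs : s ≤ N) {w : ℕ → ℝ}
    (hw : ∀ i, i + 1 < 2 * N + 1 → w (i + 1) ≤ w i) (hw0 : ∀ i < 2 * N + 1, 0 ≤ w i)
    {g v : ℤ → ℝ} (hg0 : ∀ x, 0 ≤ g x)
    (hH : ∀ x : ℤ, ∀ B ⊆ Icc x (x + 2 * N), ∑ y ∈ B, g y ≤ PF w B.card)
    (hv : ∀ x, v (x + (2 * N + 1)) = v x) (hvw : ∀ i < 2 * N + 1, v (sp i) = w i)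
    {x : ℤ} {A : Finset ℤ} (hA : A ⊆ Icc x (x + 2 * N)) :
    ∑ a ∈ A, ∑ y ∈ Icc (a - s) (a + s), g y ≤
      ∑ a ∈ T N A.card, ∑ y ∈ Icc (a - s) (a + s), v y := by
  classical
  set c : ℤ := x + N with hc
  set e : ℤ ↪ ℤ := addRightEmbedding (-c) with he
  have hmem : ∀ (B : Finset ℤ) (y : ℤ), y ∈ B.map e ↔ y + c ∈ B := by
    intro B y
    simp only [he, mem_map, addRightEmbedding_apply]
    constructor
    · rintro ⟨a, ha, rfl⟩; simpa using ha
    · intro h; exact ⟨y + c, h, by ring⟩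
  have hAW : A.map e ⊆ W N := by
    intro y hy
    have := hA ((hmem A y).1 hy)
    simp only [mem_Icc] at this
    rw [mem_W]; omega
  obtain ⟨g', h1, h2⟩ := fill (g := fun y => g (y + c)) hs hw (fun x => hg0 _) (fun z B hB => by
    have h3 := hH (z + c) (B.map (addRightEmbedding c)) (fun y hy => by
      simp only [mem_map, addRightEmbedding_apply] at hy
      obtain ⟨b, hb, rfl⟩ := hy
      have := hB hb
      simp only [mem_Icc] at *; omega)
    rw [card_map, sum_map] at h3
    exact h3)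
  have e1 : ∑ a ∈ A, ∑ y ∈ Icc (a - s) (a + s), g y =
      ∑ a ∈ A.map e, ∑ y ∈ Icc (a - s) (a + s), g (y + c) := by
    rw [sum_map]
    refine sum_congr rfl fun a _ => ?_
    simp only [he, addRightEmbedding_apply]
    have e3 : Icc (a - (s : ℤ)) (a + s) =
        (Icc (a + -c - (s : ℤ)) (a + -c + s)).map (addRightEmbedding c) := by
      ext y
      simp only [mem_map, mem_Icc, addRightEmbedding_apply]
      constructor
      · intro h; exact ⟨y - c, by omega, by ring⟩
      · rintro ⟨z, hz, rfl⟩; omega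
    rw [e3, sum_map]
    rfl
  set k : ℕ → ℝ := fun i => if i ≤ s then 1 else 0 with hk
  have hfil : ∀ (a : ℤ) (F : ℤ → ℝ), ∑ y ∈ (W N).filter (fun y => cd N (a - y) ≤ s), F y =
      ∑ y ∈ W N, k (cd N (a - y)) * F y := by
    intro a F
    rw [sum_filter]
    refine sum_congr rfl fun y _ => ?_
    simp only [hk]
    split_ifs <;> simp
  have h3 := riesz_fun (N := N) (k := k) (fun i _ => by
      simp only [hk]
      split_ifs <;> first | omega | norm_num) (fun i _ => by
      simp only [hk]; split_ifs <;> norm_num) hw hw0 (g := g') (v := v) h1 hvw hAW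
  rw [e1]
  calc ∑ a ∈ A.map e, ∑ y ∈ Icc (a - s) (a + s), g (y + c)
      ≤ ∑ a ∈ A.map e, ∑ y ∈ W N, k (cd N (a - y)) * g' y :=
        sum_le_sum fun a ha => by rw [← hfil]; exact h2 a (hAW ha)
    _ ≤ ∑ a ∈ T N (A.map e).card, ∑ y ∈ W N, k (cd N (a - y)) * v y := h3
    _ = ∑ a ∈ T N A.card, ∑ y ∈ Icc (a - s) (a + s), v y := by
        rw [card_map]
        refine sum_congr rfl fun a ha => ?_
        rw [← hfil, sum_arc hs hv (T_sub _ _ ha)]

end Pool.Agent.J4.H68.LV
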