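import Pool.Agent.J4.H68.LV.D3b

/-!
# From the summable kernel on the line to interval kernels

`q` is an even summable kernel which decreases on `ℕ`, `PP` its periodization.
-/

set_option autoImplicit false

open Finset Filter Topology

namespace Pool.Agent.J4.H68.LV

/-- hypotheses on the kernel -/
structure Ker (q : ℤ → ℝ) : Prop where
  even : ∀ x, q (-x) = q x
  nonneg : ∀ x, 0 ≤ q x
  anti : ∀ r : ℕ, q ((r : ℤ) + 1) ≤ q r
  summ : Summable q

/-- the periodization -/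
noncomputable def PP (N : ℕ) (q : ℤ → ℝ) (d : ℤ) : ℝ := ∑' k : ℤ, q (d + k * (2 * N + 1))

/-- centred sums -/
noncomputable def CS (m : ℤ → ℝ) (R : ℕ) : ℝ := ∑ y ∈ Icc (-(R : ℤ)) R, m y

lemma CS_succ (m : ℤ → ℝ) (R : ℕ) : CS m (R + 1) = CS m R + (m (R + 1) + m (-(R + 1))) := by
  have h : Icc (-((R + 1 : ℕ) : ℤ)) ((R + 1 : ℕ) : ℤ) =
      insert (-((R : ℤ) + 1)) (insert ((R : ℤ) + 1) (Icc (-(R : ℤ)) R)) := by
    ext y; simp only [mem_insert, mem_Icc]; omega
  rw [CS, h, sum_insert, sum_insert, CS]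
  · ring
  · simp
  · simp only [mem_insert, mem_Icc]; omega

lemma CS_zero (m : ℤ → ℝ) : CS m 0 = m 0 := by simp [CS]

/-- summation by parts -/
lemma abel_id {p : ℤ → ℝ} (hp : ∀ x, p (-x) = p x) (d : ℤ → ℝ) (R : ℕ) :
    CS (fun y => p y * d y) R =
      ∑ s ∈ range R, (p s - p ((s : ℤ) + 1)) * CS d s + p R * CS d R := by
  induction R with
  | zero => simp [CS_zero]
  | succ R ih =>
    rw [CS_succ, ih, sum_range_succ, CS_succ d]
    rw [hp]
    push_cast
    ring

lemma Ker.mul_summable {q : ℤ → ℝ} (h : Ker q) {m : ℤ → ℝ} {M : ℝ} (hm : ∀ x, |m x| ≤ M) :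
    Summable fun y => q y * m y := by
  refine Summable.of_norm_bounded (g := fun y => q y * M) (h.summ.mul_right M) fun y => ?_
  rw [Real.norm_eq_abs, abs_mul, abs_of_nonneg (h.nonneg y)]
  exact mul_le_mul_of_nonneg_left (hm y) (h.nonneg y)

lemma tendsto_CS {f : ℤ → ℝ} (h : Summable f) : Tendsto (CS f) atTop (𝓝 (∑' y, f y)) := by
  have h1 := h.hasSum
  rw [HasSum, SummationFilter.unconditional_filter] at h1
  exact h1.comp (tendsto_Icc_neg (R := ℤ))

/-- if all centred sums are nonnegative then so is the sum against the kernel -/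
lemma Ker.tsum_nonneg {q : ℤ → ℝ} (h : Ker q) {d : ℤ → ℝ} {M : ℝ} (hm : ∀ x, |d x| ≤ M)
    (hd : ∀ R : ℕ, 0 ≤ CS d R) : 0 ≤ ∑' y, q y * d y := by
  refine ge_of_tendsto' (tendsto_CS (h.mul_summable hm)) fun R => ?_
  rw [abel_id h.even]
  refine add_nonneg (sum_nonneg fun s _ => mul_nonneg ?_ (hd s)) (mul_nonneg (h.nonneg _) (hd R))
  linarith [h.anti s]

lemma PP_even {q : ℤ → ℝ} (h : Ker q) (N : ℕ) (d : ℤ) : PP N q (-d) = PP N q d := by
  rw [PP, PP, ← (Equiv.neg ℤ).tsum_eq (fun k : ℤ => q (d + k * (2 * N + 1)))]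
  refine tsum_congr fun k => ?_
  rw [Equiv.neg_apply, ← h.even]
  congr 1
  ring

lemma arith_inj (N : ℕ) (c : ℤ) : Function.Injective fun k : ℤ => c + k * (2 * N + 1) := by
  intro k l hkl
  simp only [add_right_inj] at hkl
  exact mul_right_cancel₀ (by omega) hkl

lemma periodic_mul {v : ℤ → ℝ} {N : ℕ} (hv : ∀ x, v (x + (2 * N + 1)) = v x) (x k : ℤ) :
    v (x + k * (2 * N + 1)) = v x := by
  induction k using Int.induction_on with
  | zero => simp
  | succ k ih =>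
    rw [← ih, ← hv (x + k * (2 * N + 1))]
    congr 1; ring
  | pred k ih =>
    rw [← ih, ← hv (x + (-k - 1) * (2 * N + 1))]
    congr 1; ring

/-- unfolding -/
lemma unfold_tsum {G : ℤ → ℝ} (hG : Summable G) (N : ℕ) :
    ∑' y, G y = ∑ c ∈ W N, ∑' k : ℤ, G (c + k * (2 * N + 1)) := by
  have : NeZero (2 * N + 1) := ⟨by omega⟩
  have h1 : ∑' y, G y = ∑' y, G (y - N) := ((Equiv.subRight (N : ℤ)).tsum_eq G).symm
  have hG' : Summable fun y => G (y - N) := ((Equiv.subRight (N : ℤ)).summable_iff (f := G)).2 hG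
  have h2 : ∑' y, G (y - N) = ∑' p : ℤ × Fin (2 * N + 1),
      G ((Int.divModEquiv (2 * N + 1)).symm p - N) :=
    ((Int.divModEquiv (2 * N + 1)).symm.tsum_eq fun y => G (y - N)).symm
  have hG2 : Summable fun p : ℤ × Fin (2 * N + 1) =>
      G ((Int.divModEquiv (2 * N + 1)).symm p - N) :=
    ((Int.divModEquiv (2 * N + 1)).symm.summable_iff (f := fun y => G (y - N))).2 hG'
  have h3 : ∑' p : ℤ × Fin (2 * N + 1), G ((Int.divModEquiv (2 * N + 1)).symm p - N) =
      ∑' j : Fin (2 * N + 1), ∑' k : ℤ, G ((Int.divModEquiv (2 * N + 1)).symm (k, j) - N) := by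
    rw [← (Equiv.prodComm (Fin (2 * N + 1)) ℤ).tsum_eq]
    exact Summable.tsum_prod (((Equiv.prodComm (Fin (2 * N + 1)) ℤ).summable_iff
      (f := fun p : ℤ × Fin (2 * N + 1) => G ((Int.divModEquiv (2 * N + 1)).symm p - N))).2 hG2)
  rw [h1, h2, h3, tsum_fintype]
  have h4 : ∑ j : Fin (2 * N + 1), ∑' k : ℤ, G ((Int.divModEquiv (2 * N + 1)).symm (k, j) - N) =
      ∑ i ∈ range (2 * N + 1), ∑' k : ℤ, G (((i : ℤ) - N) + k * (2 * N + 1)) := by
    rw [← Fin.sum_univ_eq_sum_range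
      (fun i => ∑' k : ℤ, G (((i : ℤ) - N) + k * (2 * N + 1)))]
    refine Finset.sum_congr rfl fun j _ => tsum_congr fun k => ?_
    congr 1
    simp only [Int.divModEquiv_symm_apply]
    push_cast
    ring
  rw [h4]
  refine sum_nbij' (fun i => (i : ℤ) - N) (fun c => (c + N).toNat) ?_ ?_ ?_ ?_ ?_
  · intro i hi
    rw [mem_range] at hi
    rw [mem_W]; omega
  · intro c hc
    rw [mem_W] at hc
    rw [mem_range]; omega
  · intro i hi
    omega
  · intro c hc
    rw [mem_W] at hc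
    omega
  · intro i _
    rfl

/-- the sum of a periodic function against the kernel -/
lemma Ker.tsum_periodic {q : ℤ → ℝ} (h : Ker q) (N : ℕ) {v : ℤ → ℝ} {M : ℝ}
    (hM : ∀ x, |v x| ≤ M) (hv : ∀ x, v (x + (2 * N + 1)) = v x) :
    ∑' y, q y * v y = ∑ s ∈ range N, (PP N q s - PP N q ((s : ℤ) + 1)) * CS v s +
      PP N q N * CS v N := by
  rw [unfold_tsum (h.mul_summable hM) N, ← abel_id (PP_even h N)]
  rw [CS, W]
  refine sum_congr rfl fun c _ => ?_
  rw [PP, ← tsum_mul_right]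
  exact tsum_congr fun k => by rw [periodic_mul hv]

end Pool.Agent.J4.H68.LV
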