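import Pool.Agent.J4.H68.LV.D4

/-!
# From the summable kernel on the line to interval kernels: the inequality
-/

set_option autoImplicit false

open Finset Filter Topology

namespace Pool.Agent.J4.H68.LV

lemma window_const {N : ℕ} {v : ℤ → ℝ} (hv : ∀ x, v (x + (2 * N + 1)) = v x) (x : ℤ) :
    ∑ y ∈ Icc x (x + 2 * N), v y = ∑ y ∈ W N, v y := by
  have step : ∀ x : ℤ, ∑ y ∈ Icc (x + 1) (x + 1 + 2 * N), v y = ∑ y ∈ Icc x (x + 2 * N), v y := by
    intro x
    have e1 : Icc x (x + 2 * N) = insert x (Icc (x + 1) (x + 2 * N)) := by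
      ext y; simp only [mem_insert, mem_Icc]; omega
    have e2 : Icc (x + 1) (x + 1 + 2 * N) = insert (x + (2 * N + 1)) (Icc (x + 1) (x + 2 * N)) := by
      ext y; simp only [mem_insert, mem_Icc]; omega
    rw [e1, e2, sum_insert (by simp only [mem_Icc]; omega),
      sum_insert (by simp only [mem_Icc]; omega), hv]
  have h0 : ∀ k : ℤ, ∑ y ∈ Icc (-(N : ℤ) + k) (-(N : ℤ) + k + 2 * N), v y = ∑ y ∈ W N, v y := by
    intro k
    induction k using Int.induction_on with
    | zero =>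
      congr 1
      ext y; simp only [mem_Icc, mem_W]; omega
    | succ k ih =>
      rw [← ih, ← step (-(N : ℤ) + k)]
      congr 1
      ext y; simp only [mem_Icc]; omega
    | pred k ih =>
      rw [← ih, ← step (-(N : ℤ) + (-k - 1))]
      congr 1
      ext y; simp only [mem_Icc]; omega
  rw [← h0 (x + N)]
  congr 1
  ext y; simp only [mem_Icc]; omega

lemma CS_add_window (m : ℤ → ℝ) (N R : ℕ) : CS m (R + (2 * N + 1)) =
    CS m R + (∑ y ∈ Icc (-(R : ℤ) - (2 * N + 1)) (-(R : ℤ) - (2 * N + 1) + 2 * N), m y +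
      ∑ y ∈ Icc ((R : ℤ) + 1) ((R : ℤ) + 1 + 2 * N), m y) := by
  have e1 : Icc (-((R + (2 * N + 1) : ℕ) : ℤ)) ((R + (2 * N + 1) : ℕ) : ℤ) =
      Icc (-(R : ℤ)) R ∪ (Icc (-(R : ℤ) - (2 * N + 1)) (-(R : ℤ) - (2 * N + 1) + 2 * N) ∪
        Icc ((R : ℤ) + 1) ((R : ℤ) + 1 + 2 * N)) := by
    ext y; simp only [mem_union, mem_Icc]; omega
  rw [CS, e1, sum_union, sum_union, CS]
  · rw [disjoint_left]; intro y; simp only [mem_Icc]; omega
  · rw [disjoint_left]; intro y; simp only [mem_union, mem_Icc]; omega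

lemma CS_reflect (m : ℤ → ℝ) {N R R' : ℕ} (h : R + R' = 2 * N) (hR : R' ≤ R) :
    CS m R + CS m R' = ∑ y ∈ Icc (-(R : ℤ)) (-(R : ℤ) + 2 * N), m y +
      ∑ y ∈ Icc (-(R' : ℤ)) (-(R' : ℤ) + 2 * N), m y := by
  have e1 : Icc (-(R : ℤ)) R = Icc (-(R : ℤ)) (-(R : ℤ) + 2 * N) ∪ Icc ((R' : ℤ) + 1) R := by
    ext y; simp only [mem_union, mem_Icc]; omega
  have e2 : Icc (-(R' : ℤ)) (-(R' : ℤ) + 2 * N) = Icc (-(R' : ℤ)) R' ∪ Icc ((R' : ℤ) + 1) R := by
    ext y; simp only [mem_union, mem_Icc]; omega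
  have d1 : Disjoint (Icc (-(R : ℤ)) (-(R : ℤ) + 2 * N)) (Icc ((R' : ℤ) + 1) R) := by
    rw [disjoint_left]; intro y; simp only [mem_Icc]; omega
  have d2 : Disjoint (Icc (-(R' : ℤ)) (R' : ℤ)) (Icc ((R' : ℤ) + 1) R) := by
    rw [disjoint_left]; intro y; simp only [mem_Icc]; omega
  rw [CS, CS, e2, sum_union d2, e1, sum_union d1]
  ring

/-- the periodic comparison function -/
noncomputable def mb (N : ℕ) (m : ℤ → ℝ) (t : ℝ) (x : ℤ) : ℝ :=
  if (x + N) % (2 * N + 1) - N = N then t - ∑ y ∈ Icc (-(N : ℤ) + 1) (N - 1), m y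
  else if (x + N) % (2 * N + 1) - N = -N then 0 else m ((x + N) % (2 * N + 1) - N)

lemma mb_periodic (N : ℕ) (m : ℤ → ℝ) (t : ℝ) (x : ℤ) :
    mb N m t (x + (2 * N + 1)) = mb N m t x := by
  have h : (x + (2 * N + 1) + N) % (2 * N + 1) = (x + N) % (2 * N + 1) := by
    rw [show x + (2 * (N : ℤ) + 1) + N = (x + N) + (2 * N + 1) by ring, Int.add_emod_right]
  simp only [mb, h]

lemma mb_of_mem {N : ℕ} (m : ℤ → ℝ) (t : ℝ) {x : ℤ} (hx : x ∈ W N) :
    mb N m t x = if x = N then t - ∑ y ∈ Icc (-(N : ℤ) + 1) (N - 1), m y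
      else if x = -N then 0 else m x := by
  have h := mem_W.1 hx
  have h1 : (x + N) % (2 * N + 1) - N = x := by
    rw [Int.emod_eq_of_lt (by omega) (by omega)]; ring
  simp only [mb, h1]

lemma sum_mb (N : ℕ) (m : ℤ → ℝ) (t : ℝ) : ∑ y ∈ W N, mb N m t y = t := by
  rcases Nat.eq_zero_or_pos N with rfl | hN
  · have : W 0 = {0} := by ext y; rw [mem_W]; simp; omega
    rw [this, sum_singleton, mb_of_mem m t (by rw [mem_W]; simp)]
    simp
  · have e : W N = insert (-(N : ℤ)) (insert (N : ℤ) (Icc (-(N : ℤ) + 1) (N - 1))) := by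
      ext y; rw [mem_W]; simp only [mem_insert, mem_Icc]; omega
    have h1 : ∑ y ∈ Icc (-(N : ℤ) + 1) (N - 1), mb N m t y =
        ∑ y ∈ Icc (-(N : ℤ) + 1) (N - 1), m y := by
      refine sum_congr rfl fun y hy => ?_
      rw [mem_Icc] at hy
      rw [mb_of_mem m t (by rw [mem_W]; omega), if_neg (by omega), if_neg (by omega)]
    rw [e, sum_insert (by simp only [mem_insert, mem_Icc]; omega),
      sum_insert (by simp only [mem_Icc]; omega), h1,
      mb_of_mem m t (by rw [mem_W]; omega), mb_of_mem m t (by rw [mem_W]; omega),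
      if_neg (by omega), if_pos rfl, if_pos rfl]
    ring

lemma CS_le_mb {N : ℕ} {m : ℤ → ℝ} {t : ℝ} (hw : ∀ x : ℤ, ∑ y ∈ Icc x (x + 2 * N), m y ≤ t)
    (R : ℕ) : CS m R ≤ CS (mb N m t) R := by
  have hwin : ∀ x : ℤ, ∑ y ∈ Icc x (x + 2 * N), mb N m t y = t := fun x => by
    rw [window_const (mb_periodic N m t), sum_mb]
  have hlt : ∀ s : ℕ, s < N → CS (mb N m t) s = CS m s := by
    intro s hs
    refine sum_congr rfl fun y hy => ?_
    rw [mem_Icc] at hy
    rw [mb_of_mem m t (by rw [mem_W]; omega), if_neg (by omega), if_neg (by omega)]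
  induction R using Nat.strong_induction_on with
  | _ R ih =>
    rcases lt_trichotomy R N with h | rfl | h
    · exact (hlt R h).ge
    · have h1 : CS (mb R m t) R = t := sum_mb R m t
      have h2 := hw (-(R : ℤ))
      rw [h1]
      refine le_trans (le_of_eq ?_) h2
      rw [CS]
      congr 1
      ext y; simp only [mem_Icc]; omega
    · rcases le_or_gt R (2 * N) with h2 | h2
      · obtain ⟨R', hR'⟩ : ∃ R', R + R' = 2 * N := ⟨2 * N - R, by omega⟩
        have h3 := CS_reflect m hR' (by omega)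
        have h4 := CS_reflect (mb N m t) hR' (by omega)
        rw [hwin, hwin, hlt R' (by omega)] at h4
        have h5 := hw (-(R : ℤ))
        have h6 := hw (-(R' : ℤ))
        linarith
      · obtain ⟨R', rfl⟩ : ∃ R', R = R' + (2 * N + 1) := ⟨R - (2 * N + 1), by omega⟩
        have h3 := CS_add_window m N R'
        have h4 := CS_add_window (mb N m t) N R'
        rw [hwin, hwin] at h4
        have h5 := hw (-(R' : ℤ) - (2 * N + 1))
        have h6 := hw ((R' : ℤ) + 1)
        have h7 := ih R' (by omega)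
        linarith

/-- **pushing**: the sum against the kernel is bounded by interval sums -/
theorem Ker.tsum_le {q : ℤ → ℝ} (h : Ker q) {N : ℕ} {m : ℤ → ℝ} {t M : ℝ}
    (hM : ∀ x, |m x| ≤ M) (hw : ∀ x : ℤ, ∑ y ∈ Icc x (x + 2 * N), m y ≤ t) :
    ∑' y, q y * m y ≤ ∑ s ∈ range N, (PP N q s - PP N q ((s : ℤ) + 1)) * CS m s +
      PP N q N * t := by
  classical
  obtain ⟨M', hM'⟩ : ∃ M', ∀ x, |mb N m t x| ≤ M' := by
    refine ⟨|t - ∑ y ∈ Icc (-(N : ℤ) + 1) (N - 1), m y| + M, fun x => ?_⟩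
    have h0 : 0 ≤ M := (abs_nonneg _).trans (hM 0)
    have h1 := abs_nonneg (t - ∑ y ∈ Icc (-(N : ℤ) + 1) (N - 1), m y)
    simp only [mb]
    split_ifs
    · linarith
    · simp only [abs_zero]; linarith
    · linarith [hM ((x + N) % (2 * N + 1) - N)]
  have h1 := h.tsum_periodic N hM' (mb_periodic N m t)
  have h2 : CS (mb N m t) N = t := sum_mb N m t
  have h3 : ∀ s ∈ range N, (PP N q s - PP N q ((s : ℤ) + 1)) * CS (mb N m t) s =
      (PP N q s - PP N q ((s : ℤ) + 1)) * CS m s := by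
    intro s hs
    congr 1
    refine sum_congr rfl fun y hy => ?_
    rw [mem_Icc] at hy
    rw [mem_range] at hs
    rw [mb_of_mem m t (by rw [mem_W]; omega), if_neg (by omega), if_neg (by omega)]
  rw [h2, sum_congr rfl h3] at h1
  rw [← h1]
  have h4 := h.tsum_nonneg (d := fun y => mb N m t y - m y) (M := M' + M) (fun x => by
    have := abs_sub (mb N m t x) (m x)
    linarith [hM' x, hM x]) (fun R => by
    have h5 := CS_le_mb hw R
    have h6 : CS (fun y => mb N m t y - m y) R = CS (mb N m t) R - CS m R := by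
      simp only [CS, sum_sub_distrib]
    rw [h6]; linarith)
  have h5 : ∑' y, q y * (mb N m t y - m y) = ∑' y, q y * mb N m t y - ∑' y, q y * m y := by
    rw [← (h.mul_summable hM').tsum_sub (h.mul_summable hM)]
    exact tsum_congr fun y => by ring
  linarith

end Pool.Agent.J4.H68.LV
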