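import Pool.Agent.J4.H68.LV.D4b

/-!
# The discrete comparison theorem
-/

set_option autoImplicit false

open Finset Filter Topology

namespace Pool.Agent.J4.H68.LV

/-- convolution with an even kernel -/
noncomputable def cv (q m : ℤ → ℝ) (a : ℤ) : ℝ := ∑' y, q y * m (a + y)

lemma sum_Icc_shift (m : ℤ → ℝ) (a b c : ℤ) :
    ∑ y ∈ Icc b c, m (a + y) = ∑ y ∈ Icc (b + a) (c + a), m y := by
  refine sum_nbij' (fun y => a + y) (fun y => y - a) ?_ ?_ ?_ ?_ ?_
  · intro y hy; simp only [mem_Icc] at *; omega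
  · intro y hy; simp only [mem_Icc] at *; omega
  · intro y _; omega
  · intro y _; omega
  · intro y _; rfl

lemma CS_shift (m : ℤ → ℝ) (a : ℤ) (s : ℕ) :
    CS (fun y => m (a + y)) s = ∑ y ∈ Icc (a - s) (a + s), m y := by
  rw [CS, sum_Icc_shift]
  congr 1
  ext y; simp only [mem_Icc]; omega

lemma cv_nonneg {q m : ℤ → ℝ} (h : Ker q) (hm : ∀ x, 0 ≤ m x) (a : ℤ) : 0 ≤ cv q m a :=
  tsum_nonneg fun y => mul_nonneg (h.nonneg y) (hm _)

lemma cv_le {q m : ℤ → ℝ} (h : Ker q) {M : ℝ} (hm0 : ∀ x, 0 ≤ m x) (hm : ∀ x, m x ≤ M) (a : ℤ) :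
    cv q m a ≤ M * ∑' y, q y := by
  rw [cv, ← tsum_mul_left]
  refine Summable.tsum_le_tsum (fun y => ?_) (h.mul_summable (M := M) fun x => ?_)
    (h.summ.mul_left M)
  · rw [mul_comm]; exact mul_le_mul_of_nonneg_right (hm _) (h.nonneg y)
  · rw [abs_of_nonneg (hm0 _)]; exact hm _

lemma card_win {x : ℤ} {N : ℕ} : (Icc x (x + 2 * N)).card = 2 * N + 1 := by
  rw [Int.card_Icc]; omega

lemma T_top (N : ℕ) : T N (2 * N + 1) = W N :=
  eq_of_subset_of_card_le (T_sub _ _) (by rw [card_T le_rfl, card_W])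

lemma v_nonneg {N : ℕ} {w : ℕ → ℝ} (hw0 : ∀ i < 2 * N + 1, 0 ≤ w i) {v : ℤ → ℝ}
    (hv : ∀ x, v (x + (2 * N + 1)) = v x) (hvw : ∀ i < 2 * N + 1, v (sp i) = w i) (x : ℤ) :
    0 ≤ v x := by
  set c := (x + N) % (2 * N + 1) - N with hc
  have hcW : c ∈ W N := by
    have h1 := Int.emod_nonneg (x + N) (show (2 * (N : ℤ) + 1) ≠ 0 by omega)
    have h2 := Int.emod_lt_of_pos (x + N) (show (0 : ℤ) < 2 * (N : ℤ) + 1 by omega)
    rw [mem_W]; omega
  have h1 : v x = v c := by
    rw [← periodic_mul hv c ((x + N) / (2 * N + 1))]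
    congr 1
    have := Int.emod_add_ediv_mul (x + N) (2 * N + 1)
    linarith
  rw [h1]
  have h2 : c ∈ T N (2 * N + 1) := by rw [T_top]; exact hcW
  rw [T_eq le_rfl, mem_image] at h2
  obtain ⟨i, hi, hi2⟩ := h2
  rw [← hi2, hvw i (mem_range.1 hi)]
  exact hw0 i (mem_range.1 hi)

lemma v_bdd {N : ℕ} {v : ℤ → ℝ} (hv : ∀ x, v (x + (2 * N + 1)) = v x) : ∃ M, ∀ x, |v x| ≤ M := by
  refine ⟨∑ c ∈ W N, |v c|, fun x => ?_⟩
  set c := (x + N) % (2 * N + 1) - N with hc
  have hcW : c ∈ W N := by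
    have h1 := Int.emod_nonneg (x + N) (show (2 * (N : ℤ) + 1) ≠ 0 by omega)
    have h2 := Int.emod_lt_of_pos (x + N) (show (0 : ℤ) < 2 * (N : ℤ) + 1 by omega)
    rw [mem_W]; omega
  have h1 : v x = v c := by
    rw [← periodic_mul hv c ((x + N) / (2 * N + 1))]
    congr 1
    have := Int.emod_add_ediv_mul (x + N) (2 * N + 1)
    linarith
  rw [h1]
  exact single_le_sum (f := fun c => |v c|) (fun _ _ => abs_nonneg _) hcW

/-- the rearrangement inequality for the kernel -/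
theorem conv_riesz {N : ℕ} {q : ℤ → ℝ} (h : Ker q)
    (hP : ∀ s < N, PP N q ((s : ℤ) + 1) ≤ PP N q s) {w : ℕ → ℝ}
    (hw : ∀ i, i + 1 < 2 * N + 1 → w (i + 1) ≤ w i) (hw0 : ∀ i < 2 * N + 1, 0 ≤ w i)
    {m v : ℤ → ℝ} (hm0 : ∀ x, 0 ≤ m x) {M : ℝ} (hM : ∀ x, m x ≤ M)
    (hH : ∀ x : ℤ, ∀ B ⊆ Icc x (x + 2 * N), ∑ y ∈ B, m y ≤ PF w B.card)
    (hv : ∀ x, v (x + (2 * N + 1)) = v x) (hvw : ∀ i < 2 * N + 1, v (sp i) = w i)
    {x : ℤ} {A : Finset ℤ} (hA : A ⊆ Icc x (x + 2 * N)) :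
    ∑ a ∈ A, cv q m a ≤ ∑ a ∈ T N A.card, cv q v a := by
  have hcard : A.card ≤ 2 * N + 1 := by rw [← card_win (x := x) (N := N)]; exact card_le_card hA
  set κ : ℕ → ℝ := fun s => PP N q s - PP N q ((s : ℤ) + 1) with hκ
  have hκ0 : ∀ s ∈ range N, 0 ≤ κ s := fun s hs => by
    have := hP s (mem_range.1 hs)
    simp only [hκ]; linarith
  have h1 : ∀ a, cv q m a ≤ ∑ s ∈ range N, κ s * ∑ y ∈ Icc (a - s) (a + s), m y +
      PP N q N * PF w (2 * N + 1) := by
    intro a
    have h2 := h.tsum_le (N := N) (m := fun y => m (a + y)) (t := PF w (2 * N + 1)) (M := M)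
      (fun x => by rw [abs_of_nonneg (hm0 _)]; exact hM _) (fun x => by
        rw [sum_Icc_shift]
        have := hH (x + a) (Icc (x + a) (x + a + 2 * N)) (subset_refl _)
        rw [card_win] at this
        rw [show x + 2 * (N : ℤ) + a = x + a + 2 * N by ring]
        exact this)
    simp only [CS_shift] at h2
    exact h2
  obtain ⟨M', hM'⟩ := v_bdd hv
  have h3 : ∀ a, cv q v a = ∑ s ∈ range N, κ s * ∑ y ∈ Icc (a - s) (a + s), v y +
      PP N q N * PF w (2 * N + 1) := by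
    intro a
    have h2 := h.tsum_periodic N (v := fun y => v (a + y)) (M := M') (fun x => hM' _) (fun x => by
      rw [← add_assoc]; exact hv _)
    simp only [CS_shift] at h2
    have h4 : ∑ y ∈ Icc (a - (N : ℤ)) (a + N), v y = PF w (2 * N + 1) := by
      have h5 := window_const hv (a - N)
      rw [show a - (N : ℤ) + 2 * N = a + N by ring] at h5
      rw [h5, ← T_top, sum_T le_rfl, PF]
      exact sum_congr rfl fun i hi => hvw i (mem_range.1 hi)
    rw [h4] at h2
    exact h2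
  calc ∑ a ∈ A, cv q m a
      ≤ ∑ a ∈ A, (∑ s ∈ range N, κ s * ∑ y ∈ Icc (a - s) (a + s), m y +
          PP N q N * PF w (2 * N + 1)) := sum_le_sum fun a _ => h1 a
    _ = ∑ s ∈ range N, κ s * ∑ a ∈ A, ∑ y ∈ Icc (a - s) (a + s), m y +
          A.card * (PP N q N * PF w (2 * N + 1)) := by
        rw [sum_add_distrib, sum_comm, sum_const, nsmul_eq_mul]
        simp only [mul_sum]
    _ ≤ ∑ s ∈ range N, κ s * ∑ a ∈ T N A.card, ∑ y ∈ Icc (a - s) (a + s), v y +
          A.card * (PP N q N * PF w (2 * N + 1)) := by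
        refine add_le_add (sum_le_sum fun s hs => ?_) le_rfl
        exact mul_le_mul_of_nonneg_left
          (window_riesz (mem_range.1 hs).le hw hw0 hm0 hH hv hvw hA) (hκ0 s hs)
    _ = ∑ a ∈ T N A.card, (∑ s ∈ range N, κ s * ∑ y ∈ Icc (a - s) (a + s), v y +
          PP N q N * PF w (2 * N + 1)) := by
        rw [sum_add_distrib, sum_comm, sum_const, nsmul_eq_mul, card_T hcard]
        simp only [mul_sum]
    _ = _ := (sum_congr rfl fun a _ => (h3 a).symm)

/-- sorted enumeration of a finite set -/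
lemma exists_sorted' (B : Finset ℤ) (c : ℤ → ℝ) : ∃ e : ℕ → ℤ,
    Set.InjOn e (range B.card) ∧ (range B.card).image e = B ∧
    (∀ i, i + 1 < B.card → c (e (i + 1)) ≤ c (e i)) := by
  classical
  set n := B.card with hn
  set e0 : Fin n ≃ B := B.equivFin.symm with he0
  set f : Fin n → ℝ := fun i => -c (e0 i) with hf
  set σ := Tuple.sort f with hσ
  have hm : Monotone (f ∘ σ) := Tuple.monotone_sort f
  set e : ℕ → ℤ := fun i => if h : i < n then (e0 (σ ⟨i, h⟩) : ℤ) else 0 with he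
  have hinj : Set.InjOn e (range n) := by
    intro i hi j hj h
    simp only [coe_range, Set.mem_Iio] at hi hj
    simp only [he, dif_pos hi, dif_pos hj] at h
    have h1 := Subtype.ext h
    have h2 := σ.injective (e0.injective h1)
    exact congrArg Fin.val h2
  refine ⟨e, hinj, ?_, ?_⟩
  · apply eq_of_subset_of_card_le
    · intro x hx
      obtain ⟨i, hi, rfl⟩ := mem_image.1 hx
      rw [mem_range] at hi
      simp only [he, dif_pos hi]
      exact (e0 (σ ⟨i, hi⟩)).2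
    · rw [card_image_of_injOn hinj, card_range]
  · intro i hi
    simp only [he, dif_pos hi, dif_pos (show i < n by omega)]
    have := hm (show (⟨i, by omega⟩ : Fin n) ≤ ⟨i + 1, hi⟩ from Nat.le_succ i)
    simp only [hf, Function.comp_apply] at this
    linarith

/-- fractional knapsack -/
lemma knapsack {B : Finset ℤ} {γ h : ℤ → ℝ} (hγ1 : ∀ i ∈ B, γ i ≤ 1) (hγ0 : ∀ i ∈ B, 0 ≤ γ i)
    (h0 : ∀ i ∈ B, 0 ≤ h i) {Γ : ℕ} (hΓ : ∑ i ∈ B, γ i ≤ Γ) :
    ∃ A ⊆ B, A.card = min B.card Γ ∧ ∑ i ∈ B, γ i * h i ≤ ∑ i ∈ A, h i := by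
  classical
  obtain ⟨e, he1, he2, he3⟩ := exists_sorted' B h
  have hemem : ∀ i < B.card, e i ∈ B := fun i hi => by
    rw [← he2]; exact mem_image_of_mem e (mem_range.2 hi)
  have hinj : ∀ j ≤ B.card, Set.InjOn e (range j) := fun j hj => he1.mono (by
    intro x hx; simp only [coe_range, Set.mem_Iio] at *; omega)
  have hsubj : ∀ j ≤ B.card, (range j).image e ⊆ B := by
    intro j hj x hx
    obtain ⟨i, hi, rfl⟩ := mem_image.1 hx
    exact hemem i (by rw [mem_range] at hi; omega)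
  refine ⟨(range (min B.card Γ)).image e, hsubj _ (min_le_left _ _), ?_, ?_⟩
  · rw [card_image_of_injOn (hinj _ (min_le_left _ _)), card_range]
  · have h1 : ∑ i ∈ B, γ i * h i = ∑ i ∈ range B.card, h (e i) * γ (e i) := by
      nth_rewrite 1 [← he2]
      rw [sum_image he1]
      exact sum_congr rfl fun i _ => mul_comm _ _
    have h2 : ∑ i ∈ (range (min B.card Γ)).image e, h i =
        ∑ i ∈ range B.card, h (e i) * (if i < Γ then 1 else 0) := by
      rw [sum_image (hinj _ (min_le_left _ _))]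
      simp only [mul_ite, mul_one, mul_zero]
      rw [← sum_filter]
      congr 1
      ext i
      simp only [mem_filter, mem_range]
      omega
    rw [h1, h2]
    refine abel he3 (fun i hi => h0 _ (hemem i hi)) fun k hk => ?_
    have h3 : ∑ i ∈ range k, (if i < Γ then (1 : ℝ) else 0) = ((min k Γ : ℕ) : ℝ) := by
      rw [← sum_filter, sum_const, nsmul_eq_mul, mul_one]
      congr 1
      rw [show (range k).filter (fun i => i < Γ) = range (min k Γ) by
        ext i; simp only [mem_filter, mem_range]; omega, card_range]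
    rw [h3]
    have h4 : ∑ i ∈ range k, γ (e i) ≤ k := by
      calc ∑ i ∈ range k, γ (e i) ≤ ∑ i ∈ range k, (1 : ℝ) :=
            sum_le_sum fun i hi => hγ1 _ (hemem i (by rw [mem_range] at hi; omega))
        _ = k := by simp
    have h5 : ∑ i ∈ range k, γ (e i) ≤ Γ := by
      rw [← sum_image (hinj k hk)]
      exact (sum_le_sum_of_subset_of_nonneg (hsubj k hk) fun i hi _ => hγ0 i hi).trans hΓ
    push_cast
    exact le_min h4 h5

end Pool.Agent.J4.H68.LV
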