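import Pool.Agent.J4.H68.LV.D5

/-!
# The discrete comparison theorem: iteration
-/

set_option autoImplicit false

open Finset Filter Topology

namespace Pool.Agent.J4.H68.LV

lemma PF_mono {w : ℕ → ℝ} {n : ℕ} (hw0 : ∀ i < n, 0 ≤ w i) {a b : ℕ} (hab : a ≤ b) (hb : b ≤ n) :
    PF w a ≤ PF w b := by
  refine sum_le_sum_of_subset_of_nonneg (range_subset_range.2 hab) fun i hi _ => hw0 i ?_
  rw [mem_range] at hi; omega

lemma cv_smul (q m : ℤ → ℝ) (κ : ℝ) (a : ℤ) : cv q (fun y => κ * m y) a = κ * cv q m a := by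
  rw [cv, cv, ← tsum_mul_left]
  exact tsum_congr fun y => by ring

lemma PF_smul (w : ℕ → ℝ) (κ : ℝ) (b : ℕ) : PF (fun i => κ * w i) b = κ * PF w b := by
  rw [PF, PF, mul_sum]

theorem disc_main {N : ℕ} {q : ℤ → ℝ} (h : Ker q)
    (hP : ∀ s < N, PP N q ((s : ℤ) + 1) ≤ PP N q s) {t η : ℝ} (ht : 0 < t) (hη : 0 ≤ η)
    {m γ : ℤ → ℝ} {M : ℝ} (hm0 : ∀ x, 0 ≤ m x) (hM : ∀ x, m x ≤ M) (hγ0 : ∀ x, 0 ≤ γ x)
    (hγ1 : ∀ x, γ x ≤ 1) {Γ : ℕ}
    (hwin : ∀ x : ℤ, ∑ y ∈ Icc x (x + 2 * N), γ y ≤ Γ)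
    (hmq : ∀ i, m i ≤ γ i * (t + (1 + η) * cv q m i)) {w : ℕ → ℝ}
    (hw : ∀ i, i + 1 < 2 * N + 1 → w (i + 1) ≤ w i) (hw0 : ∀ i < 2 * N + 1, 0 ≤ w i)
    {v : ℤ → ℝ} (hv : ∀ x, v (x + (2 * N + 1)) = v x) (hvw : ∀ i < 2 * N + 1, v (sp i) = w i)
    (hsup : ∀ i < Γ, t + (1 + η) * cv q v (sp i) ≤ w i) (x : ℤ) (B : Finset ℤ)
    (hB : B ⊆ Icc x (x + 2 * N)) : ∑ y ∈ B, m y ≤ PF w B.card := by
  have hη1 : 0 < 1 + η := by linarith
  have hv0 := v_nonneg hw0 hv hvw
  have hcardB : ∀ {x : ℤ} {B : Finset ℤ}, B ⊆ Icc x (x + 2 * N) → B.card ≤ 2 * N + 1 :=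
    fun {x} {B} hB => by rw [← card_win (x := x) (N := N)]; exact card_le_card hB
  have hwin' : ∀ {x : ℤ} {B : Finset ℤ}, B ⊆ Icc x (x + 2 * N) → ∑ i ∈ B, γ i ≤ Γ :=
    fun {x} {B} hB => (sum_le_sum_of_subset_of_nonneg hB fun i _ _ => hγ0 i).trans (hwin x)
  set V := max (w 0) t with hV
  have hV0 : 0 < V := lt_of_lt_of_le ht (le_max_right _ _)
  have htV : t ≤ V := le_max_right _ _
  have hwV : ∀ i < 2 * N + 1, w i ≤ V := fun i hi =>
    (wmono hw (Nat.zero_le i) hi).trans (le_max_left _ _)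
  have hwt : ∀ i < Γ, t ≤ w i := fun i hi => by
    have := hsup i hi
    have := mul_nonneg hη1.le (cv_nonneg h hv0 (sp i))
    linarith
  -- one step
  have step : ∀ κ : ℝ, 1 ≤ κ →
      (∀ x : ℤ, ∀ B ⊆ Icc x (x + 2 * N), ∑ y ∈ B, m y ≤ κ * PF w B.card) →
      ∀ x : ℤ, ∀ B ⊆ Icc x (x + 2 * N),
        ∑ y ∈ B, m y ≤ (1 + (κ - 1) * (1 - t / V)) * PF w B.card := by
    intro κ hκ hcl x B hB
    have hκ0 : 0 ≤ κ := by linarith
    set hh : ℤ → ℝ := fun i => t + (1 + η) * cv q m i with hhh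
    have hh0 : ∀ i, 0 ≤ hh i := fun i => by
      have := mul_nonneg hη1.le (cv_nonneg h hm0 i)
      simp only [hhh]; linarith
    obtain ⟨A, hAB, hAc, hAs⟩ := knapsack (B := B) (γ := γ) (h := hh) (fun i _ => hγ1 i)
      (fun i _ => hγ0 i) (fun i _ => hh0 i) (hwin' hB)
    have hA := hAB.trans hB
    have hAΓ : A.card ≤ Γ := by rw [hAc]; exact min_le_right _ _
    have hAn := hcardB hA
    have h1 : ∑ y ∈ B, m y ≤ ∑ i ∈ A, hh i :=
      (sum_le_sum fun i _ => hmq i).trans hAs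
    have h2 := conv_riesz h hP (w := fun i => κ * w i) (v := fun y => κ * v y) (m := m)
      (fun i hi => mul_le_mul_of_nonneg_left (hw i hi) hκ0)
      (fun i hi => mul_nonneg hκ0 (hw0 i hi)) hm0 hM
      (fun x B hB => by rw [PF_smul]; exact hcl x B hB)
      (fun x => by rw [hv]) (fun i hi => by rw [hvw i hi]) hA
    simp only [cv_smul] at h2
    have h3 : ∑ i ∈ A, hh i ≤ ∑ i ∈ range A.card, (κ * w i - (κ - 1) * t) := by
      have e1 : ∑ i ∈ A, hh i = A.card * t + (1 + η) * ∑ i ∈ A, cv q m i := by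
        simp only [hhh]
        rw [sum_add_distrib, sum_const, nsmul_eq_mul, mul_sum]
      rw [e1]
      have e2 : A.card * t + (1 + η) * ∑ i ∈ T N A.card, κ * cv q v i =
          ∑ i ∈ range A.card, (t + (1 + η) * (κ * cv q v (sp i))) := by
        rw [sum_T hAn, sum_add_distrib, sum_const, nsmul_eq_mul, card_range, mul_sum]
      have e3 : ∑ i ∈ range A.card, (t + (1 + η) * (κ * cv q v (sp i))) ≤
          ∑ i ∈ range A.card, (κ * w i - (κ - 1) * t) := by
        refine sum_le_sum fun i hi => ?_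
        have := hsup i (by rw [mem_range] at hi; omega)
        nlinarith
      have e4 := mul_le_mul_of_nonneg_left h2 hη1.le
      linarith
    have h4 : ∑ i ∈ range A.card, (κ * w i - (κ - 1) * t) =
        κ * PF w A.card - (κ - 1) * (t * A.card) := by
      rw [sum_sub_distrib, sum_const, nsmul_eq_mul, card_range, ← mul_sum, PF]
      ring
    have h5 : PF w A.card ≤ A.card * V := by
      rw [PF]
      calc ∑ i ∈ range A.card, w i ≤ ∑ i ∈ range A.card, V :=
            sum_le_sum fun i hi => hwV i (by rw [mem_range] at hi; omega)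
        _ = A.card * V := by rw [sum_const, nsmul_eq_mul, card_range]
    have h6 : t / V * PF w A.card ≤ t * A.card := by
      calc t / V * PF w A.card ≤ t / V * (A.card * V) :=
            mul_le_mul_of_nonneg_left h5 (div_nonneg ht.le hV0.le)
        _ = t * A.card := by field_simp
    have h7 : PF w A.card ≤ PF w B.card := PF_mono hw0 (card_le_card hAB) (hcardB hB)
    have h8 : 0 ≤ 1 + (κ - 1) * (1 - t / V) := by
      have : t / V ≤ 1 := (div_le_one hV0).2 htV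
      have := mul_nonneg (sub_nonneg.2 hκ) (sub_nonneg.2 this)
      linarith
    calc ∑ y ∈ B, m y ≤ κ * PF w A.card - (κ - 1) * (t * A.card) := by linarith
      _ ≤ κ * PF w A.card - (κ - 1) * (t / V * PF w A.card) := by
          have := mul_le_mul_of_nonneg_left h6 (sub_nonneg.2 hκ)
          linarith
      _ = (1 + (κ - 1) * (1 - t / V)) * PF w A.card := by ring
      _ ≤ _ := mul_le_mul_of_nonneg_left h7 h8
  -- start
  set H := t + (1 + η) * (M * ∑' y, q y) with hH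
  have hHt : t ≤ H := by
    have h1 : 0 ≤ M := (hm0 0).trans (hM 0)
    have h2 : 0 ≤ ∑' y, q y := tsum_nonneg h.nonneg
    have := mul_nonneg hη1.le (mul_nonneg h1 h2)
    linarith
  have start : ∀ x : ℤ, ∀ B ⊆ Icc x (x + 2 * N), ∑ y ∈ B, m y ≤ H / t * PF w B.card := by
    intro x B hB
    have h1 : ∑ y ∈ B, m y ≤ H * ∑ y ∈ B, γ y := by
      rw [mul_sum]
      refine sum_le_sum fun i _ => (hmq i).trans ?_
      rw [mul_comm]
      refine mul_le_mul_of_nonneg_right ?_ (hγ0 i)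
      have := mul_le_mul_of_nonneg_left (cv_le h hm0 hM i) hη1.le
      linarith
    have h2 : ∑ y ∈ B, γ y ≤ ((min B.card Γ : ℕ) : ℝ) := by
      push_cast
      refine le_min ?_ (hwin' hB)
      calc ∑ y ∈ B, γ y ≤ ∑ y ∈ B, (1 : ℝ) := sum_le_sum fun i _ => hγ1 i
        _ = B.card := by simp
    have h3 : t * ((min B.card Γ : ℕ) : ℝ) ≤ PF w (min B.card Γ) := by
      rw [PF]
      calc t * ((min B.card Γ : ℕ) : ℝ) = ∑ i ∈ range (min B.card Γ), t := by
            rw [sum_const, nsmul_eq_mul, card_range, mul_comm]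
        _ ≤ _ := sum_le_sum fun i hi => hwt i (by
            have := mem_range.1 hi
            omega)
    have h4 : PF w (min B.card Γ) ≤ PF w B.card := PF_mono hw0 (min_le_left _ _) (hcardB hB)
    have hH0 : 0 ≤ H := ht.le.trans hHt
    calc ∑ y ∈ B, m y ≤ H * ((min B.card Γ : ℕ) : ℝ) :=
          h1.trans (mul_le_mul_of_nonneg_left h2 hH0)
      _ = H / t * (t * ((min B.card Γ : ℕ) : ℝ)) := by field_simp
      _ ≤ H / t * PF w B.card := mul_le_mul_of_nonneg_left (h3.trans h4) (div_nonneg hH0 ht.le)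
  have hκ1 : 1 ≤ H / t := (one_le_div ht).2 hHt
  have hρ0 : 0 ≤ 1 - t / V := sub_nonneg.2 ((div_le_one hV0).2 htV)
  have hρ1 : 1 - t / V < 1 := by
    have : 0 < t / V := div_pos ht hV0
    linarith
  have iter : ∀ n : ℕ, ∀ x : ℤ, ∀ B ⊆ Icc x (x + 2 * N),
      ∑ y ∈ B, m y ≤ (1 + (H / t - 1) * (1 - t / V) ^ n) * PF w B.card := by
    intro n
    induction n with
    | zero =>
      intro x B hB
      have := start x B hB
      simpa using this
    | succ n ih =>
      intro x B hB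
      have h1 : 1 ≤ 1 + (H / t - 1) * (1 - t / V) ^ n := by
        have := mul_nonneg (sub_nonneg.2 hκ1) (pow_nonneg hρ0 n)
        linarith
      have h2 := step _ h1 ih x B hB
      rw [add_sub_cancel_left, mul_assoc, ← pow_succ] at h2
      exact h2
  have hlim : Tendsto (fun n : ℕ => (1 + (H / t - 1) * (1 - t / V) ^ n) * PF w B.card) atTop
      (𝓝 ((1 + (H / t - 1) * 0) * PF w B.card)) :=
    ((tendsto_const_nhds.add ((tendsto_pow_atTop_nhds_zero_of_lt_one hρ0 hρ1).const_mul _)).mul_const _)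
  have := ge_of_tendsto' hlim fun n => iter n x B hB
  simpa using this

end Pool.Agent.J4.H68.LV
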