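import Pool.Agent.J4.H68.LV.D6

/-!
# The discrete deficit inequality
-/

set_option autoImplicit false

open Finset Filter Topology

namespace Pool.Agent.J4.H68.LV

lemma CS_eq_PF {N : ℕ} {w : ℕ → ℝ} {v : ℤ → ℝ} (hvw : ∀ i < 2 * N + 1, v (sp i) = w i) {s : ℕ}
    (hs : s ≤ N) : CS v s = PF w (2 * s + 1) := by
  have h1 : CS v s = ∑ y ∈ W s, v y := rfl
  rw [h1, ← T_top, sum_T le_rfl, PF]
  exact sum_congr rfl fun i hi => hvw i (by rw [mem_range] at hi; omega)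

/-- discrete deficit inequality -/
theorem disc_deficit {N : ℕ} {q : ℤ → ℝ} (h : Ker q)
    (hP : ∀ s < N, PP N q ((s : ℤ) + 1) ≤ PP N q s) {w : ℕ → ℝ}
    {m v : ℤ → ℝ} (hm0 : ∀ x, 0 ≤ m x) {M : ℝ} (hM : ∀ x, m x ≤ M)
    (hH : ∀ x : ℤ, ∀ B ⊆ Icc x (x + 2 * N), ∑ y ∈ B, m y ≤ PF w B.card)
    (hv : ∀ x, v (x + (2 * N + 1)) = v x) (hvw : ∀ i < 2 * N + 1, v (sp i) = w i)
    {j₁ j₂ : ℕ} (h12 : j₁ ≤ j₂) (h2 : j₂ ≤ N) {D : ℝ}
    (hD : ∀ s, j₁ ≤ s → s < j₂ → D ≤ CS v s - CS m s) :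
    cv q m 0 + D * (PP N q j₁ - PP N q j₂) ≤ cv q v 0 := by
  set κ : ℕ → ℝ := fun s => PP N q s - PP N q ((s : ℤ) + 1) with hκ
  have hκ0 : ∀ s ∈ range N, 0 ≤ κ s := fun s hs => by
    have := hP s (mem_range.1 hs)
    simp only [hκ]; linarith
  have h1 : cv q m 0 ≤ ∑ s ∈ range N, κ s * CS m s + PP N q N * PF w (2 * N + 1) := by
    have h3 := h.tsum_le (N := N) (m := m) (t := PF w (2 * N + 1)) (M := M)
      (fun x => by rw [abs_of_nonneg (hm0 _)]; exact hM _) (fun x => by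
        have := hH x (Icc x (x + 2 * N)) (subset_refl _)
        rw [card_win] at this
        exact this)
    simpa [cv] using h3
  obtain ⟨M', hM'⟩ := v_bdd hv
  have h3 : cv q v 0 = ∑ s ∈ range N, κ s * CS v s + PP N q N * PF w (2 * N + 1) := by
    have h4 := h.tsum_periodic N (v := v) (M := M') hM' hv
    rw [CS_eq_PF hvw le_rfl] at h4
    simpa [cv] using h4
  have hnn : ∀ s ∈ range N, 0 ≤ κ s * (CS v s - CS m s) := by
    intro s hs
    refine mul_nonneg (hκ0 s hs) ?_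
    have hs' := mem_range.1 hs
    have h5 := hH (-(s : ℤ)) (Icc (-(s : ℤ)) s) (by
      intro y hy
      rw [mem_Icc] at hy ⊢
      omega)
    have h6 : (Icc (-(s : ℤ)) s).card = 2 * s + 1 := by rw [Int.card_Icc]; omega
    rw [h6] at h5
    rw [CS_eq_PF hvw hs'.le, CS]
    linarith
  have h4 : ∑ s ∈ Ico j₁ j₂, κ s * D ≤ ∑ s ∈ range N, κ s * (CS v s - CS m s) := by
    have hsub : Ico j₁ j₂ ⊆ range N := by
      intro s hs
      rw [Finset.mem_Ico] at hs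
      rw [mem_range]; omega
    refine le_trans (sum_le_sum fun s hs => ?_) (sum_le_sum_of_subset_of_nonneg hsub
      fun s hs _ => hnn s hs)
    rw [Finset.mem_Ico] at hs
    exact mul_le_mul_of_nonneg_left (hD s hs.1 hs.2) (hκ0 s (mem_range.2 (by omega)))
  have h5 : ∑ s ∈ Ico j₁ j₂, κ s * D = D * (PP N q j₁ - PP N q j₂) := by
    rw [← sum_mul]
    have h6 : ∑ s ∈ Ico j₁ j₂, κ s = PP N q j₁ - PP N q j₂ := by
      have h7 := Finset.sum_Ico_sub (f := fun s : ℕ => PP N q (s : ℤ)) h12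
      have h8 : ∑ s ∈ Ico j₁ j₂, κ s = -∑ s ∈ Ico j₁ j₂,
          (PP N q ((s + 1 : ℕ) : ℤ) - PP N q (s : ℤ)) := by
        rw [← sum_neg_distrib]
        refine sum_congr rfl fun s _ => ?_
        simp only [hκ]
        push_cast
        ring
      rw [h8, h7]
      ring
    rw [h6]; ring
  have h6 : ∑ s ∈ range N, κ s * (CS v s - CS m s) =
      ∑ s ∈ range N, κ s * CS v s - ∑ s ∈ range N, κ s * CS m s := by
    rw [← sum_sub_distrib]
    exact sum_congr rfl fun s _ => by ring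
  rw [h3]
  linarith

end Pool.Agent.J4.H68.LV
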