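import Mathlib

/-!
# The Poisson formula on discs tangent to the real axis
-/

set_option autoImplicit false

open MeasureTheory Set Filter Topology Real Metric

namespace Pool.Agent.J4.H68.LV

/-- The Poisson (Cauchy) kernel of the upper half plane. -/
noncomputable def pk (y x : ℝ) : ℝ := y / (π * (x ^ 2 + y ^ 2))

/-- the point of the tangent circle of radius `R` at arc length `s` -/
noncomputable def zR (R s : ℝ) : ℂ := ⟨R * sin (s / R), R * (1 - cos (s / R))⟩

/-- the Poisson kernel of the tangent disc in arc length -/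
noncomputable def kR (R : ℝ) (w : ℂ) (s : ℝ) : ℝ :=
  (2 * R * w.im - ‖w‖ ^ 2) / (2 * π * R * ‖zR R s - w‖ ^ 2)

lemma pk_nonneg {y : ℝ} (hy : 0 ≤ y) (x : ℝ) : 0 ≤ pk y x := by
  unfold pk; positivity

lemma pk_cont {y : ℝ} (hy : 0 < y) : Continuous (pk y) := by
  unfold pk
  refine continuous_const.div (by fun_prop) fun x => ?_
  positivity

/-- the closed upper half plane -/
def HC : Set ℂ := {z | 0 ≤ z.im}

/-- the open upper half plane -/
def HO : Set ℂ := {z | 0 < z.im}

lemma zR_mem {R : ℝ} (hR : 0 < R) (s : ℝ) : zR R s ∈ HC := by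
  simp only [HC, zR, mem_ofPred_eq]
  exact mul_nonneg hR.le (by linarith [cos_le_one (s / R)])

lemma zR_cont (R : ℝ) : Continuous (zR R) := by
  have : zR R = fun s : ℝ => ((R * sin (s / R) : ℝ) : ℂ) + ((R * (1 - cos (s / R)) : ℝ) : ℂ) *
      Complex.I := by
    funext s
    apply Complex.ext
    · simp only [zR, Complex.add_re, Complex.mul_re, Complex.ofReal_re, Complex.ofReal_im,
        Complex.I_re, Complex.I_im]
      ring
    · simp only [zR, Complex.add_im, Complex.mul_im, Complex.ofReal_re, Complex.ofReal_im,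
        Complex.I_re, Complex.I_im]
      ring
  rw [this]
  fun_prop

lemma norm_zR_sq (R s : ℝ) : ‖zR R s‖ ^ 2 = 2 * R ^ 2 * (1 - cos (s / R)) := by
  rw [← Complex.normSq_eq_norm_sq, Complex.normSq_apply]
  simp only [zR]
  have := sin_sq_add_cos_sq (s / R)
  nlinarith

lemma zR_sub_center {R : ℝ} (hR : 0 < R) (s : ℝ) : ‖zR R s - R * Complex.I‖ = R := by
  have h : ‖zR R s - R * Complex.I‖ ^ 2 = R ^ 2 := by
    rw [← Complex.normSq_eq_norm_sq, Complex.normSq_apply]
    simp only [zR, Complex.sub_re, Complex.sub_im, Complex.mul_re, Complex.mul_im,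
      Complex.ofReal_re, Complex.ofReal_im, Complex.I_re, Complex.I_im]
    have := sin_sq_add_cos_sq (s / R)
    nlinarith
  exact (sq_eq_sq₀ (norm_nonneg _) hR.le).1 h

lemma center_sq (R : ℝ) (w : ℂ) : R ^ 2 - ‖w - R * Complex.I‖ ^ 2 = 2 * R * w.im - ‖w‖ ^ 2 := by
  rw [← Complex.normSq_eq_norm_sq, ← Complex.normSq_eq_norm_sq, Complex.normSq_apply,
    Complex.normSq_apply]
  simp only [Complex.sub_re, Complex.sub_im, Complex.mul_re, Complex.mul_im,
    Complex.ofReal_re, Complex.ofReal_im, Complex.I_re, Complex.I_im]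
  ring

lemma circleMap_zR {R : ℝ} (s : ℝ) :
    circleMap (R * Complex.I) R (s / R - π / 2) = zR R s := by
  have h : Complex.exp (((s / R - π / 2 : ℝ) : ℂ) * Complex.I) =
      ⟨sin (s / R), -cos (s / R)⟩ := by
    rw [Complex.exp_mul_I, ← Complex.ofReal_cos, ← Complex.ofReal_sin, cos_sub_pi_div_two,
      sin_sub_pi_div_two]
    apply Complex.ext
    · simp only [Complex.add_re, Complex.mul_re, Complex.ofReal_re, Complex.ofReal_im,
        Complex.I_re, Complex.I_im]
      ring
    · simp only [Complex.add_im, Complex.mul_im, Complex.ofReal_re, Complex.ofReal_im,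
        Complex.I_re, Complex.I_im]
      ring
  rw [circleMap, h]
  apply Complex.ext <;> simp [zR] <;> ring

/-- The Poisson formula on the tangent disc. -/
lemma tangent_poisson {U : ℂ → ℝ} (hc : ContinuousOn U HC)
    (hh : InnerProductSpace.HarmonicOnNhd U HO) {R : ℝ} (hR : 0 < R) {w : ℂ}
    (hw : ‖w‖ ^ 2 < 2 * R * w.im) :
    U w = ∫ s in (-(π * R))..(π * R), kR R w s * U (zR R s) := by
  have hball : ball ((R : ℂ) * Complex.I) R ⊆ HO := by
    intro z hz
    rw [mem_ball, dist_eq_norm] at hz
    have h1 : |(z - R * Complex.I).im| < R := lt_of_le_of_lt (Complex.abs_im_le_norm _) hz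
    simp only [Complex.sub_im, Complex.mul_im, Complex.ofReal_re, Complex.ofReal_im,
      Complex.I_re, Complex.I_im] at h1
    rw [abs_lt] at h1
    simp only [HO, mem_ofPred_eq]
    linarith
  have hcball : closedBall ((R : ℂ) * Complex.I) R ⊆ HC := by
    intro z hz
    rw [mem_closedBall, dist_eq_norm] at hz
    have h1 : |(z - R * Complex.I).im| ≤ R := (Complex.abs_im_le_norm _).trans hz
    simp only [Complex.sub_im, Complex.mul_im, Complex.ofReal_re, Complex.ofReal_im,
      Complex.I_re, Complex.I_im] at h1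
    rw [abs_le] at h1
    simp only [HC, mem_ofPred_eq]
    linarith
  have hcl : InnerProductSpace.HarmonicContOnCl U (ball ((R : ℂ) * Complex.I) R) :=
    ⟨hh.mono hball, by rw [closure_ball _ hR.ne']; exact hc.mono hcball⟩
  have hwb : w ∈ ball ((R : ℂ) * Complex.I) R := by
    rw [mem_ball, dist_eq_norm]
    have := center_sq R w
    exact lt_of_pow_lt_pow_left₀ 2 hR.le (by linarith)
  have h1 := hcl.circleAverage_poissonKernel_smul hwb
  rw [circleAverage_def] at h1
  set Φ : ℝ → ℝ := fun θ => (poissonKernel (R * Complex.I) w • U) (circleMap (R * Complex.I) R θ)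
    with hΦ
  have hper : Function.Periodic Φ (2 * π) := fun θ => by
    simp only [hΦ]
    rw [periodic_circleMap]
  have h2 : ∫ θ in (0 : ℝ)..2 * π, Φ θ = ∫ θ in (-π - π / 2)..(π - π / 2), Φ θ := by
    have := hper.intervalIntegral_add_eq 0 (-π - π / 2)
    rw [zero_add] at this
    rw [this]
    congr 1
    ring
  have h3 : ∫ s in (-(π * R))..(π * R), Φ (s / R - π / 2) =
      R • ∫ θ in (-π - π / 2)..(π - π / 2), Φ θ := by
    rw [intervalIntegral.integral_comp_div_sub (f := Φ) hR.ne' (π / 2)]
    congr 2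
    · field_simp
    · field_simp
  have h4 : ∀ s, kR R w s * U (zR R s) = (2 * π * R)⁻¹ * Φ (s / R - π / 2) := by
    intro s
    simp only [hΦ, Pi.smul_apply', circleMap_zR, smul_eq_mul]
    rw [poissonKernel_def, zR_sub_center hR, center_sq, kR]
    have : zR R s - R * Complex.I - (w - R * Complex.I) = zR R s - w := by ring
    rw [this]
    field_simp
  simp only [h4]
  rw [intervalIntegral.integral_const_mul, h3, ← h2, ← h1]
  simp only [smul_eq_mul]
  field_simp

end Pool.Agent.J4.H68.LV
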