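import Pool.Agent.J4.H68.LV.R9d

/-!
# The sharp bound for the extremal functions
-/

set_option autoImplicit false

open MeasureTheory Set Filter Topology Real

namespace Pool.Agent.J4.H68.LV

/-- Translation of the data. -/
lemma Sb.trans {δ M : ℝ} {G : Set ℝ} {u : ℝ → ℝ} (h : Sb δ M G u) (c : ℝ) :
    Sb δ M ((fun x => x + c) ⁻¹' G) (fun x => u (x + c)) where
  cont := h.cont.comp (by fun_prop)
  nn x := h.nn _
  le x := h.le _
  meas := h.meas.preimage (by fun_prop)
  off x hx := h.off _ hx
  gap a := by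
    have h1 : (fun x => x + c) ⁻¹' G ∩ Ioc a (a + 1) =
        (fun x => x + c) ⁻¹' (G ∩ Ioc (a + c) (a + c + 1)) := by
      ext x
      simp only [mem_inter_iff, mem_preimage, mem_Ioc]
      constructor
      · rintro ⟨h1, h2, h3⟩
        exact ⟨h1, by linarith, by linarith⟩
      · rintro ⟨h1, h2, h3⟩
        exact ⟨h1, by linarith, by linarith⟩
    rw [h1, Measure.real, measure_preimage_add_right]
    exact h.gap (a + c)
  step t ht x := by
    have h1 := h.step t ht (x + c)
    have h2 : ∫ s, pk t (x - s) * u (s + c) = ∫ s, pk t (x + c - s) * u s := by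
      rw [← integral_add_right_eq_self (fun s => pk t (x + c - s) * u s) c]
      congr 1
      funext s
      congr 2
      ring
    rw [h2]
    exact h1

lemma Lev.sb {E : Set ℝ} {U : ℂ → ℝ} (h : Lev E U) (hE : IsClosed E) {δ : ℝ} (hδ : 0 < δ)
    (hδ1 : δ ≤ 1) (ht : Thick E δ) : Sb δ ((18 / δ) ^ 2) Eᶜ (fun x : ℝ => U x) where
  cont := h.cont.comp Complex.continuous_ofReal
  nn x := h.nonneg _
  le x := h.bdd hE hδ hδ1 ht x
  meas := hE.measurableSet.compl
  off x hx := h.zero x (by simpa using hx)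
  gap a := by
    have h1 := thick_ioc ht a
    have h2 : volume.real (Ioc a (a + 1) \ E) =
        volume.real (Ioc a (a + 1)) - volume.real (Ioc a (a + 1) ∩ E) := by
      rw [← measureReal_inter_add_sdiff (μ := volume) (s := Ioc a (a + 1)) hE.measurableSet (by simp)]
      ring
    have h3 : Eᶜ ∩ Ioc a (a + 1) = Ioc a (a + 1) \ E := by
      ext x
      simp only [mem_inter_iff, mem_compl_iff, Set.mem_sdiff]
      tauto
    rw [h3, h2, inter_comm, Real.volume_real_Ioc_of_le (by linarith)]
    linarith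
  step t ht x := h.one_step x ht

/-- **The sharp bound.** -/
theorem Lev.sharp {E : Set ℝ} {U : ℂ → ℝ} (h : Lev E U) (hE : IsClosed E) {δ : ℝ} (hδ : 0 < δ)
    (hδ1 : δ < 1) (ht : Thick E δ) (x : ℝ) : U x ≤ ue ((1 - δ) / 2) 0 := by
  have h1 := sharp_zero ((h.sb hE hδ hδ1.le ht).trans x) hδ hδ1
  simpa using h1

end Pool.Agent.J4.H68.LV
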