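import Pool.Agent.J4.H68.LV.R10
import Pool.Agent.J4.H68.LV.D7

/-!
# The deficit inequality
-/

set_option autoImplicit false

open MeasureTheory Set Filter Topology Real

namespace Pool.Agent.J4.H68.LV

/-- the loss caused by a change of the width -/
noncomputable def th (a b : ℝ) : ℝ := π⁻¹ * arcosh (cos (π * a) / cos (π * b))

lemma cos_anti' {a b : ℝ} (ha0 : 0 < a) (hab : a ≤ b) (hb : b < 1 / 2) :
    cos (π * b) ≤ cos (π * a) := by
  apply cos_le_cos_of_nonneg_of_le_pi (by positivity)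
  · nlinarith [pi_pos]
  · gcongr

lemma th_nonneg {a b : ℝ} (ha0 : 0 < a) (hab : a ≤ b) (hb : b < 1 / 2) : 0 ≤ th a b :=
  mul_nonneg (by positivity)
    (arcosh_nonneg ((one_le_div (cpos (ha0.trans_le hab) hb)).2 (cos_anti' ha0 hab hb)))

lemma hh_scale {l : ℝ} (hl : 1 ≤ l) (w : ℂ) : hh (l * w) ≤ l * hh w := by
  have hl0 : 0 < l := by linarith
  set μ : ℝ := l⁻¹ with hμ
  have hμ0 : 0 < μ := by positivity
  have hμ1 : μ ≤ 1 := inv_le_one_of_one_le₀ hl
  have hlμ : l * μ = 1 := mul_inv_cancel₀ hl0.ne'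
  have hlμ' : (l : ℂ) * μ = 1 := by exact_mod_cast hlμ
  have e1 : (l : ℂ) * w - 1 = l * (w - μ) := by rw [mul_sub, hlμ']
  have e2 : (l : ℂ) * w + 1 = l * (w + μ) := by rw [mul_add, hlμ']
  have f1 : w - μ = (((1 + μ) / 2 : ℝ) : ℂ) * (w - 1) + (((1 - μ) / 2 : ℝ) : ℂ) * (w + 1) := by
    push_cast; ring
  have f2 : w + μ = (((1 - μ) / 2 : ℝ) : ℂ) * (w - 1) + (((1 + μ) / 2 : ℝ) : ℂ) * (w + 1) := by
    push_cast; ring
  have n1 : ‖w - μ‖ ≤ (1 + μ) / 2 * ‖w - 1‖ + (1 - μ) / 2 * ‖w + 1‖ := by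
    rw [f1]
    refine (norm_add_le _ _).trans ?_
    rw [norm_mul, norm_mul, Complex.norm_real, Complex.norm_real, norm_eq_abs, norm_eq_abs,
      abs_of_nonneg (by linarith), abs_of_nonneg (by linarith)]
  have n2 : ‖w + μ‖ ≤ (1 - μ) / 2 * ‖w - 1‖ + (1 + μ) / 2 * ‖w + 1‖ := by
    rw [f2]
    refine (norm_add_le _ _).trans ?_
    rw [norm_mul, norm_mul, Complex.norm_real, Complex.norm_real, norm_eq_abs, norm_eq_abs,
      abs_of_nonneg (by linarith), abs_of_nonneg (by linarith)]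
  rw [hh, hh, e1, e2, norm_mul, norm_mul, Complex.norm_real, norm_eq_abs, abs_of_pos hl0]
  nlinarith

lemma UE_width {a b : ℝ} (ha0 : 0 < a) (hab : a ≤ b) (hb : b < 1 / 2) (z : ℂ) :
    UE b z ≤ UE a z + th a b := by
  have hca := cpos ha0 (hab.trans_lt hb)
  have hcb := cpos (ha0.trans_le hab) hb
  have h1 : 1 ≤ cos (π * a) / cos (π * b) := (one_le_div hcb).2 (cos_anti' ha0 hab hb)
  have e : ww b z = ((cos (π * a) / cos (π * b) : ℝ) : ℂ) * ww a z := by
    have h2 : (cos (π * a) : ℂ) ≠ 0 := by exact_mod_cast hca.ne'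
    have h3 : (cos (π * b) : ℂ) ≠ 0 := by exact_mod_cast hcb.ne'
    rw [ww, ww]
    push_cast at h2 h3 ⊢
    field_simp
  rw [UE, UE, th, ← mul_add, e]
  apply mul_le_mul_of_nonneg_left _ (by positivity)
  have h4 := one_le_hh (ww a z)
  have h5 : arcosh (hh (((cos (π * a) / cos (π * b) : ℝ) : ℂ) * ww a z)) ≤
      arcosh (cos (π * a) / cos (π * b) * hh (ww a z)) := by
    rw [arcosh_le_arcosh (by linarith [one_le_hh (((cos (π * a) / cos (π * b) : ℝ) : ℂ) * ww a z)])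
      (by positivity)]
    exact hh_scale h1 _
  refine h5.trans ((arcosh_mul_le h1 h4).trans ?_)
  rw [add_comm]

lemma ue_mono_width {a b : ℝ} (ha0 : 0 < a) (hab : a ≤ b) (hb : b < 1 / 2) (x : ℝ) :
    ue a x ≤ ue b x := by
  have hca := cpos ha0 (hab.trans_lt hb)
  have hcb := cpos (ha0.trans_le hab) hb
  rw [ue_eq ha0 (hab.trans_lt hb), ue_eq (ha0.trans_le hab) hb]
  apply mul_le_mul_of_nonneg_left _ (by positivity)
  rw [arcosh_le_arcosh (by positivity) (by positivity)]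
  apply max_le_max le_rfl
  exact div_le_div_of_nonneg_left (abs_nonneg _) hcb (cos_anti' ha0 hab hb)

lemma th_tendsto {a : ℝ} (ha0 : 0 < a) (ha : a < 1 / 2) :
    Tendsto (fun b : ℝ => th a b) (𝓝[>] a) (𝓝 0) := by
  have hc := cpos ha0 ha
  have h1 : Tendsto (fun b : ℝ => cos (π * a) / cos (π * b)) (𝓝[>] a) (𝓝[≥] 1) := by
    rw [tendsto_nhdsWithin_iff]
    constructor
    · have : Tendsto (fun b : ℝ => cos (π * a) / cos (π * b)) (𝓝 a)
          (𝓝 (cos (π * a) / cos (π * a))) := by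
        apply Tendsto.div tendsto_const_nhds _ hc.ne'
        apply Continuous.tendsto
        fun_prop
      rw [div_self hc.ne'] at this
      exact this.mono_left nhdsWithin_le_nhds
    · have h4 : ∀ᶠ b in 𝓝[>] a, b < 1 / 2 :=
        Filter.Eventually.filter_mono nhdsWithin_le_nhds (gt_mem_nhds ha)
      filter_upwards [self_mem_nhdsWithin, h4] with b hb1 hb2
      have hb1' : a < b := hb1
      exact (one_le_div (cpos (ha0.trans hb1') hb2)).2 (cos_anti' ha0 hb1'.le hb2)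
  have h2 : Tendsto arcosh (𝓝[≥] 1) (𝓝 (arcosh 1)) :=
    continuousOn_arcosh 1 (by simp)
  have h3 := (h2.comp h1).const_mul π⁻¹
  rw [arcosh_zero, mul_zero] at h3
  exact h3

/-- choice of small parameters -/
lemma small_params {a : ℝ} (ha0 : 0 < a) (ha : a < 1 / 2) {ε K : ℝ} (hε : 0 < ε) (hK : 0 ≤ K) :
    ∃ b κ ω : ℝ, a < b ∧ b < 1 / 2 ∧ 0 < κ ∧ 0 < ω ∧ κ * K + (1 + κ) * (th a b + ω) ≤ ε := by
  have h4 : ∀ᶠ b in 𝓝[>] a, b < 1 / 2 :=
    Filter.Eventually.filter_mono nhdsWithin_le_nhds (gt_mem_nhds ha)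
  have h5 : ∀ᶠ b in 𝓝[>] a, th a b < ε / 8 :=
    (th_tendsto ha0 ha).eventually (gt_mem_nhds (by positivity))
  have h6 : ∀ᶠ b in 𝓝[>] a, a < b := eventually_mem_nhdsWithin
  obtain ⟨b, hb1, hb2, hb3⟩ := (h6.and (h4.and h5)).exists
  have hb1' : a < b := hb1
  refine ⟨b, min 1 (ε / (2 * (K + 1))), ε / 8, hb1, hb2, by positivity, by positivity, ?_⟩
  set κ := min 1 (ε / (2 * (K + 1))) with hκ
  have hκ0 : 0 < κ := by positivity
  have hκ1 : κ ≤ 1 := min_le_left _ _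
  have hκ2 : κ ≤ ε / (2 * (K + 1)) := min_le_right _ _
  have h6 : κ * K ≤ ε / 2 := by
    rw [le_div_iff₀ (by positivity)] at hκ2
    nlinarith
  have h7 := th_nonneg ha0 hb1'.le hb2
  have h8 : (1 + κ) * (th a b + ε / 8) ≤ 2 * (th a b + ε / 8) :=
    mul_le_mul_of_nonneg_right (by linarith) (by positivity)
  linarith

end Pool.Agent.J4.H68.LV
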