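import Pool.Agent.J4.H68.LV.R11

/-!
# The deficit inequality, continuous form
-/

set_option autoImplicit false

open MeasureTheory Set Filter Topology Real

namespace Pool.Agent.J4.H68.LV

/-- the half width of the centred window of `2 s + 1` cells -/
noncomputable def rr (N s : ℕ) : ℝ := ((s : ℝ) + 1 / 2) / (2 * N + 1)

lemma CS_av (N : ℕ) {f : ℝ → ℝ} (hf : Continuous f) (s : ℕ) :
    CS (av N f) s = (2 * N + 1) * ∫ x in (-rr N s)..(rr N s), f x := by
  have h1 := sum_av N (fun a b => hf.intervalIntegrable a b) (-(s : ℤ)) (2 * s)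
  have e1 : -(s : ℤ) + ((2 * s : ℕ) : ℤ) = s := by push_cast; ring
  have e2 : ce N (-(s : ℤ)) = -rr N s := by
    rw [ce, rr]; push_cast; ring
  have e3 : ce N ((s : ℤ) + 1) = rr N s := by
    rw [ce_succ, rr]; push_cast; ring
  rw [e1, e2, e3] at h1
  exact h1

lemma rr_pos (N s : ℕ) : 0 < rr N s := by unfold rr; positivity

lemma rr_le {N s : ℕ} (hs : s ≤ N) : rr N s ≤ 1 / 2 := by
  have hn : (0 : ℝ) < 2 * N + 1 := by positivity
  have : (s : ℝ) ≤ N := by exact_mod_cast hs
  rw [rr, div_le_iff₀ hn]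
  linarith

/-- comparison of the point sums of `vv` with integrals -/
lemma CS_vv {N : ℕ} {l b ω : ℝ} (hl : 0 ≤ l) (hb0 : 0 < b) (hb : b < 1 / 2) (hω : 0 ≤ ω)
    (hmod : ∀ x y : ℝ, |x - y| ≤ 1 / (2 * N + 1) → ue b x ≤ ue b y + ω) {s : ℕ} (hs : s ≤ N) :
    (2 * N + 1) * (l * (∫ x in (-rr N s)..(rr N s), ue b x) - l * ω) ≤ CS (vv N l b) s ∧
    CS (vv N l b) s ≤ (2 * N + 1) * (l * ((∫ x in (-rr N s)..(rr N s), ue b x) + ω)) := by
  have hn : (0 : ℝ) < 2 * N + 1 := by positivity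
  have hc := ue_cont hb0 hb
  have hmid : ∀ y : ℤ, ∀ x ∈ Icc (ce N y) (ce N (y + 1)), |(y : ℝ) / (2 * N + 1) - x| ≤
      1 / (2 * N + 1) := by
    intro y x hx
    have h8 := ce_len N y
    have h7 : (y : ℝ) / (2 * N + 1) ∈ Icc (ce N y) (ce N (y + 1)) := by
      rw [ce_succ, ce]
      constructor <;> apply div_le_div_of_nonneg_right _ hn.le <;> linarith
    rw [abs_le]
    constructor <;> linarith [hx.1, hx.2, h7.1, h7.2]
  have hr0 := rr_pos N s
  have hr := rr_le hs
  have hci : ∀ c : ℝ, ∀ a b, IntervalIntegrable (fun _ : ℝ => c) volume a b := fun c a b =>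
    continuous_const.intervalIntegrable a b
  constructor
  · have h1 : CS (av N (fun x => l * (ue b x - ω))) s ≤ CS (vv N l b) s := by
      apply Finset.sum_le_sum
      intro y _
      rw [← av_const N (vv N l b y) y]
      apply av_mono (fun a b => (by fun_prop : Continuous _).intervalIntegrable a b) (hci _)
      intro x hx
      apply mul_le_mul_of_nonneg_left _ hl
      have := hmod x (y / (2 * N + 1)) (by rw [abs_sub_comm]; exact hmid y x hx)
      linarith
    rw [CS_av N (by fun_prop)] at h1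
    refine le_trans ?_ h1
    apply mul_le_mul_of_nonneg_left _ hn.le
    rw [intervalIntegral.integral_const_mul, intervalIntegral.integral_sub
      (hc.intervalIntegrable _ _) (hci _ _ _), intervalIntegral.integral_const, smul_eq_mul]
    have : (rr N s - -rr N s) * ω ≤ 1 * ω := mul_le_mul_of_nonneg_right (by linarith) hω
    nlinarith
  · have h1 : CS (vv N l b) s ≤ CS (av N (fun x => l * (ue b x + ω))) s := by
      apply Finset.sum_le_sum
      intro y _
      rw [← av_const N (vv N l b y) y]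
      apply av_mono (hci _) (fun a b => (by fun_prop : Continuous _).intervalIntegrable a b)
      intro x hx
      apply mul_le_mul_of_nonneg_left _ hl
      exact hmod (y / (2 * N + 1)) x (hmid y x hx)
    rw [CS_av N (by fun_prop)] at h1
    refine h1.trans ?_
    apply mul_le_mul_of_nonneg_left _ hn.le
    rw [intervalIntegral.integral_const_mul, intervalIntegral.integral_add
      (hc.intervalIntegrable _ _) (hci _ _ _), intervalIntegral.integral_const, smul_eq_mul]
    have : (rr N s - -rr N s) * ω ≤ 1 * ω := mul_le_mul_of_nonneg_right (by linarith) hω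
    nlinarith

lemma tendsto_floor {s : ℝ} (hs : 0 ≤ s) :
    Tendsto (fun N : ℕ => rr N ⌊s * (2 * N + 1)⌋₊) atTop (𝓝 s) := by
  have h1 : Tendsto (fun N : ℕ => s - 1 / 2 * (1 / (2 * (N : ℝ) + 1))) atTop (𝓝 (s - 1 / 2 * 0)) :=
    tendsto_const_nhds.sub (tendsto_mesh.const_mul _)
  have h2 : Tendsto (fun N : ℕ => s + 1 / 2 * (1 / (2 * (N : ℝ) + 1))) atTop (𝓝 (s + 1 / 2 * 0)) :=
    tendsto_const_nhds.add (tendsto_mesh.const_mul _)
  rw [mul_zero, sub_zero] at h1
  rw [mul_zero, add_zero] at h2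
  refine tendsto_of_tendsto_of_tendsto_of_le_of_le h1 h2 (fun N => ?_) (fun N => ?_)
  · have hn : (0 : ℝ) < 2 * N + 1 := by positivity
    have h3 := Nat.lt_floor_add_one (s * (2 * (N : ℝ) + 1))
    have e : s - 1 / 2 * (1 / (2 * (N : ℝ) + 1)) = (s * (2 * N + 1) - 1 / 2) / (2 * N + 1) := by
      field_simp
    show s - 1 / 2 * (1 / (2 * (N : ℝ) + 1)) ≤ rr N ⌊s * (2 * N + 1)⌋₊
    rw [e, rr]
    apply div_le_div_of_nonneg_right _ hn.le
    linarith
  · have hn : (0 : ℝ) < 2 * N + 1 := by positivity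
    have h3 := Nat.floor_le (a := s * (2 * (N : ℝ) + 1)) (by positivity)
    have e : s + 1 / 2 * (1 / (2 * (N : ℝ) + 1)) = (s * (2 * N + 1) + 1 / 2) / (2 * N + 1) := by
      field_simp
    show rr N ⌊s * (2 * N + 1)⌋₊ ≤ s + 1 / 2 * (1 / (2 * (N : ℝ) + 1))
    rw [e, rr]
    apply div_le_div_of_nonneg_right _ hn.le
    linarith

lemma int_cont {f : ℝ → ℝ} (hf : Continuous f) : Continuous fun r : ℝ => ∫ x in (-r)..r, f x := by
  have h1 : ∀ r : ℝ, ∫ x in (-r)..r, f x = (∫ x in (0 : ℝ)..r, f x) - ∫ x in (0 : ℝ)..(-r), f x :=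
    fun r => (intervalIntegral.integral_interval_sub_left (hf.intervalIntegrable _ _)
      (hf.intervalIntegrable _ _)).symm
  simp only [h1]
  have h2 : Continuous fun r : ℝ => ∫ x in (0 : ℝ)..r, f x :=
    intervalIntegral.continuous_primitive (fun a b => hf.intervalIntegrable a b) 0
  exact h2.sub (h2.comp continuous_neg)

/-- **Centred integrals are dominated.** -/
theorem int_le {δ M : ℝ} {G : Set ℝ} {u : ℝ → ℝ} (h : Sb δ M G u) (hδ0 : 0 < δ)
    (hδ1 : δ < 1) {s : ℝ} (hs0 : 0 < s) (hs : s < 1 / 2) :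
    ∫ x in (-s)..s, u x ≤ ∫ x in (-s)..s, ue ((1 - δ) / 2) x := by
  set a := (1 - δ) / 2 with ha
  have ha0 : 0 < a := by rw [ha]; linarith
  have ha1 : a < 1 / 2 := by rw [ha]; linarith
  have hca := ue_cont ha0 ha1
  set K := ∫ x in (-s)..s, ue a x with hK
  have hK0 : 0 ≤ K := intervalIntegral.integral_nonneg (by linarith) fun x _ => ue_nonneg ha0 ha1 x
  apply le_of_forall_pos_le_add
  intro ε hε
  obtain ⟨b, κ, ω, hab, hb, hκ, hω, hsm⟩ := small_params ha0 ha1 hε hK0
  have hb0 : 0 < b := ha0.trans hab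
  have hcb := ue_cont hb0 hb
  obtain ⟨ρ, hρ, hmod⟩ := ue_unif hb0 hb hω
  have key : ∀ᶠ N : ℕ in atTop, ∫ x in (-rr N ⌊s * (2 * N + 1)⌋₊)..(rr N ⌊s * (2 * N + 1)⌋₊), u x ≤
      (1 + κ) * ((∫ x in (-rr N ⌊s * (2 * N + 1)⌋₊)..(rr N ⌊s * (2 * N + 1)⌋₊), ue b x) + ω) := by
    filter_upwards [window_major h hδ1 hab hb hκ, tendsto_mesh.eventually (gt_mem_nhds hρ)]
      with N hN hN2
    have hn : (0 : ℝ) < 2 * N + 1 := by positivity
    set j := ⌊s * (2 * (N : ℝ) + 1)⌋₊ with hj
    have hjN : j ≤ N := by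
      have h3 : j < N + 1 := by
        rw [hj, Nat.floor_lt (by positivity)]
        push_cast
        nlinarith
      omega
    have h5 := hN (-(j : ℤ)) (Finset.Icc (-(j : ℤ)) j) (by
      intro y hy
      rw [Finset.mem_Icc] at hy ⊢
      omega)
    have h6 : (Finset.Icc (-(j : ℤ)) j).card = 2 * j + 1 := by rw [Int.card_Icc]; omega
    rw [h6, ← CS_eq_PF (N := N) (v := vv N (1 + κ) b) (fun i _ => rfl) hjN] at h5
    have h7 : CS (av N u) j ≤ CS (vv N (1 + κ) b) j := h5
    rw [CS_av N h.cont] at h7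
    have h8 := (CS_vv (N := N) (l := 1 + κ) (by positivity) hb0 hb hω.le
      (fun x y hxy => hmod x y (hxy.trans hN2.le)) hjN).2
    exact le_of_mul_le_mul_left (h7.trans h8) hn
  have t1 : Tendsto (fun N : ℕ => ∫ x in (-rr N ⌊s * (2 * N + 1)⌋₊)..(rr N ⌊s * (2 * N + 1)⌋₊), u x)
      atTop (𝓝 (∫ x in (-s)..s, u x)) :=
    ((int_cont h.cont).tendsto s).comp (tendsto_floor hs0.le)
  have t2 : Tendsto (fun N : ℕ => (1 + κ) *
      ((∫ x in (-rr N ⌊s * (2 * N + 1)⌋₊)..(rr N ⌊s * (2 * N + 1)⌋₊), ue b x) + ω))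
      atTop (𝓝 ((1 + κ) * ((∫ x in (-s)..s, ue b x) + ω))) :=
    ((((int_cont hcb).tendsto s).comp (tendsto_floor hs0.le)).add_const ω).const_mul _
  have h1 := le_of_tendsto_of_tendsto t1 t2 key
  have h2 : ∫ x in (-s)..s, ue b x ≤ K + th a b := by
    have h3 : ∫ x in (-s)..s, ue b x ≤ ∫ x in (-s)..s, (ue a x + th a b) := by
      apply intervalIntegral.integral_mono_on (by linarith) (hcb.intervalIntegrable _ _)
        ((hca.add continuous_const).intervalIntegrable _ _)
      intro x _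
      exact ue_width ha0 hab.le hb x
    rw [intervalIntegral.integral_add (hca.intervalIntegrable _ _)
      (continuous_const.intervalIntegrable _ _), intervalIntegral.integral_const,
      smul_eq_mul] at h3
    have h4 : (s - -s) * th a b ≤ 1 * th a b :=
      mul_le_mul_of_nonneg_right (by linarith) (th_nonneg ha0 hab.le hb)
    linarith
  have h3 : (1 + κ) * ((∫ x in (-s)..s, ue b x) + ω) ≤ (1 + κ) * (K + th a b + ω) :=
    mul_le_mul_of_nonneg_left (by linarith) (by positivity)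
  have h4 : (1 + κ) * (K + th a b + ω) = K + (κ * K + (1 + κ) * (th a b + ω)) := by ring
  linarith

end Pool.Agent.J4.H68.LV
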