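import Pool.Agent.J4.H68.LV.R11b

/-!
# The deficit inequality, continuous form, II
-/

set_option autoImplicit false

open MeasureTheory Set Filter Topology Real

namespace Pool.Agent.J4.H68.LV

/-- **The deficit inequality.** -/
theorem deficit {δ M : ℝ} {G : Set ℝ} {u : ℝ → ℝ} (h : Sb δ M G u) (hδ0 : 0 < δ)
    (hδ1 : δ < 1) {s₁ s₂ c₀ : ℝ} (h10 : 0 < s₁) (h12 : s₁ < s₂) (h2 : s₂ < 1 / 2) (hc₀ : 0 < c₀)
    (hF : ∀ r ∈ Icc s₁ s₂, c₀ ≤ (∫ x in (-r)..r, ue ((1 - δ) / 2) x) - ∫ x in (-r)..r, u x)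
    {t : ℝ} (ht : 0 < t) :
    (∫ s, pk t (0 - s) * u s) + c₀ / 2 * (Pt t ((2 * s₁ + s₂) / 3) - Pt t ((s₁ + 2 * s₂) / 3)) ≤
      UE ((1 - δ) / 2) ((0 : ℝ) + t * Complex.I) - t := by
  set a := (1 - δ) / 2 with ha
  have ha0 : 0 < a := by rw [ha]; linarith
  have ha1 : a < 1 / 2 := by rw [ha]; linarith
  have hca := ue_cont ha0 ha1
  have h20 : 0 < s₂ := h10.trans h12
  set A := UE a ((0 : ℝ) + t * Complex.I) - t with hA
  set p := (2 * s₁ + s₂) / 3 with hp
  set p' := (s₁ + 2 * s₂) / 3 with hp'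
  have hp1 : s₁ < p := by rw [hp]; linarith
  have hp2 : p < p' := by rw [hp, hp']; linarith
  have hp3 : p' < s₂ := by rw [hp']; linarith
  set Δ := Pt t p - Pt t p' with hΔ
  have hΔ0 : 0 ≤ Δ := sub_nonneg.2 (Pt_anti ht (by linarith) hp2.le (by linarith))
  have key : ∀ ε > 0, ε ≤ c₀ / 2 → (∫ s, pk t (0 - s) * u s) + c₀ / 2 * Δ ≤ A + ε := by
    intro ε hε hεc
    obtain ⟨b, κ, ω, hab, hb, hκ, hω, hsm⟩ := small_params ha0 ha1 hε (abs_nonneg A)
    have hb0 : 0 < b := ha0.trans hab
    have hcb := ue_cont hb0 hb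
    set l := 1 + κ with hl
    have hl0 : 0 < l := by positivity
    have hthn := th_nonneg ha0 hab.le hb
    have hlω : l * ω ≤ c₀ / 2 := by
      have h3 : 0 ≤ κ * |A| := by positivity
      have h4 : 0 ≤ l * th a b := by positivity
      have h5 : l * (th a b + ω) = l * th a b + l * ω := by ring
      linarith
    obtain ⟨ρ, hρ, hmod⟩ := ue_unif hb0 hb hω
    have hlev := lev_UE hb0 hb
    set Z := l * (UE b ((0 : ℝ) + t * Complex.I) - t) + l * ω with hZ
    have e1 : ∀ᶠ N : ℕ in atTop, 1 / (2 * (N : ℝ) + 1) < min (p - s₁) (s₂ - p') :=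
      tendsto_mesh.eventually (gt_mem_nhds (lt_min (by linarith) (by linarith)))
    have hN : ∀ᶠ N : ℕ in atTop, (∫ s, pk t (0 - s) * u s) + c₀ / 2 * Δ ≤
        (1 + et t (1 / (2 * N + 1))) ^ 2 * Z := by
      filter_upwards [window_major h hδ1 hab hb hκ, tendsto_mesh.eventually (gt_mem_nhds hρ), e1]
        with N hN hN2 hN3
      have hn : (0 : ℝ) < 2 * N + 1 := by positivity
      set η := et t (1 / (2 * (N : ℝ) + 1)) with hη
      have hη0 : 0 ≤ η := et_nonneg ht (by positivity)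
      have hmodN : ∀ x y : ℝ, |x - y| ≤ 1 / (2 * N + 1) → ue b x ≤ ue b y + ω :=
        fun x y hxy => hmod x y (hxy.trans hN2.le)
      have hN4 := hN3.trans_le (min_le_left _ _)
      have hN5 := hN3.trans_le (min_le_right _ _)
      rw [div_lt_iff₀ hn] at hN4 hN5
      set j₁ := ⌈s₁ * (2 * (N : ℝ) + 1)⌉₊ with hj₁
      set j₂ := ⌊s₂ * (2 * (N : ℝ) + 1)⌋₊ with hj₂
      have a1 : s₁ * (2 * (N : ℝ) + 1) ≤ j₁ := Nat.le_ceil _
      have a2 : (j₁ : ℝ) < s₁ * (2 * (N : ℝ) + 1) + 1 := Nat.ceil_lt_add_one (by positivity)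
      have a3 : (j₂ : ℝ) ≤ s₂ * (2 * (N : ℝ) + 1) := Nat.floor_le (by positivity)
      have a4 : s₂ * (2 * (N : ℝ) + 1) < j₂ + 1 := Nat.lt_floor_add_one _
      have j1p : (j₁ : ℝ) ≤ p * (2 * N + 1) := by
        have e : p * (2 * (N : ℝ) + 1) = s₁ * (2 * N + 1) + (p - s₁) * (2 * N + 1) := by ring
        linarith
      have j2p : p' * (2 * N + 1) ≤ j₂ := by
        have e : p' * (2 * (N : ℝ) + 1) = s₂ * (2 * N + 1) - (s₂ - p') * (2 * N + 1) := by ring
        linarith
      have hj12 : j₁ ≤ j₂ := by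
        have : (j₁ : ℝ) ≤ j₂ := j1p.trans ((mul_le_mul_of_nonneg_right hp2.le hn.le).trans j2p)
        exact_mod_cast this
      have hj2N : j₂ ≤ N := by
        have h3 : j₂ < N + 1 := by
          rw [hj₂, Nat.floor_lt (by positivity)]
          push_cast
          have := mul_lt_mul_of_pos_right h2 hn
          linarith
        omega
      have hD : ∀ s, j₁ ≤ s → s < j₂ →
          (2 * N + 1) * (c₀ - l * ω) ≤ CS (vv N l b) s - CS (av N u) s := by
        intro s hs1 hs2
        have hsN : s ≤ N := by omega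
        have h3 := (CS_vv (N := N) hl0.le hb0 hb hω.le hmodN hsN).1
        rw [CS_av N h.cont]
        have hr : rr N s ∈ Icc s₁ s₂ := by
          have b1 : (j₁ : ℝ) ≤ s := by exact_mod_cast hs1
          have b2 : (s : ℝ) + 1 ≤ j₂ := by exact_mod_cast hs2
          rw [rr]
          constructor
          · rw [le_div_iff₀ hn]; linarith
          · rw [div_le_iff₀ hn]; linarith
        have h4 := hF _ hr
        have hr0 := rr_pos N s
        have h5 : ∫ x in (-rr N s)..(rr N s), ue a x ≤ ∫ x in (-rr N s)..(rr N s), ue b x :=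
          intervalIntegral.integral_mono_on (by linarith) (hca.intervalIntegrable _ _)
            (hcb.intervalIntegrable _ _) fun x _ => ue_mono_width ha0 hab.le hb x
        have h6 : 0 ≤ ∫ x in (-rr N s)..(rr N s), ue b x :=
          intervalIntegral.integral_nonneg (by linarith) fun x _ => ue_nonneg hb0 hb x
        have h7 : ∫ x in (-rr N s)..(rr N s), ue b x ≤ l * ∫ x in (-rr N s)..(rr N s), ue b x :=
          le_mul_of_one_le_left h6 (by linarith)
        have h8 : c₀ - l * ω ≤ (l * (∫ x in (-rr N s)..(rr N s), ue b x) - l * ω) -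
            ∫ x in (-rr N s)..(rr N s), u x := by linarith
        have h9 := mul_le_mul_of_nonneg_left h8 hn.le
        linarith
      have h3 := disc_deficit (N := N) (q := qk (t * (2 * N + 1))) (qk_ker (by positivity))
        (PP_anti ht) (w := fun i => vv N l b (sp i)) (m := av N u) (v := vv N l b) (h.av_nn N)
        (h.av_le N) hN (vv_periodic N _ _) (fun i _ => rfl) hj12 hj2N hD
      rw [PP_qk ht, PP_qk ht] at h3
      have h4 : Δ ≤ Pt t ((j₁ : ℤ) / (2 * N + 1)) - Pt t ((j₂ : ℤ) / (2 * N + 1)) := by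
        push_cast
        have h5 : Pt t p ≤ Pt t ((j₁ : ℝ) / (2 * N + 1)) :=
          Pt_anti ht (by positivity) (by rw [div_le_iff₀ hn]; exact j1p) (by linarith)
        have h6 : Pt t ((j₂ : ℝ) / (2 * N + 1)) ≤ Pt t p' :=
          Pt_anti ht (by linarith) (by rw [le_div_iff₀ hn]; exact j2p) (by
            rw [div_le_iff₀ hn]
            have : (j₂ : ℝ) ≤ N := by exact_mod_cast hj2N
            linarith)
        linarith
      have h5 : c₀ / 2 * Δ ≤ (2 * N + 1) * (c₀ - l * ω) *
          (Pt t ((j₁ : ℤ) / (2 * N + 1)) / (2 * N + 1) -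
            Pt t ((j₂ : ℤ) / (2 * N + 1)) / (2 * N + 1)) := by
        have e : (2 * N + 1) * (c₀ - l * ω) *
          (Pt t ((j₁ : ℤ) / (2 * N + 1)) / (2 * N + 1) -
            Pt t ((j₂ : ℤ) / (2 * N + 1)) / (2 * N + 1)) = (c₀ - l * ω) *
            (Pt t ((j₁ : ℤ) / (2 * N + 1)) - Pt t ((j₂ : ℤ) / (2 * N + 1))) := by
          field_simp
        rw [e]
        exact mul_le_mul (by linarith) h4 hΔ0 (by linarith)
      have h6 := conv_le_cv (N := N) ht h.cont h.nn h.le (i := 0) (x := 0) (by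
        rw [ce_succ, ce]
        constructor
        · apply div_nonpos_of_nonpos_of_nonneg _ hn.le
          norm_num
        · positivity)
      have h7 := cv_le_conv (N := N) ht (f := fun x => l * ue b x)
        (continuous_const.mul (ue_cont hb0 hb)) (fun x => mul_nonneg hl0.le (ue_nonneg hb0 hb x))
        (M := l * ue b 0) (fun x => mul_le_mul_of_nonneg_left (ue_le_zero hb0 hb x) hl0.le)
        (ω := l * ω) (by positivity) (fun x y hxy => by
          have := mul_le_mul_of_nonneg_left (hmodN x y hxy) hl0.le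
          rw [mul_add] at this
          exact this) 0
      have h8 : ∫ s, pk t (((0 : ℤ) : ℝ) / (2 * N + 1) - s) * (l * ue b s) =
          l * (UE b ((0 : ℝ) + t * Complex.I) - t) := by
        obtain ⟨_, h9⟩ := hlev.rep2 0 ht
        have h10 : ∀ s : ℝ, pk t (((0 : ℤ) : ℝ) / (2 * N + 1) - s) * (l * ue b s) =
            l * (pk t (0 - s) * UE b s) := fun s => by
          rw [ue, Int.cast_zero, zero_div]; ring
        simp only [h10]
        rw [integral_const_mul, h9]
        ring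
      rw [h8] at h7
      have h7' : cv (qk (t * (2 * N + 1))) (vv N l b) 0 ≤ (1 + η) * Z := h7
      set I := ∫ s, pk t (0 - s) * u s with hI
      have h9 : cv (qk (t * (2 * N + 1))) (av N u) 0 + c₀ / 2 * Δ ≤ (1 + η) * Z := by linarith
      have h10 : 0 ≤ c₀ / 2 * Δ := by positivity
      have h11 : c₀ / 2 * Δ ≤ (1 + η) * (c₀ / 2 * Δ) := le_mul_of_one_le_left h10 (by linarith)
      calc I + c₀ / 2 * Δ ≤ (1 + η) * cv (qk (t * (2 * N + 1))) (av N u) 0 +
            (1 + η) * (c₀ / 2 * Δ) := add_le_add h6 h11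
        _ = (1 + η) * (cv (qk (t * (2 * N + 1))) (av N u) 0 + c₀ / 2 * Δ) := by ring
        _ ≤ (1 + η) * ((1 + η) * Z) := mul_le_mul_of_nonneg_left h9 (by positivity)
        _ = (1 + η) ^ 2 * Z := by ring
    have hlim : Tendsto (fun N : ℕ => (1 + et t (1 / (2 * (N : ℝ) + 1))) ^ 2 * Z) atTop
        (𝓝 ((1 + 0) ^ 2 * Z)) := ((tendsto_et.const_add 1).pow 2).mul_const Z
    have h3 := ge_of_tendsto hlim hN
    have h4 := UE_width ha0 hab.le hb ((0 : ℝ) + t * Complex.I)
    have h5 : Z ≤ l * (A + th a b + ω) := by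
      rw [hZ, hA]
      have : l * (UE b ((0 : ℝ) + t * Complex.I) - t) ≤
          l * (UE a ((0 : ℝ) + t * Complex.I) - t + th a b) :=
        mul_le_mul_of_nonneg_left (by linarith) hl0.le
      linarith
    have h6 : l * (A + th a b + ω) = A + (κ * A + l * (th a b + ω)) := by rw [hl]; ring
    have h7 : κ * A ≤ κ * |A| := mul_le_mul_of_nonneg_left (le_abs_self A) hκ.le
    linarith
  have h3 : ∀ ε > 0, (∫ s, pk t (0 - s) * u s) + c₀ / 2 * Δ ≤ A + ε := by
    intro ε hε
    have := key (min ε (c₀ / 2)) (by positivity) (min_le_right _ _)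
    linarith [min_le_left ε (c₀ / 2)]
  exact le_of_forall_pos_le_add h3

/-- a lower bound for the oscillation of the periodized kernel -/
lemma Pt_drop {t p p' : ℝ} (ht : 0 < t) (ht1 : t ≤ 1) (hp0 : 0 < p) (hpp : p < p')
    (hp' : p' < 1 / 2) :
    t * (2 * π * (cos (2 * π * p) - cos (2 * π * p')) / (cosh (2 * π) + 1) ^ 2) ≤
      Pt t p - Pt t p' := by
  have h1 := den_pos ht p
  have h2 := den_pos ht p'
  have h3 : cos (2 * π * p') < cos (2 * π * p) := by
    apply cos_lt_cos_of_nonneg_of_le_pi (by positivity)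
    · nlinarith [pi_pos]
    · have := pi_pos
      gcongr
  have h4 : Pt t p - Pt t p' = sinh (2 * π * t) * (cos (2 * π * p) - cos (2 * π * p')) /
      ((cosh (2 * π * t) - cos (2 * π * p)) * (cosh (2 * π * t) - cos (2 * π * p'))) := by
    unfold Pt
    field_simp
    ring
  have h5 : cosh (2 * π * t) ≤ cosh (2 * π) := by
    rw [cosh_le_cosh, abs_of_pos (by positivity), abs_of_pos (by positivity)]
    nlinarith [pi_pos]
  have h6 : 2 * π * t ≤ sinh (2 * π * t) := self_le_sinh_iff.2 (by positivity)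
  rw [h4]
  have e : t * (2 * π * (cos (2 * π * p) - cos (2 * π * p')) / (cosh (2 * π) + 1) ^ 2) =
      (2 * π * t) * (cos (2 * π * p) - cos (2 * π * p')) / (cosh (2 * π) + 1) ^ 2 := by ring
  rw [e]
  apply div_le_div₀
  · exact mul_nonneg (sinh_nonneg_iff.2 (by positivity)) (by linarith)
  · exact mul_le_mul_of_nonneg_right h6 (by linarith)
  · positivity
  · rw [pow_two]
    apply mul_le_mul
    · linarith [neg_one_le_cos (2 * π * p)]
    · linarith [neg_one_le_cos (2 * π * p')]
    · exact h2.le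
    · positivity

/-- At a point of maximum, the centred integrals agree. -/
theorem int_eq {δ M : ℝ} {G : Set ℝ} {u : ℝ → ℝ} (h : Sb δ M G u) (hδ0 : 0 < δ)
    (hδ1 : δ < 1) (hmax : u 0 = ue ((1 - δ) / 2) 0) {s : ℝ} (hs0 : 0 < s) (hs : s < 1 / 2) :
    ∫ x in (-s)..s, u x = ∫ x in (-s)..s, ue ((1 - δ) / 2) x := by
  set a := (1 - δ) / 2 with ha
  have ha0 : 0 < a := by rw [ha]; linarith
  have ha1 : a < 1 / 2 := by rw [ha]; linarith
  refine le_antisymm (int_le h hδ0 hδ1 hs0 hs) ?_
  by_contra hcon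
  push Not at hcon
  set F : ℝ → ℝ := fun r => (∫ x in (-r)..r, ue a x) - ∫ x in (-r)..r, u x with hF
  have hFc : Continuous F := (int_cont (ue_cont ha0 ha1)).sub (int_cont h.cont)
  have hFs : 0 < F s := by simp only [hF]; linarith
  obtain ⟨ρ, hρ, h1⟩ := Metric.continuousAt_iff.1 (hFc.continuousAt (x := s)) (F s / 2)
    (by positivity)
  set d := min (ρ / 2) (min (s / 2) ((1 / 2 - s) / 2)) with hd
  have hd0 : 0 < d := by
    apply lt_min (by positivity) (lt_min (by positivity) (by linarith))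
  have hd1 : d ≤ ρ / 2 := min_le_left _ _
  have hd2 : d ≤ s / 2 := (min_le_right _ _).trans (min_le_left _ _)
  have hd3 : d ≤ (1 / 2 - s) / 2 := (min_le_right _ _).trans (min_le_right _ _)
  have hF2 : ∀ r ∈ Icc (s - d) (s + d), F s / 2 ≤ F r := by
    intro r hr
    have h2 : dist r s < ρ := by
      rw [Real.dist_eq]
      have : |r - s| ≤ d := by rw [abs_le]; constructor <;> linarith [hr.1, hr.2]
      linarith
    have h3 := h1 h2
    rw [Real.dist_eq, abs_lt] at h3
    linarith [h3.1]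
  obtain ⟨C, hC0, hC⟩ := UE_up ha0 ha1 (a₁ := 0) le_rfl ha0
  set p := (2 * (s - d) + (s + d)) / 3 with hp
  set p' := ((s - d) + 2 * (s + d)) / 3 with hp'
  set c₁ := 2 * π * (cos (2 * π * p) - cos (2 * π * p')) / (cosh (2 * π) + 1) ^ 2 with hc₁
  have hpp : p < p' := by rw [hp, hp']; linarith
  have hp0 : 0 < p := by rw [hp]; linarith
  have hp1 : p' < 1 / 2 := by rw [hp']; linarith
  have hc₁0 : 0 < c₁ := by
    have h3 : cos (2 * π * p') < cos (2 * π * p) := by
      apply cos_lt_cos_of_nonneg_of_le_pi (by positivity)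
      · nlinarith [pi_pos]
      · have := pi_pos
        gcongr
    have h4 : 0 < cos (2 * π * p) - cos (2 * π * p') := by linarith
    positivity
  have key : ∀ t : ℝ, 0 < t → t ≤ 1 → F s / 4 * c₁ ≤ C * t := by
    intro t ht ht1
    have h2 := deficit h hδ0 hδ1 (s₁ := s - d) (s₂ := s + d) (c₀ := F s / 2) (by linarith)
      (by linarith) (by linarith) (by positivity) hF2 ht
    have h3 := h.step t ht 0
    have h4 := hC 0 t (by simp) ht.le ht1
    have h5 := Pt_drop ht ht1 hp0 hpp hp1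
    rw [← hc₁] at h5
    have h6 : F s / 2 / 2 * (t * c₁) ≤ F s / 2 / 2 * (Pt t p - Pt t p') :=
      mul_le_mul_of_nonneg_left h5 (by positivity)
    rw [← ha, ← hp, ← hp'] at h2
    have h7 : F s / 2 / 2 * (t * c₁) ≤ C * t ^ 2 := by linarith
    have h8 : t * (F s / 4 * c₁) ≤ t * (C * t) := by
      calc t * (F s / 4 * c₁) = F s / 2 / 2 * (t * c₁) := by ring
        _ ≤ C * t ^ 2 := h7
        _ = _ := by ring
    exact le_of_mul_le_mul_left h8 ht
  have hpos : 0 < F s / 4 * c₁ := by positivity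
  set t := min 1 (F s / 4 * c₁ / (2 * (C + 1))) with ht
  have ht0 : 0 < t := by positivity
  have h2 := key t ht0 (min_le_left _ _)
  have h3 : t ≤ F s / 4 * c₁ / (2 * (C + 1)) := min_le_right _ _
  rw [le_div_iff₀ (by positivity)] at h3
  nlinarith

end Pool.Agent.J4.H68.LV
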