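import Pool.Agent.J4.H68.LV.R11c

/-!
# Uniqueness
-/

set_option autoImplicit false

open MeasureTheory Set Filter Topology Real Metric InnerProductSpace

namespace Pool.Agent.J4.H68.LV

/-- A symmetric harmonic function near `0` vanishing on the real axis vanishes. -/
lemma reflect_zero {H : ℂ → ℝ} {ρ : ℝ} (hρ : 0 < ρ) (hH : HarmonicOnNhd H (ball 0 ρ))
    (hs : ∀ z, H (starRingEnd ℂ z) = H z) (h0 : ∀ x : ℝ, |x| < ρ → H x = 0) :
    ∀ z ∈ ball (0 : ℂ) ρ, H z = 0 := by
  obtain ⟨F, hF, hFH⟩ := HarmonicOnNhd.exists_analyticOnNhd_ball_re_eq hH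
  have hconj : ∀ z ∈ ball (0 : ℂ) ρ, starRingEnd ℂ z ∈ ball (0 : ℂ) ρ := by
    intro z hz
    rw [mem_ball_zero_iff] at hz ⊢
    rwa [Complex.norm_conj]
  set G : ℂ → ℂ := fun z => F z + starRingEnd ℂ (F (starRingEnd ℂ z)) with hG
  have hGd : DifferentiableOn ℂ G (ball 0 ρ) := by
    intro z hz
    apply DifferentiableAt.differentiableWithinAt
    apply DifferentiableAt.add (hF z hz).differentiableAt
    have h1 := (hF _ (hconj z hz)).differentiableAt.conj_conj
    rw [Complex.conj_conj] at h1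
    exact h1
  have hGa : AnalyticOnNhd ℂ G (ball 0 ρ) := hGd.analyticOnNhd isOpen_ball
  have hreal : ∀ x : ℝ, |x| < ρ → G x = 0 := by
    intro x hx
    have hxm : (x : ℂ) ∈ ball (0 : ℂ) ρ := by
      rw [mem_ball_zero_iff, Complex.norm_real]
      exact hx
    have h1 : (F x).re = 0 := by
      have := hFH hxm
      simp only at this
      rw [this, h0 x hx]
    simp only [hG, Complex.conj_ofReal]
    apply Complex.ext
    · simp [h1]
    · simp
  have hfreq : ∃ᶠ z in 𝓝[≠] (0 : ℂ), G z = 0 := by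
    have ht : Tendsto (fun x : ℝ => (x : ℂ)) (𝓝[≠] 0) (𝓝[≠] 0) := by
      rw [tendsto_nhdsWithin_iff]
      refine ⟨(Complex.continuous_ofReal.tendsto' 0 0 (by simp)).mono_left nhdsWithin_le_nhds, ?_⟩
      filter_upwards [self_mem_nhdsWithin] with x hx
      have : x ≠ 0 := hx
      simpa using this
    refine ht.frequently ?_
    apply Eventually.frequently
    have : ∀ᶠ x : ℝ in 𝓝 0, |x| < ρ := by
      have h1 : Tendsto (fun x : ℝ => |x|) (𝓝 0) (𝓝 |0|) := continuous_abs.tendsto 0
      rw [abs_zero] at h1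
      exact h1.eventually (gt_mem_nhds hρ)
    exact (Filter.Eventually.filter_mono nhdsWithin_le_nhds this).mono fun x hx => hreal x hx
  have hG0 := hGa.eqOn_zero_of_preconnected_of_frequently_eq_zero
    (convex_ball (0 : ℂ) ρ).isPreconnected (mem_ball_self hρ) hfreq
  intro z hz
  have h1 := congrArg Complex.re (hG0 hz)
  have h2 := hFH hz
  have h3 := hFH (hconj z hz)
  simp only [hG, Complex.add_re, Complex.conj_re, Pi.zero_apply, Complex.zero_re] at h1
  simp only at h2 h3
  rw [h2, h3, hs] at h1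
  linarith

/-- The identity theorem: vanishing on a real interval around `0` implies vanishing on the
whole real line. -/
lemma vanish_real {H : ℂ → ℝ} (hc : Continuous H) {ρ : ℝ} (hρ : 0 < ρ)
    (hH : HarmonicOnNhd H (ball 0 ρ)) (hH2 : HarmonicOnNhd H HO)
    (hs : ∀ z, H (starRingEnd ℂ z) = H z) (h0 : ∀ x : ℝ, |x| < ρ → H x = 0) (x : ℝ) :
    H x = 0 := by
  have h1 := reflect_zero hρ hH hs h0
  have han : AnalyticOnNhd ℝ H HO := fun z hz => _root_.HarmonicAt.analyticAt (hH2 z hz)
  have hpre : IsPreconnected HO := (convex_halfSpace_im_gt 0).isPreconnected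
  set z₀ : ℂ := ((ρ / 2 : ℝ) : ℂ) * Complex.I with hz₀
  have hz₀O : z₀ ∈ HO := by simp [HO, hz₀, hρ]
  have hz₀b : z₀ ∈ ball (0 : ℂ) ρ := by
    rw [mem_ball_zero_iff, hz₀, norm_mul, Complex.norm_I, mul_one, Complex.norm_real, norm_eq_abs,
      abs_of_pos (by positivity)]
    linarith
  have hev : H =ᶠ[𝓝 z₀] 0 := by
    filter_upwards [isOpen_ball.mem_nhds hz₀b] with z hz
    exact h1 z hz
  have h2 := han.eqOn_zero_of_preconnected_of_eventuallyEq_zero hpre hz₀O hev
  have h3 : Tendsto (fun n : ℕ => H ((x : ℂ) + ((1 / ((n : ℝ) + 1) : ℝ) : ℂ) * Complex.I)) atTop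
      (𝓝 (H ((x : ℂ) + ((0 : ℝ) : ℂ) * Complex.I))) := by
    apply (hc.tendsto _).comp
    apply Tendsto.const_add
    apply Tendsto.mul_const
    exact (Complex.continuous_ofReal.tendsto 0).comp tendsto_one_div_add_atTop_nhds_zero_nat
  have h4 : ∀ n : ℕ, H ((x : ℂ) + ((1 / ((n : ℝ) + 1) : ℝ) : ℂ) * Complex.I) = 0 := by
    intro n
    apply h2
    have : (0 : ℝ) < 1 / ((n : ℝ) + 1) := by positivity
    simp only [HO, mem_ofPred_eq, Complex.add_im, Complex.ofReal_im, Complex.mul_im,
      Complex.ofReal_re, Complex.I_im, mul_one, Complex.I_re, mul_zero, add_zero, zero_add]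
    exact this
  simp only [h4] at h3
  have h5 := tendsto_nhds_unique h3 tendsto_const_nhds
  simpa using h5

/-- pointwise identity from the integral identity -/
lemma sum_eq_of_int {u v : ℝ → ℝ} (hu : Continuous u) (hv : Continuous v)
    (h : ∀ s, 0 < s → s < 1 / 2 → ∫ x in (-s)..s, u x = ∫ x in (-s)..s, v x) {s : ℝ}
    (hs0 : 0 < s) (hs : s < 1 / 2) : u s + u (-s) = v s + v (-s) := by
  set g : ℝ → ℝ := fun x => (u x + u (-x)) - (v x + v (-x)) with hg
  have hgc : Continuous g := by simp only [hg]; fun_prop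
  have key : ∀ w : ℝ → ℝ, Continuous w → ∀ r : ℝ,
      ∫ x in (-r)..r, w x = ∫ x in (0 : ℝ)..r, (w x + w (-x)) := by
    intro w hw r
    have h1 : ∫ x in (0 : ℝ)..r, w (-x) = ∫ x in (-r)..0, w x := by
      rw [intervalIntegral.integral_comp_neg, neg_zero]
    have h2 : IntervalIntegrable (fun x => w (-x)) volume 0 r :=
      (hw.comp continuous_neg).intervalIntegrable _ _
    rw [intervalIntegral.integral_add (hw.intervalIntegrable _ _) h2, h1, add_comm,
      intervalIntegral.integral_add_adjacent_intervals (hw.intervalIntegrable _ _)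
      (hw.intervalIntegrable _ _)]
  have hz : ∀ r, 0 < r → r < 1 / 2 → ∫ x in (0 : ℝ)..r, g x = 0 := by
    intro r hr0 hr
    have h1 := h r hr0 hr
    rw [key u hu, key v hv] at h1
    simp only [hg]
    rw [intervalIntegral.integral_sub, h1, sub_self]
    · exact (by fun_prop : Continuous fun x => u x + u (-x)).intervalIntegrable _ _
    · exact (by fun_prop : Continuous fun x => v x + v (-x)).intervalIntegrable _ _
  have h1 : HasDerivAt (fun r => ∫ x in (0 : ℝ)..r, g x) (g s) s :=
    intervalIntegral.integral_hasDerivAt_right (hgc.intervalIntegrable _ _)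
      hgc.aestronglyMeasurable.stronglyMeasurableAtFilter hgc.continuousAt
  have h2 : (fun r => ∫ x in (0 : ℝ)..r, g x) =ᶠ[𝓝 s] fun _ => 0 := by
    filter_upwards [Ioo_mem_nhds hs0 hs] with r hr
    exact hz r hr.1 hr.2
  have h3 : HasDerivAt (fun _ : ℝ => (0 : ℝ)) (g s) s := h1.congr_of_eventuallyEq h2.symm
  have h4 := h3.unique (hasDerivAt_const s (0 : ℝ))
  simp only [hg] at h4
  linarith

lemma UE_add_int (a : ℝ) (z : ℂ) (n : ℤ) : UE a (z + n) = UE a z := by
  have h1 : Function.Periodic (UE a) 1 := by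
    intro z
    have : ww a (z + 1) = -ww a z := by
      rw [ww, ww, mul_add, mul_one, Complex.cos_add_pi, neg_div]
    rw [UE, UE, this, hh_neg]
  have := h1.int_mul n z
  simpa using this

end Pool.Agent.J4.H68.LV
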