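import Pool.Agent.J4.H68.LV.R12

/-!
# Uniqueness, II
-/

set_option autoImplicit false

open MeasureTheory Set Filter Topology Real Metric InnerProductSpace

namespace Pool.Agent.J4.H68.LV

lemma Lev.mem_iff {E : Set ℝ} {U : ℂ → ℝ} (h : Lev E U) (x : ℝ) : x ∈ E ↔ U x = 0 := by
  constructor
  · exact h.zero x
  · intro h0
    by_contra hx
    have := h.pos x (fun y hy hxy => hx (by
      rw [Complex.ofReal_inj] at hxy
      rwa [hxy]))
    linarith

lemma not_mem_EE {a : ℝ} (ha : a < 1 / 2) {x : ℝ} (hx : |x| < a) : x ∉ EE a := by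
  have h1 : cos (π * a) < cos (π * |x|) := by
    apply cos_lt_cos_of_nonneg_of_le_pi (by positivity)
    · nlinarith [pi_pos]
    · have := pi_pos
      gcongr
  have h5 : cos (π * x) = cos (π * |x|) := by
    rw [← cos_abs (π * x), abs_mul, abs_of_pos pi_pos]
  intro hmem
  have h6 : |cos (π * x)| ≤ cos (π * a) := hmem
  rw [h5] at h6
  have := le_abs_self (cos (π * |x|))
  linarith

/-- comparison argument: `u` with `u ≤ 2 ue`, `u = 0` on `EE a` is at most `ue a`. -/
lemma sup_arg {a δ : ℝ} (ha0 : 0 < a) (ha : a < 1 / 2) (hδ0 : 0 < δ) (hδ : Thick (EE a) δ)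
    {u : ℝ → ℝ} (huc : Continuous u) (hu0 : ∀ x, 0 ≤ u x) (hu2 : ∀ x, u x ≤ 2 * ue a x)
    (hstep : ∀ t, 0 < t → ∀ x, u x ≤ t + ∫ s, pk t (x - s) * u s) (x₀ : ℝ) : u x₀ ≤ ue a x₀ := by
  have hlev := lev_UE ha0 ha
  have hcu := ue_cont ha0 ha
  set e : ℝ → ℝ := fun x => u x - ue a x with he
  have hec : Continuous e := huc.sub hcu
  have he1 : ∀ x, e x ≤ ue a x := fun x => by simp only [he]; linarith [hu2 x]
  have he2 : ∀ x, e x ≤ ue a 0 := fun x => (he1 x).trans (ue_le_zero ha0 ha x)
  have he3 : ∀ x, |e x| ≤ ue a 0 := fun x => by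
    rw [abs_le]
    refine ⟨?_, he2 x⟩
    simp only [he]
    linarith [hu0 x, ue_le_zero ha0 ha x]
  have hbdd : BddAbove (range e) := ⟨ue a 0, by rintro _ ⟨x, rfl⟩; exact he2 x⟩
  by_contra hcon
  push Not at hcon
  set β := ⨆ x, e x with hβ
  have hβx : ∀ x, e x ≤ β := fun x => le_ciSup hbdd x
  have hβ0 : 0 < β := by
    have := hβx x₀
    simp only [he] at this
    linarith
  -- choice of `a₁`
  have haa : ue a a = 0 := by
    have : (a : ℝ) ∈ EE a := mem_EE ha0 ha (by rw [abs_of_pos ha0]) (by
      rw [abs_of_pos ha0]; exact ha.le)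
    exact hlev.zero a this
  obtain ⟨a₁, ha10, ha11, ha12⟩ : ∃ a₁, 0 < a₁ ∧ a₁ < a ∧ ue a a₁ ≤ β / 2 := by
    have h1 : ∀ᶠ r in 𝓝 a, ue a r < β / 2 := by
      have := hcu.tendsto a
      rw [haa] at this
      exact this.eventually (gt_mem_nhds (by positivity))
    have h2 : ∀ᶠ r in 𝓝[<] a, ue a r < β / 2 ∧ 0 < r ∧ r < a := by
      refine (Filter.Eventually.filter_mono nhdsWithin_le_nhds h1).and
        ((Filter.Eventually.filter_mono nhdsWithin_le_nhds (lt_mem_nhds ha0)).and ?_)
      exact eventually_mem_nhdsWithin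
    obtain ⟨r, hr1, hr2, hr3⟩ := h2.exists
    exact ⟨r, hr2, hr3, hr1.le⟩
  obtain ⟨C, hC0, hC⟩ := UE_up ha0 ha ha10.le ha11
  set c := δ / (2 * π) with hc
  have hc0 : 0 < c := by positivity
  have hEm : MeasurableSet (EE a) := (closed_EE a).measurableSet
  have main : ∀ t, 0 < t → t ≤ 1 → ∀ x, e x ≤ max (β / 2) (β * (1 - c * t) + C * t ^ 2) := by
    intro t ht ht1 x
    set y : ℝ := x - round x with hy
    have hy1 : |y| ≤ 1 / 2 := abs_sub_round x
    have hxy : x = y + round x := by rw [hy]; ring
    have huxy : ue a x = ue a |y| := by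
      rw [ue_abs, ← ue_add_int a y (round x), ← hxy]
    rcases le_or_gt |y| a₁ with hya | hya
    · apply le_max_of_le_right
      have h1 := hstep t ht x
      obtain ⟨i2, h2⟩ := hlev.rep2 x ht
      have h3 : UE a (x + t * Complex.I) ≤ ue a x + C * t ^ 2 := by
        have h4 := hC y t hya ht.le ht1
        have h5 : (x : ℂ) + t * Complex.I = ((y : ℂ) + t * Complex.I) + (round x : ℤ) := by
          rw [hy]; push_cast; ring
        rw [h5, UE_add_int, huxy, ue_abs]
        exact h4
      have hue : ∀ s : ℝ, UE a s = ue a s := fun s => rfl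
      simp only [hue] at i2 h2
      have hubd : ∀ s, |u s| ≤ 2 * ue a 0 := fun s => by
        rw [abs_of_nonneg (hu0 s)]
        linarith [hu2 s, ue_le_zero ha0 ha s]
      have i1 := pk_mul_integrable ht x huc.measurable hubd
      have h4 : e x ≤ (∫ s, pk t (x - s) * e s) + C * t ^ 2 := by
        have h5 : ∫ s, pk t (x - s) * e s =
            (∫ s, pk t (x - s) * u s) - ∫ s, pk t (x - s) * ue a s := by
          rw [← integral_sub i1 i2]
          congr 1
          funext s
          simp only [he]
          ring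
        rw [h5]
        simp only [he]
        linarith
      have h5 : ∫ s, pk t (x - s) * e s ≤ ∫ s in (EE a)ᶜ, pk t (x - s) * β := by
        rw [← integral_indicator hEm.compl]
        apply integral_mono (pk_mul_integrable ht x hec.measurable he3)
          (((pk_sub_integrable ht x).mul_const β).indicator hEm.compl)
        intro s
        by_cases hs : s ∈ EE a
        · simp only
          rw [indicator_of_notMem (by simpa using hs)]
          have h6 : ue a s = 0 := hlev.zero s hs
          have h7 : e s ≤ 0 := by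
            have := he1 s
            linarith
          exact mul_nonpos_of_nonneg_of_nonpos (pk_nonneg ht.le _) h7
        · simp only
          rw [indicator_of_mem (by simpa using hs)]
          exact mul_le_mul_of_nonneg_left (hβx s) (pk_nonneg ht.le _)
      have h6 : (∫ s in EE a, pk t (x - s) * β) + ∫ s in (EE a)ᶜ, pk t (x - s) * β = β := by
        rw [integral_add_compl hEm ((pk_sub_integrable ht x).mul_const β), integral_mul_const,
          pk_sub_integral ht, one_mul]
      have h7 : β * (c * t) ≤ ∫ s in EE a, pk t (x - s) * β := by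
        have h8 : ∫ s in EE a ∩ Icc x (x + 1), t / (2 * π) * β ≤
            ∫ s in EE a ∩ Icc x (x + 1), pk t (x - s) * β := by
          apply setIntegral_mono_on
          · exact integrableOn_const (by
              refine ne_top_of_le_ne_top ?_ (measure_mono inter_subset_right)
              simp)
          · exact ((pk_sub_integrable ht x).mul_const β).integrableOn
          · exact hEm.inter measurableSet_Icc
          · intro s hs
            apply mul_le_mul_of_nonneg_right _ hβ0.le
            rw [pk, div_le_div_iff₀ (by positivity) (by positivity)]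
            have h9 : (x - s) ^ 2 ≤ 1 := by nlinarith [hs.2.1, hs.2.2]
            have h10 : (x - s) ^ 2 + t ^ 2 ≤ 2 := by nlinarith
            have h11 : π * ((x - s) ^ 2 + t ^ 2) ≤ 2 * π := by nlinarith [pi_pos]
            exact mul_le_mul_of_nonneg_left h11 ht.le
        have h9 : ∫ s in EE a ∩ Icc x (x + 1), pk t (x - s) * β ≤
            ∫ s in EE a, pk t (x - s) * β := by
          apply setIntegral_mono_set ((pk_sub_integrable ht x).mul_const β).integrableOn
          · exact Eventually.of_forall fun s => mul_nonneg (pk_nonneg ht.le _) hβ0.le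
          · exact LE.le.eventuallyLE inter_subset_left
        rw [setIntegral_const, smul_eq_mul] at h8
        have h10 := hδ x
        have h11 : δ * (t / (2 * π) * β) ≤ volume.real (EE a ∩ Icc x (x + 1)) * (t / (2 * π) * β) :=
          mul_le_mul_of_nonneg_right h10 (by positivity)
        have h12 : β * (c * t) = δ * (t / (2 * π) * β) := by rw [hc]; ring
        linarith
      linarith
    · apply le_max_of_le_left
      refine (he1 x).trans ?_
      rw [huxy]
      exact (ue_anti ha0 ha ha10.le hya.le hy1).trans ha12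
  set t := min 1 (β * c / (2 * (C + 1))) with ht
  have ht0 : 0 < t := by positivity
  have ht1 : t ≤ 1 := min_le_left _ _
  have ht2 : t ≤ β * c / (2 * (C + 1)) := min_le_right _ _
  have h1 : β ≤ max (β / 2) (β * (1 - c * t) + C * t ^ 2) := ciSup_le (main t ht0 ht1)
  have h2 : max (β / 2) (β * (1 - c * t) + C * t ^ 2) < β := by
    apply max_lt (by linarith)
    rw [le_div_iff₀ (by positivity)] at ht2
    have h3 : C * t < β * c := by nlinarith
    have h4 : C * t * t < β * c * t := mul_lt_mul_of_pos_right h3 ht0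
    nlinarith
  linarith

/-- **Uniqueness** when the maximal value is attained at the origin. -/
theorem uniq_zero {E : Set ℝ} {U : ℂ → ℝ} (h : Lev E U) (hE : IsClosed E) {δ : ℝ} (hδ : 0 < δ)
    (hδ1 : δ < 1) (ht : Thick E δ) (hmax : U (0 : ℝ) = ue ((1 - δ) / 2) 0) :
    (∀ x : ℝ, U x = ue ((1 - δ) / 2) x) ∧ E = EE ((1 - δ) / 2) := by
  set a := (1 - δ) / 2 with ha
  have ha0 : 0 < a := by rw [ha]; linarith
  have ha1 : a < 1 / 2 := by rw [ha]; linarith
  have hlev := lev_UE ha0 ha1
  have hsb := h.sb hE hδ hδ1.le ht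
  set u : ℝ → ℝ := fun x => U x with hu
  have huc : Continuous u := hsb.cont
  -- local identity
  have hloc : ∀ s, 0 < s → s < 1 / 2 → u s + u (-s) = 2 * ue a s := by
    intro s hs0 hs
    have h1 := sum_eq_of_int huc (ue_cont ha0 ha1)
      (fun r hr0 hr => int_eq hsb hδ hδ1 hmax hr0 hr) hs0 hs
    rw [ue_even] at h1
    linarith
  have hloc2 : ∀ x : ℝ, |x| < 1 / 2 → u x + u (-x) = 2 * ue a x := by
    intro x hx
    rcases lt_trichotomy x 0 with h1 | h1 | h1
    · have := hloc (-x) (by linarith) (by rwa [abs_of_neg h1] at hx)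
      rw [neg_neg, ue_even] at this
      linarith
    · subst h1
      have h2 : u 0 = ue a 0 := hmax
      rw [neg_zero, h2]
      ring
    · exact hloc x h1 (by rwa [abs_of_pos h1] at hx)
  -- the symmetrised difference
  set H : ℂ → ℝ := fun z => U z + U (-z) - 2 * UE a z with hH
  have hHc : Continuous H := by
    have h1 := h.cont
    have h2 := hlev.cont
    simp only [hH]
    fun_prop
  have hHs : ∀ z, H (starRingEnd ℂ z) = H z := by
    intro z
    simp only [hH]
    rw [h.symm, hlev.symm, ← map_neg, h.symm]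
  have hu00 : 0 < ue a 0 := by
    rw [ue_zero ha0 ha1]
    exact mul_pos (by positivity)
      (arcosh_pos ((one_lt_inv₀ (cpos ha0 ha1)).2 (clt ha0 ha1)))
  have h0E : (0 : ℝ) ∉ E := by
    intro h0
    have := h.zero 0 h0
    linarith
  obtain ⟨ρ₁, hρ₁, hρ₁E⟩ := Metric.isOpen_iff.1 hE.isOpen_compl 0 h0E
  set ρ := min ρ₁ a with hρ
  have hρ0 : 0 < ρ := lt_min hρ₁ ha0
  have hnotE : ∀ z ∈ ball (0 : ℂ) ρ, ∀ x ∈ E, z ≠ (x : ℂ) := by
    intro z hz x hx hzx
    rw [mem_ball_zero_iff, hzx, Complex.norm_real, norm_eq_abs] at hz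
    apply hρ₁E _ hx
    rw [mem_ball, Real.dist_eq, sub_zero]
    exact hz.trans_le (min_le_left _ _)
  have hnotEE : ∀ z ∈ ball (0 : ℂ) ρ, ∀ x ∈ EE a, z ≠ (x : ℂ) := by
    intro z hz x hx hzx
    rw [mem_ball_zero_iff, hzx, Complex.norm_real, norm_eq_abs] at hz
    exact not_mem_EE ha1 (hz.trans_le (min_le_right _ _)) hx
  have hsum : ∀ z : ℂ, HarmonicAt U z → HarmonicAt U (-z) → HarmonicAt (UE a) z →
      HarmonicAt H z := by
    intro z h1 h2 h3
    have h4 : HarmonicAt (fun w => U (-w)) z :=
      harmonic_comp (g := fun w => -w) h2 (by fun_prop)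
    have h5 := (h1.add h4).sub (h3.const_smul (c := (2 : ℝ)))
    exact h5
  have hH1 : HarmonicOnNhd H (ball 0 ρ) := by
    intro z hz
    apply hsum z (h.harm z (hnotE z hz)) (h.harm (-z) (hnotE (-z) _)) (hlev.harm z (hnotEE z hz))
    rw [mem_ball_zero_iff, norm_neg]
    rwa [mem_ball_zero_iff] at hz
  have hH2 : HarmonicOnNhd H HO := by
    intro z hz
    have hz' : 0 < z.im := hz
    apply hsum z (h.harmAt hz') (h.harm (-z) _) (hlev.harmAt hz')
    intro x _ hzx
    have := congrArg Complex.im hzx
    rw [Complex.neg_im, Complex.ofReal_im] at this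
    linarith
  have hHreal : ∀ x : ℝ, H x = u x + u (-x) - 2 * ue a x := by
    intro x
    simp only [hH, hu, ue]
    push_cast
    ring
  have hglob : ∀ x : ℝ, u x + u (-x) = 2 * ue a x := by
    intro x
    have h1 := vanish_real hHc hρ0 hH1 hH2 hHs (fun x hx => by
      rw [hHreal, hloc2 x (by
        have : ρ ≤ a := min_le_right _ _
        linarith)]
      ring) x
    rw [hHreal] at h1
    linarith
  have hle : ∀ x, u x ≤ ue a x := by
    intro x
    refine sup_arg ha0 ha1 (δ := 1 - 2 * a) (by linarith) (thick_EE ha0 ha1) huc hsb.nn ?_ hsb.step x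
    intro y
    have := hglob y
    linarith [hsb.nn (-y)]
  have heq : ∀ x, u x = ue a x := by
    intro x
    have h1 := hglob x
    have h2 := hle (-x)
    rw [ue_even] at h2
    linarith [hle x]
  refine ⟨heq, ?_⟩
  ext x
  rw [h.mem_iff, hlev.mem_iff]
  have := heq x
  simp only [hu, ue] at this
  rw [this]

end Pool.Agent.J4.H68.LV
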