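import Pool.Agent.J4.H68.LV.R12b

/-!
# Affine changes of variable and the periodic set
-/

set_option autoImplicit false

open MeasureTheory Set Filter Topology Real Metric InnerProductSpace

namespace Pool.Agent.J4.H68.LV

namespace Lev

variable {E : Set ℝ} {U : ℂ → ℝ}

lemma norm_shift (h : Lev E U) (c : ℝ) :
    Tendsto (fun y : ℝ => U (c + y * Complex.I) / y) atTop (𝓝 1) := by
  have t1 : Tendsto (fun y : ℝ => 1 + 3 * (U (y * Complex.I) / y - 1)) atTop
      (𝓝 (1 + 3 * (1 - 1))) := ((h.norm.sub_const 1).const_mul 3).const_add 1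
  rw [sub_self, mul_zero, add_zero] at t1
  refine tendsto_of_tendsto_of_tendsto_of_le_of_le' tendsto_const_nhds t1 ?_ ?_
  · filter_upwards [eventually_gt_atTop 0] with y hy
    obtain ⟨_, h2⟩ := h.rep2 c hy
    rw [h2, le_div_iff₀ hy, one_mul]
    have : 0 ≤ ∫ s : ℝ, pk y (c - s) * U s :=
      integral_nonneg fun s => mul_nonneg (pk_nonneg hy.le _) (h.nonneg _)
    linarith
  · filter_upwards [eventually_gt_atTop 0, eventually_ge_atTop |c|] with y hy hyc
    obtain ⟨i1, h1⟩ := h.rep2 c hy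
    obtain ⟨i2, h2⟩ := h.rep2 0 hy
    have h3 : ∫ s : ℝ, pk y (c - s) * U s ≤ 3 * ∫ s : ℝ, pk y (0 - s) * U s := by
      rw [← integral_const_mul]
      apply integral_mono i1 (i2.const_mul 3)
      intro s
      simp only
      rw [← mul_assoc]
      apply mul_le_mul_of_nonneg_right _ (h.nonneg _)
      rw [pk, pk, mul_div_assoc', div_le_div_iff₀ (by positivity) (by positivity)]
      have h4 : c ^ 2 ≤ y ^ 2 := by rw [← sq_abs c]; exact pow_le_pow_left₀ (abs_nonneg _) hyc 2
      have h5 : (0 - s) ^ 2 + y ^ 2 ≤ 3 * ((c - s) ^ 2 + y ^ 2) := by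
        nlinarith [sq_nonneg (s - 2 * c)]
      calc y * (π * ((0 - s) ^ 2 + y ^ 2)) ≤ y * (π * (3 * ((c - s) ^ 2 + y ^ 2))) := by gcongr
        _ = _ := by ring
    have e0 : U ((0 : ℝ) + y * Complex.I) = U (y * Complex.I) := by
      congr 1
      simp
    rw [e0] at h2
    rw [h1, div_le_iff₀ hy]
    have e : (1 + 3 * (U (y * Complex.I) / y - 1)) * y = y + 3 * (U (y * Complex.I) - y) := by
      field_simp
    rw [e]
    linarith

/-- Affine change of variable. -/
theorem affine (h : Lev E U) {k : ℝ} (hk : 0 < k) (c : ℝ) :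
    Lev {x : ℝ | k * x + c ∈ E} (fun z => U (k * z + c) / k) := by
  have hk' : (k : ℂ) ≠ 0 := by exact_mod_cast hk.ne'
  have hne : ∀ z : ℂ, (∀ x ∈ {x : ℝ | k * x + c ∈ E}, z ≠ (x : ℂ)) →
      ∀ y ∈ E, (k : ℂ) * z + c ≠ (y : ℂ) := by
    intro z hz y hy hzy
    apply hz ((y - c) / k)
    · show k * ((y - c) / k) + c ∈ E
      have : k * ((y - c) / k) + c = y := by field_simp; ring
      rw [this]; exact hy
    · push_cast
      rw [← hzy]
      field_simp
      ring
  refine ⟨?_, ?_, ?_, ?_, ?_, ?_⟩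
  · have := h.cont
    fun_prop
  · intro x hx
    have h1 : U (((k * x + c : ℝ)) : ℂ) = 0 := h.zero _ hx
    push_cast at h1
    rw [h1, zero_div]
  · intro z hz
    exact div_pos (h.pos _ (hne z hz)) hk
  · intro z hz
    have h1 : HarmonicAt (fun w : ℂ => U ((k : ℂ) * w + c)) z :=
      harmonic_comp (g := fun w => (k : ℂ) * w + c) (h.harm _ (hne z hz)) (by fun_prop)
    have h2 := h1.const_smul (c := k⁻¹)
    refine (harmonicAt_congr_nhds (Eventually.of_forall fun w => ?_)).1 h2
    simp only [Pi.smul_apply, smul_eq_mul]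
    rw [div_eq_inv_mul]
  · intro z
    have : (k : ℂ) * starRingEnd ℂ z + c = starRingEnd ℂ (k * z + c) := by simp
    rw [this, h.symm]
  · have h1 := (h.norm_shift c).comp (tendsto_id.const_mul_atTop hk)
    refine h1.congr fun y => ?_
    simp only [Function.comp, id]
    have : (k : ℂ) * (y * Complex.I) + c = c + (k * y : ℝ) * Complex.I := by push_cast; ring
    rw [this]
    field_simp

end Lev

lemma EE_add_int (a x : ℝ) (n : ℤ) : x + n ∈ EE a ↔ x ∈ EE a := by
  have h : Function.Periodic (fun x : ℝ => x ∈ EE a) 1 := fun x => propext (EE_add_one a x)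
  have := h.int_mul n x
  simp only [mul_one] at this
  exact this.to_iff

lemma EE_iff {δ : ℝ} (hδ0 : 0 < δ) (hδ1 : δ < 1) (x : ℝ) :
    x ∈ EE ((1 - δ) / 2) ↔ ∃ n : ℤ, x - 1 / 2 ∈ Icc ((n : ℝ) - δ / 2) (n + δ / 2) := by
  set a := (1 - δ) / 2 with ha
  have ha0 : 0 < a := by rw [ha]; linarith
  have ha1 : a < 1 / 2 := by rw [ha]; linarith
  constructor
  · intro hx
    set y := x - round x with hy
    have hxy : x = y + (round x : ℤ) := by rw [hy]; ring
    have hy1 : |y| ≤ 1 / 2 := abs_sub_round x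
    have hyE : y ∈ EE a := by
      rw [hxy, EE_add_int] at hx
      exact hx
    have hya : a ≤ |y| := by
      by_contra hcon
      exact not_mem_EE ha1 (not_le.1 hcon) hyE
    rcases le_or_gt 0 y with h0 | h0
    · rw [abs_of_nonneg h0] at hya hy1
      refine ⟨round x, ?_, ?_⟩ <;> linarith
    · rw [abs_of_neg h0] at hya hy1
      refine ⟨round x - 1, ?_, ?_⟩ <;> push_cast <;> linarith
  · rintro ⟨n, h1, h2⟩
    rcases le_or_gt (x - 1 / 2 - n) 0 with h0 | h0
    · have hx : x = (x - n) + (n : ℤ) := by ring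
      rw [hx, EE_add_int]
      apply mem_EE ha0 ha1
      · rw [abs_of_nonneg (by linarith)]; linarith
      · rw [abs_of_nonneg (by linarith)]; linarith
    · have hx : x = (x - n - 1) + ((n + 1 : ℤ) : ℝ) := by push_cast; ring
      rw [hx, EE_add_int]
      apply mem_EE ha0 ha1
      · rw [abs_of_neg (by linarith)]; linarith
      · rw [abs_of_neg (by linarith)]; linarith

/-- thickness under an affine change -/
lemma thick_affine {E : Set ℝ} {N δ : ℝ} (hN : 0 < N) 
    (h : ∀ a : ℝ, δ ≤ volume.real (E ∩ Icc a (a + N))) {k : ℝ} (hk : 0 < k) (c a : ℝ) :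
    δ / k ≤ volume.real ({x : ℝ | k * x + c ∈ E} ∩ Icc a (a + N / k)) := by
  have h1 : {x : ℝ | k * x + c ∈ E} ∩ Icc a (a + N / k) =
      (fun x => k * x) ⁻¹' ((fun x => x + c) ⁻¹' (E ∩ Icc (k * a + c) (k * a + c + N))) := by
    ext x
    simp only [mem_inter_iff, mem_preimage, mem_Icc, mem_ofPred_eq]
    have e : x ≤ a + N / k ↔ k * x ≤ k * a + N := by
      rw [← mul_le_mul_iff_right₀ hk, mul_add, mul_div_cancel₀ _ hk.ne']
    have e2 : a ≤ x ↔ k * a ≤ k * x := (mul_le_mul_iff_right₀ hk).symm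
    rw [e, e2]
    constructor
    · rintro ⟨h1, h2, h3⟩
      exact ⟨h1, by linarith, by linarith⟩
    · rintro ⟨h1, h2, h3⟩
      exact ⟨h1, by linarith, by linarith⟩
  rw [h1, Measure.real, Real.volume_preimage_mul_left hk.ne', measure_preimage_add_right,
    ENNReal.toReal_mul, ENNReal.toReal_ofReal (abs_nonneg _), abs_of_pos (inv_pos.2 hk),
    div_eq_inv_mul]
  exact mul_le_mul_of_nonneg_left (h _) (inv_pos.2 hk).le

end Pool.Agent.J4.H68.LV
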