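import Pool.Agent.J4.H68.LV.R1

/-!
# The Poisson representation of positive harmonic functions in the half plane
-/

set_option autoImplicit false

open MeasureTheory Set Filter Topology Real Metric

namespace Pool.Agent.J4.H68.LV

lemma norm_zR_le {R : ℝ} (hR : 0 < R) (s : ℝ) : ‖zR R s‖ ≤ |s| := by
  have h1 := norm_zR_sq R s
  have h2 := one_sub_sq_div_two_le_cos (x := s / R)
  have h3 : ‖zR R s‖ ^ 2 ≤ |s| ^ 2 := by
    rw [h1, sq_abs]
    have : R ^ 2 * (s / R) ^ 2 = s ^ 2 := by field_simp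
    nlinarith [sq_nonneg R]
  exact (sq_le_sq₀ (norm_nonneg _) (abs_nonneg _)).1 h3

lemma norm_zR_ge {R : ℝ} (hR : 0 < R) {s : ℝ} (hs : |s| ≤ π * R) : 2 / π * |s| ≤ ‖zR R s‖ := by
  have h1 := norm_zR_sq R s
  have h2 : 1 - cos (s / R) = 2 * sin (|s| / R / 2) ^ 2 := by
    have : cos (s / R) = cos (|s| / R) := by
      rw [← cos_abs (s / R), abs_div, abs_of_pos hR]
    rw [this]
    have h3 := cos_sq' (|s| / R / 2)
    have h4 := cos_two_mul (|s| / R / 2)
    rw [show 2 * (|s| / R / 2) = |s| / R by ring] at h4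
    linarith
  have h5 : 2 / π * (|s| / R / 2) ≤ sin (|s| / R / 2) := by
    apply mul_le_sin (by positivity)
    rw [div_le_div_iff_of_pos_right (by norm_num : (0 : ℝ) < 2), div_le_iff₀ hR]
    exact hs
  have h6 : 0 ≤ 2 / π * (|s| / R / 2) := by positivity
  have h7 : (2 / π * |s|) ^ 2 ≤ ‖zR R s‖ ^ 2 := by
    rw [h1, h2]
    have h8 : (2 / π * (|s| / R / 2)) ^ 2 ≤ sin (|s| / R / 2) ^ 2 := pow_le_pow_left₀ h6 h5 2
    have h9 : (2 / π * |s|) ^ 2 = 4 * R ^ 2 * (2 / π * (|s| / R / 2)) ^ 2 := by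
      field_simp
      ring
    rw [h9]
    nlinarith [sq_nonneg R, mul_le_mul_of_nonneg_left h8 (by positivity : 0 ≤ 4 * R ^ 2)]
  exact (sq_le_sq₀ (by positivity) (norm_nonneg _)).1 h7

lemma dist_zR_ge {R : ℝ} (hR : 0 < R) {w : ℂ} (hw : 0 < w.im) (hRw : ‖w‖ ^ 2 ≤ R * w.im) (s : ℝ) :
    w.im / 2 ≤ ‖zR R s - w‖ := by
  have h1 := zR_sub_center hR s
  have h2 : ‖zR R s - R * Complex.I‖ ≤ ‖zR R s - w‖ + ‖w - R * Complex.I‖ := by
    have := norm_add_le (zR R s - w) (w - R * Complex.I)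
    rwa [sub_add_sub_cancel] at this
  have h3 := center_sq R w
  set d := ‖w - R * Complex.I‖ with hd
  have hd0 : 0 ≤ d := norm_nonneg _
  have hdR : d ≤ R := by
    have : d ^ 2 ≤ R ^ 2 := by nlinarith [mul_pos hR hw]
    exact (sq_le_sq₀ hd0 hR.le).1 this
  have h4 : w.im / 2 ≤ R - d := by
    have h5 : R * w.im ≤ (R - d) * (2 * R) := by
      have : R ^ 2 - d ^ 2 = (R - d) * (R + d) := by ring
      nlinarith [mul_nonneg (sub_nonneg.2 hdR) (sub_nonneg.2 hdR)]
    nlinarith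
  linarith

lemma kR_nonneg {R : ℝ} (hR : 0 < R) {w : ℂ} (hw : ‖w‖ ^ 2 ≤ 2 * R * w.im) (s : ℝ) :
    0 ≤ kR R w s := by
  unfold kR
  apply div_nonneg (by linarith)
  positivity

lemma kR_meas (R : ℝ) (w : ℂ) : Measurable (kR R w) := by
  unfold kR
  have := (zR_cont R).measurable
  fun_prop

lemma kR_cont {R : ℝ} (hR : 0 < R) {w : ℂ} (hw : 0 < w.im) (hRw : ‖w‖ ^ 2 ≤ R * w.im) :
    Continuous (kR R w) := by
  unfold kR
  have := zR_cont R
  refine continuous_const.div (by fun_prop) fun s => ?_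
  have h1 := dist_zR_ge hR hw hRw s
  have h2 : 0 < ‖zR R s - w‖ := by linarith
  positivity

lemma UzR_cont {U : ℂ → ℝ} (hc : ContinuousOn U HC) {R : ℝ} (hR : 0 < R) :
    Continuous fun s => U (zR R s) :=
  hc.comp_continuous (zR_cont R) (zR_mem hR)

lemma tendsto_zR (s : ℝ) : Tendsto (fun n : ℕ => zR n s) atTop (𝓝 (s : ℂ)) := by
  have h1 : Tendsto (fun n : ℕ => ‖zR n s - s‖) atTop (𝓝 0) := by
    have h2 : ∀ᶠ n : ℕ in atTop, ‖zR n s - s‖ ≤ |s| ^ 3 / 4 * ((n : ℝ) ^ 2)⁻¹ + s ^ 2 / 2 * (n : ℝ)⁻¹ := by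
      obtain ⟨n0, hn0⟩ := exists_nat_gt |s|
      filter_upwards [eventually_ge_atTop (max n0 1)] with n hn
      have hn1 : (1 : ℝ) ≤ n := by exact_mod_cast (le_max_right n0 1).trans hn
      have hn2 : |s| < n := lt_of_lt_of_le hn0 (by exact_mod_cast (le_max_left n0 1).trans hn)
      have hn0' : (0 : ℝ) < n := by linarith
      have h3 : ‖zR n s - s‖ ≤ |(zR n s - s).re| + |(zR n s - s).im| := Complex.norm_le_abs_re_add_abs_im _
      have h4 : (zR n s - s).re = n * (sin (s / n) - s / n) := by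
        simp only [zR, Complex.sub_re, Complex.ofReal_re]
        field_simp
      have h5 : (zR n s - s).im = n * (1 - cos (s / n)) := by
        simp only [zR, Complex.sub_im, Complex.ofReal_im, sub_zero]
      have h6 : |s / n| ≤ 1 := by
        rw [abs_div, abs_of_pos hn0', div_le_one hn0']; exact hn2.le
      have h7 : |sin (s / n) - s / n| ≤ |s / n| ^ 3 / 4 := by
        have := Real.sin_bound h6
        have h8 : |sin (s / n) - s / n| ≤ |sin (s / n) - (s / n - (s / n) ^ 3 / 6)| +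
            |(s / n) ^ 3 / 6| := by
          have e : sin (s / n) - s / n = (sin (s / n) - (s / n - (s / n) ^ 3 / 6)) +
            (-((s / n) ^ 3 / 6)) := by ring
          rw [e]
          refine (abs_add_le _ _).trans ?_
          rw [abs_neg]
        have h9 : |(s / n) ^ 3 / 6| = |s / n| ^ 3 / 6 := by
          rw [abs_div, abs_pow]; norm_num
        have h10 : |s / n| ^ 5 ≤ |s / n| ^ 3 := pow_le_pow_of_le_one (abs_nonneg _) h6 (by norm_num)
        have h11 : 0 ≤ |s / n| ^ 3 := by positivity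
        linarith
      have h8 : |1 - cos (s / n)| ≤ (s / n) ^ 2 / 2 := by
        rw [abs_of_nonneg (by linarith [cos_le_one (s / n)])]
        linarith [one_sub_sq_div_two_le_cos (x := s / n)]
      rw [h4, h5, abs_mul, abs_mul, abs_of_pos hn0'] at h3
      have e1 : (n : ℝ) * (|s / n| ^ 3 / 4) = |s| ^ 3 / 4 * ((n : ℝ) ^ 2)⁻¹ := by
        rw [abs_div, abs_of_pos hn0']
        field_simp
      have e2 : (n : ℝ) * ((s / n) ^ 2 / 2) = s ^ 2 / 2 * (n : ℝ)⁻¹ := by
        field_simp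
      have h9 := mul_le_mul_of_nonneg_left h7 hn0'.le
      have h10 := mul_le_mul_of_nonneg_left h8 hn0'.le
      linarith
    have h3 : Tendsto (fun n : ℕ => |s| ^ 3 / 4 * ((n : ℝ) ^ 2)⁻¹ + s ^ 2 / 2 * (n : ℝ)⁻¹) atTop
        (𝓝 (|s| ^ 3 / 4 * 0 + s ^ 2 / 2 * 0)) := by
      refine Tendsto.add (Tendsto.const_mul _ ?_) (Tendsto.const_mul _ ?_)
      · have := tendsto_inv_atTop_nhds_zero_nat (𝕜 := ℝ)
        have h4 := this.pow 2
        simpa using h4
      · exact tendsto_inv_atTop_nhds_zero_nat (𝕜 := ℝ)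
    simp only [mul_zero, add_zero] at h3
    exact squeeze_zero' (Eventually.of_forall fun n => norm_nonneg _) h2 h3
  rw [tendsto_iff_norm_sub_tendsto_zero]
  exact h1

lemma tendsto_kR {w : ℂ} (hw : 0 < w.im) (s : ℝ) :
    Tendsto (fun n : ℕ => kR n w s) atTop (𝓝 (pk w.im (w.re - s))) := by
  have h1 : Tendsto (fun n : ℕ => ‖zR n s - w‖ ^ 2) atTop (𝓝 (‖(s : ℂ) - w‖ ^ 2)) :=
    (((tendsto_zR s).sub_const w).norm).pow 2
  have h2 : Tendsto (fun n : ℕ => (2 * w.im - ‖w‖ ^ 2 * (n : ℝ)⁻¹) / (2 * π * ‖zR n s - w‖ ^ 2))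
      atTop (𝓝 ((2 * w.im - ‖w‖ ^ 2 * 0) / (2 * π * ‖(s : ℂ) - w‖ ^ 2))) := by
    refine Tendsto.div (tendsto_const_nhds.sub
      (Tendsto.const_mul _ (tendsto_inv_atTop_nhds_zero_nat (𝕜 := ℝ)))) (h1.const_mul _) ?_
    have : (s : ℂ) - w ≠ 0 := by
      intro h
      have := congrArg Complex.im h
      simp at this
      linarith
    have := norm_pos_iff.2 this
    positivity
  have h3 : (2 * w.im - ‖w‖ ^ 2 * 0) / (2 * π * ‖(s : ℂ) - w‖ ^ 2) = pk w.im (w.re - s) := by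
    rw [pk, ← Complex.normSq_eq_norm_sq ((s : ℂ) - w), Complex.normSq_apply]
    simp only [Complex.sub_re, Complex.sub_im, Complex.ofReal_re, Complex.ofReal_im]
    have hpos : 0 < (w.re - s) ^ 2 + w.im ^ 2 := by positivity
    have e : (s - w.re) * (s - w.re) + (0 - w.im) * (0 - w.im) = (w.re - s) ^ 2 + w.im ^ 2 := by ring
    rw [e]
    field_simp
    ring
  rw [← h3]
  refine h2.congr' ?_
  filter_upwards [eventually_ge_atTop 1] with n hn
  have : (0 : ℝ) < n := by exact_mod_cast hn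
  rw [kR]
  by_cases h0 : ‖zR n s - w‖ ^ 2 = 0
  · rw [h0]; simp
  · field_simp

/-- convergence of the near part -/
lemma near_tendsto {U : ℂ → ℝ} (hc : ContinuousOn U HC) {w : ℂ} (hw : 0 < w.im) (S : ℝ) :
    Tendsto (fun n : ℕ => ∫ s in (-S)..S, kR n w s * U (zR n s)) atTop
      (𝓝 (∫ s in (-S)..S, pk w.im (w.re - s) * U s)) := by
  have hK : IsCompact (closedBall (0 : ℂ) |S| ∩ HC) :=
    (isCompact_closedBall _ _).inter_right (isClosed_le continuous_const Complex.continuous_im)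
  obtain ⟨M, hM⟩ := hK.exists_bound_of_continuousOn (hc.mono inter_subset_right)
  have hM' : ∀ (R : ℝ), 0 < R → ∀ s : ℝ, |s| ≤ |S| → |U (zR R s)| ≤ M := fun R hR s hs =>
    hM _ ⟨by rw [mem_closedBall_zero_iff]; exact (norm_zR_le hR s).trans hs, zR_mem hR s⟩
  have hM0 : 0 ≤ M := (abs_nonneg _).trans (hM' 1 one_pos 0 (by simp))
  obtain ⟨n0, hn0⟩ := exists_nat_gt (‖w‖ ^ 2 / w.im)
  have hlarge : ∀ n : ℕ, max n0 1 ≤ n → (0 : ℝ) < n ∧ ‖w‖ ^ 2 ≤ n * w.im := by
    intro n hn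
    have h1 : (1 : ℝ) ≤ n := by exact_mod_cast (le_max_right n0 1).trans hn
    have h2 : (n0 : ℝ) ≤ n := by exact_mod_cast (le_max_left n0 1).trans hn
    refine ⟨by linarith, ?_⟩
    have := (div_lt_iff₀ hw).1 hn0
    nlinarith
  refine intervalIntegral.tendsto_integral_filter_of_dominated_convergence
    (fun _ => 4 / (π * w.im) * M) ?_ ?_ intervalIntegrable_const ?_
  · filter_upwards [eventually_ge_atTop (max n0 1)] with n hn
    obtain ⟨h1, h2⟩ := hlarge n hn
    exact ((kR_meas n w).mul (UzR_cont hc h1).measurable).aestronglyMeasurable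
  · filter_upwards [eventually_ge_atTop (max n0 1)] with n hn
    obtain ⟨h1, h2⟩ := hlarge n hn
    refine Eventually.of_forall fun s hs => ?_
    have hsS : |s| ≤ |S| := by
      rw [mem_uIoc] at hs
      rw [abs_le]
      rcases hs with ⟨h3, h4⟩ | ⟨h3, h4⟩
      · exact ⟨by linarith [le_abs_self S], by linarith [le_abs_self S]⟩
      · exact ⟨by linarith [neg_abs_le S], by linarith [neg_abs_le S]⟩
    rw [norm_eq_abs, abs_mul]
    refine mul_le_mul ?_ (hM' n h1 s hsS) (abs_nonneg _) (by positivity)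
    rw [abs_of_nonneg (kR_nonneg h1 (by nlinarith [sq_nonneg ‖w‖, mul_pos h1 hw]) s), kR]
    have h5 := dist_zR_ge h1 hw h2 s
    have h6 : (w.im / 2) ^ 2 ≤ ‖zR n s - w‖ ^ 2 := pow_le_pow_left₀ (by positivity) h5 2
    rw [div_le_div_iff₀ (by have : 0 < ‖zR n s - w‖ := by linarith
                            positivity) (by positivity)]
    have h7 : 0 ≤ ‖w‖ ^ 2 := by positivity
    have h8 : (2 * n * w.im - ‖w‖ ^ 2) * (π * w.im) ≤ 2 * n * w.im * (π * w.im) := by
      apply mul_le_mul_of_nonneg_right _ (by positivity)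
      linarith
    have h9 : 4 * (2 * π * n * (w.im / 2) ^ 2) ≤ 4 * (2 * π * n * ‖zR n s - w‖ ^ 2) := by
      apply mul_le_mul_of_nonneg_left _ (by norm_num)
      exact mul_le_mul_of_nonneg_left h6 (by positivity)
    nlinarith
  · refine Eventually.of_forall fun s _ => ?_
    refine (tendsto_kR hw s).mul ?_
    have h1 : ContinuousWithinAt U HC (s : ℂ) := hc _ (by simp [HC])
    refine h1.tendsto.comp (tendsto_nhdsWithin_iff.2 ⟨tendsto_zR s, ?_⟩)
    filter_upwards [eventually_ge_atTop 1] with n hn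
    exact zR_mem (by exact_mod_cast hn) s

end Pool.Agent.J4.H68.LV
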