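import Pool.Agent.J4.H68.LV.R2

/-!
# The Poisson representation of positive harmonic functions in the half plane
-/

set_option autoImplicit false

open MeasureTheory Set Filter Topology Real Metric

namespace Pool.Agent.J4.H68.LV

lemma kR_ratio {R S s : ℝ} (hR : 0 < R) {w₁ w₂ : ℂ} (h1 : 0 < w₁.im) (h2 : 0 < w₂.im)
    (hw1 : ‖w₁‖ ^ 2 ≤ R * w₁.im) (hw2 : ‖w₂‖ ^ 2 ≤ R * w₂.im) (hs : |s| ≤ π * R) (hS : S ≤ |s|)
    (hL : 0 < 2 / π * S - ‖w₁‖) :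
    kR R w₁ s ≤ (2 * R * w₁.im - ‖w₁‖ ^ 2) / (2 * R * w₂.im - ‖w₂‖ ^ 2) *
      (1 + ‖w₁ - w₂‖ / (2 / π * S - ‖w₁‖)) ^ 2 * kR R w₂ s := by
  set L := 2 / π * S - ‖w₁‖ with hLdef
  set d₁ := ‖zR R s - w₁‖ with hd1
  set d₂ := ‖zR R s - w₂‖ with hd2
  have hd2pos : 0 < d₂ := lt_of_lt_of_le (by positivity) (dist_zR_ge hR h2 hw2 s)
  have hLd : L ≤ d₁ := by
    have h3 := norm_zR_ge hR hs
    have h4 : ‖zR R s‖ ≤ ‖zR R s - w₁‖ + ‖w₁‖ := by
      have := norm_add_le (zR R s - w₁) w₁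
      rwa [sub_add_cancel] at this
    have h5 : 2 / π * S ≤ 2 / π * |s| := mul_le_mul_of_nonneg_left hS (by positivity)
    linarith
  have hd1pos : 0 < d₁ := lt_of_lt_of_le hL hLd
  have h3 : d₂ ≤ d₁ + ‖w₁ - w₂‖ := by
    have := norm_add_le (zR R s - w₁) (w₁ - w₂)
    rwa [sub_add_sub_cancel] at this
  have h4 : d₂ ≤ d₁ * (1 + ‖w₁ - w₂‖ / L) := by
    have : ‖w₁ - w₂‖ ≤ d₁ * (‖w₁ - w₂‖ / L) := by
      rw [mul_div_assoc', le_div_iff₀ hL]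
      rw [mul_comm]
      exact mul_le_mul_of_nonneg_right hLd (norm_nonneg _)
    linarith
  have ha1 : 0 < 2 * R * w₁.im - ‖w₁‖ ^ 2 := by nlinarith [mul_pos hR h1]
  have ha2 : 0 < 2 * R * w₂.im - ‖w₂‖ ^ 2 := by nlinarith [mul_pos hR h2]
  have h5 : d₂ ^ 2 ≤ (d₁ * (1 + ‖w₁ - w₂‖ / L)) ^ 2 := pow_le_pow_left₀ hd2pos.le h4 2
  rw [kR, kR, ← hd1, ← hd2]
  have e : (2 * R * w₁.im - ‖w₁‖ ^ 2) / (2 * R * w₂.im - ‖w₂‖ ^ 2) *
      (1 + ‖w₁ - w₂‖ / L) ^ 2 * ((2 * R * w₂.im - ‖w₂‖ ^ 2) / (2 * π * R * d₂ ^ 2)) =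
      (2 * R * w₁.im - ‖w₁‖ ^ 2) * ((1 + ‖w₁ - w₂‖ / L) ^ 2 / (2 * π * R * d₂ ^ 2)) := by
    field_simp
  rw [e, div_eq_mul_inv]
  apply mul_le_mul_of_nonneg_left _ ha1.le
  rw [inv_eq_one_div, div_le_div_iff₀ (by positivity) (by positivity)]
  rw [mul_pow] at h5
  have hpR : 0 < 2 * π * R := by positivity
  nlinarith [mul_le_mul_of_nonneg_left h5 hpR.le]

/-- the near integral -/
noncomputable def nr (U : ℂ → ℝ) (R S : ℝ) (w : ℂ) : ℝ := ∫ s in (-S)..S, kR R w s * U (zR R s)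

lemma far_eq {U : ℂ → ℝ} (hc : ContinuousOn U HC)
    (hh : InnerProductSpace.HarmonicOnNhd U HO) {R S : ℝ} (hR : 0 < R) {w : ℂ} (hw0 : 0 < w.im)
    (hw : ‖w‖ ^ 2 ≤ R * w.im) :
    U w - nr U R S w = (∫ s in (-(π * R))..(-S), kR R w s * U (zR R s)) +
      ∫ s in S..(π * R), kR R w s * U (zR R s) := by
  have hcont : Continuous fun s => kR R w s * U (zR R s) :=
    (kR_cont hR hw0 hw).mul (UzR_cont hc hR)
  have hi : ∀ a b : ℝ, IntervalIntegrable (fun s => kR R w s * U (zR R s)) volume a b :=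
    fun a b => hcont.intervalIntegrable a b
  rw [tangent_poisson hc hh hR (by nlinarith [mul_pos hR hw0]), nr]
  rw [← intervalIntegral.integral_add_adjacent_intervals (hi (-(π * R)) (-S)) (hi (-S) (π * R)),
    ← intervalIntegral.integral_add_adjacent_intervals (hi (-S) S) (hi S (π * R))]
  ring

lemma far_nonneg {U : ℂ → ℝ} (hc : ContinuousOn U HC)
    (hh : InnerProductSpace.HarmonicOnNhd U HO) (h0 : ∀ z ∈ HC, 0 ≤ U z) {R S : ℝ} (hR : 0 < R)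
    {w : ℂ} (hw0 : 0 < w.im) (hw : ‖w‖ ^ 2 ≤ R * w.im) (hS : S ≤ π * R) :
    0 ≤ U w - nr U R S w := by
  rw [far_eq hc hh hR hw0 hw]
  have hnn : ∀ s, 0 ≤ kR R w s * U (zR R s) := fun s =>
    mul_nonneg (kR_nonneg hR (by nlinarith [mul_pos hR hw0]) s) (h0 _ (zR_mem hR s))
  exact add_nonneg (intervalIntegral.integral_nonneg (by linarith) fun s _ => hnn s)
    (intervalIntegral.integral_nonneg hS fun s _ => hnn s)

lemma far_ratio {U : ℂ → ℝ} (hc : ContinuousOn U HC)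
    (hh : InnerProductSpace.HarmonicOnNhd U HO) (h0 : ∀ z ∈ HC, 0 ≤ U z) {R S : ℝ} (hR : 0 < R)
    {w₁ w₂ : ℂ} (h1 : 0 < w₁.im) (h2 : 0 < w₂.im) (hw1 : ‖w₁‖ ^ 2 ≤ R * w₁.im)
    (hw2 : ‖w₂‖ ^ 2 ≤ R * w₂.im) (hS : S ≤ π * R) (hS0 : 0 ≤ S) (hL : 0 < 2 / π * S - ‖w₁‖) :
    U w₁ - nr U R S w₁ ≤ (2 * R * w₁.im - ‖w₁‖ ^ 2) / (2 * R * w₂.im - ‖w₂‖ ^ 2) *
      (1 + ‖w₁ - w₂‖ / (2 / π * S - ‖w₁‖)) ^ 2 * (U w₂ - nr U R S w₂) := by
  rw [far_eq hc hh hR h1 hw1, far_eq hc hh hR h2 hw2]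
  set C := (2 * R * w₁.im - ‖w₁‖ ^ 2) / (2 * R * w₂.im - ‖w₂‖ ^ 2) *
      (1 + ‖w₁ - w₂‖ / (2 / π * S - ‖w₁‖)) ^ 2 with hC
  have hc1 : Continuous fun s => kR R w₁ s * U (zR R s) :=
    (kR_cont hR h1 hw1).mul (UzR_cont hc hR)
  have hc2 : Continuous fun s => C * (kR R w₂ s * U (zR R s)) :=
    ((kR_cont hR h2 hw2).mul (UzR_cont hc hR)).const_mul C
  have hpt : ∀ s, |s| ≤ π * R → S ≤ |s| →
      kR R w₁ s * U (zR R s) ≤ C * (kR R w₂ s * U (zR R s)) := by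
    intro s hs hSs
    have := kR_ratio hR h1 h2 hw1 hw2 hs hSs hL
    have h3 := mul_le_mul_of_nonneg_right this (h0 _ (zR_mem hR s))
    linarith
  rw [mul_add, ← intervalIntegral.integral_const_mul, ← intervalIntegral.integral_const_mul]
  refine add_le_add ?_ ?_
  · refine intervalIntegral.integral_mono_on (by linarith) (hc1.intervalIntegrable _ _)
      (hc2.intervalIntegrable _ _) fun s hs => hpt s ?_ ?_
    · rw [abs_of_nonpos (by linarith [hs.2])]; linarith [hs.1]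
    · rw [abs_of_nonpos (by linarith [hs.2])]; linarith [hs.2]
  · refine intervalIntegral.integral_mono_on hS (hc1.intervalIntegrable _ _)
      (hc2.intervalIntegrable _ _) fun s hs => hpt s ?_ ?_
    · rw [abs_of_nonneg (by linarith [hs.1])]; exact hs.2
    · rw [abs_of_nonneg (by linarith [hs.1])]; exact hs.1

/-- the truncated Poisson integral -/
noncomputable def ps (U : ℂ → ℝ) (S : ℝ) (w : ℂ) : ℝ :=
  ∫ s in (-S)..S, pk w.im (w.re - s) * U (s : ℂ)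

lemma eventually_large {w : ℂ} (hw : 0 < w.im) (S : ℝ) :
    ∀ᶠ n : ℕ in atTop, (0 : ℝ) < n ∧ ‖w‖ ^ 2 ≤ n * w.im ∧ S ≤ π * n := by
  obtain ⟨n0, hn0⟩ := exists_nat_gt (‖w‖ ^ 2 / w.im)
  obtain ⟨n1, hn1⟩ := exists_nat_gt S
  filter_upwards [eventually_ge_atTop (max (max n0 n1) 1)] with n hn
  have h1 : (1 : ℝ) ≤ n := by exact_mod_cast (le_max_right _ 1).trans hn
  have h2 : (n0 : ℝ) ≤ n := by exact_mod_cast ((le_max_left n0 n1).trans (le_max_left _ 1)).trans hn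
  have h3 : (n1 : ℝ) ≤ n := by exact_mod_cast ((le_max_right n0 n1).trans (le_max_left _ 1)).trans hn
  refine ⟨by linarith, ?_, ?_⟩
  · have := (div_lt_iff₀ hw).1 hn0
    nlinarith
  · have := pi_gt_three
    nlinarith

lemma ps_le {U : ℂ → ℝ} (hc : ContinuousOn U HC)
    (hh : InnerProductSpace.HarmonicOnNhd U HO) (h0 : ∀ z ∈ HC, 0 ≤ U z) {w : ℂ}
    (hw : 0 < w.im) (S : ℝ) : 0 ≤ U w - ps U S w := by
  have h1 : Tendsto (fun n : ℕ => U w - nr U n S w) atTop (𝓝 (U w - ps U S w)) :=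
    tendsto_const_nhds.sub (near_tendsto hc hw S)
  refine ge_of_tendsto h1 ?_
  filter_upwards [eventually_large hw S] with n hn
  exact far_nonneg hc hh h0 hn.1 hw hn.2.1 hn.2.2

lemma ps_ratio {U : ℂ → ℝ} (hc : ContinuousOn U HC)
    (hh : InnerProductSpace.HarmonicOnNhd U HO) (h0 : ∀ z ∈ HC, 0 ≤ U z) {w₁ w₂ : ℂ}
    (h1 : 0 < w₁.im) (h2 : 0 < w₂.im) {S : ℝ} (hS0 : 0 ≤ S) (hL : 0 < 2 / π * S - ‖w₁‖) :
    U w₁ - ps U S w₁ ≤ w₁.im / w₂.im * (1 + ‖w₁ - w₂‖ / (2 / π * S - ‖w₁‖)) ^ 2 *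
      (U w₂ - ps U S w₂) := by
  have t1 : Tendsto (fun n : ℕ => U w₁ - nr U n S w₁) atTop (𝓝 (U w₁ - ps U S w₁)) :=
    tendsto_const_nhds.sub (near_tendsto hc h1 S)
  have t2 : Tendsto (fun n : ℕ => U w₂ - nr U n S w₂) atTop (𝓝 (U w₂ - ps U S w₂)) :=
    tendsto_const_nhds.sub (near_tendsto hc h2 S)
  have t3 : Tendsto (fun n : ℕ => (2 * (n : ℝ) * w₁.im - ‖w₁‖ ^ 2) /
      (2 * (n : ℝ) * w₂.im - ‖w₂‖ ^ 2)) atTop (𝓝 (w₁.im / w₂.im)) := by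
    have t4 : Tendsto (fun n : ℕ => (2 * w₁.im - ‖w₁‖ ^ 2 * (n : ℝ)⁻¹) /
        (2 * w₂.im - ‖w₂‖ ^ 2 * (n : ℝ)⁻¹)) atTop
        (𝓝 ((2 * w₁.im - ‖w₁‖ ^ 2 * 0) / (2 * w₂.im - ‖w₂‖ ^ 2 * 0))) := by
      have hinv := tendsto_inv_atTop_nhds_zero_nat (𝕜 := ℝ)
      exact (tendsto_const_nhds.sub (hinv.const_mul _)).div
        (tendsto_const_nhds.sub (hinv.const_mul _)) (by simp; exact h2.ne')
    have e : (2 * w₁.im - ‖w₁‖ ^ 2 * 0) / (2 * w₂.im - ‖w₂‖ ^ 2 * 0) = w₁.im / w₂.im := by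
      simp only [mul_zero, sub_zero]
      rw [mul_div_mul_left _ _ (by norm_num)]
    rw [e] at t4
    refine t4.congr' ?_
    filter_upwards [eventually_ge_atTop 1] with n hn
    have hn' : (0 : ℝ) < n := by exact_mod_cast hn
    rw [← mul_div_mul_left (2 * w₁.im - ‖w₁‖ ^ 2 * (n : ℝ)⁻¹) _ hn'.ne']
    congr 1 <;> field_simp
  refine le_of_tendsto_of_tendsto t1 ((t3.mul_const _).mul t2) ?_
  filter_upwards [eventually_large h1 S, eventually_large h2 S] with n hn1 hn2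
  exact far_ratio hc hh h0 hn1.1 h1 h2 hn1.2.1 hn2.2.1 hn1.2.2 hS0 hL

lemma pkU_cont {U : ℂ → ℝ} (hc : ContinuousOn U HC) {w : ℂ} (hw : 0 < w.im) :
    Continuous fun s : ℝ => pk w.im (w.re - s) * U (s : ℂ) := by
  refine ((pk_cont hw).comp (by fun_prop)).mul ?_
  exact hc.comp_continuous Complex.continuous_ofReal fun s => by simp [HC]

lemma pkU_int {U : ℂ → ℝ} (hc : ContinuousOn U HC)
    (hh : InnerProductSpace.HarmonicOnNhd U HO) (h0 : ∀ z ∈ HC, 0 ≤ U z) {w : ℂ}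
    (hw : 0 < w.im) : Integrable fun s : ℝ => pk w.im (w.re - s) * U (s : ℂ) := by
  have hcont := pkU_cont hc hw
  refine integrable_of_intervalIntegral_norm_bounded (U w) (a := fun n : ℕ => -(n : ℝ))
    (b := fun n : ℕ => (n : ℝ)) (l := atTop) (fun n => ?_) ?_ ?_ ?_
  · exact (hcont.integrableOn_Icc (a := -(n : ℝ)) (b := n)).mono_set Ioc_subset_Icc_self
  · exact tendsto_neg_atTop_atBot.comp tendsto_natCast_atTop_atTop
  · exact tendsto_natCast_atTop_atTop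
  · refine Eventually.of_forall fun n => ?_
    have h1 := ps_le hc hh h0 hw n
    have h2 : ∫ s in (-(n : ℝ))..n, ‖pk w.im (w.re - s) * U (s : ℂ)‖ = ps U n w := by
      rw [ps]
      refine intervalIntegral.integral_congr fun s _ => ?_
      simp only [norm_eq_abs]
      rw [abs_of_nonneg (mul_nonneg (pk_nonneg hw.le _) (h0 _ (by simp [HC])))]
    rw [h2]; linarith

/-- **Poisson representation** of positive harmonic functions in the upper half plane. -/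
theorem rep {U : ℂ → ℝ} (hc : ContinuousOn U HC)
    (hh : InnerProductSpace.HarmonicOnNhd U HO) (h0 : ∀ z ∈ HC, 0 ≤ U z) :
    ∃ c : ℝ, 0 ≤ c ∧ ∀ w : ℂ, 0 < w.im →
      U w = c * w.im + ∫ s : ℝ, pk w.im (w.re - s) * U (s : ℂ) := by
  have tps : ∀ w : ℂ, 0 < w.im → Tendsto (fun n : ℕ => U w - ps U n w) atTop
      (𝓝 (U w - ∫ s : ℝ, pk w.im (w.re - s) * U (s : ℂ))) := fun w hw =>
    tendsto_const_nhds.sub (intervalIntegral_tendsto_integral (pkU_int hc hh h0 hw)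
      (tendsto_neg_atTop_atBot.comp tendsto_natCast_atTop_atTop) tendsto_natCast_atTop_atTop)
  have hle : ∀ w₁ w₂ : ℂ, 0 < w₁.im → 0 < w₂.im →
      U w₁ - ∫ s : ℝ, pk w₁.im (w₁.re - s) * U (s : ℂ) ≤
        w₁.im / w₂.im * (U w₂ - ∫ s : ℝ, pk w₂.im (w₂.re - s) * U (s : ℂ)) := by
    intro w₁ w₂ h1 h2
    have t1 : Tendsto (fun n : ℕ => w₁.im / w₂.im * (1 + ‖w₁ - w₂‖ / (2 / π * n - ‖w₁‖)) ^ 2 *
        (U w₂ - ps U n w₂)) atTop (𝓝 (w₁.im / w₂.im * (1 + 0) ^ 2 *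
          (U w₂ - ∫ s : ℝ, pk w₂.im (w₂.re - s) * U (s : ℂ)))) := by
      refine Tendsto.mul (Tendsto.const_mul _ (Tendsto.pow (tendsto_const_nhds.add ?_) 2)) (tps w₂ h2)
      refine Tendsto.div_atTop tendsto_const_nhds ?_
      exact tendsto_atTop_add_const_right _ _
        (tendsto_natCast_atTop_atTop.const_mul_atTop (by positivity))
    have t2 := le_of_tendsto_of_tendsto (tps w₁ h1) t1 ?_
    · simpa using t2
    · obtain ⟨n0, hn0⟩ := exists_nat_gt (‖w₁‖ * π)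
      filter_upwards [eventually_ge_atTop n0] with n hn
      refine ps_ratio hc hh h0 h1 h2 (by positivity) ?_
      have h3 : (n0 : ℝ) ≤ n := by exact_mod_cast hn
      have h4 : ‖w₁‖ * π < n := lt_of_lt_of_le hn0 h3
      have h5 : ‖w₁‖ < 2 / π * n := by
        rw [div_mul_eq_mul_div, lt_div_iff₀ pi_pos]
        have := norm_nonneg w₁
        nlinarith [pi_pos]
      linarith
  have hI : (0 : ℝ) < Complex.I.im := by simp
  refine ⟨U Complex.I - ∫ s : ℝ, pk Complex.I.im (Complex.I.re - s) * U (s : ℂ), ?_, ?_⟩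
  · refine ge_of_tendsto' (tps _ hI) fun n => ps_le hc hh h0 hI n
  · intro w hw
    have h1 := hle w Complex.I hw hI
    have h2 := hle Complex.I w hI hw
    simp only [Complex.I_im, div_one, one_div] at h1 h2 ⊢
    rw [inv_mul_eq_div, le_div_iff₀ hw] at h2
    linarith

end Pool.Agent.J4.H68.LV
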