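import Pool.Agent.J4.H68.LV.R3
import Pool.Agent.J4.H68.LV.Area
import Pool.Agent.Y502.SM

/-!
# Basic facts on the extremal functions: representation and linear growth
-/

set_option autoImplicit false

open MeasureTheory Set Filter Topology Real Metric InnerProductSpace

namespace Pool.Agent.J4.H68.LV

theorem harmonic_comp {u : ℂ → ℝ} {g : ℂ → ℂ} {z : ℂ} (hu : HarmonicAt u (g z))
    (hg : AnalyticAt ℂ g z) : HarmonicAt (fun w => u (g w)) z := by
  obtain ⟨r, hr, hball⟩ := Metric.isOpen_iff.mp (isOpen_setOfPred_harmonicAt u) (g z) hu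
  obtain ⟨F, hF, hFu⟩ := HarmonicOnNhd.exists_analyticOnNhd_ball_re_eq
    (fun w hw => hball hw : HarmonicOnNhd u (ball (g z) r))
  have h1 : AnalyticAt ℂ (fun w => F (g w)) z := (hF (g z) (mem_ball_self hr)).comp hg
  have h2 := h1.harmonicAt_re
  apply (harmonicAt_congr_nhds _).mp h2
  have h3 : ∀ᶠ w in 𝓝 z, g w ∈ ball (g z) r := hg.continuousAt (ball_mem_nhds _ hr)
  filter_upwards [h3] with w hw
  exact hFu hw

/-- `U` is a normalised symmetric positive harmonic function off `E` vanishing on `E`. -/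
structure Lev (E : Set ℝ) (U : ℂ → ℝ) : Prop where
  cont : Continuous U
  zero : ∀ x ∈ E, U (x : ℂ) = 0
  pos : ∀ z : ℂ, (∀ x ∈ E, z ≠ (x : ℂ)) → 0 < U z
  harm : HarmonicOnNhd U {z | ∀ x ∈ E, z ≠ (x : ℂ)}
  symm : ∀ z : ℂ, U (starRingEnd ℂ z) = U z
  norm : Tendsto (fun y : ℝ => U (y * Complex.I) / y) atTop (𝓝 1)

lemma mean_at {U : ℂ → ℝ} {w : ℂ} (h : HarmonicAt U w) :
    ∃ ρ > 0, ∀ r, 0 < r → r < ρ → circleAverage U w r = U w := by
  obtain ⟨ρ, hρ, hball⟩ := Metric.isOpen_iff.mp (isOpen_setOfPred_harmonicAt U) w h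
  refine ⟨ρ, hρ, fun r hr hr2 => ?_⟩
  apply InnerProductSpace.HarmonicOnNhd.circleAverage_eq
  intro z hz
  rw [abs_of_pos hr] at hz
  exact hball (closedBall_subset_ball hr2 hz)

namespace Lev

variable {E : Set ℝ} {U : ℂ → ℝ}

lemma nonneg (h : Lev E U) (z : ℂ) : 0 ≤ U z := by
  by_cases hz : ∀ x ∈ E, z ≠ (x : ℂ)
  · exact (h.pos z hz).le
  · push Not at hz
    obtain ⟨x, hx, rfl⟩ := hz
    rw [h.zero x hx]

lemma harmAt (h : Lev E U) {z : ℂ} (hz : 0 < z.im) : HarmonicAt U z := by
  apply h.harm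
  intro x _ hzx
  rw [hzx] at hz
  simp at hz

lemma harmHO (h : Lev E U) : HarmonicOnNhd U HO := fun _ hz => h.harmAt hz

lemma ls (h : Lev E U) (w : ℂ) : Y502.LS U w := by
  by_cases hw : ∀ x ∈ E, w ≠ (x : ℂ)
  · obtain ⟨ρ, hρ, h1⟩ := mean_at (h.harm w hw)
    exact ⟨ρ, hρ, fun r hr hr2 => (h1 r hr hr2).ge⟩
  · push Not at hw
    obtain ⟨x, hx, rfl⟩ := hw
    refine ⟨1, one_pos, fun r _ _ => ?_⟩
    rw [h.zero x hx]
    exact Y502.ca_ge_of_ge h.cont _ fun z _ => h.nonneg z

lemma qs (h : Lev E U) : Y502.QS 0 U := Y502.QS0_of_LS h.cont h.ls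

lemma shiftHarm (h : Lev E U) {y : ℝ} (hy : 0 ≤ y) :
    HarmonicOnNhd (fun z => U (z + y * Complex.I)) HO := by
  intro z hz
  apply harmonic_comp (g := fun z => z + y * Complex.I)
  · apply h.harmAt
    have : 0 < z.im := hz
    simp
    linarith
  · fun_prop

lemma shiftCont (h : Lev E U) (y : ℝ) : Continuous fun z => U (z + y * Complex.I) :=
  h.cont.comp (by fun_prop)

lemma int1 (h : Lev E U) {w : ℂ} (hw : 0 < w.im) :
    Integrable fun s : ℝ => pk w.im (w.re - s) * U (s : ℂ) :=
  pkU_int h.cont.continuousOn h.harmHO (fun z _ => h.nonneg z) hw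

/-- The Poisson representation. -/
lemma rep1 (h : Lev E U) {w : ℂ} (hw : 0 < w.im) :
    U w = w.im + ∫ s : ℝ, pk w.im (w.re - s) * U (s : ℂ) := by
  obtain ⟨c, _, hc⟩ := rep h.cont.continuousOn h.harmHO (fun z _ => h.nonneg z)
  suffices c = 1 by rw [hc w hw, this, one_mul]
  have hI : (0 : ℝ) < Complex.I.im := by simp
  have hint := h.int1 hI
  have t1 : Tendsto (fun y : ℝ => ∫ s : ℝ, y⁻¹ * (pk y (0 - s) * U (s : ℂ))) atTop
      (𝓝 (∫ _ : ℝ, (0 : ℝ))) := by
    apply tendsto_integral_filter_of_dominated_convergence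
      (fun s : ℝ => pk Complex.I.im (Complex.I.re - s) * U (s : ℂ))
    · filter_upwards [eventually_gt_atTop 0] with y hy
      exact (continuous_const.mul (((pk_cont hy).comp (by fun_prop)).mul
        (h.cont.comp Complex.continuous_ofReal))).aestronglyMeasurable
    · filter_upwards [eventually_ge_atTop 1] with y hy
      refine Eventually.of_forall fun s => ?_
      have hy0 : 0 < y := by linarith
      have h0 := h.nonneg (s : ℂ)
      have h1 := pk_nonneg hy0.le (0 - s)
      rw [norm_eq_abs, abs_of_nonneg (by positivity), ← mul_assoc]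
      apply mul_le_mul_of_nonneg_right _ h0
      simp only [pk, Complex.I_im, Complex.I_re]
      rw [inv_mul_le_iff₀ hy0, mul_div_assoc']
      have hy2 : (1 : ℝ) ≤ y ^ 2 := by nlinarith
      apply div_le_div₀ (by linarith) (by linarith) (by positivity)
      have := pi_pos
      nlinarith
    · exact hint
    · refine Eventually.of_forall fun s => ?_
      have e : ∀ᶠ y : ℝ in atTop, U (s : ℂ) * (π * (s ^ 2 + y ^ 2))⁻¹ =
          y⁻¹ * (pk y (0 - s) * U (s : ℂ)) := by
        filter_upwards [eventually_gt_atTop 0] with y hy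
        simp only [pk]
        field_simp
        ring
      refine Tendsto.congr' e ?_
      rw [show (0 : ℝ) = U (s : ℂ) * 0 by ring]
      apply Tendsto.const_mul
      apply Tendsto.inv_tendsto_atTop
      apply Tendsto.const_mul_atTop pi_pos
      exact tendsto_atTop_add_const_left _ _ (tendsto_pow_atTop (by norm_num))
  have t2 : Tendsto (fun y : ℝ => U (y * Complex.I) / y) atTop (𝓝 (c + 0)) := by
    simp only [integral_zero] at t1
    refine Tendsto.congr' ?_ (t1.const_add c)
    filter_upwards [eventually_gt_atTop 0] with y hy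
    have h1 := hc (y * Complex.I) (by simpa using hy)
    simp only [Complex.mul_im, Complex.ofReal_re, Complex.I_im, mul_one, Complex.ofReal_im,
      Complex.I_re, mul_zero, add_zero, Complex.mul_re, zero_mul, sub_self] at h1
    rw [h1, integral_const_mul]
    field_simp
  have := tendsto_nhds_unique t2 h.norm
  linarith

/-- The upper bound of shifted integrals. -/
lemma shift_le (h : Lev E U) {y t : ℝ} (hy : 0 ≤ y) (ht : 0 < t) (x : ℝ) :
    Integrable (fun s : ℝ => pk t (x - s) * U (s + y * Complex.I)) ∧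
    ∫ s : ℝ, pk t (x - s) * U (s + y * Complex.I) ≤ U (x + (y + t : ℝ) * Complex.I) := by
  obtain ⟨c, hc0, hc⟩ := rep (h.shiftCont y).continuousOn (h.shiftHarm hy)
    (fun z _ => h.nonneg _)
  have hw : (0 : ℝ) < ((x : ℂ) + t * Complex.I).im := by simpa using ht
  have h1 := hc _ hw
  have h2 := pkU_int (h.shiftCont y).continuousOn (h.shiftHarm hy) (fun z _ => h.nonneg _) hw
  have e1 : ((x : ℂ) + t * Complex.I).im = t := by simp
  have e2 : ((x : ℂ) + t * Complex.I).re = x := by simp
  rw [e1, e2] at h1 h2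
  refine ⟨h2, ?_⟩
  have e3 : (x : ℂ) + t * Complex.I + y * Complex.I = x + (y + t : ℝ) * Complex.I := by
    push_cast; ring
  rw [e3] at h1
  have := mul_nonneg hc0 ht.le
  linarith

lemma strip_int (h : Lev E U) {y r : ℝ} (hy : 0 ≤ y) (hr : 0 < r) (x : ℝ) :
    ∫ s in Icc (x - r) (x + r), U (s + y * Complex.I) ≤
      2 * π * r * U (x + (y + r : ℝ) * Complex.I) := by
  obtain ⟨h1, h2⟩ := h.shift_le hy hr x
  have hc : Continuous fun s : ℝ => U (s + y * Complex.I) := h.cont.comp (by fun_prop)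
  have h3 : ∫ s in Icc (x - r) (x + r), (2 * π * r)⁻¹ * U (s + y * Complex.I) ≤
      ∫ s in Icc (x - r) (x + r), pk r (x - s) * U (s + y * Complex.I) := by
    apply setIntegral_mono_on ((hc.integrableOn_Icc).const_mul _) h1.integrableOn
      measurableSet_Icc
    intro s hs
    apply mul_le_mul_of_nonneg_right _ (h.nonneg _)
    rw [pk, inv_eq_one_div, div_le_div_iff₀ (by positivity) (by positivity)]
    have : (x - s) ^ 2 ≤ r ^ 2 := by
      apply sq_le_sq'
      · linarith [hs.2]
      · linarith [hs.1]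
    nlinarith [pi_pos]
  have h4 : ∫ s in Icc (x - r) (x + r), pk r (x - s) * U (s + y * Complex.I) ≤
      ∫ s : ℝ, pk r (x - s) * U (s + y * Complex.I) :=
    setIntegral_le_integral h1 (Eventually.of_forall fun s =>
      mul_nonneg (pk_nonneg hr.le _) (h.nonneg _))
  rw [integral_const_mul] at h3
  have h5 := (h3.trans h4).trans h2
  rw [inv_mul_le_iff₀ (by positivity)] at h5
  exact h5

lemma neg_im (h : Lev E U) (x y : ℝ) : U (x + y * Complex.I) = U (x + |y| * Complex.I) := by
  rcases abs_cases y with ⟨h1, _⟩ | ⟨h1, _⟩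
  · rw [h1]
  · rw [h1, ← h.symm]
    congr 1
    simp

lemma high (h : Lev E U) {r : ℝ} (hr : 1 ≤ r) {x Y : ℝ} (hx : |x| ≤ r) (hY : r ≤ Y)
    (hY2 : Y ≤ 3 * r) : U (x + Y * Complex.I) ≤ 9 * (1 + U Complex.I) * r := by
  have hr0 : 0 < r := by linarith
  have hY0 : 0 < Y := by linarith
  have hw : (0 : ℝ) < ((x : ℂ) + Y * Complex.I).im := by simpa using hY0
  have h1 := h.rep1 hw
  have h2 := h.int1 hw
  have e1 : ((x : ℂ) + Y * Complex.I).im = Y := by simp
  have e2 : ((x : ℂ) + Y * Complex.I).re = x := by simp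
  rw [e1, e2] at h1 h2
  have hI : (0 : ℝ) < Complex.I.im := by simp
  have h3 := h.rep1 hI
  have h4 := h.int1 hI
  simp only [Complex.I_im, Complex.I_re] at h3 h4
  have h5 : ∫ s : ℝ, pk Y (x - s) * U (s : ℂ) ≤ ∫ s : ℝ, 9 * r * (pk 1 (0 - s) * U (s : ℂ)) := by
    apply integral_mono h2 (h4.const_mul _)
    intro s
    simp only
    rw [← mul_assoc]
    apply mul_le_mul_of_nonneg_right _ (h.nonneg _)
    rw [pk, pk, mul_div_assoc', div_le_div_iff₀ (by positivity) (by positivity)]
    have hx2 : x ^ 2 ≤ r ^ 2 := by rw [← sq_abs x]; exact pow_le_pow_left₀ (abs_nonneg _) hx 2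
    have hY3 : r ^ 2 ≤ Y ^ 2 := pow_le_pow_left₀ hr0.le hY 2
    have hr1 : 1 ≤ r ^ 2 := by nlinarith
    have h6 : (0 - s) ^ 2 + 1 ^ 2 ≤ 3 * ((x - s) ^ 2 + Y ^ 2) := by
      nlinarith [sq_nonneg (x - (s - x)), sq_nonneg (s - 2 * x)]
    have h7 : Y * (π * ((0 - s) ^ 2 + 1 ^ 2)) ≤ (3 * r) * (π * (3 * ((x - s) ^ 2 + Y ^ 2))) := by
      apply mul_le_mul hY2 _ (by positivity) (by positivity)
      exact mul_le_mul_of_nonneg_left h6 pi_pos.le
    linarith
  rw [integral_const_mul] at h5
  have h8 : 0 ≤ U Complex.I := h.nonneg _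
  rw [h1]
  have h9 : ∫ s : ℝ, pk 1 (0 - s) * U (s : ℂ) = U Complex.I - 1 := by linarith
  rw [h9] at h5
  nlinarith

/-- Linear growth. -/
lemma growth (h : Lev E U) : ∃ C : ℝ, 0 ≤ C ∧ ∀ z, U z ≤ C * (1 + ‖z‖) := by
  have h8 : 0 ≤ U Complex.I := h.nonneg _
  refine ⟨36 * (1 + U Complex.I), by positivity, fun z => ?_⟩
  set r : ℝ := 1 + ‖z‖ with hr
  have hr1 : 1 ≤ r := by linarith [norm_nonneg z]
  have hr0 : 0 < r := by linarith
  obtain ⟨B, hB⟩ := (isCompact_closedBall z r).exists_bound_of_continuousOn h.cont.continuousOn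
  have h1 := area_of_circle h.cont.measurable (a := z) hr0 (B := B)
    (fun w hw => hB w (ball_subset_closedBall hw))
    (fun ρ hρ _ => by simpa using h.qs z ρ hρ)
  have hV : (volume (ball z r)).toReal = Real.pi * r ^ 2 := by
    rw [Complex.volume_ball]
    simp only [ENNReal.toReal_mul, ENNReal.toReal_pow, ENNReal.toReal_ofReal hr0.le]
    rw [mul_comm]; rfl
  rw [hV] at h1
  -- the rectangle
  set S : Set (ℝ × ℝ) := Icc (z.re - r) (z.re + r) ×ˢ Icc (z.im - r) (z.im + r) with hS
  have hUc : Continuous fun p : ℝ × ℝ => U (p.1 + p.2 * Complex.I) := h.cont.comp (by fun_prop)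
  have hcomp : IsCompact S := isCompact_Icc.prod isCompact_Icc
  have h2 : ∫ w in ball z r, U w ≤ ∫ p in S, U (p.1 + p.2 * Complex.I) := by
    have e1 := (Complex.volume_preserving_equiv_real_prod.symm).setIntegral_preimage_emb
      Complex.measurableEquivRealProd.symm.measurableEmbedding U (ball z r)
    rw [← e1]
    have e2 : ∀ p : ℝ × ℝ, U (Complex.measurableEquivRealProd.symm p) =
        U (p.1 + p.2 * Complex.I) := by
      intro p
      congr 1
      exact Complex.mk_eq_add_mul_I _ _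
    simp only [e2]
    apply setIntegral_mono_set (hUc.continuousOn.integrableOn_compact hcomp)
    · exact Eventually.of_forall fun p => h.nonneg _
    · apply LE.le.eventuallyLE
      intro p hp
      rw [mem_preimage, mem_ball, dist_eq_norm] at hp
      have h3 := (Complex.abs_re_le_norm _).trans_lt hp
      have h4 := (Complex.abs_im_le_norm _).trans_lt hp
      simp only [Complex.sub_re, Complex.sub_im, Complex.measurableEquivRealProd_symm_apply]
        at h3 h4
      rw [abs_lt] at h3 h4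
      exact ⟨⟨by linarith, by linarith⟩, ⟨by linarith, by linarith⟩⟩
  have h3 : ∫ p in S, U (p.1 + p.2 * Complex.I) =
      ∫ b in Icc (z.im - r) (z.im + r), ∫ a in Icc (z.re - r) (z.re + r),
        U (a + b * Complex.I) := by
    have hio : IntegrableOn (fun p : ℝ × ℝ => U (p.1 + p.2 * Complex.I)) S
        (volume.prod volume) := hUc.continuousOn.integrableOn_compact hcomp
    rw [IntegrableOn, hS, ← Measure.prod_restrict] at hio
    have := integral_prod_symm (μ := volume.restrict (Icc (z.re - r) (z.re + r)))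
      (ν := volume.restrict (Icc (z.im - r) (z.im + r)))
      (fun p : ℝ × ℝ => U (p.1 + p.2 * Complex.I)) hio
    rw [hS, Measure.volume_eq_prod, ← Measure.prod_restrict]
    exact this
  have hre : |z.re| ≤ r := (Complex.abs_re_le_norm z).trans (by linarith)
  have him : |z.im| ≤ r := (Complex.abs_im_le_norm z).trans (by linarith)
  have h4 : ∀ b ∈ Icc (z.im - r) (z.im + r), ∫ a in Icc (z.re - r) (z.re + r),
      U (a + b * Complex.I) ≤ 2 * π * r * (9 * (1 + U Complex.I) * r) := by
    intro b hb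
    have hb1 : |b| ≤ 2 * r := by
      rw [abs_le] at him ⊢
      constructor <;> linarith [hb.1, hb.2]
    have h5 := h.strip_int (abs_nonneg b) hr0 z.re
    have h6 := h.high hr1 hre (Y := |b| + r) (by linarith [abs_nonneg b]) (by linarith)
    simp only [h.neg_im _ b]
    refine h5.trans ?_
    exact mul_le_mul_of_nonneg_left h6 (by positivity)
  have h5 : ∫ b in Icc (z.im - r) (z.im + r), ∫ a in Icc (z.re - r) (z.re + r),
      U (a + b * Complex.I) ≤ ∫ b in Icc (z.im - r) (z.im + r),
        2 * π * r * (9 * (1 + U Complex.I) * r) := by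
    have hio : Integrable (fun p : ℝ × ℝ => U (p.1 + p.2 * Complex.I))
        ((volume.restrict (Icc (z.re - r) (z.re + r))).prod
          (volume.restrict (Icc (z.im - r) (z.im + r)))) := by
      rw [Measure.prod_restrict]
      exact hUc.continuousOn.integrableOn_compact hcomp
    refine setIntegral_mono_on ?_ ?_ measurableSet_Icc h4
    · exact hio.integral_prod_right
    · exact continuous_const.integrableOn_Icc
  rw [setIntegral_const] at h5
  have h6 : volume.real (Icc (z.im - r) (z.im + r)) = 2 * r := by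
    rw [Measure.real, Real.volume_Icc, ENNReal.toReal_ofReal (by linarith)]
    ring
  rw [h6, smul_eq_mul] at h5
  have h7 : π * r ^ 2 * U z ≤ 2 * r * (2 * π * r * (9 * (1 + U Complex.I) * r)) := by
    linarith
  have h9 : 0 < π * r ^ 2 := by positivity
  refine le_of_mul_le_mul_left ?_ h9
  refine h7.trans (le_of_eq ?_)
  ring

end Lev

end Pool.Agent.J4.H68.LV
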