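import Pool.Agent.J4.H68.LV.R4

/-!
# Monotonicity in the vertical direction
-/

set_option autoImplicit false

open MeasureTheory Set Filter Topology Real Metric InnerProductSpace

namespace Pool.Agent.J4.H68.LV

open Pool.Agent.Y502

/-- complex conjugation, as a plain function -/
noncomputable def cj (z : ℂ) : ℂ := starRingEnd ℂ z

lemma cj_cont : Continuous cj := Complex.continuous_conj

lemma cj_cj (z : ℂ) : cj (cj z) = z := Complex.conj_conj z

lemma cj_re (z : ℂ) : (cj z).re = z.re := Complex.conj_re z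

lemma cj_im (z : ℂ) : (cj z).im = -z.im := Complex.conj_im z

lemma cj_norm (z : ℂ) : ‖cj z‖ = ‖z‖ := Complex.norm_conj z

lemma cj_sub (z w : ℂ) : cj (z - w) = cj z - cj w := map_sub _ _ _

lemma cj_real {w : ℂ} (hw : w.im = 0) : cj w = w := Complex.conj_eq_iff_im.2 hw

lemma ca_cj (f : ℂ → ℝ) (R : ℝ) : circleAverage (fun z => f (cj z)) 0 R = circleAverage f 0 R := by
  rw [circleAverage_def, circleAverage_def]
  congr 1
  have h1 : ∀ θ : ℝ, cj (circleMap 0 R θ) = circleMap 0 R (-θ) := by
    intro θ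
    apply Complex.ext
    · rw [cj_re]
      simp [circleMap, Complex.exp_re]
    · rw [cj_im]
      simp [circleMap, Complex.exp_im]
  simp only [h1]
  rw [intervalIntegral.integral_comp_neg (fun θ => f (circleMap 0 R θ))]
  have hper : Function.Periodic (fun θ => f (circleMap 0 R θ)) (2 * π) := fun θ => by
    simp only [periodic_circleMap 0 R θ]
  have := hper.intervalIntegral_add_eq (-(2 * π)) 0
  simp only [neg_add_cancel, zero_add] at this
  simpa using this

/-- The odd kernel. -/
lemma odd_kernel {R : ℝ} {w z : ℂ} (hR : 0 < R) (hw : ‖w‖ ≤ R / 2) (hz : ‖z‖ = R) :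
    K0 w z - K0 w (cj z) = (R ^ 2 - ‖w‖ ^ 2) * (4 * (z.im * w.im)) /
      (‖z - w‖ ^ 2 * ‖cj z - w‖ ^ 2) := by
  have h1 : 0 < ‖z - w‖ := by
    have := norm_sub_norm_le z w
    rw [hz] at this
    linarith
  have h2 : 0 < ‖cj z - w‖ := by
    have := norm_sub_norm_le (cj z) w
    rw [cj_norm, hz] at this
    linarith
  rw [K0_eq, K0_eq, cj_norm, hz]
  have h3 : ‖cj z - w‖ ^ 2 - ‖z - w‖ ^ 2 = 4 * (z.im * w.im) := by
    rw [← Complex.normSq_eq_norm_sq, ← Complex.normSq_eq_norm_sq, Complex.normSq_apply,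
      Complex.normSq_apply]
    simp only [Complex.sub_re, Complex.sub_im, cj_re, cj_im]
    ring
  rw [← h3]
  field_simp

lemma odd_kernel_le {R : ℝ} {w z : ℂ} (hR : 0 < R) (hw : ‖w‖ ≤ R / 2) (hz : ‖z‖ = R)
    (hw0 : 0 ≤ w.im) (hz0 : 0 ≤ z.im) :
    0 ≤ K0 w z - K0 w (cj z) ∧ K0 w z - K0 w (cj z) ≤ 64 * w.im * z.im / R ^ 2 := by
  have h1 : R / 2 ≤ ‖z - w‖ := by
    have := norm_sub_norm_le z w
    rw [hz] at this
    linarith
  have h2 : R / 2 ≤ ‖cj z - w‖ := by
    have := norm_sub_norm_le (cj z) w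
    rw [cj_norm, hz] at this
    linarith
  have hw2 : ‖w‖ ^ 2 ≤ R ^ 2 := pow_le_pow_left₀ (norm_nonneg _) (by linarith) 2
  rw [odd_kernel hR hw hz]
  have h3 : (R / 2) ^ 2 ≤ ‖z - w‖ ^ 2 := pow_le_pow_left₀ (by positivity) h1 2
  have h4 : (R / 2) ^ 2 ≤ ‖cj z - w‖ ^ 2 := pow_le_pow_left₀ (by positivity) h2 2
  have h5 : 0 < (R / 2) ^ 2 := by positivity
  refine ⟨div_nonneg (mul_nonneg (by linarith) (by positivity)) (by positivity), ?_⟩
  have h6 : (R ^ 2 - ‖w‖ ^ 2) * (4 * (z.im * w.im)) ≤ R ^ 2 * (4 * (z.im * w.im)) :=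
    mul_le_mul_of_nonneg_right (by linarith [sq_nonneg ‖w‖]) (by positivity)
  have h7 : (R / 2) ^ 2 * (R / 2) ^ 2 ≤ ‖z - w‖ ^ 2 * ‖cj z - w‖ ^ 2 :=
    mul_le_mul h3 h4 h5.le (by positivity)
  have h8 : (R ^ 2 - ‖w‖ ^ 2) * (4 * (z.im * w.im)) / (‖z - w‖ ^ 2 * ‖cj z - w‖ ^ 2) ≤
      R ^ 2 * (4 * (z.im * w.im)) / ((R / 2) ^ 2 * (R / 2) ^ 2) :=
    div_le_div₀ (by positivity) h6 (by positivity) h7
  refine h8.trans (le_of_eq ?_)
  field_simp
  ring

/-- An odd continuous function in a disc: bound for the Poisson integral. -/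
lemma odd_PM0 {f : ℂ → ℝ} (hf : Continuous f) (hodd : ∀ z, f (cj z) = - f z) {R B : ℝ}
    (hR : 0 < R) (hB : ∀ z, ‖z‖ = R → 0 < z.im → z.im * f z ≤ B) (hB0 : 0 ≤ B) {w : ℂ}
    (hw : ‖w‖ ≤ R / 2) (hw0 : 0 ≤ w.im) : PM0 f R w ≤ 32 * w.im * B / R ^ 2 := by
  have hwR : ‖w‖ < R := by linarith
  have e1 : PM0 f R w = circleAverage (fun z => K0 w z * f z) 0 R := PM0_in hwR
  have e2 : circleAverage (fun z => K0 w z * f z) 0 R =
      circleAverage (fun z => K0 w (cj z) * f (cj z)) 0 R :=
    (ca_cj (fun z => K0 w z * f z) R).symm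
  have hKc : ContinuousOn (fun z => K0 w (cj z)) (sphere 0 |R|) := by
    apply (K0_contOn hwR).comp cj_cont.continuousOn
    intro z hz
    rw [mem_sphere, dist_zero_right] at hz ⊢
    rw [cj_norm, hz]
  have hi1 : CircleIntegrable (fun z => K0 w z * f z) 0 R := K0_ci hwR hf
  have hi2 : CircleIntegrable (fun z => K0 w (cj z) * f (cj z)) 0 R := by
    apply ContinuousOn.circleIntegrable'
    exact hKc.mul (hf.comp cj_cont).continuousOn
  have e3 : circleAverage (fun z => K0 w z * f z + K0 w (cj z) * f (cj z)) 0 R =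
      2 * PM0 f R w := by
    rw [circleAverage_fun_add hi1 hi2, ← e2, e1]
    ring
  have e4 : circleAverage (fun z => K0 w z * f z + K0 w (cj z) * f (cj z)) 0 R ≤
      64 * w.im * B / R ^ 2 := by
    apply circleAverage_mono_on_of_le_circle (hi1.add hi2)
    intro z hz
    rw [mem_sphere, dist_zero_right, abs_of_pos hR] at hz
    simp only [Pi.add_apply, hodd]
    rcases lt_trichotomy 0 z.im with h | h | h
    · obtain ⟨h1, h2⟩ := odd_kernel_le hR hw hz hw0 h.le
      have h3 := hB z hz h
      have e : K0 w z * f z + K0 w (cj z) * -f z = (K0 w z - K0 w (cj z)) * f z := by ring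
      rw [e]
      rcases le_or_gt (f z) 0 with hf0 | hf0
      · exact (mul_nonpos_of_nonneg_of_nonpos h1 hf0).trans (by positivity)
      · refine (mul_le_mul_of_nonneg_right h2 hf0.le).trans ?_
        have e5 : 64 * w.im * z.im / R ^ 2 * f z = 64 * w.im * (z.im * f z) / R ^ 2 := by ring
        rw [e5]
        gcongr
    · have e : cj z = z := cj_real h.symm
      rw [e]
      have : 0 ≤ 64 * w.im * B / R ^ 2 := by positivity
      linarith
    · obtain ⟨h1, h2⟩ := odd_kernel_le (z := cj z) hR hw (by rw [cj_norm, hz]) hw0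
        (by rw [cj_im]; linarith)
      rw [cj_cj] at h1 h2
      rw [cj_im] at h2
      have h3 := hB (cj z) (by rw [cj_norm, hz]) (by rw [cj_im]; linarith)
      rw [cj_im, hodd] at h3
      have e : K0 w z * f z + K0 w (cj z) * -f z = (K0 w (cj z) - K0 w z) * (-f z) := by ring
      rw [e]
      rcases le_or_gt (-f z) 0 with hf0 | hf0
      · exact (mul_nonpos_of_nonneg_of_nonpos h1 hf0).trans (by positivity)
      · refine (mul_le_mul_of_nonneg_right h2 hf0.le).trans ?_
        have e5 : 64 * w.im * (-z.im) / R ^ 2 * (-f z) = 64 * w.im * (-z.im * -f z) / R ^ 2 := by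
          ring
        rw [e5]
        gcongr
  rw [e3] at e4
  have : 64 * w.im * B / R ^ 2 = 2 * (32 * w.im * B / R ^ 2) := by ring
  linarith

lemma odd_PM0_real {f : ℂ → ℝ} (hf : Continuous f) (hodd : ∀ z, f (cj z) = - f z) {R : ℝ}
    {w : ℂ} (hw0 : w.im = 0) : f w - PM0 f R w = 0 := by
  by_cases hwR : ‖w‖ < R
  · have e0 : f w = 0 := by
      have := hodd w
      rw [cj_real hw0] at this
      linarith
    have e1 : PM0 f R w = circleAverage (fun z => K0 w z * f z) 0 R := PM0_in hwR
    have e2 : circleAverage (fun z => K0 w z * f z) 0 R =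
        circleAverage (fun z => K0 w (cj z) * f (cj z)) 0 R :=
      (ca_cj (fun z => K0 w z * f z) R).symm
    have e3 : circleAverage (fun z => K0 w (cj z) * f (cj z)) 0 R =
        circleAverage (fun z => -(K0 w z * f z)) 0 R := by
      congr 1
      funext z
      rw [hodd, K0_eq, K0_eq, cj_norm]
      have : ‖cj z - w‖ = ‖z - w‖ := by
        rw [← cj_norm (z - w), cj_sub, cj_real hw0]
      rw [this]
      ring
    rw [ca_neg] at e3
    have : PM0 f R w = 0 := by linarith
    rw [e0, this, sub_zero]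
  · rw [PM0_out (not_lt.1 hwR), sub_self]

/-- An odd continuous function which is subharmonic in the upper half plane lies below its
Poisson integral in the upper half disc. -/
lemma odd_le_PM0 {f : ℂ → ℝ} (hf : Continuous f) (hodd : ∀ z, f (cj z) = - f z) {R : ℝ}
    (hR : 0 < R) (hl : ∀ w, 0 < w.im → LS f w) {w : ℂ} (hw : ‖w‖ < R) (hw0 : 0 < w.im) :
    f w ≤ PM0 f R w := by
  set g : ℂ → ℝ := fun z => f z - PM0 f R z with hg
  have hgc : Continuous g := hf.sub (PM0_cont hf hR)
  set ψ : ℂ → ℝ := fun z => max (g (z.re + (max z.im 0 : ℝ) * Complex.I)) 0 with hψ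
  have hψc : Continuous ψ := by
    apply Continuous.max _ continuous_const
    apply hgc.comp
    have : Continuous fun z : ℂ => (max z.im 0 : ℝ) := Complex.continuous_im.max continuous_const
    have h2 := Complex.continuous_re
    fun_prop
  have hup : ∀ z : ℂ, 0 < z.im → ψ z = max (g z) 0 := by
    intro z hz
    simp only [hψ]
    rw [max_eq_left hz.le, Complex.re_add_im]
  have hdown : ∀ z : ℂ, z.im ≤ 0 → ψ z = 0 := by
    intro z hz
    simp only [hψ]
    rw [max_eq_right hz]
    have : g (z.re + (0 : ℝ) * Complex.I) = 0 := by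
      apply odd_PM0_real hf hodd
      simp
    rw [this, max_self]
  have hψ0 : ∀ z, 0 ≤ ψ z := fun z => le_max_right _ _
  have hLS : ∀ z, ‖z‖ < R → LS ψ z := by
    intro z hz
    rcases le_or_gt z.im 0 with h | h
    · refine ⟨1, one_pos, fun r _ _ => ?_⟩
      rw [hdown z h]
      exact ca_ge_of_ge hψc _ fun x _ => hψ0 x
    · have h1 : LS g z := LS_sub hf (PM0_cont hf hR) (hl z h) (ρ := R - ‖z‖) (by linarith)
        (PM0_mean_small hf hz)
      obtain ⟨r₀, hr₀, h2⟩ := h1
      have h3 : LS (fun x => max (g x) 0) z := by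
        refine ⟨r₀, hr₀, fun r hr hr2 => ?_⟩
        have hc : Continuous fun x => max (g x) 0 := hgc.max continuous_const
        apply max_le
        · exact (h2 r hr hr2).trans (ca_mono hgc hc z r fun x => le_max_left _ _)
        · exact ca_ge_of_ge hc _ fun x _ => le_max_right _ _
      refine LS_congr (ρ := z.im) h (fun x hx => ?_) h3
      have : 0 < x.im := by
        have h4 := (Complex.abs_im_le_norm _).trans_lt hx
        rw [Complex.sub_im, abs_lt] at h4
        linarith
      rw [hup x this]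
  have h1 := max_principle hψc hR hLS (M := 0) (fun z hz => by
    rcases le_or_gt z.im 0 with h | h
    · rw [hdown z h]
    · rw [hup z h]
      simp only [hg]
      rw [PM0_out hz.ge, sub_self, max_self]) hw.le
  rw [hup w hw0] at h1
  have := (le_max_left (g w) 0).trans h1
  simp only [hg] at this
  linarith

namespace Lev

variable {E : Set ℝ} {U : ℂ → ℝ}

/-- `U` is increasing in the vertical direction. -/
lemma mono_aux (h : Lev E U) {η : ℝ} (hη : 0 < η) {w : ℂ} (hw : 0 < w.im) :
    U (w - η * Complex.I) ≤ U (w + η * Complex.I) := by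
  obtain ⟨C, hC0, hC⟩ := h.growth
  set f : ℂ → ℝ := fun z => U (z - η * Complex.I) - U (z + η * Complex.I) with hf
  have hc1 : Continuous fun z => U (z - η * Complex.I) := h.cont.comp (by fun_prop)
  have hc2 : Continuous fun z => U (z + η * Complex.I) := h.cont.comp (by fun_prop)
  have hfc : Continuous f := hc1.sub hc2
  have hodd : ∀ z, f (cj z) = - f z := by
    intro z
    have e1 : cj z - η * Complex.I = starRingEnd ℂ (z + η * Complex.I) := by
      simp [cj]
      ring
    have e2 : cj z + η * Complex.I = starRingEnd ℂ (z - η * Complex.I) := by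
      simp [cj]
    simp only [hf]
    rw [e1, e2, h.symm, h.symm]
    ring
  have hl : ∀ z : ℂ, 0 < z.im → LS f z := by
    intro z hz
    have h1 : LS (fun z => U (z - η * Complex.I)) z := by
      obtain ⟨r₀, hr₀, h2⟩ := h.ls (z - η * Complex.I)
      refine ⟨r₀, hr₀, fun r hr hr2 => ?_⟩
      have := ca_transl U (-(η * Complex.I)) z r
      simp only [← sub_eq_add_neg] at this
      rw [this]
      exact h2 r hr hr2
    obtain ⟨ρ, hρ, h3⟩ := mean_at (U := fun z => U (z + η * Complex.I)) (h.shiftHarm hη.le z hz)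
    exact LS_sub hc1 hc2 h1 hρ h3
  have hbound : ∀ R : ℝ, ∀ z : ℂ, ‖z‖ = R → 0 < z.im →
      z.im * f z ≤ 2 * η * (C * (1 + R + η)) := by
    intro R z hz hz0
    have hU : U (z - η * Complex.I) ≤ C * (1 + R + η) := by
      refine (hC _).trans (mul_le_mul_of_nonneg_left ?_ hC0)
      have := norm_sub_le z (η * Complex.I)
      rw [norm_mul, Complex.norm_I, mul_one, Complex.norm_real, norm_eq_abs, abs_of_pos hη, hz]
        at this
      linarith
    have hU0 : 0 ≤ U (z - η * Complex.I) := h.nonneg _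
    have hV0 : 0 ≤ U (z + η * Complex.I) := h.nonneg _
    rcases le_or_gt z.im (2 * η) with h1 | h1
    · have h2 : f z ≤ U (z - η * Complex.I) := by simp only [hf]; linarith
      calc z.im * f z ≤ z.im * U (z - η * Complex.I) := mul_le_mul_of_nonneg_left h2 hz0.le
        _ ≤ 2 * η * (C * (1 + R + η)) := mul_le_mul h1 hU hU0 (by positivity)
    · have e1 : (z - η * Complex.I).im = z.im - η := by simp
      have e2 : (z + η * Complex.I).im = z.im + η := by simp
      have e3 : (z - η * Complex.I).re = z.re := by simp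
      have e4 : (z + η * Complex.I).re = z.re := by simp
      have p1 : 0 < (z - η * Complex.I).im := by rw [e1]; linarith
      have p2 : 0 < (z + η * Complex.I).im := by rw [e2]; linarith
      have r1 := h.rep1 p1
      have r2 := h.rep1 p2
      have i1 := h.int1 p1
      have i2 := h.int1 p2
      rw [e1, e3] at r1 i1
      rw [e2, e4] at r2 i2
      set a := z.im - η with ha
      have ha0 : 0 < a := by linarith
      have hb : z.im + η = a + 2 * η := by rw [ha]; ring
      rw [hb] at r2 i2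
      have h3 : a / (a + 2 * η) * ∫ s : ℝ, pk a (z.re - s) * U (s : ℂ) ≤
          ∫ s : ℝ, pk (a + 2 * η) (z.re - s) * U (s : ℂ) := by
        rw [← integral_const_mul]
        apply integral_mono (i1.const_mul _) i2
        intro s
        simp only
        rw [← mul_assoc]
        apply mul_le_mul_of_nonneg_right _ (h.nonneg _)
        rw [pk, pk, div_mul_div_comm, div_le_div_iff₀ (by positivity) (by positivity)]
        have h4 : a ^ 2 * ((z.re - s) ^ 2 + (a + 2 * η) ^ 2) ≤
            (a + 2 * η) ^ 2 * ((z.re - s) ^ 2 + a ^ 2) := by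
          have : a ^ 2 ≤ (a + 2 * η) ^ 2 := pow_le_pow_left₀ ha0.le (by linarith) 2
          nlinarith [sq_nonneg (z.re - s), mul_le_mul_of_nonneg_right this (sq_nonneg (z.re - s))]
        calc a * a * (π * ((z.re - s) ^ 2 + (a + 2 * η) ^ 2)) =
            π * (a ^ 2 * ((z.re - s) ^ 2 + (a + 2 * η) ^ 2)) := by ring
          _ ≤ π * ((a + 2 * η) ^ 2 * ((z.re - s) ^ 2 + a ^ 2)) :=
            mul_le_mul_of_nonneg_left h4 pi_pos.le
          _ = _ := by ring
      set I := ∫ s : ℝ, pk a (z.re - s) * U (s : ℂ) with hI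
      have hI0 : 0 ≤ I := integral_nonneg fun s => mul_nonneg (pk_nonneg ha0.le _) (h.nonneg _)
      have h5 : f z ≤ 2 * η / (a + 2 * η) * I := by
        simp only [hf]
        rw [r1, r2]
        have : 2 * η / (a + 2 * η) = 1 - a / (a + 2 * η) := by field_simp; ring
        rw [this]
        linarith
      have h6 : z.im ≤ a + 2 * η := by linarith
      have h7 : I ≤ U (z - η * Complex.I) := by rw [r1]; linarith
      calc z.im * f z ≤ z.im * (2 * η / (a + 2 * η) * I) := mul_le_mul_of_nonneg_left h5 hz0.le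
        _ ≤ (a + 2 * η) * (2 * η / (a + 2 * η) * I) :=
          mul_le_mul_of_nonneg_right h6 (by positivity)
        _ = 2 * η * I := by field_simp
        _ ≤ 2 * η * (C * (1 + R + η)) :=
          mul_le_mul_of_nonneg_left (h7.trans hU) (by positivity)
  have key : ∀ᶠ R : ℝ in atTop, f w ≤
      32 * w.im * (2 * η * (C * (1 + R + η))) / R ^ 2 := by
    filter_upwards [eventually_gt_atTop (2 * ‖w‖), eventually_gt_atTop 0] with R hR1 hR
    exact (odd_le_PM0 hfc hodd hR hl (by linarith [norm_nonneg w]) hw).trans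
      (odd_PM0 hfc hodd hR (hbound R) (by positivity) (by linarith) hw.le)
  have t1 : Tendsto (fun R : ℝ => 32 * w.im * (2 * η * (C * (1 + R + η))) / R ^ 2) atTop
      (𝓝 0) := by
    have e : ∀ᶠ R : ℝ in atTop, (64 * w.im * η * C) * ((1 + η) * (R⁻¹ * R⁻¹) + R⁻¹) =
        32 * w.im * (2 * η * (C * (1 + R + η))) / R ^ 2 := by
      filter_upwards [eventually_gt_atTop 0] with R hR
      field_simp
      ring
    refine Tendsto.congr' e ?_
    have hinv := tendsto_inv_atTop_zero (𝕜 := ℝ)
    have := ((((hinv.mul hinv).const_mul (1 + η)).add hinv).const_mul (64 * w.im * η * C))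
    simpa using this
  have := ge_of_tendsto t1 key
  simp only [hf] at this
  linarith

lemma mono (h : Lev E U) {x y₁ y₂ : ℝ} (h1 : 0 ≤ y₁) (h2 : y₁ ≤ y₂) :
    U (x + y₁ * Complex.I) ≤ U (x + y₂ * Complex.I) := by
  rcases h2.eq_or_lt with rfl | h3
  · exact le_rfl
  · have := h.mono_aux (η := (y₂ - y₁) / 2) (by linarith)
      (w := x + ((y₁ + y₂) / 2 : ℝ) * Complex.I) (by simp; linarith)
    convert this using 2
    · push_cast; ring
    · push_cast; ring

end Lev

end Pool.Agent.J4.H68.LV
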