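import Pool.Agent.J4.H68.LV.R5

/-!
# One-step inequality and boundedness
-/

set_option autoImplicit false

open MeasureTheory Set Filter Topology Real Metric InnerProductSpace

namespace Pool.Agent.J4.H68.LV

/-- every interval of length one meets `E` in measure at least `δ` -/
def Thick (E : Set ℝ) (δ : ℝ) : Prop := ∀ a : ℝ, δ ≤ volume.real (E ∩ Icc a (a + 1))

lemma thick_ioc {E : Set ℝ} {δ : ℝ} (h : Thick E δ) (a : ℝ) :
    δ ≤ volume.real (E ∩ Ioc a (a + 1)) := by
  have : volume.real (E ∩ Ioc a (a + 1)) = volume.real (E ∩ Icc a (a + 1)) := by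
    apply measureReal_congr
    exact (ae_eq_refl E).inter Ioc_ae_eq_Icc
  rw [this]
  exact h a

lemma thick_int {E : Set ℝ} (hE : MeasurableSet E) {δ : ℝ} (h : Thick E δ) {F : ℝ → ℝ}
    (hFi : Integrable F) {K : ℝ} (hK : 0 < K) (h0 : ∀ x, 0 ≤ F x)
    (hh : ∀ x y, |x - y| ≤ 1 → F y ≤ K * F x) : δ * ∫ x, F x ≤ K * ∫ x in E, F x := by
  have hdis : Pairwise (Function.onFun Disjoint fun n : ℤ => Ioc (n : ℝ) (n + 1)) :=
    pairwise_disjoint_Ioc_intCast ℝ
  have hU : ⋃ n : ℤ, Ioc (n : ℝ) (n + 1) = univ := iUnion_Ioc_intCast ℝ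
  have s1 : HasSum (fun n : ℤ => ∫ x in Ioc (n : ℝ) (n + 1), F x) (∫ x, F x) := by
    have := hasSum_integral_iUnion (f := F) (μ := volume) (fun n : ℤ => measurableSet_Ioc) hdis
      (by rw [hU]; exact hFi.integrableOn)
    rwa [hU, setIntegral_univ] at this
  have hGi : Integrable (E.indicator F) := hFi.indicator hE
  have s2 : HasSum (fun n : ℤ => ∫ x in Ioc (n : ℝ) (n + 1), E.indicator F x)
      (∫ x, E.indicator F x) := by
    have := hasSum_integral_iUnion (f := E.indicator F) (μ := volume)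
      (fun n : ℤ => measurableSet_Ioc) hdis (by rw [hU]; exact hGi.integrableOn)
    rwa [hU, setIntegral_univ] at this
  rw [integral_indicator hE] at s2
  refine hasSum_le (fun n => ?_) (s1.mul_left δ) (s2.mul_left K)
  have h1 : ∀ y ∈ Ioc (n : ℝ) (n + 1), δ * F y ≤ K * ∫ x in Ioc (n : ℝ) (n + 1), E.indicator F x := by
    intro y hy
    rw [setIntegral_indicator hE, ← integral_const_mul]
    have h2 : ∫ x in Ioc (n : ℝ) (n + 1) ∩ E, F y ≤ ∫ x in Ioc (n : ℝ) (n + 1) ∩ E, K * F x := by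
      apply setIntegral_mono_on
      · exact (integrableOn_const (by
          refine ne_top_of_le_ne_top ?_ (measure_mono inter_subset_left)
          simp))
      · exact (hFi.const_mul K).integrableOn
      · exact measurableSet_Ioc.inter hE
      · intro x hx
        apply hh
        rw [abs_le]
        constructor <;> linarith [hx.1.1, hx.1.2, hy.1, hy.2]
    refine le_trans ?_ h2
    rw [setIntegral_const, smul_eq_mul, inter_comm]
    exact mul_le_mul_of_nonneg_right (thick_ioc h n) (h0 y)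
  have h2 : ∫ y in Ioc (n : ℝ) (n + 1), δ * F y ≤ ∫ y in Ioc (n : ℝ) (n + 1),
      K * ∫ x in Ioc (n : ℝ) (n + 1), E.indicator F x := by
    apply setIntegral_mono_on (hFi.const_mul δ).integrableOn _ measurableSet_Ioc h1
    exact integrableOn_const (by simp)
  rw [integral_const_mul, setIntegral_const] at h2
  simpa using h2

lemma pk_three {L a b : ℝ} (hL : 1 ≤ L) (hab : |a - b| ≤ 1) : pk L a ≤ 3 * pk L b := by
  have hL0 : 0 < L := by linarith
  rw [pk, pk, mul_div_assoc', div_le_div_iff₀ (by positivity) (by positivity)]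
  have h1 : (a - b) ^ 2 ≤ 1 := by
    rw [← sq_abs]
    nlinarith [abs_nonneg (a - b)]
  have h2 : b ^ 2 + L ^ 2 ≤ 3 * (a ^ 2 + L ^ 2) := by nlinarith [sq_nonneg (2 * a - b)]
  calc L * (π * (b ^ 2 + L ^ 2)) ≤ L * (π * (3 * (a ^ 2 + L ^ 2))) := by gcongr
    _ = _ := by ring

namespace Lev

variable {E : Set ℝ} {U : ℂ → ℝ}

/-- The representation in real coordinates. -/
lemma rep2 (h : Lev E U) (x : ℝ) {t : ℝ} (ht : 0 < t) :
    Integrable (fun s : ℝ => pk t (x - s) * U (s : ℂ)) ∧
    U (x + t * Complex.I) = t + ∫ s : ℝ, pk t (x - s) * U (s : ℂ) := by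
  have hw : (0 : ℝ) < ((x : ℂ) + t * Complex.I).im := by simpa using ht
  have h1 := h.rep1 hw
  have h2 := h.int1 hw
  have e1 : ((x : ℂ) + t * Complex.I).im = t := by simp
  have e2 : ((x : ℂ) + t * Complex.I).re = x := by simp
  rw [e1, e2] at h1 h2
  exact ⟨h2, h1⟩

/-- The one-step inequality. -/
lemma one_step (h : Lev E U) (x : ℝ) {t : ℝ} (ht : 0 < t) :
    U (x : ℂ) ≤ t + ∫ s : ℝ, pk t (x - s) * U (s : ℂ) := by
  rw [← (h.rep2 x ht).2]
  have := h.mono (x := x) le_rfl ht.le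
  simpa using this

lemma high_step (h : Lev E U) (x : ℝ) {L t : ℝ} (hL : 0 < L) (ht : 0 < t) :
    U (x + (t + L : ℝ) * Complex.I) ≤ (t + L) / L * U (x + L * Complex.I) := by
  obtain ⟨i1, r1⟩ := h.rep2 x (t := t + L) (by positivity)
  obtain ⟨i2, r2⟩ := h.rep2 x hL
  rw [r1, r2]
  have h3 : ∫ s : ℝ, pk (t + L) (x - s) * U (s : ℂ) ≤
      (t + L) / L * ∫ s : ℝ, pk L (x - s) * U (s : ℂ) := by
    rw [← integral_const_mul]
    apply integral_mono i1 (i2.const_mul _)
    intro s
    simp only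
    rw [← mul_assoc]
    apply mul_le_mul_of_nonneg_right _ (h.nonneg _)
    rw [pk, pk, div_mul_div_comm, div_le_div_iff₀ (by positivity) (by positivity)]
    have : L ^ 2 ≤ (t + L) ^ 2 := pow_le_pow_left₀ hL.le (by linarith) 2
    calc (t + L) * (L * (π * ((x - s) ^ 2 + L ^ 2))) ≤
        (t + L) * (L * (π * ((x - s) ^ 2 + (t + L) ^ 2))) := by gcongr
      _ = _ := by ring
  have h4 : (t + L) / L * (L + ∫ s : ℝ, pk L (x - s) * U (s : ℂ)) =
      (t + L) + (t + L) / L * ∫ s : ℝ, pk L (x - s) * U (s : ℂ) := by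
    field_simp
  linarith

/-- Boundedness. -/
lemma bdd (h : Lev E U) (hE : IsClosed E) {δ : ℝ} (hδ : 0 < δ) (hδ1 : δ ≤ 1) (ht : Thick E δ)
    (x : ℝ) : U (x : ℂ) ≤ (18 / δ) ^ 2 := by
  set L : ℝ := 18 / δ with hL
  have hL1 : 1 ≤ L := by rw [hL, le_div_iff₀ hδ]; linarith
  have hL0 : 0 < L := by linarith
  obtain ⟨i2, r2⟩ := h.rep2 x hL0
  obtain ⟨i3, r3⟩ := h.shift_le (y := 1) zero_le_one hL0 x
  set F : ℝ → ℝ := fun s => pk L (x - s) * U (s + (1 : ℝ) * Complex.I) with hF
  have hF0 : ∀ s, 0 ≤ F s := fun s => mul_nonneg (pk_nonneg hL0.le _) (h.nonneg _)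
  have hW : ∀ s r : ℝ, |s - r| ≤ 1 →
      U (r + (1 : ℝ) * Complex.I) ≤ 3 * U (s + (1 : ℝ) * Complex.I) := by
    intro s r hsr
    obtain ⟨i4, r4⟩ := h.rep2 s one_pos
    obtain ⟨i5, r5⟩ := h.rep2 r one_pos
    rw [r4, r5]
    have : ∫ v : ℝ, pk 1 (r - v) * U (v : ℂ) ≤ 3 * ∫ v : ℝ, pk 1 (s - v) * U (v : ℂ) := by
      rw [← integral_const_mul]
      apply integral_mono i5 (i4.const_mul _)
      intro v
      simp only
      rw [← mul_assoc]
      apply mul_le_mul_of_nonneg_right _ (h.nonneg _)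
      apply pk_three le_rfl
      rw [abs_sub_comm] at hsr
      convert hsr using 2
      ring
    linarith
  have hFh : ∀ s r, |s - r| ≤ 1 → F r ≤ 9 * F s := by
    intro s r hsr
    have h1 : pk L (x - r) ≤ 3 * pk L (x - s) := by
      apply pk_three hL1
      convert hsr using 2
      ring
    calc F r ≤ (3 * pk L (x - s)) * (3 * U (s + (1 : ℝ) * Complex.I)) :=
          mul_le_mul h1 (hW s r hsr) (h.nonneg _) (by
            have := pk_nonneg hL0.le (x - s)
            positivity)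
      _ = 9 * F s := by simp only [hF]; ring
  have h1 := thick_int hE.measurableSet ht i3 (by norm_num) hF0 hFh
  have h2 : ∫ s : ℝ, pk L (x - s) * U (s : ℂ) ≤ ∫ s in Eᶜ, F s := by
    have h3 : ∫ s : ℝ, pk L (x - s) * U (s : ℂ) = ∫ s in Eᶜ, pk L (x - s) * U (s : ℂ) := by
      rw [← integral_indicator hE.measurableSet.compl]
      congr 1
      funext s
      by_cases hs : s ∈ E
      · rw [indicator_of_notMem (by simpa using hs), h.zero s hs, mul_zero]
      · rw [indicator_of_mem (by simpa using hs)]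
    rw [h3]
    apply setIntegral_mono i2.integrableOn i3.integrableOn
    intro s
    apply mul_le_mul_of_nonneg_left _ (pk_nonneg hL0.le _)
    have := h.mono (x := s) le_rfl zero_le_one
    simpa using this
  have h3 : (∫ s in E, F s) + ∫ s in Eᶜ, F s = ∫ s, F s :=
    integral_add_compl hE.measurableSet i3
  have h4 := h.high_step x hL0 one_pos
  set A := U (x + L * Complex.I) with hA
  have h5 : U (x : ℂ) ≤ A := by
    have := h.mono (x := x) le_rfl hL0.le
    simpa using this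
  have hA0 : 0 ≤ A := h.nonneg _
  have h6 : ∫ s, F s ≤ (1 + L) / L * A := r3.trans h4
  have hI0 : 0 ≤ ∫ s, F s := integral_nonneg hF0
  have h7 : A ≤ L + (1 - δ / 9) * ∫ s, F s := by
    rw [r2]
    linarith
  have h8 : A ≤ L + (1 - δ / 9) * ((1 + L) / L * A) :=
    h7.trans (by
      have : 0 ≤ 1 - δ / 9 := by linarith
      nlinarith [mul_le_mul_of_nonneg_left h6 this])
  have h9 : (1 - δ / 9) * ((1 + L) / L) ≤ 1 - δ / 18 := by
    have : (1 + L) / L = 1 + δ / 18 := by rw [hL]; field_simp; ring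
    rw [this]
    nlinarith [sq_nonneg δ]
  have h10 : A ≤ L + (1 - δ / 18) * A := by
    have := mul_le_mul_of_nonneg_right h9 hA0
    linarith
  have h11 : A * (δ / 18) ≤ L := by linarith
  have h12 : A ≤ L * L := by
    have : L * (δ / 18) = 1 := by rw [hL]; field_simp
    have h13 := mul_le_mul_of_nonneg_left h11 hL0.le
    have h14 : L * (A * (δ / 18)) = A := by
      calc L * (A * (δ / 18)) = A * (L * (δ / 18)) := by ring
        _ = A := by rw [this, mul_one]
    linarith
  rw [pow_two]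
  linarith

end Lev

end Pool.Agent.J4.H68.LV
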