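import Pool.Agent.J4.H68.LV.R6
import Pool.Agent.J4.H68.LV.D6

/-!
# The discretized Cauchy kernel
-/

set_option autoImplicit false

open Finset Filter Topology Real

namespace Pool.Agent.J4.H68.LV

/-- the periodization of the Cauchy kernel -/
noncomputable def Pt (t x : ℝ) : ℝ := sinh (2 * π * t) / (cosh (2 * π * t) - cos (2 * π * x))

lemma den_pos {t : ℝ} (ht : 0 < t) (x : ℝ) : 0 < cosh (2 * π * t) - cos (2 * π * x) := by
  have h1 : 1 < cosh (2 * π * t) := by
    rw [one_lt_cosh]; positivity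
  have := cos_le_one (2 * π * x)
  linarith

lemma Pt_pos {t : ℝ} (ht : 0 < t) (x : ℝ) : 0 < Pt t x :=
  div_pos (sinh_pos_iff.2 (by positivity)) (den_pos ht x)

lemma Pt_anti {t : ℝ} (ht : 0 < t) {x y : ℝ} (hx : 0 ≤ x) (hxy : x ≤ y) (hy : y ≤ 1 / 2) :
    Pt t y ≤ Pt t x := by
  unfold Pt
  apply div_le_div_of_nonneg_left (sinh_pos_iff.2 (by positivity)).le (den_pos ht x)
  have : cos (2 * π * y) ≤ cos (2 * π * x) := by
    apply cos_le_cos_of_nonneg_of_le_pi (by positivity)
    · nlinarith [pi_pos]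
    · gcongr
  linarith

lemma cot_im {X t : ℝ} (ht : 0 < t) :
    (Complex.cot (π * ((X : ℂ) + t * Complex.I))).im = - Pt t X := by
  set a : ℝ := π * X with ha
  set b : ℝ := π * t with hb
  have e : (π * ((X : ℂ) + t * Complex.I)) = (a : ℂ) + b * Complex.I := by
    rw [ha, hb]; push_cast; ring
  have hb0 : 0 < b := by positivity
  rw [e, Complex.cot, Complex.cos_add_mul_I, Complex.sin_add_mul_I, ← Complex.ofReal_cos,
    ← Complex.ofReal_sin, ← Complex.ofReal_cosh, ← Complex.ofReal_sinh, Complex.div_im]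
  simp only [Complex.sub_im, Complex.mul_im, Complex.ofReal_re, Complex.ofReal_im, Complex.I_re,
    Complex.I_im, Complex.add_re, Complex.mul_re, Complex.sub_re, Complex.add_im,
    Complex.normSq_apply]
  have h2b : 2 * π * t = 2 * b := by rw [hb]; ring
  have h2a : 2 * π * X = 2 * a := by rw [ha]; ring
  have hd := den_pos ht X
  unfold Pt
  rw [h2b, h2a, sinh_two_mul, cosh_two_mul, cos_two_mul] at *
  have h1 := sin_sq_add_cos_sq a
  have h3 := cosh_sq b
  have hden : (sin a * cosh b) * (sin a * cosh b) + (cos a * sinh b) * (cos a * sinh b) =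
      (cosh b ^ 2 + sinh b ^ 2 - (2 * cos a ^ 2 - 1)) / 2 := by
    have : sin a ^ 2 = 1 - cos a ^ 2 := by linarith
    calc (sin a * cosh b) * (sin a * cosh b) + (cos a * sinh b) * (cos a * sinh b) =
        sin a ^ 2 * cosh b ^ 2 + cos a ^ 2 * sinh b ^ 2 := by ring
      _ = _ := by rw [this, h3]; ring
  have hdne : (sin a * cosh b) * (sin a * cosh b) + (cos a * sinh b) * (cos a * sinh b) ≠ 0 := by
    rw [hden]; positivity
  have e1 : (sin a * cosh b - 0 * 0 + (cos a * sinh b * 0 - (cos a * 0 + 0 * sinh b) * 1)) =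
      sin a * cosh b := by ring
  simp only [mul_zero, zero_mul, mul_one, sub_zero, add_zero, zero_add, zero_sub] at *
  rw [← sub_div, div_eq_iff hdne, hden]
  have hd' := hd.ne'
  have e2 : -(2 * sinh b * cosh b / (cosh b ^ 2 + sinh b ^ 2 - (2 * cos a ^ 2 - 1))) *
      ((cosh b ^ 2 + sinh b ^ 2 - (2 * cos a ^ 2 - 1)) / 2) = -(sinh b * cosh b) := by
    field_simp
  rw [e2]
  linear_combination (-(sinh b * cosh b)) * h1

lemma pk_summable {τ : ℝ} (hτ : 0 < τ) (X : ℝ) : Summable fun k : ℤ => pk τ (X + k) := by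
  have h1 : Summable fun n : ℤ => (τ * (2 + 2 * X ^ 2 / τ ^ 2) / π) * (1 / (n : ℝ) ^ 2) :=
    (Real.summable_one_div_int_pow.2 (by norm_num)).mul_left _
  refine Summable.of_norm_bounded_eventually h1 ?_
  have : ∀ᶠ n : ℤ in cofinite, n ≠ 0 := by
    rw [Filter.eventually_cofinite]
    simp
  filter_upwards [this] with n hn
  have hn' : (n : ℝ) ≠ 0 := by exact_mod_cast hn
  rw [norm_eq_abs, abs_of_nonneg (pk_nonneg hτ.le _), pk]
  have h2 : (n : ℝ) ^ 2 ≤ (2 + 2 * X ^ 2 / τ ^ 2) * ((X + n) ^ 2 + τ ^ 2) := by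
    have e : (2 + 2 * X ^ 2 / τ ^ 2) * ((X + n) ^ 2 + τ ^ 2) =
        2 * (X + n) ^ 2 + 2 * X ^ 2 + 2 * τ ^ 2 + 2 * X ^ 2 / τ ^ 2 * (X + n) ^ 2 := by
      field_simp
      ring
    rw [e]
    have : 0 ≤ 2 * X ^ 2 / τ ^ 2 * (X + n) ^ 2 := by positivity
    nlinarith [sq_nonneg (2 * X + n), sq_nonneg τ]
  rw [div_mul_div_comm, mul_one, div_le_div_iff₀ (by positivity) (by positivity)]
  calc τ * (π * (n : ℝ) ^ 2) ≤ τ * (π * ((2 + 2 * X ^ 2 / τ ^ 2) * ((X + n) ^ 2 + τ ^ 2))) := by
        gcongr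
    _ = _ := by ring

lemma tsum_pk {t : ℝ} (ht : 0 < t) (X : ℝ) : ∑' k : ℤ, pk t (X + k) = Pt t X := by
  set z : ℂ := (X : ℂ) + t * Complex.I with hz
  have hzi : z.im = t := by simp [hz]
  have hzr : z.re = X := by simp [hz]
  have hzc : z ∈ Complex.integerComplement := by
    rintro ⟨n, hn⟩
    rw [← hn] at hzi
    simp at hzi
    exact ht.ne hzi
  have him : ∀ k : ℝ, (1 / (z + k)).im = - (π * pk t (X + k)) := by
    intro k
    rw [one_div, Complex.inv_im, Complex.add_im, hzi, Complex.ofReal_im, Complex.normSq_apply,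
      Complex.add_re, Complex.add_im, hzi, hzr, Complex.ofReal_im, Complex.ofReal_re, pk]
    field_simp
    ring
  have hCS : ∀ n : ℕ, CS (fun k : ℤ => π * pk t (X + k)) n =
      π * pk t X - (∑ j ∈ range n, cotTerm z j).im := by
    intro n
    induction n with
    | zero => simp [CS_zero]
    | succ n ih =>
      rw [CS_succ, ih, sum_range_succ, Complex.add_im]
      have h1 := him ((n : ℝ) + 1)
      have h2 := him (-((n : ℝ) + 1))
      have h3 : (cotTerm z n).im = - (π * pk t (X + (-((n : ℝ) + 1)))) -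
          π * pk t (X + ((n : ℝ) + 1)) := by
        rw [cotTerm, Complex.add_im]
        push_cast at h1 h2
        rw [sub_eq_add_neg z, h2, h1]
        ring
      rw [h3]
      push_cast
      ring
  have t1 := tendsto_logDeriv_euler_cot_sub hzc
  have t2 : Tendsto (fun n : ℕ => CS (fun k : ℤ => π * pk t (X + k)) n) atTop
      (𝓝 (π * pk t X - (π * Complex.cot (π * z) - 1 / z).im)) := by
    simp only [hCS]
    exact tendsto_const_nhds.sub ((Complex.continuous_im.tendsto _).comp t1)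
  have hs : Summable fun k : ℤ => π * pk t (X + k) := (pk_summable ht X).mul_left π
  have t3 := tendsto_CS hs
  have h4 := tendsto_nhds_unique t3 t2
  rw [tsum_mul_left, Complex.sub_im] at h4
  have h5 := him 0
  simp only [Complex.ofReal_zero, add_zero] at h5
  rw [h5, Complex.mul_im, cot_im ht] at h4
  simp only [Complex.ofReal_re, Complex.ofReal_im, zero_mul, add_zero] at h4
  have h6 : π * ∑' k : ℤ, pk t (X + k) = π * Pt t X := by linarith
  exact mul_left_cancel₀ pi_pos.ne' h6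

/-- the discrete kernel -/
noncomputable def qk (τ : ℝ) (d : ℤ) : ℝ := pk τ d

lemma pk_even (τ x : ℝ) : pk τ (-x) = pk τ x := by simp [pk]

lemma pk_anti {τ : ℝ} (hτ : 0 < τ) {x y : ℝ} (hx : 0 ≤ x) (hxy : x ≤ y) : pk τ y ≤ pk τ x := by
  unfold pk
  apply div_le_div_of_nonneg_left hτ.le (by positivity)
  have : x ^ 2 ≤ y ^ 2 := pow_le_pow_left₀ hx hxy 2
  have := pi_pos
  gcongr

lemma qk_ker {τ : ℝ} (hτ : 0 < τ) : Ker (qk τ) where
  even x := by simp only [qk]; push_cast; exact pk_even _ _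
  nonneg x := pk_nonneg hτ.le _
  anti r := by
    simp only [qk]
    push_cast
    exact pk_anti hτ (by positivity) (by linarith)
  summ := by
    have := pk_summable hτ 0
    simp only [zero_add] at this
    exact this

lemma PP_qk {N : ℕ} {t : ℝ} (ht : 0 < t) (d : ℤ) :
    PP N (qk (t * (2 * N + 1))) d = Pt t (d / (2 * N + 1)) / (2 * N + 1) := by
  rw [PP, ← tsum_pk ht, ← tsum_div_const]
  congr 1
  funext k
  have hn : (0 : ℝ) < 2 * N + 1 := by positivity
  simp only [qk, pk]
  push_cast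
  field_simp

lemma PP_anti {N : ℕ} {t : ℝ} (ht : 0 < t) : ∀ s < N,
    PP N (qk (t * (2 * N + 1))) ((s : ℤ) + 1) ≤ PP N (qk (t * (2 * N + 1))) s := by
  intro s hs
  rw [PP_qk ht, PP_qk ht]
  have hn : (0 : ℝ) < 2 * N + 1 := by positivity
  have hs' : (s : ℝ) + 1 ≤ N := by exact_mod_cast hs
  apply div_le_div_of_nonneg_right _ hn.le
  apply Pt_anti ht (by positivity)
  · push_cast
    gcongr
    linarith
  · push_cast
    rw [div_le_div_iff₀ hn (by norm_num)]
    linarith

end Pool.Agent.J4.H68.LV
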