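import Pool.Agent.J4.H68.LV.R6

/-!
# The explicit extremal function
-/

set_option autoImplicit false

open MeasureTheory Set Filter Topology Real Metric InnerProductSpace

namespace Pool.Agent.J4.H68.LV

/-- half the sum of the distances to `1` and `-1` -/
noncomputable def hh (w : ℂ) : ℝ := (‖w - 1‖ + ‖w + 1‖) / 2

lemma hh_cont : Continuous hh := by unfold hh; fun_prop

lemma one_le_hh (w : ℂ) : 1 ≤ hh w := by
  have h1 : ‖(w + 1) - (w - 1)‖ ≤ ‖w + 1‖ + ‖w - 1‖ := norm_sub_le _ _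
  have h2 : (w + 1) - (w - 1) = 2 := by ring
  rw [h2, Complex.norm_ofNat] at h1
  unfold hh; linarith

lemma norm_add_sq' (w : ℂ) : ‖w + 1‖ ^ 2 = (w.re + 1) ^ 2 + w.im ^ 2 := by
  rw [← Complex.normSq_eq_norm_sq, Complex.normSq_apply]
  simp; ring

lemma norm_sub_sq' (w : ℂ) : ‖w - 1‖ ^ 2 = (w.re - 1) ^ 2 + w.im ^ 2 := by
  rw [← Complex.normSq_eq_norm_sq, Complex.normSq_apply]
  simp; ring

lemma norm_sq' (w : ℂ) : ‖w‖ ^ 2 = w.re ^ 2 + w.im ^ 2 := by
  rw [← Complex.normSq_eq_norm_sq, Complex.normSq_apply]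
  ring

lemma hh_eq_one {w : ℂ} (h : hh w = 1) : w.im = 0 ∧ |w.re| ≤ 1 := by
  have h1 := norm_add_sq' w
  have h2 := norm_sub_sq' w
  unfold hh at h
  have h3 : ‖w + 1‖ = 2 - ‖w - 1‖ := by linarith
  rw [h3] at h1
  have h4 : ‖w - 1‖ = 1 - w.re := by nlinarith
  rw [h4] at h2 h3
  have h5 : w.im ^ 2 = 0 := by nlinarith
  refine ⟨by simpa using h5, ?_⟩
  have h6 := norm_nonneg (w - 1)
  have h7 := norm_nonneg (w + 1)
  rw [abs_le]
  constructor <;> linarith

lemma hh_real (x : ℝ) : hh (x : ℂ) = max 1 |x| := by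
  have e1 : ‖(x : ℂ) - 1‖ = |x - 1| := by
    rw [← Complex.ofReal_one, ← Complex.ofReal_sub, Complex.norm_real, norm_eq_abs]
  have e2 : ‖(x : ℂ) + 1‖ = |x + 1| := by
    rw [← Complex.ofReal_one, ← Complex.ofReal_add, Complex.norm_real, norm_eq_abs]
  rw [hh, e1, e2]
  rcases le_total |x| 1 with h | h
  · rw [max_eq_left h]
    rw [abs_le] at h
    rw [abs_of_nonpos (by linarith), abs_of_nonneg (by linarith)]
    ring
  · rw [max_eq_right h]
    rcases abs_cases x with ⟨h1, h2⟩ | ⟨h1, h2⟩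
    · rw [h1] at h ⊢
      rw [abs_of_nonneg (by linarith), abs_of_nonneg (by linarith)]
      ring
    · rw [h1] at h ⊢
      rw [abs_of_nonpos (by linarith), abs_of_nonpos (by linarith)]
      ring

lemma hh_conj (w : ℂ) : hh (starRingEnd ℂ w) = hh w := by
  have e1 : ‖starRingEnd ℂ w - 1‖ = ‖w - 1‖ := by
    rw [← Complex.norm_conj (w - 1)]; simp
  have e2 : ‖starRingEnd ℂ w + 1‖ = ‖w + 1‖ := by
    rw [← Complex.norm_conj (w + 1)]; simp
  rw [hh, hh, e1, e2]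

lemma hh_neg (w : ℂ) : hh (-w) = hh w := by
  have e1 : ‖-w - 1‖ = ‖w + 1‖ := by rw [← norm_neg]; ring_nf
  have e2 : ‖-w + 1‖ = ‖w - 1‖ := by rw [← norm_neg]; ring_nf
  rw [hh, hh, e1, e2]; ring

lemma hh_sq (w : ℂ) : 2 * hh w ^ 2 - 1 = ‖w‖ ^ 2 + ‖w ^ 2 - 1‖ := by
  have h1 := norm_add_sq' w
  have h2 := norm_sub_sq' w
  have h3 := norm_sq' w
  have h4 : ‖w ^ 2 - 1‖ = ‖w - 1‖ * ‖w + 1‖ := by
    rw [← norm_mul]; ring_nf
  rw [h4, hh]
  nlinarith

/-- the square root branch -/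
noncomputable def sb (w : ℂ) : ℂ := Complex.exp ((1 / 2 : ℂ) * Complex.log (1 - (w ^ 2)⁻¹))

/-- `w` is outside the segment `[-1,1]` -/
def Out (w : ℂ) : Prop := w.im = 0 → 1 < |w.re|

lemma Out.ne {w : ℂ} (h : Out w) : w ≠ 0 := by
  rintro rfl
  have := h rfl
  simp at this
  linarith

lemma Out.slit {w : ℂ} (h : Out w) : 1 - (w ^ 2)⁻¹ ∈ Complex.slitPlane := by
  rw [Complex.mem_slitPlane_iff]
  by_contra hcon
  push Not at hcon
  obtain ⟨h1, h2⟩ := hcon
  have hw := h.ne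
  set u := (w ^ 2)⁻¹ with hu
  have h3 : u.im = 0 := by simpa using h2
  have h4 : 1 ≤ u.re := by simpa using h1
  have h5 : w ^ 2 = u⁻¹ := by rw [hu, inv_inv]
  have h6 : u = (u.re : ℂ) := by
    apply Complex.ext
    · simp
    · simp [h3]
  rw [h6, ← Complex.ofReal_inv] at h5
  have h7 : (w ^ 2).re = u.re⁻¹ := by rw [h5, Complex.ofReal_re]
  have h8 : (w ^ 2).im = 0 := by rw [h5, Complex.ofReal_im]
  rw [pow_two, Complex.mul_re] at h7
  rw [pow_two, Complex.mul_im] at h8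
  have h9 : 0 < u.re⁻¹ := by positivity
  have h10 : u.re⁻¹ ≤ 1 := inv_le_one_of_one_le₀ h4
  have h11 : w.re ≠ 0 := by
    intro h0
    rw [h0] at h7
    nlinarith [sq_nonneg w.im]
  have h12 : w.im = 0 := by
    have : w.re * w.im = 0 := by linarith
    rcases mul_eq_zero.1 this with h | h
    · exact absurd h h11
    · exact h
  have h13 := h h12
  rw [h12] at h7
  have h14 : 1 < w.re ^ 2 := by
    rw [← sq_abs]
    nlinarith [abs_nonneg w.re]
  nlinarith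

lemma sb_sq {w : ℂ} (h : Out w) : sb w ^ 2 = 1 - (w ^ 2)⁻¹ := by
  have h1 : 1 - (w ^ 2)⁻¹ ≠ 0 := Complex.slitPlane_ne_zero h.slit
  rw [sb, ← Complex.exp_nat_mul]
  push_cast
  rw [← mul_assoc, show (2 : ℂ) * (1 / 2) = 1 by norm_num, one_mul, Complex.exp_log h1]

lemma sb_re {w : ℂ} (h : Out w) : 0 < (sb w).re := by
  rw [sb, Complex.exp_re]
  apply mul_pos (Real.exp_pos _)
  apply Real.cos_pos_of_mem_Ioo
  have h1 := Complex.mem_slitPlane_iff_arg.1 h.slit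
  have h2 : ((1 / 2 : ℂ) * Complex.log (1 - (w ^ 2)⁻¹)).im = Complex.arg (1 - (w ^ 2)⁻¹) / 2 := by
    rw [Complex.mul_im, Complex.log_im]
    have e1 : (1 / 2 : ℂ).re = 1 / 2 := by norm_num
    have e2 : (1 / 2 : ℂ).im = 0 := by norm_num
    rw [e1, e2]
    ring
  rw [h2]
  have h3 := Complex.neg_pi_lt_arg (1 - (w ^ 2)⁻¹)
  have h4 := Complex.arg_le_pi (1 - (w ^ 2)⁻¹)
  have h5 : Complex.arg (1 - (w ^ 2)⁻¹) < π := lt_of_le_of_ne h4 h1.1
  constructor <;> linarith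

/-- the exterior map -/
noncomputable def ph (w : ℂ) : ℂ := w * (1 + sb w)

lemma ph_ne {w : ℂ} (h : Out w) : ph w ≠ 0 := by
  apply mul_ne_zero h.ne
  intro h0
  have := sb_re h
  have h1 := congrArg Complex.re h0
  simp at h1
  linarith

lemma ph_main {w : ℂ} (h : Out w) : arcosh (hh w) = Real.log ‖ph w‖ := by
  have hne := ph_ne h
  have hw := h.ne
  set φ := ph w with hφ
  set ψ := w * (1 - sb w) with hψ
  have h1 : φ * ψ = 1 := by
    rw [hφ, hψ, ph]
    have : w * (1 + sb w) * (w * (1 - sb w)) = w ^ 2 * (1 - sb w ^ 2) := by ring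
    rw [this, sb_sq h]
    field_simp
    ring
  have h2 : φ + ψ = 2 * w := by rw [hφ, hψ, ph]; ring
  have hr : 0 < ‖φ‖ := norm_pos_iff.2 hne
  have h3 : ‖φ‖ * ‖ψ‖ = 1 := by rw [← norm_mul, h1, norm_one]
  have h4 : ‖ψ‖ ≤ ‖φ‖ := by
    rw [hψ, hφ, ph, norm_mul, norm_mul]
    apply mul_le_mul_of_nonneg_left _ (norm_nonneg _)
    have h5 := norm_add_sq' (sb w)
    have h6 := norm_sub_sq' (sb w)
    have h7 := sb_re h
    rw [norm_sub_rev, add_comm (1 : ℂ)]
    refine (pow_le_pow_iff_left₀ (norm_nonneg _) (norm_nonneg _) two_ne_zero).1 ?_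
    rw [h5, h6]
    nlinarith
  have h5 : 1 ≤ ‖φ‖ := by nlinarith [norm_nonneg ψ]
  have h6 : ‖w - 1‖ = ‖φ - 1‖ ^ 2 / (2 * ‖φ‖) := by
    rw [eq_div_iff (by positivity), ← norm_pow]
    have : (φ - 1) ^ 2 = (w - 1) * (2 * φ) := by linear_combination (-1 : ℂ) * h1 + φ * h2
    rw [this, norm_mul, norm_mul, Complex.norm_ofNat]
  have h7 : ‖w + 1‖ = ‖φ + 1‖ ^ 2 / (2 * ‖φ‖) := by
    rw [eq_div_iff (by positivity), ← norm_pow]
    have : (φ + 1) ^ 2 = (w + 1) * (2 * φ) := by linear_combination (-1 : ℂ) * h1 + φ * h2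
    rw [this, norm_mul, norm_mul, Complex.norm_ofNat]
  have h8 : hh w = Real.cosh (Real.log ‖φ‖) := by
    rw [Real.cosh_log hr, hh, h6, h7, norm_sub_sq', norm_add_sq']
    have := norm_sq' φ
    field_simp
    rw [this]
    ring
  rw [h8, arcosh_cosh (Real.log_nonneg h5)]

lemma ph_analytic {w : ℂ} (h : Out w) : AnalyticAt ℂ ph w := by
  have h1 : AnalyticAt ℂ (fun w : ℂ => 1 - (w ^ 2)⁻¹) w := by
    apply analyticAt_const.sub
    exact (analyticAt_id.pow 2).inv (pow_ne_zero 2 h.ne)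
  have h2 : AnalyticAt ℂ (fun w : ℂ => Complex.log (1 - (w ^ 2)⁻¹)) w := h1.clog h.slit
  have h3 : AnalyticAt ℂ sb w := (analyticAt_const.mul h2).cexp
  exact analyticAt_id.mul (analyticAt_const.add h3)

lemma out_iff {w : ℂ} : Out w ↔ 1 < hh w := by
  constructor
  · intro h
    rcases (one_le_hh w).eq_or_lt with h1 | h1
    · obtain ⟨h2, h3⟩ := hh_eq_one h1.symm
      have := h h2
      linarith
    · exact h1
  · intro h h0
    have e : w = (w.re : ℂ) := by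
      apply Complex.ext
      · simp
      · simp [h0]
    rw [e, hh_real] at h
    by_contra hcon
    rw [max_eq_left (not_lt.1 hcon)] at h
    exact lt_irrefl _ h

/-- the harmonic function of the exterior of a segment -/
lemma harm_hh {w : ℂ} (h : Out w) : HarmonicAt (fun z => arcosh (hh z)) w := by
  have h1 := (ph_analytic h).harmonicAt_log_norm (ph_ne h)
  apply (harmonicAt_congr_nhds _).1 h1
  have h2 : ∀ᶠ z in 𝓝 w, 1 < hh z := (hh_cont.tendsto w).eventually (lt_mem_nhds (out_iff.1 h))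
  filter_upwards [h2] with z hz
  exact (ph_main (out_iff.2 hz)).symm

lemma arcosh_mul_le {s t : ℝ} (hs : 1 ≤ s) (ht : 1 ≤ t) :
    arcosh (s * t) ≤ arcosh s + arcosh t := by
  have h1 := arcosh_nonneg hs
  have h2 := arcosh_nonneg ht
  rw [← arcosh_cosh (add_nonneg h1 h2)]
  rw [arcosh_le_arcosh (by positivity) (cosh_pos _), cosh_add, cosh_arcosh hs, cosh_arcosh ht]
  have := mul_nonneg (sinh_nonneg_iff.2 h1) (sinh_nonneg_iff.2 h2)
  linarith

end Pool.Agent.J4.H68.LV
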