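import Pool.Agent.J4.H68.LV.R8

/-!
# The explicit extremal function, II
-/

set_option autoImplicit false

open MeasureTheory Set Filter Topology Real Metric InnerProductSpace

namespace Pool.Agent.J4.H68.LV

/-- the uniformizing variable -/
noncomputable def ww (a : ℝ) (z : ℂ) : ℂ := Complex.cos (π * z) / (cos (π * a) : ℝ)

/-- the periodic set with gaps of half width `a` centred at the integers -/
def EE (a : ℝ) : Set ℝ := {x | |cos (π * x)| ≤ cos (π * a)}

/-- its extremal function -/
noncomputable def UE (a : ℝ) (z : ℂ) : ℝ := π⁻¹ * arcosh (hh (ww a z))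

lemma cpos {a : ℝ} (ha0 : 0 < a) (ha : a < 1 / 2) : 0 < cos (π * a) := by
  apply cos_pos_of_mem_Ioo
  constructor <;> nlinarith [pi_pos]

lemma clt {a : ℝ} (ha0 : 0 < a) (ha : a < 1 / 2) : cos (π * a) < 1 := by
  have := cos_lt_cos_of_nonneg_of_le_pi (x := 0) (y := π * a) le_rfl (by nlinarith [pi_pos])
    (by positivity)
  rwa [cos_zero] at this

lemma cosz_re (x y : ℝ) : (Complex.cos (π * ((x : ℂ) + y * Complex.I))).re =
    cos (π * x) * cosh (π * y) := by
  have e : (π * ((x : ℂ) + y * Complex.I)) = ((π * x : ℝ) : ℂ) + (π * y : ℝ) * Complex.I := by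
    push_cast; ring
  rw [e, Complex.cos_add_mul_I, ← Complex.ofReal_cos, ← Complex.ofReal_sin,
    ← Complex.ofReal_cosh, ← Complex.ofReal_sinh]
  simp only [Complex.sub_re, Complex.sub_im, Complex.mul_re, Complex.ofReal_re,
    Complex.ofReal_im, Complex.I_re, Complex.I_im, Complex.mul_im]
  ring

lemma cosz_im (x y : ℝ) : (Complex.cos (π * ((x : ℂ) + y * Complex.I))).im =
    -(sin (π * x) * sinh (π * y)) := by
  have e : (π * ((x : ℂ) + y * Complex.I)) = ((π * x : ℝ) : ℂ) + (π * y : ℝ) * Complex.I := by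
    push_cast; ring
  rw [e, Complex.cos_add_mul_I, ← Complex.ofReal_cos, ← Complex.ofReal_sin,
    ← Complex.ofReal_cosh, ← Complex.ofReal_sinh]
  simp only [Complex.sub_re, Complex.sub_im, Complex.mul_re, Complex.ofReal_re,
    Complex.ofReal_im, Complex.I_re, Complex.I_im, Complex.mul_im]
  ring

lemma ww_cont (a : ℝ) : Continuous (ww a) := by unfold ww; fun_prop

lemma ww_analytic (a : ℝ) (z : ℂ) : AnalyticAt ℂ (ww a) z := by
  apply Differentiable.analyticAt
  unfold ww
  fun_prop

lemma ww_real (a x : ℝ) : ww a x = ((cos (π * x) / cos (π * a) : ℝ) : ℂ) := by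
  rw [ww]; push_cast; rfl

lemma UE_real (a x : ℝ) (hc : 0 < cos (π * a)) :
    UE a x = π⁻¹ * arcosh (max 1 (|cos (π * x)| / cos (π * a))) := by
  rw [UE, ww_real, hh_real, abs_div, abs_of_pos hc]

lemma ww_out {a : ℝ} (ha0 : 0 < a) (ha : a < 1 / 2) {z : ℂ} (hz : ∀ x ∈ EE a, z ≠ (x : ℂ)) :
    Out (ww a z) := by
  have hc := cpos ha0 ha
  have hc1 := clt ha0 ha
  intro h0
  by_contra hcon
  push Not at hcon
  have e : z = (z.re : ℂ) + z.im * Complex.I := (Complex.re_add_im z).symm
  have h1 : (ww a z).im = (Complex.cos (π * z)).im / cos (π * a) := by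
    rw [ww, Complex.div_ofReal_im]
  have h2 : (ww a z).re = (Complex.cos (π * z)).re / cos (π * a) := by
    rw [ww, Complex.div_ofReal_re]
  rw [e, cosz_im] at h1
  rw [e, cosz_re] at h2
  rw [← e] at h1 h2
  rw [h0] at h1
  have h3 : sin (π * z.re) * sinh (π * z.im) = 0 := by
    have := (eq_div_iff hc.ne').1 h1
    linarith
  rw [h2, abs_div, abs_of_pos hc, div_le_one hc] at hcon
  have hz0 : z.im = 0 := by
    rcases mul_eq_zero.1 h3 with h | h
    · exfalso
      have h4 := sin_sq_add_cos_sq (π * z.re)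
      rw [h] at h4
      have h5 : |cos (π * z.re)| = 1 := by
        have : cos (π * z.re) ^ 2 = 1 := by linarith
        rw [← sq_abs] at this
        nlinarith [abs_nonneg (cos (π * z.re))]
      rw [abs_mul, h5, one_mul, abs_of_pos (cosh_pos _)] at hcon
      have := one_le_cosh (π * z.im)
      linarith
    · have := sinh_eq_zero.1 h
      rcases mul_eq_zero.1 this with h6 | h6
      · exact absurd h6 pi_pos.ne'
      · exact h6
  rw [hz0] at hcon e
  refine hz z.re ?_ (by rw [e]; simp)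
  simpa [EE] using hcon

theorem lev_UE {a : ℝ} (ha0 : 0 < a) (ha : a < 1 / 2) : Lev (EE a) (UE a) := by
  have hc := cpos ha0 ha
  have hc1 := clt ha0 ha
  have hp : 0 < π⁻¹ := by positivity
  refine ⟨?_, ?_, ?_, ?_, ?_, ?_⟩
  · unfold UE
    refine continuous_const.mul ?_
    exact continuousOn_arcosh.comp_continuous (hh_cont.comp (ww_cont a)) fun z => one_le_hh _
  · intro x hx
    have h1 : |cos (π * x)| ≤ cos (π * a) := hx
    rw [UE_real a x hc, max_eq_left ((div_le_one hc).2 h1), arcosh_zero, mul_zero]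
  · intro z hz
    exact mul_pos hp (arcosh_pos (out_iff.1 (ww_out ha0 ha hz)))
  · intro z hz
    have h1 := harmonic_comp (harm_hh (ww_out ha0 ha hz)) (ww_analytic a z)
    exact h1.const_smul (c := π⁻¹)
  · intro z
    have : ww a (starRingEnd ℂ z) = starRingEnd ℂ (ww a z) := by
      rw [ww, ww, map_div₀, ← Complex.cos_conj, map_mul, Complex.conj_ofReal, Complex.conj_ofReal]
    rw [UE, UE, this, hh_conj]
  · have e : ∀ y : ℝ, UE a (y * Complex.I) = π⁻¹ * arcosh (cosh (π * y) / cos (π * a)) := by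
      intro y
      have h1 : ww a (y * Complex.I) = ((cosh (π * y) / cos (π * a) : ℝ) : ℂ) := by
        rw [ww, ← mul_assoc, ← Complex.ofReal_mul, Complex.cos_mul_I, ← Complex.ofReal_cosh]
        push_cast; rfl
      rw [UE, h1, hh_real]
      have h2 : 1 ≤ cosh (π * y) / cos (π * a) := by
        rw [le_div_iff₀ hc]
        have := one_le_cosh (π * y)
        linarith
      rw [abs_of_pos (by linarith), max_eq_right h2]
    have hc2 : 1 ≤ (cos (π * a))⁻¹ := (one_le_inv₀ hc).2 hc1.le
    have low : ∀ y : ℝ, 0 < y → 1 ≤ UE a (y * Complex.I) / y := by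
      intro y hy
      rw [e, le_div_iff₀ hy, one_mul]
      have h1 : arcosh (cosh (π * y)) ≤ arcosh (cosh (π * y) / cos (π * a)) := by
        rw [arcosh_le_arcosh (cosh_pos _) (div_pos (cosh_pos _) hc), div_eq_mul_inv]
        exact le_mul_of_one_le_right (cosh_pos _).le hc2
      rw [arcosh_cosh (by positivity)] at h1
      calc y = π⁻¹ * (π * y) := by field_simp
        _ ≤ _ := mul_le_mul_of_nonneg_left h1 hp.le
    have up : ∀ y : ℝ, 0 < y → UE a (y * Complex.I) / y ≤
        1 + (π⁻¹ * arcosh (cos (π * a))⁻¹) / y := by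
      intro y hy
      rw [e, div_le_iff₀ hy]
      have h1 := arcosh_mul_le (one_le_cosh (π * y)) hc2
      rw [arcosh_cosh (by positivity), ← div_eq_mul_inv] at h1
      have h2 := mul_le_mul_of_nonneg_left h1 hp.le
      refine h2.trans (le_of_eq ?_)
      field_simp
    refine tendsto_of_tendsto_of_tendsto_of_le_of_le' tendsto_const_nhds
      (?_ : Tendsto (fun y : ℝ => 1 + (π⁻¹ * arcosh (cos (π * a))⁻¹) / y) atTop (𝓝 1)) ?_ ?_
    · have := (tendsto_const_nhds (x := π⁻¹ * arcosh (cos (π * a))⁻¹)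
        (f := (atTop : Filter ℝ))).div_atTop tendsto_id
      simpa using this.const_add 1
    · filter_upwards [eventually_gt_atTop 0] with y hy using low y hy
    · filter_upwards [eventually_gt_atTop 0] with y hy using up y hy

lemma closed_EE (a : ℝ) : IsClosed (EE a) :=
  isClosed_le (by fun_prop) continuous_const

/-- the restriction to the real line -/
noncomputable def ue (a x : ℝ) : ℝ := UE a x

lemma ue_eq {a : ℝ} (ha0 : 0 < a) (ha : a < 1 / 2) (x : ℝ) :
    ue a x = π⁻¹ * arcosh (max 1 (|cos (π * x)| / cos (π * a))) :=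
  UE_real a x (cpos ha0 ha)

lemma ue_even (a x : ℝ) : ue a (-x) = ue a x := by
  have : ww a ((-x : ℝ) : ℂ) = ww a x := by
    rw [ww_real, ww_real, mul_neg, cos_neg]
  rw [ue, ue, UE, UE, this]

lemma ue_add_one (a x : ℝ) : ue a (x + 1) = ue a x := by
  have : ww a ((x + 1 : ℝ) : ℂ) = -ww a x := by
    rw [ww_real, ww_real, mul_add, mul_one, cos_add_pi]
    push_cast; ring
  rw [ue, ue, UE, UE, this, hh_neg]

lemma ue_add_int (a x : ℝ) (n : ℤ) : ue a (x + n) = ue a x := by
  have : Function.Periodic (ue a) 1 := fun x => ue_add_one a x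
  have := this.int_mul n x
  simpa using this

lemma ue_anti {a : ℝ} (ha0 : 0 < a) (ha : a < 1 / 2) {x y : ℝ} (hx : 0 ≤ x) (hxy : x ≤ y)
    (hy : y ≤ 1 / 2) : ue a y ≤ ue a x := by
  have hc := cpos ha0 ha
  rw [ue_eq ha0 ha, ue_eq ha0 ha]
  apply mul_le_mul_of_nonneg_left _ (by positivity)
  rw [arcosh_le_arcosh (by positivity) (by positivity)]
  apply max_le_max le_rfl
  apply div_le_div_of_nonneg_right _ hc.le
  have h1 : cos (π * y) ≤ cos (π * x) := by
    apply cos_le_cos_of_nonneg_of_le_pi (by positivity)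
    · nlinarith [pi_pos]
    · gcongr
  have h2 : 0 ≤ cos (π * y) := by
    apply cos_nonneg_of_mem_Icc
    constructor <;> nlinarith [pi_pos]
  rw [abs_of_nonneg h2, abs_of_nonneg (h2.trans h1)]
  exact h1

lemma ue_zero {a : ℝ} (ha0 : 0 < a) (ha : a < 1 / 2) :
    ue a 0 = π⁻¹ * arcosh (cos (π * a))⁻¹ := by
  have hc := cpos ha0 ha
  have hc1 := clt ha0 ha
  have hc2 : 1 ≤ (cos (π * a))⁻¹ := (one_le_inv₀ hc).2 hc1.le
  rw [ue_eq ha0 ha, mul_zero, cos_zero, abs_one, one_div, max_eq_right hc2]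

/-- monotone dependence on the width, with control -/
lemma ue_width {a b : ℝ} (ha0 : 0 < a) (hab : a ≤ b) (hb : b < 1 / 2) (x : ℝ) :
    ue b x ≤ ue a x + π⁻¹ * arcosh (cos (π * a) / cos (π * b)) := by
  have hca := cpos ha0 (hab.trans_lt hb)
  have hcb := cpos (ha0.trans_le hab) hb
  have hcc : cos (π * b) ≤ cos (π * a) := by
    apply cos_le_cos_of_nonneg_of_le_pi (by positivity)
    · nlinarith [pi_pos]
    · gcongr
  have h1 : 1 ≤ cos (π * a) / cos (π * b) := (one_le_div hcb).2 hcc
  rw [ue_eq ha0 (hab.trans_lt hb), ue_eq (ha0.trans_le hab) hb, ← mul_add]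
  apply mul_le_mul_of_nonneg_left _ (by positivity)
  have h2 := arcosh_mul_le (s := max 1 (|cos (π * x)| / cos (π * a))) (le_max_left _ _) h1
  refine le_trans ?_ h2
  rw [arcosh_le_arcosh (by positivity) (by positivity)]
  apply max_le
  · exact one_le_mul_of_one_le_of_one_le (le_max_left _ _) h1
  · calc |cos (π * x)| / cos (π * b) = |cos (π * x)| / cos (π * a) * (cos (π * a) / cos (π * b)) := by
          field_simp
      _ ≤ _ := mul_le_mul_of_nonneg_right (le_max_right _ _) (by positivity)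

lemma cosh_two_UE (a : ℝ) (z : ℂ) :
    cosh (2 * (π * UE a z)) = ‖ww a z‖ ^ 2 + ‖ww a z ^ 2 - 1‖ := by
  rw [← hh_sq, cosh_two_mul, UE, mul_inv_cancel_left₀ pi_pos.ne', cosh_arcosh (one_le_hh _),
    sinh_arcosh (one_le_hh _), Real.sq_sqrt (by nlinarith [one_le_hh (ww a z)])]
  ring

end Pool.Agent.J4.H68.LV
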