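import Pool.Agent.J4.H68.LV.R8b

/-!
# The explicit extremal function, III: second order estimate, thickness, value
-/

set_option autoImplicit false

open MeasureTheory Set Filter Topology Real Metric InnerProductSpace

namespace Pool.Agent.J4.H68.LV

lemma sinh_le_mul {y : ℝ} (hy : 0 ≤ y) : sinh y ≤ y * exp y := by
  have h1 := add_one_le_exp (-y)
  have h2 : exp (-y) * exp y = 1 := by rw [← exp_add]; simp
  have h3 : exp y - y * exp y ≤ 1 := by
    have := mul_le_mul_of_nonneg_right h1 (exp_pos y).le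
    nlinarith
  have h4 : 1 ≤ exp y := one_le_exp hy
  rw [sinh_eq]
  nlinarith

lemma ww_norm_sq {a : ℝ} (x t : ℝ) (hc : 0 < cos (π * a)) :
    ‖ww a (x + t * Complex.I)‖ ^ 2 = (cos (π * x) ^ 2 + sinh (π * t) ^ 2) / cos (π * a) ^ 2 := by
  rw [ww, norm_div, Complex.norm_real, norm_eq_abs, abs_of_pos hc, div_pow, norm_sq', cosz_re,
    cosz_im]
  congr 1
  have h1 := sin_sq_add_cos_sq (π * x)
  have h2 := cosh_sq (π * t)
  calc (cos (π * x) * cosh (π * t)) ^ 2 + (-(sin (π * x) * sinh (π * t))) ^ 2 =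
      cos (π * x) ^ 2 * cosh (π * t) ^ 2 + sin (π * x) ^ 2 * sinh (π * t) ^ 2 := by ring
    _ = _ := by
      rw [h2, show sin (π * x) ^ 2 = 1 - cos (π * x) ^ 2 by linarith]
      ring

lemma ww_sq_norm {a : ℝ} (x t : ℝ) (hc : 0 < cos (π * a)) {R₀ : ℝ} (hR₀ : 0 < R₀)
    (hR : R₀ ≤ cos (π * x) ^ 2 - cos (π * a) ^ 2) :
    ‖ww a (x + t * Complex.I) ^ 2 - 1‖ ≤
      (cos (π * x) ^ 2 - cos (π * a) ^ 2 + sinh (π * t) ^ 2 +
        (1 + sinh (π * t) ^ 2) * sinh (π * t) ^ 2 / (2 * R₀)) / cos (π * a) ^ 2 := by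
  set c := cos (π * a) with hcdef
  set R := cos (π * x) ^ 2 - c ^ 2 with hRdef
  set S := sinh (π * t) ^ 2 with hS
  have hS0 : 0 ≤ S := sq_nonneg _
  set Z := Complex.cos (π * ((x : ℂ) + t * Complex.I)) with hZ
  have e1 : ww a (x + t * Complex.I) ^ 2 - 1 = (Z ^ 2 - (c ^ 2 : ℝ)) / ((c ^ 2 : ℝ) : ℂ) := by
    have hc' : (c : ℂ) ≠ 0 := by exact_mod_cast hc.ne'
    rw [ww, ← hZ, ← hcdef]
    push_cast
    field_simp
  rw [e1, norm_div, Complex.norm_real, norm_eq_abs, abs_of_pos (by positivity)]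
  apply div_le_div_of_nonneg_right _ (by positivity)
  have hre : (Z ^ 2 - (c ^ 2 : ℝ)).re = R + S * (2 * cos (π * x) ^ 2 - 1) := by
    rw [Complex.sub_re, Complex.ofReal_re, pow_two Z, Complex.mul_re, hZ, cosz_re, cosz_im]
    have h1 := sin_sq_add_cos_sq (π * x)
    have h2 := cosh_sq (π * t)
    have e : cos (π * x) * cosh (π * t) * (cos (π * x) * cosh (π * t)) -
        -(sin (π * x) * sinh (π * t)) * -(sin (π * x) * sinh (π * t)) - c ^ 2 =
        cos (π * x) ^ 2 * cosh (π * t) ^ 2 - sin (π * x) ^ 2 * sinh (π * t) ^ 2 - c ^ 2 := by ring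
    rw [e, h2, show sin (π * x) ^ 2 = 1 - cos (π * x) ^ 2 by linarith, hRdef, hS]
    ring
  have him : (Z ^ 2 - (c ^ 2 : ℝ)).im ^ 2 ≤ (1 + S) * S := by
    rw [Complex.sub_im, Complex.ofReal_im, pow_two Z, Complex.mul_im, hZ, cosz_re, cosz_im]
    have h1 := sin_sq_add_cos_sq (π * x)
    have h2 := cosh_sq (π * t)
    have e : (cos (π * x) * cosh (π * t) * -(sin (π * x) * sinh (π * t)) +
        -(sin (π * x) * sinh (π * t)) * (cos (π * x) * cosh (π * t)) - 0) ^ 2 =
        (4 * (cos (π * x) ^ 2 * sin (π * x) ^ 2)) * (cosh (π * t) ^ 2 * sinh (π * t) ^ 2) := by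
      ring
    rw [e, h2, ← hS]
    have h3 : 4 * (cos (π * x) ^ 2 * sin (π * x) ^ 2) ≤ 1 := by
      nlinarith [sq_nonneg (cos (π * x) ^ 2 - sin (π * x) ^ 2)]
    have h4 : 0 ≤ (S + 1) * S := by positivity
    nlinarith
  have hre2 : (Z ^ 2 - (c ^ 2 : ℝ)).re ^ 2 ≤ (R + S) ^ 2 := by
    rw [hre]
    have h1 := cos_sq_le_one (π * x)
    have h2 := sq_nonneg (cos (π * x))
    have hR' : 0 ≤ R := by linarith
    apply sq_le_sq'
    · nlinarith
    · nlinarith
  have hn := norm_sq' (Z ^ 2 - (c ^ 2 : ℝ))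
  set Q := (1 + S) * S / (2 * R₀) with hQ
  have hQ0 : 0 ≤ Q := by positivity
  have hQ2 : (1 + S) * S = 2 * R₀ * Q := by rw [hQ]; field_simp
  refine (pow_le_pow_iff_left₀ (norm_nonneg _) (by linarith) two_ne_zero).1 ?_
  rw [hn]
  nlinarith [mul_le_mul_of_nonneg_right hR hQ0, mul_nonneg hS0 hQ0]

theorem UE_up {a a₁ : ℝ} (ha0 : 0 < a) (ha : a < 1 / 2) (h10 : 0 ≤ a₁) (h1 : a₁ < a) :
    ∃ C : ℝ, 0 ≤ C ∧ ∀ x t : ℝ, |x| ≤ a₁ → 0 ≤ t → t ≤ 1 →
      UE a (x + t * Complex.I) ≤ ue a x + C * t ^ 2 := by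
  have hc := cpos ha0 ha
  have hc1 : cos (π * a) < cos (π * a₁) := by
    apply cos_lt_cos_of_nonneg_of_le_pi (by positivity)
    · nlinarith [pi_pos]
    · gcongr
  have hu1 : 0 < ue a a₁ := by
    rw [ue_eq ha0 ha]
    apply mul_pos (by positivity)
    apply arcosh_pos
    apply lt_max_of_lt_right
    rw [lt_div_iff₀ hc, one_mul]
    exact hc1.trans_le (le_abs_self _)
  set R₀ := cos (π * a₁) ^ 2 - cos (π * a) ^ 2 with hR₀
  have hR₀p : 0 < R₀ := by rw [hR₀]; nlinarith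
  set s₀ := sinh (2 * (π * ue a a₁)) with hs₀
  have hs₀p : 0 < s₀ := sinh_pos_iff.2 (by positivity)
  set K := (π * exp π) ^ 2 with hK
  have hK0 : 0 < K := by positivity
  set K' := K * (2 + (1 + K) / (2 * R₀)) / cos (π * a) ^ 2 with hK'
  have hK'0 : 0 < K' := by positivity
  refine ⟨K' / (2 * π * s₀), by positivity, ?_⟩
  intro x t hx ht0 ht1
  have hxabs : |x| ≤ 1 / 2 := by linarith
  have hcx : cos (π * a₁) ≤ cos (π * x) := by
    rw [← cos_abs (π * x), abs_mul, abs_of_pos pi_pos]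
    apply cos_le_cos_of_nonneg_of_le_pi (by positivity)
    · nlinarith [pi_pos]
    · gcongr
  have hR : R₀ ≤ cos (π * x) ^ 2 - cos (π * a) ^ 2 := by
    rw [hR₀]
    have : cos (π * a₁) ^ 2 ≤ cos (π * x) ^ 2 := pow_le_pow_left₀ (by linarith) hcx 2
    linarith
  have hux : ue a a₁ ≤ ue a x := by
    have h2 : ue a x = ue a |x| := by
      rcases abs_cases x with ⟨h, _⟩ | ⟨h, _⟩
      · rw [h]
      · rw [h, ue_even]
    rw [h2]
    exact ue_anti ha0 ha (abs_nonneg x) hx (by linarith)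
  set S := sinh (π * t) ^ 2 with hS
  have hS0 : 0 ≤ S := sq_nonneg _
  have hSt : S ≤ K * t ^ 2 := by
    have h2 := sinh_le_mul (y := π * t) (by positivity)
    have h3 : exp (π * t) ≤ exp π := by
      apply exp_le_exp.2
      nlinarith [pi_pos]
    have h4 : sinh (π * t) ≤ π * exp π * t := by
      calc sinh (π * t) ≤ π * t * exp (π * t) := h2
        _ ≤ π * t * exp π := by gcongr
        _ = _ := by ring
    have h5 : 0 ≤ sinh (π * t) := sinh_nonneg_iff.2 (by positivity)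
    calc S ≤ (π * exp π * t) ^ 2 := pow_le_pow_left₀ h5 h4 2
      _ = _ := by rw [hK]; ring
  have hS1 : S ≤ K := by
    have : t ^ 2 ≤ 1 := by nlinarith
    nlinarith
  have e1 := cosh_two_UE a (x + t * Complex.I)
  have e0 : cosh (2 * (π * ue a x)) = (cos (π * x) ^ 2 + (cos (π * x) ^ 2 - cos (π * a) ^ 2)) /
      cos (π * a) ^ 2 := by
    rw [ue, cosh_two_UE, ww_real, ← Complex.ofReal_pow, ← Complex.ofReal_one,
      ← Complex.ofReal_sub, Complex.norm_real, Complex.norm_real, norm_eq_abs, norm_eq_abs, sq_abs]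
    have h2 : 0 ≤ (cos (π * x) / cos (π * a)) ^ 2 - 1 := by
      rw [div_pow, sub_nonneg, one_le_div (by positivity)]
      linarith
    rw [abs_of_nonneg h2]
    field_simp
  have h2 : cosh (2 * (π * UE a (x + t * Complex.I))) ≤ cosh (2 * (π * ue a x)) + K' * t ^ 2 := by
    rw [e1, e0, ww_norm_sq x t hc]
    refine (add_le_add le_rfl (ww_sq_norm x t hc hR₀p hR)).trans ?_
    rw [← add_div, hK', ← hS]
    have h3 : K * (2 + (1 + K) / (2 * R₀)) / cos (π * a) ^ 2 * t ^ 2 =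
        (K * t ^ 2 * (2 + (1 + K) / (2 * R₀))) / cos (π * a) ^ 2 := by ring
    rw [h3, ← add_div]
    apply div_le_div_of_nonneg_right _ (by positivity)
    have h5 : (1 + S) * S ≤ (1 + K) * (K * t ^ 2) :=
      mul_le_mul (by linarith) hSt hS0 (by positivity)
    have h4 : (1 + S) * S / (2 * R₀) ≤ K * t ^ 2 * ((1 + K) / (2 * R₀)) := by
      refine (div_le_div_of_nonneg_right h5 (by positivity)).trans (le_of_eq ?_)
      ring
    have e : K * t ^ 2 * (2 + (1 + K) / (2 * R₀)) =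
        2 * (K * t ^ 2) + K * t ^ 2 * ((1 + K) / (2 * R₀)) := by ring
    rw [e]
    linarith
  rcases le_or_gt (UE a (x + t * Complex.I)) (ue a x) with h3 | h3
  · have : 0 ≤ K' / (2 * π * s₀) * t ^ 2 := by positivity
    linarith
  · set d := 2 * (π * UE a (x + t * Complex.I)) - 2 * (π * ue a x) with hd
    have hd0 : 0 ≤ d := by
      rw [hd]
      nlinarith [pi_pos, mul_pos pi_pos (sub_pos.2 h3)]
    have h4 : 2 * (π * UE a (x + t * Complex.I)) = 2 * (π * ue a x) + d := by rw [hd]; ring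
    rw [h4, cosh_add] at h2
    have h5 : s₀ ≤ sinh (2 * (π * ue a x)) := by
      rw [hs₀]
      apply sinh_le_sinh.2
      have := mul_le_mul_of_nonneg_left hux pi_pos.le
      linarith
    have h6 : d ≤ sinh d := self_le_sinh_iff.2 hd0
    have h7 := one_le_cosh d
    have h8 : s₀ * d ≤ K' * t ^ 2 := by
      have h9 : s₀ * d ≤ sinh (2 * (π * ue a x)) * sinh d :=
        mul_le_mul h5 h6 hd0 (by linarith)
      have h10 : cosh (2 * (π * ue a x)) * 1 ≤ cosh (2 * (π * ue a x)) * cosh d :=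
        mul_le_mul_of_nonneg_left h7 (cosh_pos _).le
      linarith
    have h9 : UE a (x + t * Complex.I) - ue a x = d / (2 * π) := by
      rw [hd]; field_simp
    have h10 : d / (2 * π) ≤ K' / (2 * π * s₀) * t ^ 2 := by
      have h11 : d ≤ K' * t ^ 2 / s₀ := by
        rw [le_div_iff₀ hs₀p]
        linarith
      refine (div_le_div_of_nonneg_right h11 (by positivity)).trans (le_of_eq ?_)
      field_simp
    linarith

lemma mem_EE {a : ℝ} (ha0 : 0 < a) (ha : a < 1 / 2) {x : ℝ} (h1 : a ≤ |x|) (h2 : |x| ≤ 1 / 2) :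
    x ∈ EE a := by
  have h3 : 0 ≤ cos (π * |x|) := by
    apply cos_nonneg_of_mem_Icc
    constructor <;> nlinarith [pi_pos, abs_nonneg x]
  have h4 : cos (π * |x|) ≤ cos (π * a) := by
    apply cos_le_cos_of_nonneg_of_le_pi (by positivity)
    · nlinarith [pi_pos]
    · gcongr
  have h5 : cos (π * x) = cos (π * |x|) := by
    rw [← cos_abs (π * x), abs_mul, abs_of_pos pi_pos]
  show |cos (π * x)| ≤ cos (π * a)
  rw [h5, abs_of_nonneg h3]
  exact h4

lemma EE_add_one (a x : ℝ) : x + 1 ∈ EE a ↔ x ∈ EE a := by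
  show |cos (π * (x + 1))| ≤ cos (π * a) ↔ |cos (π * x)| ≤ cos (π * a)
  rw [mul_add, mul_one, cos_add_pi, abs_neg]

lemma thick_EE {a : ℝ} (ha0 : 0 < a) (ha : a < 1 / 2) : Thick (EE a) (1 - 2 * a) := by
  intro b
  have hm : MeasurableSet (EE a) := (closed_EE a).measurableSet
  set f : ℝ → ℝ := (EE a).indicator 1 with hf
  have hper : Function.Periodic f 1 := by
    intro x
    simp only [hf, indicator]
    congr 1
    exact propext (EE_add_one a x)
  have key : ∀ b c : ℝ, b ≤ c → ∫ x in b..c, f x = volume.real (EE a ∩ Ioc b c) := by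
    intro b c hbc
    rw [intervalIntegral.integral_of_le hbc, hf, setIntegral_indicator hm]
    simp [inter_comm]
  have h1 : volume.real (EE a ∩ Icc b (b + 1)) = volume.real (EE a ∩ Ioc b (b + 1)) :=
    measureReal_congr ((ae_eq_refl _).inter Ioc_ae_eq_Icc.symm)
  rw [h1, ← key b (b + 1) (by linarith), hper.intervalIntegral_add_eq b (-(1 / 2)),
    key _ _ (by norm_num)]
  have h2 : Ioc (-(1 / 2)) (-a) ∪ Ioc a (1 / 2) ⊆ EE a ∩ Ioc (-(1 / 2)) (-(1 / 2) + 1) := by
    rintro x (⟨hx1, hx2⟩ | ⟨hx1, hx2⟩)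
    · refine ⟨mem_EE ha0 ha ?_ ?_, ⟨hx1, by linarith⟩⟩
      · rw [abs_of_nonpos (by linarith)]; linarith
      · rw [abs_of_nonpos (by linarith)]; linarith
    · refine ⟨mem_EE ha0 ha ?_ ?_, ⟨by linarith, by linarith⟩⟩
      · rw [abs_of_nonneg (by linarith)]; linarith
      · rw [abs_of_nonneg (by linarith)]; linarith
  have h3 : volume.real (Ioc (-(1 / 2)) (-a) ∪ Ioc a (1 / 2)) = 1 - 2 * a := by
    rw [measureReal_union _ measurableSet_Ioc (by simp) (by simp)]
    · rw [Real.volume_real_Ioc_of_le (by linarith), Real.volume_real_Ioc_of_le (by linarith)]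
      ring
    · rw [Set.disjoint_left]
      rintro x ⟨_, h4⟩ ⟨h5, _⟩
      linarith
  rw [← h3]
  exact measureReal_mono h2 (ne_top_of_le_ne_top (by simp) (measure_mono inter_subset_right))

/-- The value at the centre of the gap. -/
lemma ue_value {δ : ℝ} (h0 : 0 < δ) (h1 : δ < 1) :
    ue ((1 - δ) / 2) 0 = Real.log (Real.cot (π * δ / 4)) / π := by
  rw [ue_zero (by linarith) (by linarith)]
  have e1 : cos (π * ((1 - δ) / 2)) = sin (π * δ / 2) := by
    rw [← cos_pi_div_two_sub]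
    congr 1
    ring
  set θ := π * δ / 4 with hθ
  have hθ0 : 0 < θ := by positivity
  have hθ1 : θ < π / 4 := by rw [hθ]; nlinarith [pi_pos]
  have hs : 0 < sin θ := sin_pos_of_pos_of_lt_pi hθ0 (by linarith [pi_pos])
  have hcs : 0 < cos θ := cos_pos_of_mem_Ioo ⟨by linarith [pi_pos], by linarith [pi_pos]⟩
  have e2 : π * δ / 2 = 2 * θ := by rw [hθ]; ring
  rw [e1, e2, sin_two_mul, Real.cot_eq_cos_div_sin]
  have h2 : sin θ < cos θ := by
    rw [← cos_pi_div_two_sub]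
    exact cos_lt_cos_of_nonneg_of_le_pi hθ0.le (by linarith [pi_pos]) (by linarith)
  have h3 : 0 < cos θ / sin θ := by positivity
  have h4 : (2 * sin θ * cos θ)⁻¹ = cosh (Real.log (cos θ / sin θ)) := by
    rw [cosh_log h3]
    have := sin_sq_add_cos_sq θ
    field_simp
    linarith
  rw [h4, arcosh_cosh (Real.log_nonneg ((one_le_div hs).2 h2.le))]
  ring

end Pool.Agent.J4.H68.LV
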