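import Pool.Agent.J4.H68.LV.R6
import Pool.Agent.J4.H68.LV.R7

/-!
# Discretization
-/

set_option autoImplicit false

open MeasureTheory Set Filter Topology Real

namespace Pool.Agent.J4.H68.LV

/-! ### The Cauchy kernel -/

lemma pk_eq {t : ℝ} (ht : 0 < t) (x : ℝ) : pk t x = (π * t)⁻¹ * (1 + (x / t) ^ 2)⁻¹ := by
  rw [pk]
  have : x ^ 2 + t ^ 2 ≠ 0 := by positivity
  field_simp
  ring

lemma pk_integrable {t : ℝ} (ht : 0 < t) : Integrable (pk t) := by
  have h1 := (integrable_inv_one_add_sq.comp_div ht.ne').const_mul (π * t)⁻¹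
  exact h1.congr (Eventually.of_forall fun x => (pk_eq ht x).symm)

lemma pk_integral {t : ℝ} (ht : 0 < t) : ∫ x, pk t x = 1 := by
  simp only [pk_eq ht]
  rw [integral_const_mul, Measure.integral_comp_div (fun x => (1 + x ^ 2)⁻¹) t,
    integral_univ_inv_one_add_sq, smul_eq_mul, abs_of_pos ht]
  field_simp

lemma pk_sub_integrable {t : ℝ} (ht : 0 < t) (x : ℝ) : Integrable fun s => pk t (x - s) :=
  (pk_integrable ht).comp_sub_left x

lemma pk_sub_integral {t : ℝ} (ht : 0 < t) (x : ℝ) : ∫ s, pk t (x - s) = 1 := by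
  rw [integral_sub_left_eq_self (pk t) volume x, pk_integral ht]

lemma pk_mul_integrable {t : ℝ} (ht : 0 < t) (x : ℝ) {f : ℝ → ℝ} (hf : Measurable f) {M : ℝ}
    (hM : ∀ s, |f s| ≤ M) : Integrable fun s => pk t (x - s) * f s := by
  refine Integrable.mono' ((pk_sub_integrable ht x).mul_const M) ?_ ?_
  · exact ((pk_sub_integrable ht x).aestronglyMeasurable).mul hf.aestronglyMeasurable
  · refine Eventually.of_forall fun s => ?_
    rw [norm_eq_abs, abs_mul, abs_of_nonneg (pk_nonneg ht.le _)]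
    exact mul_le_mul_of_nonneg_left (hM s) (pk_nonneg ht.le _)

/-- the Harnack factor -/
noncomputable def et (t h : ℝ) : ℝ := h / t + h ^ 2 / t ^ 2

lemma pk_shift {t : ℝ} (ht : 0 < t) {a b h : ℝ} (hab : |a - b| ≤ h) :
    pk t a ≤ (1 + et t h) * pk t b := by
  have hh : 0 ≤ h := (abs_nonneg _).trans hab
  rw [pk, pk, mul_div_assoc', div_le_div_iff₀ (by positivity) (by positivity)]
  have h1 : (a - b) ^ 2 ≤ h ^ 2 := by rw [← sq_abs]; exact pow_le_pow_left₀ (abs_nonneg _) hab 2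
  have h2 : b ^ 2 + t ^ 2 ≤ (1 + et t h) * (a ^ 2 + t ^ 2) := by
    have e : (1 + et t h) * (a ^ 2 + t ^ 2) =
        a ^ 2 + t ^ 2 + h / t * (a ^ 2 + t ^ 2) + h ^ 2 + h ^ 2 / t ^ 2 * a ^ 2 := by
      unfold et; field_simp; ring
    rw [e]
    have h3 : 2 * |a| * h ≤ h / t * (a ^ 2 + t ^ 2) := by
      rw [div_mul_eq_mul_div, le_div_iff₀ ht]
      nlinarith [sq_nonneg (|a| - t), sq_abs a, mul_nonneg hh (sq_nonneg (|a| - t))]
    have h4 : 0 ≤ h ^ 2 / t ^ 2 * a ^ 2 := by positivity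
    have h5 : b ^ 2 ≤ a ^ 2 + 2 * |a| * h + h ^ 2 := by
      have h6 : b ^ 2 = a ^ 2 - 2 * (a * (a - b)) + (a - b) ^ 2 := by ring
      have h7 : -(a * (a - b)) ≤ |a| * h := by
        calc -(a * (a - b)) ≤ |a * (a - b)| := neg_le_abs _
          _ = |a| * |a - b| := abs_mul _ _
          _ ≤ |a| * h := mul_le_mul_of_nonneg_left hab (abs_nonneg _)
      linarith
    linarith
  calc t * (π * (b ^ 2 + t ^ 2)) ≤ t * (π * ((1 + et t h) * (a ^ 2 + t ^ 2))) := by gcongr
    _ = _ := by ring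

/-! ### Cells -/

/-- left end of the cell number `y` at mesh `1 / (2 N + 1)` -/
noncomputable def ce (N : ℕ) (y : ℤ) : ℝ := ((y : ℝ) - 1 / 2) / (2 * N + 1)

lemma ce_succ (N : ℕ) (y : ℤ) : ce N (y + 1) = ((y : ℝ) + 1 / 2) / (2 * N + 1) := by
  unfold ce; push_cast; ring

lemma ce_lt (N : ℕ) (y : ℤ) : ce N y < ce N (y + 1) := by
  rw [ce_succ, ce]
  have : (0 : ℝ) < 2 * N + 1 := by positivity
  apply div_lt_div_of_pos_right _ this
  linarith

lemma ce_zsmul (N : ℕ) (y : ℤ) :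
    ce N y = -(1 / 2 / (2 * (N : ℝ) + 1)) + y • (1 / (2 * (N : ℝ) + 1)) := by
  rw [ce, zsmul_eq_mul]
  ring

lemma cell_union (N : ℕ) : ⋃ y : ℤ, Ioc (ce N y) (ce N (y + 1)) = univ := by
  simp only [ce_zsmul]
  exact iUnion_Ioc_add_zsmul (by positivity) _

lemma cell_disj (N : ℕ) :
    Pairwise (Function.onFun Disjoint fun y : ℤ => Ioc (ce N y) (ce N (y + 1))) := by
  simp only [ce_zsmul]
  exact pairwise_disjoint_Ioc_add_zsmul _ _

lemma hasSum_cells (N : ℕ) {f : ℝ → ℝ} (hf : Integrable f) :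
    HasSum (fun y : ℤ => ∫ s in (ce N y)..(ce N (y + 1)), f s) (∫ s, f s) := by
  have := hasSum_integral_iUnion (f := f) (μ := volume) (fun _ : ℤ => measurableSet_Ioc)
    (cell_disj N) (by rw [cell_union]; exact hf.integrableOn)
  rw [cell_union, setIntegral_univ] at this
  have e : ∀ y : ℤ, ∫ s in (ce N y)..(ce N (y + 1)), f s = ∫ s in Ioc (ce N y) (ce N (y + 1)), f s :=
    fun y => intervalIntegral.integral_of_le (ce_lt N y).le
  simp only [e]
  exact this

/-- cell averages -/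
noncomputable def av (N : ℕ) (f : ℝ → ℝ) (y : ℤ) : ℝ :=
  (2 * N + 1) * ∫ s in (ce N y)..(ce N (y + 1)), f s

lemma sum_av (N : ℕ) {f : ℝ → ℝ} (hf : ∀ a b, IntervalIntegrable f volume a b) (x : ℤ) (k : ℕ) :
    ∑ y ∈ Finset.Icc x (x + k), av N f y =
      (2 * N + 1) * ∫ s in (ce N x)..(ce N (x + k + 1)), f s := by
  induction k with
  | zero => simp [av]
  | succ k ih =>
    have h : Finset.Icc x (x + ((k + 1 : ℕ) : ℤ)) =
        insert (x + k + 1) (Finset.Icc x (x + k)) := by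
      ext y; simp only [Finset.mem_insert, Finset.mem_Icc]; omega
    have e := intervalIntegral.integral_add_adjacent_intervals
      (hf (ce N x) (ce N (x + k + 1))) (hf (ce N (x + k + 1)) (ce N (x + k + 1 + 1)))
    rw [h, Finset.sum_insert (by simp only [Finset.mem_Icc]; omega), ih, av]
    push_cast
    rw [show x + ((k : ℤ) + 1) + 1 = x + k + 1 + 1 by ring, ← e]
    ring

end Pool.Agent.J4.H68.LV
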