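import Pool.Agent.J4.H68.LV.R9

/-!
# Discretization of the one-step inequality
-/

set_option autoImplicit false

open MeasureTheory Set Filter Topology Real

namespace Pool.Agent.J4.H68.LV

/-- the properties of the boundary values which are used -/
structure Sb (δ M : ℝ) (G : Set ℝ) (u : ℝ → ℝ) : Prop where
  cont : Continuous u
  nn : ∀ x, 0 ≤ u x
  le : ∀ x, u x ≤ M
  meas : MeasurableSet G
  off : ∀ x, x ∉ G → u x = 0
  gap : ∀ a, volume.real (G ∩ Ioc a (a + 1)) ≤ 1 - δ
  step : ∀ t, 0 < t → ∀ x, u x ≤ t + ∫ s, pk t (x - s) * u s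

lemma ce_len (N : ℕ) (y : ℤ) : ce N (y + 1) - ce N y = 1 / (2 * N + 1) := by
  rw [ce_succ, ce]; ring

lemma ii_ind {G : Set ℝ} (hG : MeasurableSet G) (a b : ℝ) :
    IntervalIntegrable (G.indicator (1 : ℝ → ℝ)) volume a b := by
  rw [intervalIntegrable_iff]
  exact (integrableOn_const (by simp [uIoc])).indicator hG

lemma av_mono {N : ℕ} {f g : ℝ → ℝ} (hf : ∀ a b, IntervalIntegrable f volume a b)
    (hg : ∀ a b, IntervalIntegrable g volume a b) {y : ℤ}
    (h : ∀ s ∈ Icc (ce N y) (ce N (y + 1)), f s ≤ g s) : av N f y ≤ av N g y := by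
  unfold av
  apply mul_le_mul_of_nonneg_left _ (by positivity)
  exact intervalIntegral.integral_mono_on (ce_lt N y).le (hf _ _) (hg _ _) h

lemma av_const (N : ℕ) (M : ℝ) (y : ℤ) : av N (fun _ => M) y = M := by
  rw [av, intervalIntegral.integral_const, ce_len, smul_eq_mul]
  field_simp

lemma av_mul_const (N : ℕ) (f : ℝ → ℝ) (M : ℝ) (y : ℤ) :
    av N (fun s => f s * M) y = av N f y * M := by
  rw [av, av, intervalIntegral.integral_mul_const]
  ring

lemma av_nonneg {N : ℕ} {f : ℝ → ℝ} (h : ∀ s, 0 ≤ f s) (y : ℤ) : 0 ≤ av N f y := by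
  unfold av
  exact mul_nonneg (by positivity)
    (intervalIntegral.integral_nonneg (ce_lt N y).le fun s _ => h s)

lemma qk_scale (N : ℕ) {t : ℝ} (ht : 0 < t) (d : ℤ) :
    qk (t * (2 * N + 1)) d * (2 * N + 1) = pk t (d / (2 * N + 1)) := by
  have hn : (0 : ℝ) < 2 * N + 1 := by positivity
  simp only [qk, pk]
  field_simp

lemma cell_dist {N : ℕ} {i j : ℤ} {x s : ℝ} (hx : x ∈ Icc (ce N i) (ce N (i + 1)))
    (hs : s ∈ Icc (ce N j) (ce N (j + 1))) :
    |(x - s) - ((i - j : ℤ) : ℝ) / (2 * N + 1)| ≤ 1 / (2 * N + 1) := by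
  have hn : (0 : ℝ) < 2 * N + 1 := by positivity
  rw [ce_succ, ce] at hx hs
  have h1 := (div_le_iff₀ hn).1 hx.1
  have h2 := (le_div_iff₀ hn).1 hx.2
  have h3 := (div_le_iff₀ hn).1 hs.1
  have h4 := (le_div_iff₀ hn).1 hs.2
  rw [abs_le]
  constructor
  · have : -(1 / (2 * (N : ℝ) + 1)) + ((i - j : ℤ) : ℝ) / (2 * N + 1) ≤ x - s := by
      rw [← neg_div, ← add_div, div_le_iff₀ hn]
      push_cast
      linarith
    linarith
  · have : x - s ≤ 1 / (2 * (N : ℝ) + 1) + ((i - j : ℤ) : ℝ) / (2 * N + 1) := by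
      rw [← add_div, le_div_iff₀ hn]
      push_cast
      linarith
    linarith

lemma cv_reindex (τ : ℝ) (m : ℤ → ℝ) (i : ℤ) :
    cv (qk τ) m i = ∑' j : ℤ, qk τ (i - j) * m j := by
  rw [cv, ← (Equiv.addLeft i).tsum_eq (fun j => qk τ (i - j) * m j)]
  congr 1
  funext y
  simp only [Equiv.coe_addLeft]
  congr 1
  rw [show i - (i + y) = -y by ring]
  simp only [qk]
  push_cast
  exact (pk_even _ _).symm

lemma cv_summable {τ : ℝ} (hτ : 0 < τ) {m : ℤ → ℝ} {M : ℝ} (hm : ∀ x, |m x| ≤ M) (i : ℤ) :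
    Summable fun j : ℤ => qk τ (i - j) * m j := by
  have h1 := (qk_ker hτ).mul_summable (m := fun y => m (i + y)) (M := M) fun x => hm _
  rw [← (Equiv.addLeft i).summable_iff]
  refine h1.congr fun y => ?_
  simp only [Function.comp, Equiv.coe_addLeft]
  congr 1
  rw [show i - (i + y) = -y by ring]
  simp only [qk]
  push_cast
  exact (pk_even _ _).symm

/-- upper Riemann sum estimate -/
lemma conv_le_cv {N : ℕ} {t : ℝ} (ht : 0 < t) {u : ℝ → ℝ} (hu : Continuous u)
    (h0 : ∀ x, 0 ≤ u x) {M : ℝ} (hM : ∀ x, u x ≤ M) {i : ℤ} {x : ℝ}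
    (hx : x ∈ Icc (ce N i) (ce N (i + 1))) :
    ∫ s, pk t (x - s) * u s ≤
      (1 + et t (1 / (2 * N + 1))) * cv (qk (t * (2 * N + 1))) (av N u) i := by
  have hn : (0 : ℝ) < 2 * N + 1 := by positivity
  have habs : ∀ s, |u s| ≤ M := fun s => by rw [abs_of_nonneg (h0 s)]; exact hM s
  have hi := pk_mul_integrable ht x hu.measurable habs
  have h1 := hasSum_cells N hi
  have hav : ∀ y, |av N u y| ≤ M := fun y => by
    rw [abs_of_nonneg (av_nonneg h0 y), ← av_const N M y]
    exact av_mono (fun a b => hu.intervalIntegrable a b)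
      (fun a b => continuous_const.intervalIntegrable a b) fun s _ => hM s
  have h2 := (cv_summable (τ := t * (2 * N + 1)) (by positivity) hav i).mul_left
    (1 + et t (1 / (2 * N + 1)))
  rw [cv_reindex, ← tsum_mul_left, ← h1.tsum_eq]
  refine h1.summable.tsum_le_tsum (fun j => ?_) h2
  have h3 : ∫ s in (ce N j)..(ce N (j + 1)), pk t (x - s) * u s ≤
      ∫ s in (ce N j)..(ce N (j + 1)),
        (1 + et t (1 / (2 * N + 1))) * pk t (((i - j : ℤ) : ℝ) / (2 * N + 1)) * u s := by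
    apply intervalIntegral.integral_mono_on (ce_lt N j).le
    · exact hi.intervalIntegrable
    · exact (hu.intervalIntegrable _ _).const_mul _
    · intro s hs
      apply mul_le_mul_of_nonneg_right _ (h0 s)
      exact pk_shift ht (cell_dist hx hs)
  refine h3.trans (le_of_eq ?_)
  rw [intervalIntegral.integral_const_mul, ← qk_scale N ht, av]
  ring

namespace Sb

variable {δ M : ℝ} {G : Set ℝ} {u : ℝ → ℝ}

lemma abs_le (h : Sb δ M G u) (x : ℝ) : |u x| ≤ M := by
  rw [abs_of_nonneg (h.nn x)]; exact h.le x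

lemma ii (h : Sb δ M G u) (a b : ℝ) : IntervalIntegrable u volume a b :=
  h.cont.intervalIntegrable a b

lemma av_nn (h : Sb δ M G u) (N : ℕ) (y : ℤ) : 0 ≤ av N u y := av_nonneg h.nn y

lemma av_le (h : Sb δ M G u) (N : ℕ) (y : ℤ) : av N u y ≤ M := by
  rw [← av_const N M y]
  exact av_mono h.ii (fun a b => continuous_const.intervalIntegrable a b) fun s _ => h.le s

lemma gm_nn (G : Set ℝ) (N : ℕ) (y : ℤ) : 0 ≤ av N (G.indicator (1 : ℝ → ℝ)) y :=
  av_nonneg (fun _ => indicator_nonneg (fun _ _ => zero_le_one) _) y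

lemma gm_le (h : Sb δ M G u) (N : ℕ) (y : ℤ) : av N (G.indicator (1 : ℝ → ℝ)) y ≤ 1 := by
  have := av_mono (N := N) (y := y) (ii_ind h.meas)
    (fun a b => (continuous_const (y := (1 : ℝ))).intervalIntegrable a b)
    (fun s _ => indicator_le_self' (s := G) (f := (1 : ℝ → ℝ)) (fun _ _ => zero_le_one) s)
  exact this.trans (av_const N 1 y).le

lemma window (h : Sb δ M G u) (N : ℕ) (x : ℤ) :
    ∑ y ∈ Finset.Icc x (x + 2 * N), av N (G.indicator (1 : ℝ → ℝ)) y ≤ (2 * N + 1) * (1 - δ) := by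
  have h1 := sum_av N (ii_ind h.meas) x (2 * N)
  push_cast at h1
  rw [h1]
  apply mul_le_mul_of_nonneg_left _ (by positivity)
  have h2 : ce N (x + 2 * N + 1) = ce N x + 1 := by
    unfold ce
    push_cast
    field_simp
    ring
  rw [h2, intervalIntegral.integral_of_le (by linarith), setIntegral_indicator h.meas]
  have h3 := h.gap (ce N x)
  rw [inter_comm] at h3
  simpa using h3

/-- The discrete one-step inequality. -/
lemma disc (h : Sb δ M G u) (N : ℕ) {t : ℝ} (ht : 0 < t) (i : ℤ) :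
    av N u i ≤ av N (G.indicator (1 : ℝ → ℝ)) i *
      (t + (1 + et t (1 / (2 * N + 1))) * cv (qk (t * (2 * N + 1))) (av N u) i) := by
  rw [← av_mul_const]
  apply av_mono h.ii
  · exact fun a b => (ii_ind h.meas a b).mul_const _
  · intro s hs
    by_cases hsG : s ∈ G
    · rw [indicator_of_mem hsG, Pi.one_apply, one_mul]
      exact (h.step t ht s).trans (add_le_add le_rfl (conv_le_cv ht h.cont h.nn h.le hs))
    · rw [indicator_of_notMem hsG, zero_mul, h.off s hsG]

end Sb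

end Pool.Agent.J4.H68.LV
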