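import Pool.Agent.J4.H68.LV.R9b
import Pool.Agent.J4.H68.LV.R8c

/-!
# The discrete supersolution
-/

set_option autoImplicit false

open MeasureTheory Set Filter Topology Real

namespace Pool.Agent.J4.H68.LV

/-- lower Riemann sum estimate -/
lemma cv_le_conv {N : ℕ} {t : ℝ} (ht : 0 < t) {f : ℝ → ℝ} (hf : Continuous f)
    (h0 : ∀ x, 0 ≤ f x) {M : ℝ} (hM : ∀ x, f x ≤ M) {ω : ℝ} (hω : 0 ≤ ω)
    (hmod : ∀ x y : ℝ, |x - y| ≤ 1 / (2 * N + 1) → f x ≤ f y + ω) (i : ℤ) :
    cv (qk (t * (2 * N + 1))) (fun y => f (y / (2 * N + 1))) i ≤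
      (1 + et t (1 / (2 * N + 1))) * ((∫ s, pk t (i / (2 * N + 1) - s) * f s) + ω) := by
  have hn : (0 : ℝ) < 2 * N + 1 := by positivity
  have habs : ∀ s, |f s| ≤ M := fun s => by rw [abs_of_nonneg (h0 s)]; exact hM s
  set x : ℝ := i / (2 * N + 1) with hxdef
  have hmid : ∀ y : ℤ, (y : ℝ) / (2 * N + 1) ∈ Icc (ce N y) (ce N (y + 1)) := by
    intro y
    rw [ce_succ, ce]
    constructor <;> apply div_le_div_of_nonneg_right _ hn.le <;> linarith
  have hi : Integrable fun s => pk t (x - s) * (f s + ω) := by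
    refine pk_mul_integrable (M := M + ω) ht x (hf.measurable.add_const ω) fun s => ?_
    rw [abs_of_nonneg (add_nonneg (h0 s) hω)]
    linarith [hM s]
  have h1 := hasSum_cells N hi
  have h2 := cv_summable (τ := t * (2 * N + 1)) (by positivity)
    (m := fun y : ℤ => f (y / (2 * N + 1))) (fun y => habs _) i
  have h3 : ∫ s, pk t (x - s) * (f s + ω) = (∫ s, pk t (x - s) * f s) + ω := by
    simp only [mul_add]
    rw [integral_add (pk_mul_integrable ht x hf.measurable habs)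
      ((pk_sub_integrable ht x).mul_const ω), integral_mul_const, pk_sub_integral ht, one_mul]
  rw [← h3, ← h1.tsum_eq, ← tsum_mul_left, cv_reindex]
  refine h2.tsum_le_tsum (fun j => ?_) (h1.summable.mul_left _)
  have h4 : qk (t * (2 * N + 1)) (i - j) * f (j / (2 * N + 1)) =
      ∫ _ in (ce N j)..(ce N (j + 1)), pk t (((i - j : ℤ) : ℝ) / (2 * N + 1)) *
        f (j / (2 * N + 1)) := by
    rw [intervalIntegral.integral_const, ce_len, smul_eq_mul, ← qk_scale N ht]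
    field_simp
  rw [h4, ← intervalIntegral.integral_const_mul]
  apply intervalIntegral.integral_mono_on (ce_lt N j).le
  · exact continuous_const.intervalIntegrable _ _
  · exact (hi.const_mul _).intervalIntegrable
  · intro s hs
    rw [← mul_assoc]
    have h5 : pk t (((i - j : ℤ) : ℝ) / (2 * N + 1)) ≤
        (1 + et t (1 / (2 * N + 1))) * pk t (x - s) := by
      apply pk_shift ht
      rw [abs_sub_comm]
      exact cell_dist (hmid i) hs
    have h6 : f (j / (2 * N + 1)) ≤ f s + ω := by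
      apply hmod
      have h7 := hmid j
      rw [abs_le]
      have h8 := ce_len N j
      constructor <;> linarith [hs.1, hs.2, h7.1, h7.2]
    exact mul_le_mul h5 h6 (h0 _) ((pk_nonneg ht.le _).trans h5)

lemma sp_abs_eq (i : ℕ) : |sp i| = (((i + 1) / 2 : ℕ) : ℤ) := by
  simp only [sp]
  split_ifs with h
  · rw [abs_of_nonpos (by omega)]; omega
  · rw [abs_of_nonneg (by omega)]

/-- the comparison sequence -/
noncomputable def vv (N : ℕ) (l b : ℝ) (x : ℤ) : ℝ := l * ue b (x / (2 * N + 1))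

lemma ue_abs (b x : ℝ) : ue b |x| = ue b x := by
  rcases abs_cases x with ⟨h, _⟩ | ⟨h, _⟩
  · rw [h]
  · rw [h, ue_even]

lemma ue_nonneg {b : ℝ} (hb0 : 0 < b) (hb : b < 1 / 2) (x : ℝ) : 0 ≤ ue b x :=
  (lev_UE hb0 hb).nonneg _

lemma ue_cont {b : ℝ} (hb0 : 0 < b) (hb : b < 1 / 2) : Continuous (ue b) :=
  (lev_UE hb0 hb).cont.comp Complex.continuous_ofReal

lemma ue_le_zero {b : ℝ} (hb0 : 0 < b) (hb : b < 1 / 2) (x : ℝ) : ue b x ≤ ue b 0 := by
  have hc := cpos hb0 hb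
  rw [ue_eq hb0 hb, ue_eq hb0 hb]
  apply mul_le_mul_of_nonneg_left _ (by positivity)
  rw [arcosh_le_arcosh (by positivity) (by positivity)]
  apply max_le_max le_rfl
  apply div_le_div_of_nonneg_right _ hc.le
  rw [mul_zero, cos_zero, abs_one]
  exact abs_cos_le_one _

lemma ue_unif {b : ℝ} (hb0 : 0 < b) (hb : b < 1 / 2) {ω : ℝ} (hω : 0 < ω) :
    ∃ ρ > 0, ∀ x y : ℝ, |x - y| ≤ ρ → ue b x ≤ ue b y + ω := by
  have h1 := (isCompact_Icc (a := (-1 : ℝ)) (b := 2)).uniformContinuousOn_of_continuous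
    (ue_cont hb0 hb).continuousOn
  rw [Metric.uniformContinuousOn_iff] at h1
  obtain ⟨ρ, hρ, h2⟩ := h1 ω hω
  refine ⟨min (ρ / 2) 1, by positivity, fun x y hxy => ?_⟩
  have e1 : ue b x = ue b (x - ⌊x⌋) := by
    have := ue_add_int b (x - ⌊x⌋) ⌊x⌋
    rw [sub_add_cancel] at this
    exact this
  have e2 : ue b y = ue b (y - ⌊x⌋) := by
    have := ue_add_int b (y - ⌊x⌋) ⌊x⌋
    rw [sub_add_cancel] at this
    exact this
  have h3 := Int.floor_le x
  have h4 := Int.lt_floor_add_one x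
  have h5 := hxy.trans (min_le_right _ _)
  have h6 := hxy.trans (min_le_left _ _)
  have h5' := abs_le.1 h5
  have h7 := h2 (x - ⌊x⌋) ⟨by linarith, by linarith⟩ (y - ⌊x⌋) ⟨by linarith, by linarith⟩ (by
    rw [Real.dist_eq]
    have : x - ⌊x⌋ - (y - ⌊x⌋) = x - y := by ring
    rw [this]
    linarith)
  rw [Real.dist_eq, abs_lt] at h7
  rw [e1, e2]
  linarith

lemma tendsto_mesh : Tendsto (fun N : ℕ => 1 / (2 * (N : ℝ) + 1)) atTop (𝓝 0) := by
  apply Tendsto.div_atTop tendsto_const_nhds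
  exact tendsto_atTop_add_const_right _ _
    (tendsto_natCast_atTop_atTop.const_mul_atTop (by norm_num))

lemma tendsto_et {t : ℝ} : Tendsto (fun N : ℕ => et t (1 / (2 * (N : ℝ) + 1))) atTop (𝓝 0) := by
  unfold et
  have h := tendsto_mesh
  have := (h.div_const t).add ((h.pow 2).div_const (t ^ 2))
  simpa using this

lemma et_nonneg {t h : ℝ} (ht : 0 < t) (hh : 0 ≤ h) : 0 ≤ et t h := by
  unfold et; positivity

/-- The discrete supersolution. -/
theorem supersol {b b₁ κ : ℝ} (hb0 : 0 < b) (hb : b < 1 / 2) (h10 : 0 ≤ b₁) (h1 : b₁ < b)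
    (hκ : 0 < κ) : ∃ t > 0, ∀ᶠ N : ℕ in atTop, ∀ i : ℤ, |(i : ℝ) / (2 * N + 1)| ≤ b₁ →
      t + (1 + et t (1 / (2 * N + 1))) * cv (qk (t * (2 * N + 1))) (vv N (1 + κ) b) i ≤
        (1 + κ) * ue b (i / (2 * N + 1)) := by
  obtain ⟨C, hC0, hC⟩ := UE_up hb0 hb h10 h1
  set l := 1 + κ with hl
  have hl0 : 0 < l := by positivity
  set t : ℝ := min 1 (κ / (3 * l * (C + 1))) with ht
  have ht0 : 0 < t := by positivity
  have ht1 : t ≤ 1 := min_le_left _ _
  have htC : l * C * t ^ 2 ≤ κ * t / 3 := by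
    have h2 : t ≤ κ / (3 * l * (C + 1)) := min_le_right _ _
    rw [le_div_iff₀ (by positivity)] at h2
    have h3 : l * C * t ≤ κ / 3 := by nlinarith [mul_pos hl0 ht0]
    calc l * C * t ^ 2 = (l * C * t) * t := by ring
      _ ≤ κ / 3 * t := mul_le_mul_of_nonneg_right h3 ht0.le
      _ = κ * t / 3 := by ring
  set ω : ℝ := min 1 (κ * t / 3) with hω
  have hω0 : 0 < ω := by positivity
  have hω1 : ω ≤ 1 := min_le_left _ _
  have hω2 : ω ≤ κ * t / 3 := min_le_right _ _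
  obtain ⟨ρ, hρ, hmod⟩ := ue_unif hb0 hb (ω := ω / l) (by positivity)
  set Z₁ : ℝ := l * (ue b 0 + C) + 1 with hZ₁
  have hu0 := ue_nonneg hb0 hb 0
  have hZ₁0 : 0 < Z₁ := by positivity
  refine ⟨t, ht0, ?_⟩
  have e1 : ∀ᶠ N : ℕ in atTop, 1 / (2 * (N : ℝ) + 1) < ρ :=
    tendsto_mesh.eventually (gt_mem_nhds hρ)
  have e2 : ∀ᶠ N : ℕ in atTop,
      ((1 + et t (1 / (2 * (N : ℝ) + 1))) ^ 2 - 1) * Z₁ < κ * t / 3 := by
    have h2 : Tendsto (fun N : ℕ => ((1 + et t (1 / (2 * (N : ℝ) + 1))) ^ 2 - 1) * Z₁) atTop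
        (𝓝 (((1 + 0) ^ 2 - 1) * Z₁)) :=
      (((tendsto_et.const_add 1).pow 2).sub_const 1).mul_const Z₁
    have h3 : ((1 + 0) ^ 2 - 1) * Z₁ = 0 := by ring
    rw [h3] at h2
    exact h2.eventually (gt_mem_nhds (by positivity))
  filter_upwards [e1, e2] with N hN1 hN2 i hi
  have hn : (0 : ℝ) < 2 * N + 1 := by positivity
  set η := et t (1 / (2 * (N : ℝ) + 1)) with hη
  have hη0 : 0 ≤ η := et_nonneg ht0 (by positivity)
  set x : ℝ := i / (2 * N + 1) with hx
  have hlev := lev_UE hb0 hb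
  have h2 := cv_le_conv (N := N) ht0 (f := fun x => l * ue b x)
    (continuous_const.mul (ue_cont hb0 hb)) (fun x => mul_nonneg hl0.le (ue_nonneg hb0 hb x))
    (M := l * ue b 0) (fun x => mul_le_mul_of_nonneg_left (ue_le_zero hb0 hb x) hl0.le)
    (ω := ω) hω0.le (fun x y hxy => by
      have := mul_le_mul_of_nonneg_left (hmod x y (hxy.trans hN1.le)) hl0.le
      rw [mul_add, mul_div_cancel₀ _ hl0.ne'] at this
      exact this) i
  have h3 : ∫ s, pk t (x - s) * (l * ue b s) = l * (UE b (x + t * Complex.I) - t) := by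
    obtain ⟨_, h4⟩ := hlev.rep2 x ht0
    have h5 : ∀ s : ℝ, pk t (x - s) * (l * ue b s) = l * (pk t (x - s) * UE b s) := fun s => by
      rw [ue]; ring
    simp only [h5]
    rw [integral_const_mul, h4]
    ring
  rw [← hx, h3] at h2
  have h4 := hC x t hi ht0.le ht1
  have h5 : cv (qk (t * (2 * N + 1))) (vv N l b) i ≤
      (1 + η) * (l * (ue b x + C * t ^ 2 - t) + ω) := by
    refine le_trans h2 ?_
    apply mul_le_mul_of_nonneg_left _ (by positivity)
    have := mul_le_mul_of_nonneg_left h4 hl0.le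
    linarith
  set Z := l * (ue b x + C * t ^ 2 - t) + ω with hZ
  have hZZ : Z ≤ Z₁ := by
    rw [hZ, hZ₁]
    have h6 := ue_le_zero hb0 hb x
    have h7 : C * t ^ 2 ≤ C := by
      have : t ^ 2 ≤ 1 := by nlinarith
      nlinarith
    have h8 : ue b x + C * t ^ 2 - t ≤ ue b 0 + C := by linarith
    have := mul_le_mul_of_nonneg_left h8 hl0.le
    linarith
  have h6 : (1 + η) * cv (qk (t * (2 * N + 1))) (vv N l b) i ≤ (1 + η) ^ 2 * Z := by
    have := mul_le_mul_of_nonneg_left h5 (by positivity : 0 ≤ 1 + η)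
    calc _ ≤ (1 + η) * ((1 + η) * Z) := this
      _ = _ := by ring
  have h7 : (1 + η) ^ 2 * Z ≤ Z + ((1 + η) ^ 2 - 1) * Z₁ := by
    have h8 : 0 ≤ (1 + η) ^ 2 - 1 := by nlinarith
    have := mul_le_mul_of_nonneg_left hZZ h8
    linarith
  have h8 : Z = l * ue b x + l * C * t ^ 2 - l * t + ω := by rw [hZ]; ring
  have h9 : l * t = t + κ * t := by rw [hl]; ring
  linarith

end Pool.Agent.J4.H68.LV
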