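import Pool.Agent.J4.H68.LV.R9c

/-!
# Window majorization and the sharp bound
-/

set_option autoImplicit false

open MeasureTheory Set Filter Topology Real

namespace Pool.Agent.J4.H68.LV

lemma vv_sp {N : ℕ} {l b : ℝ} (i : ℕ) :
    vv N l b (sp i) = l * ue b ((((i + 1) / 2 : ℕ) : ℝ) / (2 * N + 1)) := by
  have hn : (0 : ℝ) < 2 * N + 1 := by positivity
  rw [vv, ← ue_abs, abs_div, abs_of_pos hn]
  congr 3
  have := sp_abs_eq i
  have h2 : ((|sp i| : ℤ) : ℝ) = (((i + 1) / 2 : ℕ) : ℝ) := by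
    rw [this, Int.cast_natCast]
  rw [← h2]
  simp

lemma vv_anti {N : ℕ} {l b : ℝ} (hl : 0 ≤ l) (hb0 : 0 < b) (hb : b < 1 / 2) :
    ∀ i, i + 1 < 2 * N + 1 → vv N l b (sp (i + 1)) ≤ vv N l b (sp i) := by
  intro i hi
  have hn : (0 : ℝ) < 2 * N + 1 := by positivity
  rw [vv_sp, vv_sp]
  apply mul_le_mul_of_nonneg_left _ hl
  apply ue_anti hb0 hb (by positivity)
  · apply div_le_div_of_nonneg_right _ hn.le
    exact_mod_cast Nat.div_le_div_right (by omega)
  · rw [div_le_div_iff₀ hn (by norm_num)]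
    have : (i + 1 + 1) / 2 ≤ N := by omega
    have h2 : (((i + 1 + 1) / 2 : ℕ) : ℝ) ≤ N := by exact_mod_cast this
    linarith

lemma vv_nonneg {N : ℕ} {l b : ℝ} (hl : 0 ≤ l) (hb0 : 0 < b) (hb : b < 1 / 2) (x : ℤ) :
    0 ≤ vv N l b x := mul_nonneg hl (ue_nonneg hb0 hb _)

lemma vv_periodic (N : ℕ) (l b : ℝ) (x : ℤ) : vv N l b (x + (2 * N + 1)) = vv N l b x := by
  have hn : (2 * (N : ℝ) + 1) ≠ 0 := by positivity
  rw [vv, vv]
  congr 1
  have : ((x + (2 * N + 1) : ℤ) : ℝ) / (2 * N + 1) = (x : ℝ) / (2 * N + 1) + 1 := by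
    push_cast
    field_simp
  rw [this, ue_add_one]

/-- **Window majorization.** -/
theorem window_major {δ M : ℝ} {G : Set ℝ} {u : ℝ → ℝ} (h : Sb δ M G u) (hδ1 : δ < 1)
    {b κ : ℝ} (hab : (1 - δ) / 2 < b) (hb : b < 1 / 2) (hκ : 0 < κ) :
    ∀ᶠ N : ℕ in atTop, ∀ x : ℤ, ∀ B ⊆ Finset.Icc x (x + 2 * N),
      ∑ y ∈ B, av N u y ≤ PF (fun i => vv N (1 + κ) b (sp i)) B.card := by
  have hb0 : 0 < b := by linarith
  set b₁ := ((1 - δ) / 2 + b) / 2 with hb₁
  obtain ⟨t, ht, hsup⟩ := supersol hb0 hb (b₁ := b₁) (by linarith) (by linarith) hκ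
  have e1 : ∀ᶠ N : ℕ in atTop, 1 / (2 * (N : ℝ) + 1) < 2 * (b₁ - (1 - δ) / 2) :=
    tendsto_mesh.eventually (gt_mem_nhds (by linarith))
  filter_upwards [hsup, e1] with N hN hN1 x B hB
  have hn : (0 : ℝ) < 2 * N + 1 := by positivity
  set Γ : ℕ := ⌈(2 * (N : ℝ) + 1) * (1 - δ)⌉₊ with hΓ
  have hΓ1 : (2 * (N : ℝ) + 1) * (1 - δ) ≤ Γ := Nat.le_ceil _
  have hΓ2 : (Γ : ℝ) < (2 * (N : ℝ) + 1) * (1 - δ) + 1 := Nat.ceil_lt_add_one (by
    have : 0 < 1 - δ := by linarith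
    positivity)
  have hη : 0 ≤ et t (1 / (2 * (N : ℝ) + 1)) := et_nonneg ht (by positivity)
  refine disc_main (N := N) (q := qk (t * (2 * N + 1))) (qk_ker (by positivity)) (PP_anti ht) ht
    hη (m := av N u) (γ := av N (G.indicator (1 : ℝ → ℝ))) (M := M) (h.av_nn N) (h.av_le N)
    (Sb.gm_nn G N) (h.gm_le N) (Γ := Γ) (fun x => (h.window N x).trans hΓ1) (h.disc N ht)
    (w := fun i => vv N (1 + κ) b (sp i)) (vv_anti (by positivity) hb0 hb)
    (fun i _ => vv_nonneg (by positivity) hb0 hb _) (v := vv N (1 + κ) b) (vv_periodic N _ _)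
    (fun i _ => rfl) ?_ x B hB
  intro i hi
  apply hN
  rw [abs_div, abs_of_pos hn, div_le_iff₀ hn]
  have h1 : |((sp i : ℤ) : ℝ)| ≤ ((i : ℝ) + 1) / 2 := by
    have := sp_abs_eq i
    have h2 : ((|sp i| : ℤ) : ℝ) = (((i + 1) / 2 : ℕ) : ℝ) := by rw [this, Int.cast_natCast]
    push_cast at h2
    rw [h2]
    have h3 : ((i + 1) / 2) * 2 ≤ i + 1 := Nat.div_mul_le_self _ _
    have h4 : ((((i + 1) / 2) * 2 : ℕ) : ℝ) ≤ ((i + 1 : ℕ) : ℝ) := by exact_mod_cast h3
    push_cast at h4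
    linarith
  have h2 : (i : ℝ) + 1 ≤ Γ := by exact_mod_cast hi
  have h3 : 1 < 2 * (b₁ - (1 - δ) / 2) * (2 * N + 1) := by
    rwa [div_lt_iff₀ hn] at hN1
  nlinarith

lemma av_zero_tendsto {u : ℝ → ℝ} (hu : Continuous u) :
    Tendsto (fun N : ℕ => av N u 0) atTop (𝓝 (u 0)) := by
  rw [Metric.tendsto_atTop]
  intro ω hω
  obtain ⟨ρ, hρ, h1⟩ := Metric.continuousAt_iff.1 (hu.continuousAt (x := 0)) (ω / 2) (by positivity)
  obtain ⟨N₀, hN₀⟩ := (Filter.eventually_atTop.1 (tendsto_mesh.eventually (gt_mem_nhds hρ)))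
  refine ⟨N₀, fun N hN => ?_⟩
  have hn : (0 : ℝ) < 2 * N + 1 := by positivity
  have h2 := hN₀ N hN
  have h3 : ∀ s ∈ Icc (ce N 0) (ce N (0 + 1)), |u s - u 0| ≤ ω / 2 := by
    intro s hs
    have h4 : dist s 0 < ρ := by
      rw [Real.dist_eq, sub_zero]
      refine lt_of_le_of_lt ?_ h2
      rw [ce_succ, ce] at hs
      rw [abs_le]
      have h5 := (div_le_iff₀ hn).1 hs.1
      have h6 := (le_div_iff₀ hn).1 hs.2
      push_cast at h5 h6
      constructor
      · rw [neg_le, ← mul_le_mul_iff_left₀ hn, div_mul_cancel₀ _ hn.ne']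
        linarith
      · rw [le_div_iff₀ hn]
        linarith
    have := h1 h4
    rw [Real.dist_eq] at this
    exact this.le
  have hi : ∀ a b, IntervalIntegrable u volume a b := fun a b => hu.intervalIntegrable a b
  have hc : ∀ c : ℝ, ∀ a b, IntervalIntegrable (fun _ : ℝ => c) volume a b := fun c a b =>
    continuous_const.intervalIntegrable a b
  have h5 := av_mono (N := N) (y := 0) hi (hc (u 0 + ω / 2)) fun s hs => by
    have := (abs_le.1 (h3 s hs)).2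
    linarith
  have h6 := av_mono (N := N) (y := 0) (hc (u 0 - ω / 2)) hi fun s hs => by
    have := (abs_le.1 (h3 s hs)).1
    linarith
  rw [av_const] at h5 h6
  rw [Real.dist_eq, abs_lt]
  constructor <;> linarith

/-- **The sharp bound** for the boundary values, at the origin. -/
theorem sharp_zero {δ M : ℝ} {G : Set ℝ} {u : ℝ → ℝ} (h : Sb δ M G u) (hδ0 : 0 < δ)
    (hδ1 : δ < 1) : u 0 ≤ ue ((1 - δ) / 2) 0 := by
  set a := (1 - δ) / 2 with ha
  have ha0 : 0 < a := by rw [ha]; linarith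
  have ha1 : a < 1 / 2 := by rw [ha]; linarith
  have step : ∀ b κ : ℝ, a < b → b < 1 / 2 → 0 < κ → u 0 ≤ (1 + κ) * ue b 0 := by
    intro b κ hab hb hκ
    refine le_of_tendsto (av_zero_tendsto h.cont) ?_
    filter_upwards [window_major h hδ1 hab hb hκ] with N hN
    have h1 := hN 0 {0} (by
      intro y hy
      rw [Finset.mem_singleton] at hy
      subst hy
      simp)
    rw [Finset.sum_singleton, Finset.card_singleton, PF, Finset.sum_range_one] at h1
    refine h1.trans (le_of_eq ?_)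
    simp [vv, sp]
  have step2 : ∀ b : ℝ, a < b → b < 1 / 2 → u 0 ≤ ue b 0 := by
    intro b hab hb
    have h1 : Tendsto (fun κ : ℝ => (1 + κ) * ue b 0) (𝓝[>] 0) (𝓝 ((1 + 0) * ue b 0)) := by
      apply Tendsto.mono_left _ nhdsWithin_le_nhds
      apply Continuous.tendsto
      fun_prop
    rw [add_zero, one_mul] at h1
    refine ge_of_tendsto h1 ?_
    filter_upwards [self_mem_nhdsWithin] with κ hκ
    exact step b κ hab hb hκ
  have h2 : Tendsto (fun b : ℝ => π⁻¹ * arcosh (cos (π * b))⁻¹) (𝓝[>] a)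
      (𝓝 (π⁻¹ * arcosh (cos (π * a))⁻¹)) := by
    apply Tendsto.mono_left _ nhdsWithin_le_nhds
    apply Tendsto.const_mul
    have hc := cpos ha0 ha1
    have h3 : ContinuousAt arcosh (cos (π * a))⁻¹ := by
      apply (differentiableAt_arcosh ?_).continuousAt
      exact (one_lt_inv₀ hc).2 (clt ha0 ha1)
    refine h3.tendsto.comp ?_
    apply Tendsto.inv₀ _ hc.ne'
    apply Continuous.tendsto
    fun_prop
  rw [ue_zero ha0 ha1]
  refine ge_of_tendsto h2 ?_
  have h4 : ∀ᶠ b in 𝓝[>] a, b < 1 / 2 := by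
    apply Filter.Eventually.filter_mono nhdsWithin_le_nhds
    exact gt_mem_nhds ha1
  filter_upwards [self_mem_nhdsWithin, h4] with b hb1 hb2
  have hb1' : a < b := hb1
  rw [← ue_zero (ha0.trans hb1') hb2]
  exact step2 b hb1' hb2

end Pool.Agent.J4.H68.LV
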